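import Pool.Agent.Lib_helper7.GNF.D2
import Pool.Agent.Lib_helper72.GEN.M

set_option autoImplicit false

namespace Pool.Agent.GNF

open Finset Pool.Agent.GEN

theorem eq_box (x : ℤ) (n : ℕ) (h : x ^ 2 ≤ n) : -(n : ℤ) ≤ x ∧ x ≤ n := by
  constructor
  · by_contra hx
    nlinarith
  · by_contra hx
    nlinarith

theorem eq_mem_sph (n : ℕ) (v : T) :
    v ∈ sph n ↔ v.1 ^ 2 + v.2.1 ^ 2 + v.2.2 ^ 2 = n := by
  unfold sph
  rw [Finset.mem_filter]
  have e : dot v v = v.1 ^ 2 + v.2.1 ^ 2 + v.2.2 ^ 2 := by unfold dot; ring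
  rw [e]
  constructor
  · exact fun h => h.2
  · intro h
    refine ⟨?_, h⟩
    obtain ⟨a1, a2⟩ := eq_box v.1 n (by nlinarith [sq_nonneg v.2.1, sq_nonneg v.2.2])
    obtain ⟨b1, b2⟩ := eq_box v.2.1 n (by nlinarith [sq_nonneg v.1, sq_nonneg v.2.2])
    obtain ⟨c1, c2⟩ := eq_box v.2.2 n (by nlinarith [sq_nonneg v.2.1, sq_nonneg v.1])
    simp only [Finset.mem_product, Finset.mem_Icc]
    exact ⟨⟨a1, a2⟩, ⟨b1, b2⟩, ⟨c1, c2⟩⟩

theorem eq_mem_OP (n : ℕ) (v : T) : v ∈ OP n ↔ OmP n v := by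
  unfold OP OmP
  rw [Finset.mem_filter, eq_mem_sph]

theorem eq_mem_OQ (n : ℕ) (v : T) : v ∈ OQ n ↔
    v.1 ^ 2 + v.2.1 ^ 2 + v.2.2 ^ 2 = n ∧ (v.1 % 4 = 1 ∧ v.2.1 % 4 = 0 ∧ v.2.2 % 4 = 0) := by
  unfold OQ
  rw [Finset.mem_filter, eq_mem_sph]

/-- size of a genus, `n = 3 mod 8` -/
theorem EQ3 (n : ℕ) [NeZero n] (hs : Squarefree n) (h3 : n % 8 = 3) (w : T) (hw : w ∈ OP n)
    (e : ℕ → ℤ) (he : ∀ p, e p = 1 ∨ e p = -1) (hprod : ∏ p ∈ n.primeFactors, e p = 1) :
    ((OP n).filter (fun v => ∀ p ∈ n.primeFactors, chi p v w = e p)).card *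
      2 ^ (n.primeFactors.card - 1) = 4 * Nat.card (ClassGroup (Zsqrtd (-(n : ℤ)))) := by
  rw [← genus_card n hs h3 ((eq_mem_OP n w).1 hw) e (fun p _ => he p) hprod]
  congr 1
  rw [← Set.ncard_coe_finset]
  congr 1
  ext v
  rw [Finset.mem_coe, Finset.mem_filter, eq_mem_OP]
  rfl

theorem eq_card_gauss : Nat.card (ClassGroup (Zsqrtd (-((1 : ℕ) : ℤ)))) = 1 := by
  have h1 : IsPrincipalIdealRing (Zsqrtd (-((1 : ℕ) : ℤ))) :=
    (inferInstance : IsPrincipalIdealRing GaussianInt)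
  have : Unique (ClassGroup (Zsqrtd (-((1 : ℕ) : ℤ)))) := by
    refine ⟨⟨1⟩, fun C => ?_⟩
    refine ClassGroup.induction (R := Zsqrtd (-((1 : ℕ) : ℤ)))
      (FractionRing (Zsqrtd (-((1 : ℕ) : ℤ)))) (fun u => ?_) C
    exact (ClassGroup.mk_eq_one_iff).2 inferInstance
  exact Nat.card_unique

theorem eq_flip_chi {n : ℕ} (hs : Squarefree n) (h1 : n % 8 = 1) {v w : T}
    (hv : v.1 ^ 2 + v.2.1 ^ 2 + v.2.2 ^ 2 = n) (hvo : v.1 % 2 = 1)
    (hw : w.1 ^ 2 + w.2.1 ^ 2 + w.2.2 ^ 2 = n) {p : ℕ} (hp : p ∈ n.primeFactors) :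
    chi p (flv 2 v) w = chi p v w := by
  have : Fact p.Prime := ⟨Nat.prime_of_mem_primeFactors hp⟩
  have hq : GEN.OmQ n v := ⟨hv, hvo⟩
  have h2 := flv_chiQ hs (by omega) hq 2 Fact.out (Nat.dvd_of_mem_primeFactors hp)
  rw [← chi_trans (pf_ne_two (by omega) hp) (norm_iso hs (flvQ hq 2).1 hp) (norm_iso hs hv hp)
    (norm_iso hs hw hp), h2, one_mul]

theorem eq_shape (v : T) (hk : GEN.kap v = 1) (h8 : (v.1 ^ 2 + v.2.1 ^ 2 + v.2.2 ^ 2) % 8 = 1)
    (hv : v.1 % 2 = 1) : v.2.1 % 4 = 0 ∧ v.2.2 % 4 = 0 := by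
  unfold GEN.kap at hk
  have h6 := sh_cases v h8
  unfold Sh1 GEN.cyc at h6
  by_cases h9 : v.1 % 4 = 2 ∨ v.2.1 % 4 = 2 ∨ v.2.2 % 4 = 2
  · rw [if_pos h9] at hk
    norm_num at hk
  · simp only at h6
    rcases h6 with h6 | h6 | h6
    · omega
    · exfalso; omega
    · exfalso; omega

/-- size of a genus, `n = 1 mod 8` -/
theorem eq1_all (n : ℕ) [NeZero n] (hs : Squarefree n) (h1 : n % 8 = 1) (w : T) (hw : w ∈ OQ n)
    (e : ℕ → ℤ) (he : ∀ p, e p = 1 ∨ e p = -1) (hprod : ∏ p ∈ n.primeFactors, e p = 1) :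
    ((OQ n).filter (fun v => ∀ p ∈ n.primeFactors, chi p v w = e p)).card *
      2 ^ (n.primeFactors.card - 1) = Nat.card (ClassGroup (Zsqrtd (-(n : ℤ)))) := by
  classical
  rcases (by omega : n = 1 ∨ 1 < n) with rfl | hn
  · rw [eq_card_gauss]
    have hs1 : ((OQ 1).filter (fun v => ∀ p ∈ (1 : ℕ).primeFactors, chi p v w = e p)) =
        {((1 : ℤ), (0 : ℤ), (0 : ℤ))} := by
      ext ⟨x, y, z⟩
      rw [Finset.mem_filter, eq_mem_OQ, Finset.mem_singleton]
      constructor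
      · rintro ⟨⟨h2, h3, h4, h5⟩, -⟩
        simp only at h2 h3 h4 h5
        have e1 : y = 0 := by
          by_contra hy
          have : 1 ≤ y ^ 2 := by
            rcases lt_or_gt_of_ne hy with h | h <;> nlinarith
          have hx : 1 ≤ x ^ 2 := by
            rcases lt_or_gt_of_ne (show x ≠ 0 by omega) with h | h <;> nlinarith
          push_cast at h2
          nlinarith [sq_nonneg z]
        have e2 : z = 0 := by
          by_contra hz
          have : 1 ≤ z ^ 2 := by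
            rcases lt_or_gt_of_ne hz with h | h <;> nlinarith
          have hx : 1 ≤ x ^ 2 := by
            rcases lt_or_gt_of_ne (show x ≠ 0 by omega) with h | h <;> nlinarith
          push_cast at h2
          nlinarith [sq_nonneg y]
        have e3 : x = 1 := by
          rw [e1, e2] at h2
          push_cast at h2
          have h6 : (x - 1) * (x + 1) = 0 := by linarith
          rcases mul_eq_zero.1 h6 with h7 | h7 <;> omega
        rw [e1, e2, e3]
      · intro h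
        obtain ⟨rfl, rfl, rfl⟩ : x = 1 ∧ y = 0 ∧ z = 0 := by
          simpa using h
        refine ⟨by norm_num, ?_⟩
        intro p hp
        simp at hp
    rw [hs1]
    simp
  · obtain ⟨w1, w2, w3, w4⟩ := (eq_mem_OQ n w).1 hw
    have hkw : GEN.kap w = 1 := by
      unfold GEN.kap
      rw [if_neg]
      omega
    have hG := genus_cardQ n hs h1 hn w1 e (fun p _ => he p)
    set F := (OQ n).filter (fun v => ∀ p ∈ n.primeFactors, chi p v w = e p) with hF
    have hset : {v : ℤ × ℤ × ℤ | GEN.OmQ n v ∧ ∀ p ∈ n.primeFactors, chi p v w = e p} =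
        ((F ∪ F.image (flv 2) : Finset T) : Set T) := by
      ext v
      rw [Finset.mem_coe, Finset.mem_union, Finset.mem_image]
      constructor
      · rintro ⟨⟨h2, h3⟩, h4⟩
        have h5 := recip_one hs h1 h2 w1
        rw [Finset.prod_congr rfl h4, hprod, hkw, mul_one] at h5
        have h7 := eq_shape v h5.symm (by rw [h2]; omega) h3
        rcases (by omega : v.1 % 4 = 1 ∨ v.1 % 4 = 3) with h8 | h8
        · left
          rw [hF, Finset.mem_filter, eq_mem_OQ]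
          exact ⟨⟨h2, h8, h7.1, h7.2⟩, h4⟩
        · right
          refine ⟨flv 2 v, ?_, flv_flv 2 v⟩
          rw [hF, Finset.mem_filter, eq_mem_OQ]
          have hq : GEN.OmQ n v := ⟨h2, h3⟩
          refine ⟨⟨(flvQ hq 2).1, ?_, ?_, ?_⟩, ?_⟩
          · show (TM32.s1 2 * v.1) % 4 = 1
            have : TM32.s1 2 = -1 := rfl
            rw [this]; omega
          · show (TM32.s2 2 * v.2.1) % 4 = 0
            have : TM32.s2 2 = 1 := rfl
            rw [this]; omega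
          · show (TM32.s3 2 * v.2.2) % 4 = 0
            have : TM32.s3 2 = -1 := rfl
            rw [this]; omega
          · intro p hp
            rw [eq_flip_chi hs h1 h2 h3 w1 hp]
            exact h4 p hp
      · rintro (h | ⟨x, hx, rfl⟩)
        · rw [hF, Finset.mem_filter, eq_mem_OQ] at h
          exact ⟨⟨h.1.1, by omega⟩, h.2⟩
        · rw [hF, Finset.mem_filter, eq_mem_OQ] at hx
          have hq : GEN.OmQ n x := ⟨hx.1.1, by omega⟩
          refine ⟨flvQ hq 2, ?_⟩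
          intro p hp
          rw [eq_flip_chi hs h1 hq.1 hq.2 w1 hp]
          exact hx.2 p hp
    have hdisj : Disjoint F (F.image (flv 2)) := by
      rw [Finset.disjoint_left]
      intro v hv hv'
      obtain ⟨x, hx, rfl⟩ := Finset.mem_image.1 hv'
      rw [hF, Finset.mem_filter, eq_mem_OQ] at hv hx
      have h2 : (flv 2 x).1 % 4 = 1 := hv.1.2.1
      have h3 : (TM32.s1 2 * x.1) % 4 = 1 := h2
      have : TM32.s1 2 = -1 := rfl
      rw [this] at h3
      omega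
    have hinj : Function.Injective (flv 2) := fun x y h => by
      rw [← flv_flv 2 x, h, flv_flv]
    rw [hset, Set.ncard_coe_finset, Finset.card_union_of_disjoint hdisj,
      Finset.card_image_of_injective _ hinj] at hG
    have hPne : n.primeFactors.Nonempty := by
      rw [Nat.nonempty_primeFactors]; exact hn
    have h3 : n.primeFactors.card = (n.primeFactors.card - 1) + 1 := by
      have := hPne.card_pos
      omega
    rw [h3, pow_succ] at hG
    have : (F.card + F.card) * (2 ^ (n.primeFactors.card - 1) * 2) =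
      4 * (F.card * 2 ^ (n.primeFactors.card - 1)) := by ring
    rw [this] at hG
    omega

theorem EQ1 (n : ℕ) [NeZero n] (hn : 1 < n) (hs : Squarefree n) (h1 : n % 8 = 1) (w : T) (hw : w ∈ OQ n)
    (e : ℕ → ℤ) (he : ∀ p, e p = 1 ∨ e p = -1) (hprod : ∏ p ∈ n.primeFactors, e p = 1) :
    ((OQ n).filter (fun v => ∀ p ∈ n.primeFactors, chi p v w = e p)).card *
      2 ^ (n.primeFactors.card - 1) = Nat.card (ClassGroup (Zsqrtd (-(n : ℤ)))) := by
  have := hn
  exact eq1_all n hs h1 w hw e he hprod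

theorem OP_nonempty (n : ℕ) (hs : Squarefree n) (h3 : n % 8 = 3) : (OP n).Nonempty := by
  obtain ⟨x, y, z, hxyz⟩ := Lib_helper47.G3.three_squares (n := n) (by omega)
  have ox := TM32.om_odd3 h3 x y z hxyz
  have oy := TM32.om_odd3 h3 y x z (by rw [← hxyz]; ring)
  have oz := TM32.om_odd3 h3 z x y (by rw [← hxyz]; ring)
  have h4 := TM32.odd_mul' _ _ (TM32.odd_mul' _ _ ox oy) oz
  rcases (by omega : (x * y * z) % 4 = 1 ∨ (x * y * z) % 4 = 3) with h | h
  · exact ⟨(x, y, z), (eq_mem_OP n _).2 ⟨hxyz, h⟩⟩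
  · refine ⟨(-x, y, z), (eq_mem_OP n _).2 ⟨?_, ?_⟩⟩
    · show (-x) ^ 2 + y ^ 2 + z ^ 2 = (n : ℤ)
      rw [← hxyz]; ring
    · show (-x * y * z) % 4 = 1
      have e : -x * y * z = -(x * y * z) := by ring
      rw [e]; omega

theorem OQ_nonempty (n : ℕ) (hs : Squarefree n) (h1 : n % 8 = 1) : (OQ n).Nonempty := by
  classical
  rcases (by omega : n = 1 ∨ 1 < n) with rfl | hn
  · exact ⟨(1, 0, 0), (eq_mem_OQ 1 _).2 ⟨by norm_num, by norm_num⟩⟩
  have : NeZero n := ⟨by omega⟩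
  obtain ⟨x, y, z, hxyz⟩ := Lib_helper47.G3.three_squares (n := n) (by omega)
  set v0 : T := (x, y, z) with hv0
  have hv0n : v0.1 ^ 2 + v0.2.1 ^ 2 + v0.2.2 ^ 2 = n := hxyz
  obtain ⟨w0, hw0⟩ := exists_omQ h1 hv0n
  have hcard := omQ_card n hs h1 hn hw0
  have hpos : 0 < Nat.card (ClassGroup (Zsqrtd (-(n : ℤ)))) := by
    have h2 : 0 < {v : ℤ × ℤ × ℤ | GEN.OmQ n v}.ncard :=
      (Set.ncard_pos (omQ_finite n)).2 ⟨w0, hw0⟩
    omega
  have hPne : n.primeFactors.Nonempty := by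
    rw [Nat.nonempty_primeFactors]; exact hn
  obtain ⟨q, hq⟩ := hPne
  have hkv : GEN.kap v0 = 1 ∨ GEN.kap v0 = -1 := by
    unfold GEN.kap; split_ifs <;> simp
  set e : ℕ → ℤ := fun p => if p = q then GEN.kap v0 else 1 with he
  have hG := genus_cardQ n hs h1 hn hv0n e (by
    intro p _
    rw [he]
    show (if p = q then GEN.kap v0 else 1) = 1 ∨ (if p = q then GEN.kap v0 else 1) = -1
    split_ifs
    · exact hkv
    · left; rfl)
  have hprod : ∏ p ∈ n.primeFactors, e p = GEN.kap v0 := by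
    rw [he, Finset.prod_ite_eq' n.primeFactors q (fun _ => GEN.kap v0), if_pos hq]
  have hne : {v : ℤ × ℤ × ℤ | GEN.OmQ n v ∧ ∀ p ∈ n.primeFactors, chi p v v0 = e p}.Nonempty := by
    by_contra hne
    rw [Set.not_nonempty_iff_eq_empty.1 hne, Set.ncard_empty, zero_mul] at hG
    omega
  obtain ⟨v, ⟨h2, h3⟩, h4⟩ := hne
  have h5 := recip_one hs h1 h2 hv0n
  rw [Finset.prod_congr rfl h4, hprod] at h5
  have h5' : GEN.kap v = 1 := by
    rcases hkv with h | h <;> rw [h] at h5 <;> linarith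
  have h7 := eq_shape v h5' (by rw [h2]; omega) h3
  rcases (by omega : v.1 % 4 = 1 ∨ v.1 % 4 = 3) with h8 | h8
  · exact ⟨v, (eq_mem_OQ n v).2 ⟨h2, h8, h7.1, h7.2⟩⟩
  · refine ⟨(-v.1, v.2.1, v.2.2), (eq_mem_OQ n _).2 ⟨?_, ?_, h7.1, h7.2⟩⟩
    · show (-v.1) ^ 2 + v.2.1 ^ 2 + v.2.2 ^ 2 = (n : ℤ)
      rw [← h2]; ring
    · show (-v.1) % 4 = 1
      omega

end Pool.Agent.GNF
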