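import Pool.Agent.Lib_helper7.GNF.D2
import Pool.Agent.Lib_helper72.GEN.P
import Pool.Agent.Lib_helper47.G3.ThreeSq

set_option autoImplicit false

namespace Pool.Agent.GNF

open Finset Pool.Agent.GEN

theorem ka_norm {d : ℕ} {u : T} (hu : dot u u = d) : u.1 ^ 2 + u.2.1 ^ 2 + u.2.2 ^ 2 = d := by
  rw [← hu]; unfold dot; ring

theorem base_exists (d : ℕ) (h8 : d % 8 = 1) : ∃ u : T, dot u u = d := by
  obtain ⟨x, y, z, h⟩ := Lib_helper47.G3.three_squares (n := d) (by omega)
  exact ⟨(x, y, z), by rw [← h]; unfold dot; ring⟩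

theorem base_iso (d : ℕ) (hs : Squarefree d) (u : T) (hu : dot u u = d) (p : ℕ)
    (hp : p ∈ d.primeFactors) : Iso p u := norm_iso hs (ka_norm hu) hp

theorem ka_Psi {d : ℕ} {u v : T} (hv : ∀ p ∈ d.primeFactors, Iso p v) :
    Psi d u v = ∏ p ∈ d.primeFactors, chi p v u := by
  unfold Psi
  apply Finset.prod_congr rfl
  intro p hp
  unfold psi
  rw [if_pos (hv p hp)]

theorem ka_Psi0 {d : ℕ} {u v : T} {p : ℕ} (hp : p ∈ d.primeFactors) (hv : ¬ Iso p v) :
    Psi d u v = 0 := by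
  unfold Psi
  apply Finset.prod_eq_zero hp
  unfold psi
  rw [if_neg hv]

theorem kap_eq (d : ℕ) (hs : Squarefree d) (h8 : d % 8 = 1) (u : T) (hu : dot u u = d)
    (v : T) : kap d v = Pool.Agent.GEN.kap u * Psi d u v := by
  have hex : ∃ u : T, dot u u = d := ⟨u, hu⟩
  unfold kap
  rw [dif_pos hex]
  have h0 : dot hex.choose hex.choose = d := hex.choose_spec
  generalize hex.choose = u0 at h0 ⊢
  by_cases hv : ∀ p ∈ d.primeFactors, Iso p v
  · rw [ka_Psi hv, ka_Psi hv]
    have h1 := recip_one hs h8 (ka_norm hu) (ka_norm h0)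
    have h2 : ∏ p ∈ d.primeFactors, chi p v u0 = (∏ p ∈ d.primeFactors, chi p v u) *
        ∏ p ∈ d.primeFactors, chi p u u0 := by
      rw [← Finset.prod_mul_distrib]
      apply Finset.prod_congr rfl
      intro p hp
      have : Fact p.Prime := ⟨Nat.prime_of_mem_primeFactors hp⟩
      exact (chi_trans (pf_ne_two (by omega) hp) (hv p hp) (base_iso d hs u hu p hp)
        (base_iso d hs u0 h0 p hp)).symm
    have h3 := kap_sq u0
    rw [h2, h1]
    calc Pool.Agent.GEN.kap u0 * ((∏ p ∈ d.primeFactors, chi p v u) *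
          (Pool.Agent.GEN.kap u * Pool.Agent.GEN.kap u0))
        = (Pool.Agent.GEN.kap u0 * Pool.Agent.GEN.kap u0) *
          (Pool.Agent.GEN.kap u * ∏ p ∈ d.primeFactors, chi p v u) := by ring
      _ = _ := by rw [h3, one_mul]
  · push Not at hv
    obtain ⟨p, hp, hv⟩ := hv
    rw [ka_Psi0 hp hv, ka_Psi0 hp hv, mul_zero, mul_zero]

theorem kap_self (d : ℕ) (hs : Squarefree d) (h8 : d % 8 = 1) (v : T) (hv : dot v v = d) :
    kap d v = Pool.Agent.GEN.kap v := by
  rw [kap_eq d hs h8 v hv, ka_Psi (base_iso d hs v hv), Finset.prod_eq_one, mul_one]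
  intro p hp
  have : Fact p.Prime := ⟨Nat.prime_of_mem_primeFactors hp⟩
  exact chi_self (base_iso d hs v hv p hp)

theorem ka_pm (u : T) : Pool.Agent.GEN.kap u = 1 ∨ Pool.Agent.GEN.kap u = -1 := by
  unfold Pool.Agent.GEN.kap; split_ifs <;> simp

theorem ka_prod_pm (S : Finset ℕ) (f : ℕ → ℤ) (h : ∀ p ∈ S, f p = 1 ∨ f p = -1) :
    ∏ p ∈ S, f p = 1 ∨ ∏ p ∈ S, f p = -1 := by
  induction S using Finset.induction_on with
  | empty => left; simp
  | insert a S ha ih =>
    rw [Finset.prod_insert ha]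
    rcases h a (Finset.mem_insert_self _ _) with h1 | h1 <;>
    rcases ih (fun p hp => h p (Finset.mem_insert_of_mem hp)) with h' | h' <;>
    rw [h1, h'] <;> norm_num

theorem kap_pm (d : ℕ) (hs : Squarefree d) (h8 : d % 8 = 1) (v : T)
    (hv : ∀ p ∈ d.primeFactors, Iso p v) : kap d v = 1 ∨ kap d v = -1 := by
  obtain ⟨u, hu⟩ := base_exists d h8
  rw [kap_eq d hs h8 u hu, ka_Psi hv]
  rcases ka_pm u with h1 | h1 <;>
  rcases ka_prod_pm d.primeFactors (fun p => chi p v u) (fun p hp => by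
    have : Fact p.Prime := ⟨Nat.prime_of_mem_primeFactors hp⟩
    exact chi_pm (pf_ne_two (by omega) hp) (hv p hp) (base_iso d hs u hu p hp)) with h2 | h2 <;>
  rw [h1, h2] <;> norm_num

theorem kap_mul (d : ℕ) (hs : Squarefree d) (h8 : d % 8 = 1) (v w : T)
    (hv : ∀ p ∈ d.primeFactors, Iso p v) (hw : ∀ p ∈ d.primeFactors, Iso p w) :
    kap d v * kap d w = ∏ p ∈ d.primeFactors, chi p v w := by
  obtain ⟨u, hu⟩ := base_exists d h8
  rw [kap_eq d hs h8 u hu, kap_eq d hs h8 u hu, ka_Psi hv, ka_Psi hw]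
  have h1 : ∏ p ∈ d.primeFactors, chi p v w = (∏ p ∈ d.primeFactors, chi p v u) *
      ∏ p ∈ d.primeFactors, chi p w u := by
    rw [← Finset.prod_mul_distrib]
    apply Finset.prod_congr rfl
    intro p hp
    have : Fact p.Prime := ⟨Nat.prime_of_mem_primeFactors hp⟩
    have iu := base_iso d hs u hu p hp
    rw [chi_comm (hw p hp) iu]
    exact (chi_trans (pf_ne_two (by omega) hp) (hv p hp) iu (hw p hp)).symm
  have h3 := kap_sq u
  rw [h1]
  calc Pool.Agent.GEN.kap u * (∏ p ∈ d.primeFactors, chi p v u) *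
        (Pool.Agent.GEN.kap u * ∏ p ∈ d.primeFactors, chi p w u)
      = (Pool.Agent.GEN.kap u * Pool.Agent.GEN.kap u) * ((∏ p ∈ d.primeFactors, chi p v u) *
        ∏ p ∈ d.primeFactors, chi p w u) := by ring
    _ = _ := by rw [h3, one_mul]

theorem kap_neg (d : ℕ) (hs : Squarefree d) (h8 : d % 8 = 1) (v : T) :
    kap d (sm (-1) v) = kap d v := by
  obtain ⟨u, hu⟩ := base_exists d h8
  rw [kap_eq d hs h8 u hu, kap_eq d hs h8 u hu]
  congr 1
  have hsm : sm (-1) v = -v := by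
    unfold sm; ext <;> simp
  by_cases hv : ∀ p ∈ d.primeFactors, Iso p v
  · have hv' : ∀ p ∈ d.primeFactors, Iso p (sm (-1) v) := fun p hp => by
      rw [hsm]; exact iso_neg (hv p hp)
    rw [ka_Psi hv, ka_Psi hv', hsm]
    have h1 : ∏ p ∈ d.primeFactors, chi p (-v) u = (∏ p ∈ d.primeFactors, jacobiSym (-1) p) *
        ∏ p ∈ d.primeFactors, chi p v u := by
      rw [← Finset.prod_mul_distrib]
      apply Finset.prod_congr rfl
      intro p hp
      have : Fact p.Prime := ⟨Nat.prime_of_mem_primeFactors hp⟩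
      exact chi_neg (pf_ne_two (by omega) hp) (hv p hp) (base_iso d hs u hu p hp)
    rw [h1, prod_sym _ _ hs, jacobiSym.at_neg_one (Nat.odd_iff.2 (by omega)),
      ZMod.χ₄_nat_one_mod_four (by omega), one_mul]
  · push Not at hv
    obtain ⟨p, hp, hv⟩ := hv
    have hv' : ¬ Iso p (sm (-1) v) := by
      intro h
      apply hv
      have := iso_neg h
      rw [hsm, neg_neg] at this
      exact this
    rw [ka_Psi0 hp hv, ka_Psi0 hp hv']

end Pool.Agent.GNF
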