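import Pool.Agent.Lib_helper7.GNF.D2
import Pool.Agent.Lib_helper7.GNF.P.KA
import Pool.Agent.Lib_helper72.GEN.P

set_option autoImplicit false

namespace Pool.Agent.GNF

open Finset Pool.Agent.GEN

theorem cf_norm {d : ℕ} {u : T} (hu : dot u u = d) : u.1 ^ 2 + u.2.1 ^ 2 + u.2.2 ^ 2 = d := by
  rw [← hu]; unfold dot; ring

theorem cf_kd (d : ℕ) (hs : Squarefree d) (h8 : d % 8 = 1) (u v : T) (hu : dot u u = d)
    (hv : ∀ p ∈ d.primeFactors, Iso p v) : kap d v = kd d u v := by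
  rw [kap_eq d hs h8 u hu]
  unfold kd Psi
  congr 1
  apply Finset.prod_congr rfl
  intro p hp
  unfold psi
  rw [if_pos (hv p hp)]

/-- **the sign cocycle** -/
theorem CF (g a b : ℕ) (hs : Squarefree (g * a * b)) (h1 : g * a % 8 = 1) (h2 : g * b % 8 = 1)
    (h3 : a * b % 8 = 1) (v : T) (hv : ∀ p ∈ (g * a * b).primeFactors, Iso p v) :
    kap (g * a) v * kap (g * b) v * kap (a * b) v = jacobiSym (-1) g := by
  have hs' : Squarefree (a * b * g) := by
    have : a * b * g = g * a * b := by ring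
    rw [this]; exact hs
  obtain ⟨cab, cbg, cga, sab, sbg, sga, sa, sb, sg⟩ := coprime_facts hs'
  have h2' : b * g % 8 = 1 := by rw [mul_comm]; exact h2
  obtain ⟨u1, hu1⟩ := base_exists (b * g) h2'
  obtain ⟨u2, hu2⟩ := base_exists (g * a) h1
  obtain ⟨u3, hu3⟩ := base_exists (a * b) h3
  have hv' : ∀ p ∈ (a * b * g).primeFactors, Iso p v := by
    have : a * b * g = g * a * b := by ring
    rw [this]; exact hv
  have h0 : g * a * b ≠ 0 := hs.ne_zero
  have key := cocycle hs' h2' h1 h3 (cf_norm hu1) (cf_norm hu2) (cf_norm hu3) hv'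
  have e1 : kap (b * g) v = kd (b * g) u1 v := cf_kd _ sbg h2' u1 v hu1 (fun p hp =>
    hv p (Nat.primeFactors_mono ⟨a, by ring⟩ h0 hp))
  have e2 : kap (g * a) v = kd (g * a) u2 v := cf_kd _ sga h1 u2 v hu2 (fun p hp =>
    hv p (Nat.primeFactors_mono ⟨b, by ring⟩ h0 hp))
  have e3 : kap (a * b) v = kd (a * b) u3 v := cf_kd _ sab h3 u3 v hu3 (fun p hp =>
    hv p (Nat.primeFactors_mono ⟨g, by ring⟩ h0 hp))
  rw [← e1, ← e2, ← e3] at key
  have og : g % 2 = 1 := by
    rcases Nat.mod_two_eq_zero_or_one g with h | h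
    · exfalso
      obtain ⟨x, rfl⟩ : ∃ x, g = 2 * x := ⟨g / 2, by omega⟩
      have : 2 * x * a = 2 * (x * a) := by ring
      omega
    · exact h
  have hj : jacobiSym (-1) g = sg4 g := by
    rw [jacobiSym.at_neg_one (Nat.odd_iff.2 og)]
    unfold sg4
    rcases (by omega : g % 4 = 1 ∨ g % 4 = 3) with h5 | h5
    · rw [ZMod.χ₄_nat_one_mod_four h5, if_pos (by omega)]
    · rw [ZMod.χ₄_nat_three_mod_four h5, if_neg (by omega)]
  rw [hj, ← key, mul_comm g b]
  ring

end Pool.Agent.GNF
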