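import Pool.Agent.Lib_helper7.GNF.D2

set_option autoImplicit false

namespace Pool.Agent.GNF

open Finset Pool.Agent.GEN

theorem kl_sq {x : ℤ} (h : x = 1 ∨ x = -1) : x * x = 1 := by
  rcases h with h | h <;> rw [h] <;> norm_num

theorem kl_prod (e : ℕ → ℤ) (he : ∀ p, e p = 1 ∨ e p = -1) (s t : Finset ℕ) :
    ∏ p ∈ symmDiff s t, e p = (∏ p ∈ s, e p) * ∏ p ∈ t, e p := by
  have h1 : ∏ p ∈ s, e p = (∏ p ∈ s \ t, e p) * ∏ p ∈ s ∩ t, e p := by
    rw [← Finset.prod_union (Finset.disjoint_sdiff_inter s t), Finset.sdiff_union_inter]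
  have h2 : ∏ p ∈ t, e p = (∏ p ∈ t \ s, e p) * ∏ p ∈ s ∩ t, e p := by
    rw [Finset.inter_comm, ← Finset.prod_union (Finset.disjoint_sdiff_inter t s),
      Finset.sdiff_union_inter]
  have h3 : ∏ p ∈ symmDiff s t, e p = (∏ p ∈ s \ t, e p) * ∏ p ∈ t \ s, e p := by
    have hd : Disjoint (s \ t) (t \ s) := by
      rw [Finset.disjoint_left]
      intro x hx hx'
      exact (Finset.mem_sdiff.1 hx).2 (Finset.mem_sdiff.1 hx').1
    rw [← Finset.prod_union hd]
    rfl
  have h4 : (∏ p ∈ s ∩ t, e p) * (∏ p ∈ s ∩ t, e p) = 1 := by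
    rw [← Finset.prod_mul_distrib]
    exact Finset.prod_eq_one fun p _ => kl_sq (he p)
  rw [h3, h1, h2]
  calc (∏ p ∈ s \ t, e p) * ∏ p ∈ t \ s, e p
      = (∏ p ∈ s \ t, e p) * (∏ p ∈ t \ s, e p) *
        ((∏ p ∈ s ∩ t, e p) * (∏ p ∈ s ∩ t, e p)) := by rw [h4, mul_one]
    _ = _ := by ring

/-- extension of characters of elementary abelian `2`-groups -/
theorem KL (P : Finset ℕ) (D : Finset ℕ → Prop) (hD0 : D ∅)
    (hD : ∀ s t, s ⊆ P → t ⊆ P → D s → D t → D (symmDiff s t)) (f : Finset ℕ → ℤ)
    (hf : ∀ s ⊆ P, D s → f s = 1 ∨ f s = -1)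
    (hm : ∀ s t, s ⊆ P → t ⊆ P → D s → D t → f (symmDiff s t) = f s * f t) :
    ∃ e : ℕ → ℤ, (∀ p, e p = 1 ∨ e p = -1) ∧ ∀ s ⊆ P, D s → f s = ∏ p ∈ s, e p := by
  induction P using Finset.induction_on with
  | empty =>
    refine ⟨fun _ => 1, fun _ => Or.inl rfl, fun s hs hDs => ?_⟩
    have hs0 : s = ∅ := Finset.subset_empty.1 hs
    subst hs0
    have h1 := hm ∅ ∅ (Finset.Subset.refl _) (Finset.Subset.refl _) hDs hDs
    rw [symmDiff_self] at h1
    have h2 : f ∅ = f ∅ * f ∅ := h1
    rw [kl_sq (hf ∅ (Finset.Subset.refl _) hDs)] at h2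
    rw [h2]
    rfl
  | insert q P hq ih =>
    obtain ⟨e', he', h'⟩ := ih
      (fun s t hs ht => hD s t (hs.trans (Finset.subset_insert q P))
        (ht.trans (Finset.subset_insert q P)))
      (fun s hs => hf s (hs.trans (Finset.subset_insert q P)))
      (fun s t hs ht => hm s t (hs.trans (Finset.subset_insert q P))
        (ht.trans (Finset.subset_insert q P)))
    have hsub : ∀ s ⊆ insert q P, q ∉ s → s ⊆ P := by
      intro s hs hqs x hx
      rcases Finset.mem_insert.1 (hs hx) with h | h
      · subst h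
        exact absurd hx hqs
      · exact h
    by_cases hex : ∃ s0 ⊆ insert q P, q ∈ s0 ∧ D s0
    · obtain ⟨s0, hs0, hqs0, hDs0⟩ := hex
      have hs1 : s0.erase q ⊆ P := fun x hx => by
        rcases Finset.mem_insert.1 (hs0 (Finset.mem_of_mem_erase hx)) with h | h
        · exact absurd h (Finset.ne_of_mem_erase hx)
        · exact h
      have hpm : ∀ u : Finset ℕ, (∏ p ∈ u, e' p) = 1 ∨ (∏ p ∈ u, e' p) = -1 := by
        intro u
        induction u using Finset.induction_on with
        | empty => exact Or.inl rfl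
        | insert x u hx ihu =>
          rw [Finset.prod_insert hx]
          rcases he' x with h1 | h1 <;> rcases ihu with h2 | h2 <;> rw [h1, h2] <;> norm_num
      let c : ℤ := f s0 * ∏ p ∈ s0.erase q, e' p
      have hc : c = 1 ∨ c = -1 := by
        show f s0 * ∏ p ∈ s0.erase q, e' p = 1 ∨ f s0 * ∏ p ∈ s0.erase q, e' p = -1
        rcases hf s0 hs0 hDs0 with h1 | h1 <;> rcases hpm (s0.erase q) with h2 | h2 <;>
          rw [h1, h2] <;> norm_num
      have hup : ∀ u : Finset ℕ, q ∉ u → ∏ p ∈ u, Function.update e' q c p = ∏ p ∈ u, e' p := by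
        intro u hu
        refine Finset.prod_congr rfl fun p hp => ?_
        rw [Function.update_of_ne]
        rintro rfl
        exact hu hp
      refine ⟨Function.update e' q c, fun p => ?_, fun s hs hDs => ?_⟩
      · by_cases hp : p = q
        · subst hp
          rw [Function.update_self]
          exact hc
        · rw [Function.update_of_ne hp]
          exact he' p
      · by_cases hqs : q ∈ s
        · have hqt : q ∉ symmDiff s s0 := by
            rw [Finset.mem_symmDiff]
            rintro (⟨_, h⟩ | ⟨_, h⟩)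
            · exact h hqs0
            · exact h hqs
          have hst : symmDiff s s0 ⊆ insert q P := by
            intro x hx
            rcases Finset.mem_symmDiff.1 hx with ⟨h, _⟩ | ⟨h, _⟩
            · exact hs h
            · exact hs0 h
          have h1 := h' _ (hsub _ hst hqt) (hD s s0 hs hs0 hDs hDs0)
          rw [hm s s0 hs hs0 hDs hDs0, kl_prod e' he'] at h1
          have h2 : ∏ p ∈ s, e' p = e' q * ∏ p ∈ s.erase q, e' p :=
            (Finset.mul_prod_erase s e' hqs).symm
          have h3 : ∏ p ∈ s0, e' p = e' q * ∏ p ∈ s0.erase q, e' p :=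
            (Finset.mul_prod_erase s0 e' hqs0).symm
          rw [← Finset.mul_prod_erase s _ hqs, Function.update_self,
            hup _ (Finset.notMem_erase q s)]
          show f s = f s0 * (∏ p ∈ s0.erase q, e' p) * ∏ p ∈ s.erase q, e' p
          rw [h2, h3] at h1
          have h4 := kl_sq (hf s0 hs0 hDs0)
          have h5 := kl_sq (he' q)
          calc f s = f s * (f s0 * f s0) := by rw [h4, mul_one]
            _ = (f s * f s0) * f s0 := by ring
            _ = (e' q * e' q) * (f s0 * (∏ p ∈ s0.erase q, e' p) *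
                ∏ p ∈ s.erase q, e' p) := by rw [h1]; ring
            _ = _ := by rw [h5, one_mul]
        · rw [hup s hqs]
          exact h' s (hsub s hs hqs) hDs
    · refine ⟨e', he', fun s hs hDs => ?_⟩
      have hqs : q ∉ s := fun hqs => hex ⟨s, hs, hqs, hDs⟩
      exact h' s (hsub s hs hqs) hDs

end Pool.Agent.GNF
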