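import Pool.Agent.Lib_helper7.GNF.D2
import Pool.Agent.Lib_helper7.GNF.P.CF
import Pool.Agent.Lib_helper7.GNF.P.KL

set_option autoImplicit false

namespace Pool.Agent.GNF

open Finset Pool.Agent.GEN

theorem kg_par (s : Finset ℕ) (hs : ∀ p ∈ s, p % 2 = 1) :
    ((∏ p ∈ s, p) % 4 = 1 ∧ (s.filter (fun p => p % 4 = 3)).card % 2 = 0) ∨
    ((∏ p ∈ s, p) % 4 = 3 ∧ (s.filter (fun p => p % 4 = 3)).card % 2 = 1) := by
  induction s using Finset.induction_on with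
  | empty => left; simp
  | insert a s ha ih =>
    have h1 := ih (fun p hp => hs p (Finset.mem_insert_of_mem hp))
    have h2 := hs a (Finset.mem_insert_self a s)
    rw [Finset.prod_insert ha, Finset.filter_insert]
    have h3 : a % 4 = 1 ∨ a % 4 = 3 := by omega
    rcases h3 with h3 | h3
    · rw [if_neg (by omega), Nat.mul_mod, h3]
      rcases h1 with ⟨h4, h5⟩ | ⟨h4, h5⟩
      · left; rw [h4]; exact ⟨rfl, h5⟩
      · right; rw [h4]; exact ⟨rfl, h5⟩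
    · rw [if_pos h3, Finset.card_insert_of_notMem (by simp [ha]), Nat.mul_mod, h3]
      rcases h1 with ⟨h4, h5⟩ | ⟨h4, h5⟩
      · right; rw [h4]; exact ⟨rfl, by omega⟩
      · left; rw [h4]; exact ⟨rfl, by omega⟩

theorem kg_pf (s : Finset ℕ) (hs : ∀ p ∈ s, p.Prime) : (∏ p ∈ s, p).primeFactors = s :=
  Nat.primeFactors_prod hs

theorem kg_odd (s : Finset ℕ) (hs : ∀ p ∈ s, p % 2 = 1) : (∏ p ∈ s, p) % 2 = 1 := by
  rcases kg_par s hs with h | h <;> omega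

theorem kg_jac (s : Finset ℕ) (hp : ∀ p ∈ s, p.Prime) (hs : ∀ p ∈ s, p % 2 = 1) :
    jacobiSym (-1) (∏ p ∈ s, p) = (-1) ^ nu (∏ p ∈ s, p) := by
  have h0 : Odd (∏ p ∈ s, p) := Nat.odd_iff.2 (kg_odd s hs)
  rw [jacobiSym.at_neg_one h0]
  unfold nu
  rw [kg_pf s hp]
  rcases kg_par s hs with ⟨h, h'⟩ | ⟨h, h'⟩
  · rw [ZMod.χ₄_nat_one_mod_four h, Even.neg_one_pow (Nat.even_iff.2 h')]
  · rw [ZMod.χ₄_nat_three_mod_four h, Odd.neg_one_pow (Nat.odd_iff.2 h')]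

theorem kg_nu_add (s t : Finset ℕ) (hs : ∀ p ∈ s, p.Prime) (ht : ∀ p ∈ t, p.Prime)
    (hd : Disjoint s t) : nu ((∏ p ∈ s, p) * ∏ p ∈ t, p) = nu (∏ p ∈ s, p) + nu (∏ p ∈ t, p) := by
  have h1 : (∏ p ∈ s, p) * ∏ p ∈ t, p = ∏ p ∈ s ∪ t, p := (Finset.prod_union hd).symm
  have h2 : ∀ p ∈ s ∪ t, p.Prime := by
    intro p hp
    rcases Finset.mem_union.1 hp with h | h
    · exact hs p h
    · exact ht p h
  rw [h1]
  unfold nu
  rw [kg_pf s hs, kg_pf t ht, kg_pf _ h2, Finset.filter_union, Finset.card_union_of_disjoint]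
  exact Finset.disjoint_filter_filter hd

theorem kg_even (s : Finset ℕ) (hp : ∀ p ∈ s, p.Prime) (hs : ∀ p ∈ s, p % 2 = 1)
    (h : (∏ p ∈ s, p) % 4 = 1) : nu (∏ p ∈ s, p) % 2 = 0 := by
  unfold nu
  rw [kg_pf s hp]
  rcases kg_par s hs with ⟨h, h'⟩ | ⟨h, h'⟩
  · exact h'
  · omega

theorem kg_p0 (p0 : ℕ) (h0 : p0.Prime) (s : Finset ℕ) (hp : ∀ p ∈ s, p.Prime) :
    p0 ∣ (∏ p ∈ s, p) ↔ p0 ∈ s := by
  constructor
  · intro h
    have : p0 ∈ (∏ p ∈ s, p).primeFactors :=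
      Nat.mem_primeFactors.2 ⟨h0, h, Finset.prod_ne_zero_iff.2 (fun p hh => (hp p hh).ne_zero)⟩
    rwa [kg_pf s hp] at this
  · intro h
    exact Finset.dvd_prod_of_mem _ h

theorem kg_sgd_pm (n p0 d : ℕ) : sgd n p0 d = 1 ∨ sgd n p0 d = -1 := by
  unfold sgd
  rcases neg_one_pow_eq_or ℤ (nu d / 2) with h | h <;> rw [h] <;> split_ifs <;> simp

/-- the sign of the three products -/
theorem kg_sgd3 (n p0 : ℕ) (hp0 : nu n % 4 = 2 → p0.Prime ∧ p0 ∣ n) (g a b : Finset ℕ)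
    (hg : ∀ p ∈ g, p.Prime ∧ p % 2 = 1) (ha : ∀ p ∈ a, p.Prime ∧ p % 2 = 1)
    (hb : ∀ p ∈ b, p.Prime ∧ p % 2 = 1) (dga : Disjoint g a) (dgb : Disjoint g b)
    (dab : Disjoint a b) (h1 : ((∏ p ∈ g, p) * ∏ p ∈ a, p) % 8 = 1)
    (h2 : ((∏ p ∈ g, p) * ∏ p ∈ b, p) % 8 = 1) (h3 : ((∏ p ∈ a, p) * ∏ p ∈ b, p) % 8 = 1) :
    sgd n p0 ((∏ p ∈ g, p) * ∏ p ∈ a, p) * sgd n p0 ((∏ p ∈ g, p) * ∏ p ∈ b, p) *
      sgd n p0 ((∏ p ∈ a, p) * ∏ p ∈ b, p) = jacobiSym (-1) (∏ p ∈ g, p) := by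
  rw [kg_jac g (fun p h => (hg p h).1) (fun p h => (hg p h).2)]
  have e1 := kg_nu_add g a (fun p h => (hg p h).1) (fun p h => (ha p h).1) dga
  have e2 := kg_nu_add g b (fun p h => (hg p h).1) (fun p h => (hb p h).1) dgb
  have e3 := kg_nu_add a b (fun p h => (ha p h).1) (fun p h => (hb p h).1) dab
  have ev : ∀ s t : Finset ℕ, (∀ p ∈ s, p.Prime ∧ p % 2 = 1) → (∀ p ∈ t, p.Prime ∧ p % 2 = 1) →
      Disjoint s t → ((∏ p ∈ s, p) * ∏ p ∈ t, p) % 8 = 1 →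
      nu ((∏ p ∈ s, p) * ∏ p ∈ t, p) % 2 = 0 := by
    intro s t hs ht hd h
    rw [← Finset.prod_union hd] at h ⊢
    have hh : ∀ p ∈ s ∪ t, p.Prime ∧ p % 2 = 1 := by
      intro p hp
      rcases Finset.mem_union.1 hp with h | h
      · exact hs p h
      · exact ht p h
    exact kg_even _ (fun p h => (hh p h).1) (fun p h => (hh p h).2) (by omega)
  have v1 := ev g a hg ha dga h1
  have v2 := ev g b hg hb dgb h2
  have v3 := ev a b ha hb dab h3
  rw [e1] at v1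
  rw [e2] at v2
  rw [e3] at v3
  -- the powers
  have pw : ((-1 : ℤ)) ^ ((nu (∏ p ∈ g, p) + nu (∏ p ∈ a, p)) / 2) *
      (-1) ^ ((nu (∏ p ∈ g, p) + nu (∏ p ∈ b, p)) / 2) *
      (-1) ^ ((nu (∏ p ∈ a, p) + nu (∏ p ∈ b, p)) / 2) = (-1) ^ nu (∏ p ∈ g, p) := by
    rw [← pow_add, ← pow_add]
    have : (nu (∏ p ∈ g, p) + nu (∏ p ∈ a, p)) / 2 + (nu (∏ p ∈ g, p) + nu (∏ p ∈ b, p)) / 2 +
        (nu (∏ p ∈ a, p) + nu (∏ p ∈ b, p)) / 2 =
        nu (∏ p ∈ g, p) + 2 * ((nu (∏ p ∈ a, p) + nu (∏ p ∈ b, p)) / 2) := by omega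
    rw [this, pow_add, pow_mul]
    simp
  unfold sgd
  rw [e1, e2, e3, ← pw]
  -- the indicators
  have ind : (if nu n % 4 = 2 ∧ p0 ∣ (∏ p ∈ g, p) * ∏ p ∈ a, p then (-1 : ℤ) else 1) *
      (if nu n % 4 = 2 ∧ p0 ∣ (∏ p ∈ g, p) * ∏ p ∈ b, p then (-1 : ℤ) else 1) *
      (if nu n % 4 = 2 ∧ p0 ∣ (∏ p ∈ a, p) * ∏ p ∈ b, p then (-1 : ℤ) else 1) = 1 := by
    by_cases hn : nu n % 4 = 2
    · have hP := (hp0 hn).1
      have k : ∀ s t : Finset ℕ, (∀ p ∈ s, p.Prime ∧ p % 2 = 1) →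
          (∀ p ∈ t, p.Prime ∧ p % 2 = 1) →
          (p0 ∣ (∏ p ∈ s, p) * ∏ p ∈ t, p ↔ p0 ∈ s ∨ p0 ∈ t) := by
        intro s t hs ht
        rw [hP.dvd_mul, kg_p0 p0 hP s (fun p h => (hs p h).1), kg_p0 p0 hP t (fun p h => (ht p h).1)]
      simp only [hn, true_and, k g a hg ha, k g b hg hb, k a b ha hb]
      by_cases q1 : p0 ∈ g
      · have q2 : p0 ∉ a := Finset.disjoint_left.1 dga q1
        have q3 : p0 ∉ b := Finset.disjoint_left.1 dgb q1
        simp [q1, q2, q3]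
      · by_cases q2 : p0 ∈ a
        · have q3 : p0 ∉ b := Finset.disjoint_left.1 dab q2
          simp [q1, q2, q3]
        · by_cases q3 : p0 ∈ b <;> simp [q1, q2, q3]
    · simp [hn]
  calc _ = ((-1 : ℤ)) ^ ((nu (∏ p ∈ g, p) + nu (∏ p ∈ a, p)) / 2) *
      (-1) ^ ((nu (∏ p ∈ g, p) + nu (∏ p ∈ b, p)) / 2) *
      (-1) ^ ((nu (∏ p ∈ a, p) + nu (∏ p ∈ b, p)) / 2) * ((if nu n % 4 = 2 ∧ p0 ∣ (∏ p ∈ g, p) * ∏ p ∈ a, p then (-1 : ℤ) else 1) *
      (if nu n % 4 = 2 ∧ p0 ∣ (∏ p ∈ g, p) * ∏ p ∈ b, p then (-1 : ℤ) else 1) *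
      (if nu n % 4 = 2 ∧ p0 ∣ (∏ p ∈ a, p) * ∏ p ∈ b, p then (-1 : ℤ) else 1)) := by ring
    _ = _ := by rw [ind, mul_one]

theorem kg_unit (x y : ℤ) (h : x * x * y = 1) : x = 1 ∨ x = -1 := by
  have : IsUnit x := IsUnit.of_mul_eq_one (x * y) (by rw [← h]; ring)
  exact Int.isUnit_iff.1 this

/-- **the canonical genus**: signs which normalise all genus characters -/
theorem KG (n p0 : ℕ) (hs : Squarefree n) (h13 : n % 8 = 1 ∨ n % 8 = 3)
    (hp0 : nu n % 4 = 2 → p0.Prime ∧ p0 ∣ n) (v0 : T) (hv0 : ∀ p ∈ n.primeFactors, Iso p v0)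
    (h1 : n % 8 = 1 → kap n v0 = 1) :
    ∃ e : ℕ → ℤ, (∀ p, e p = 1 ∨ e p = -1) ∧ (∏ p ∈ n.primeFactors, e p = 1) ∧
      ∀ d, d ∣ n → d % 8 = 1 → kap d v0 * ∏ p ∈ d.primeFactors, e p = sgd n p0 d := by
  have hn0 : n ≠ 0 := by rintro rfl; omega
  have hPn : ∏ p ∈ n.primeFactors, p = n := Nat.prod_primeFactors_of_squarefree hs
  have hP : ∀ p ∈ n.primeFactors, p.Prime ∧ p % 2 = 1 := by
    intro p hp
    have h2 := Nat.mem_primeFactors.1 hp
    refine ⟨h2.1, ?_⟩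
    rcases h2.1.eq_two_or_odd with h | h
    · exfalso
      rw [h] at h2
      have := h2.2.1
      omega
    · exact h
  have hPs : ∀ s ⊆ n.primeFactors, ∀ p ∈ s, p.Prime ∧ p % 2 = 1 := fun s hs p hp => hP p (hs hp)
  have hdn : ∀ s ⊆ n.primeFactors, (∏ p ∈ s, p) ∣ n := by
    intro s hs
    calc (∏ p ∈ s, p) ∣ ∏ p ∈ n.primeFactors, p := Finset.prod_dvd_prod_of_subset _ _ _ hs
      _ = n := hPn
  -- the cocycle relation
  have cf : ∀ g a b : Finset ℕ, g ⊆ n.primeFactors → a ⊆ n.primeFactors → b ⊆ n.primeFactors →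
      Disjoint g a → Disjoint g b → Disjoint a b → ((∏ p ∈ g, p) * ∏ p ∈ a, p) % 8 = 1 →
      ((∏ p ∈ g, p) * ∏ p ∈ b, p) % 8 = 1 → ((∏ p ∈ a, p) * ∏ p ∈ b, p) % 8 = 1 →
      kap ((∏ p ∈ g, p) * ∏ p ∈ a, p) v0 * kap ((∏ p ∈ g, p) * ∏ p ∈ b, p) v0 *
        kap ((∏ p ∈ a, p) * ∏ p ∈ b, p) v0 = jacobiSym (-1) ((∏ p ∈ g, p : ℕ)) := by
    intro g a b hg ha hb dga dgb dab k1 k2 k3
    have hu : (∏ p ∈ g, p) * (∏ p ∈ a, p) * (∏ p ∈ b, p) = ∏ p ∈ g ∪ a ∪ b, p := by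
      rw [Finset.prod_union (Finset.disjoint_union_left.2 ⟨dgb, dab⟩), Finset.prod_union dga]
    have hsub : g ∪ a ∪ b ⊆ n.primeFactors :=
      Finset.union_subset (Finset.union_subset hg ha) hb
    apply CF
    · rw [hu]; exact Squarefree.squarefree_of_dvd (hdn _ hsub) hs
    · exact k1
    · exact k2
    · exact k3
    · intro p hp
      rw [hu, kg_pf _ (fun p h => (hPs _ hsub p h).1)] at hp
      exact hv0 p (hsub hp)
  -- values
  have kpm : ∀ s ⊆ n.primeFactors, (∏ p ∈ s, p) % 8 = 1 →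
      kap (∏ p ∈ s, p) v0 = 1 ∨ kap (∏ p ∈ s, p) v0 = -1 := by
    intro s hs h8
    have h := cf s ∅ ∅ hs (Finset.empty_subset _) (Finset.empty_subset _)
      (Finset.disjoint_empty_right _) (Finset.disjoint_empty_right _)
      (Finset.disjoint_empty_right _) (by simpa using h8) (by simpa using h8) (by simp)
    have hj : jacobiSym (-1) ((∏ p ∈ s, p : ℕ)) = 1 := by
      have h0 : Odd (∏ p ∈ s, p) := Nat.odd_iff.2 (kg_odd s (fun p h => (hPs s hs p h).2))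
      rw [jacobiSym.at_neg_one h0]
      exact ZMod.χ₄_nat_one_mod_four (by omega)
    rw [hj] at h
    simp only [Finset.prod_empty, mul_one] at h
    exact kg_unit _ _ h
  have hmul : ∀ s t : Finset ℕ, s ⊆ n.primeFactors → t ⊆ n.primeFactors →
      (∏ p ∈ s, p) % 8 = 1 → (∏ p ∈ t, p) % 8 = 1 →
      (∏ p ∈ s, p) = (∏ p ∈ s ∩ t, p) * (∏ p ∈ s \ t, p) ∧
      (∏ p ∈ t, p) = (∏ p ∈ s ∩ t, p) * (∏ p ∈ t \ s, p) ∧
      (∏ p ∈ symmDiff s t, p) = (∏ p ∈ s \ t, p) * (∏ p ∈ t \ s, p) ∧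
      ((∏ p ∈ s \ t, p) * (∏ p ∈ t \ s, p)) % 8 = 1 := by
    intro s t hs ht h1 h2
    have e1 : (∏ p ∈ s, p) = (∏ p ∈ s ∩ t, p) * (∏ p ∈ s \ t, p) :=
      (Finset.prod_inter_mul_prod_sdiff s t _).symm
    have e2 : (∏ p ∈ t, p) = (∏ p ∈ s ∩ t, p) * (∏ p ∈ t \ s, p) := by
      rw [Finset.inter_comm]
      exact (Finset.prod_inter_mul_prod_sdiff t s _).symm
    have e3 : (∏ p ∈ symmDiff s t, p) = (∏ p ∈ s \ t, p) * (∏ p ∈ t \ s, p) := by
      rw [symmDiff_def, Finset.sup_eq_union, Finset.prod_union]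
      exact disjoint_sdiff_sdiff
    refine ⟨e1, e2, e3, ?_⟩
    rw [e1] at h1
    rw [e2] at h2
    have ho := kg_odd (s ∩ t) (fun p h => (hPs s hs p (Finset.inter_subset_left h)).2)
    generalize (∏ p ∈ s ∩ t, p) = G at h1 h2 ho
    generalize (∏ p ∈ s \ t, p) = A at h1 ⊢
    generalize (∏ p ∈ t \ s, p) = B at h2 ⊢
    have hG : G % 8 = 1 ∨ G % 8 = 3 ∨ G % 8 = 5 ∨ G % 8 = 7 := by omega
    have hA : A % 8 = G % 8 := by
      have : A % 8 < 8 := Nat.mod_lt _ (by norm_num)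
      rw [Nat.mul_mod] at h1
      rcases hG with h | h | h | h <;> rw [h] at h1 ⊢ <;> omega
    have hB : B % 8 = G % 8 := by
      have : B % 8 < 8 := Nat.mod_lt _ (by norm_num)
      rw [Nat.mul_mod] at h2
      rcases hG with h | h | h | h <;> rw [h] at h2 ⊢ <;> omega
    rw [Nat.mul_mod, hA, hB]
    rcases hG with h | h | h | h <;> rw [h]
  obtain ⟨e0, he0, hf⟩ := KL n.primeFactors (fun s => (∏ p ∈ s, p) % 8 = 1) (by simp)
    (by
      intro s t hs ht h1 h2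
      obtain ⟨_, _, e3, e4⟩ := hmul s t hs ht h1 h2
      show (∏ p ∈ symmDiff s t, p) % 8 = 1
      rw [e3]; exact e4)
    (fun s => kap (∏ p ∈ s, p) v0 * sgd n p0 (∏ p ∈ s, p))
    (by
      intro s hs h8
      show kap (∏ p ∈ s, p) v0 * sgd n p0 (∏ p ∈ s, p) = 1 ∨
        kap (∏ p ∈ s, p) v0 * sgd n p0 (∏ p ∈ s, p) = -1
      rcases kpm s hs h8 with h | h <;> rcases kg_sgd_pm n p0 (∏ p ∈ s, p) with h' | h' <;>
        rw [h, h'] <;> simp)
    (by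
      intro s t hs ht h1 h2
      obtain ⟨e1, e2, e3, e4⟩ := hmul s t hs ht h1 h2
      show kap (∏ p ∈ symmDiff s t, p) v0 * sgd n p0 (∏ p ∈ symmDiff s t, p) =
        (kap (∏ p ∈ s, p) v0 * sgd n p0 (∏ p ∈ s, p)) *
        (kap (∏ p ∈ t, p) v0 * sgd n p0 (∏ p ∈ t, p))
      have sg : s ∩ t ⊆ n.primeFactors := Finset.inter_subset_left.trans hs
      have sa : s \ t ⊆ n.primeFactors := Finset.sdiff_subset.trans hs
      have sb : t \ s ⊆ n.primeFactors := Finset.sdiff_subset.trans ht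
      have d1 : Disjoint (s ∩ t) (s \ t) := by
        rw [Finset.disjoint_left]; intro p hp hq
        exact (Finset.mem_sdiff.1 hq).2 (Finset.mem_inter.1 hp).2
      have d2 : Disjoint (s ∩ t) (t \ s) := by
        rw [Finset.disjoint_left]; intro p hp hq
        exact (Finset.mem_sdiff.1 hq).2 (Finset.mem_inter.1 hp).1
      have d3 : Disjoint (s \ t) (t \ s) := disjoint_sdiff_sdiff
      have h1' := h1
      have h2' := h2
      change (∏ p ∈ s, p) % 8 = 1 at h1'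
      change (∏ p ∈ t, p) % 8 = 1 at h2'
      rw [e1] at h1'
      rw [e2] at h2'
      have c1 := cf _ _ _ sg sa sb d1 d2 d3 h1' h2' e4
      have c2 := kg_sgd3 n p0 hp0 _ _ _ (hPs _ sg) (hPs _ sa) (hPs _ sb) d1 d2 d3 h1' h2' e4
      rw [← e1, ← e2, ← e3] at c1 c2
      have hsym : symmDiff s t ⊆ n.primeFactors := by
        intro p hp
        rcases Finset.mem_symmDiff.1 hp with h | h
        · exact hs h.1
        · exact ht h.1
      have hj : jacobiSym (-1) ((∏ p ∈ s ∩ t, p : ℕ)) = 1 ∨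
          jacobiSym (-1) ((∏ p ∈ s ∩ t, p : ℕ)) = -1 := by
        rw [kg_jac _ (fun p h => (hPs _ sg p h).1) (fun p h => (hPs _ sg p h).2)]
        exact neg_one_pow_eq_or ℤ _
      have k3 := kpm _ hsym (by rw [e3]; exact e4)
      have k4 := kg_sgd_pm n p0 (∏ p ∈ symmDiff s t, p)
      have hsq : kap (∏ p ∈ symmDiff s t, p) v0 * kap (∏ p ∈ symmDiff s t, p) v0 = 1 := by
        rcases k3 with h | h <;> rw [h] <;> norm_num
      have hsq2 : sgd n p0 (∏ p ∈ symmDiff s t, p) * sgd n p0 (∏ p ∈ symmDiff s t, p) = 1 := by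
        rcases k4 with h | h <;> rw [h] <;> norm_num
      have hj2 : jacobiSym (-1) ((∏ p ∈ s ∩ t, p : ℕ)) * jacobiSym (-1) ((∏ p ∈ s ∩ t, p : ℕ)) = 1 := by
        rcases hj with h | h <;> rw [h] <;> norm_num
      have c3 : (kap (∏ p ∈ s, p) v0 * kap (∏ p ∈ t, p) v0 * kap (∏ p ∈ symmDiff s t, p) v0) *
          (sgd n p0 (∏ p ∈ s, p) * sgd n p0 (∏ p ∈ t, p) * sgd n p0 (∏ p ∈ symmDiff s t, p)) = 1 := by
        rw [c1, c2, hj2]
      generalize kap (∏ p ∈ symmDiff s t, p) v0 = x1 at *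
      generalize sgd n p0 (∏ p ∈ symmDiff s t, p) = x2 at *
      generalize kap (∏ p ∈ s, p) v0 = y1 at *
      generalize sgd n p0 (∏ p ∈ s, p) = y2 at *
      generalize kap (∏ p ∈ t, p) v0 = z1 at *
      generalize sgd n p0 (∏ p ∈ t, p) = z2 at *
      calc x1 * x2 = x1 * x2 * ((y1 * z1 * x1) * (y2 * z2 * x2)) := by rw [c3, mul_one]
        _ = (y1 * y2) * (z1 * z2) * (x1 * x1) * (x2 * x2) := by ring
        _ = y1 * y2 * (z1 * z2) := by rw [hsq, hsq2]; ring)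
  have hf' : ∀ s ⊆ n.primeFactors, (∏ p ∈ s, p) % 8 = 1 →
      kap (∏ p ∈ s, p) v0 * sgd n p0 (∏ p ∈ s, p) = ∏ p ∈ s, e0 p := hf
  -- the divisors
  have hd0 : ∀ d, d ∣ n → d % 8 = 1 → kap d v0 * ∏ p ∈ d.primeFactors, e0 p = sgd n p0 d := by
    intro d hd h8
    have hsd : Squarefree d := Squarefree.squarefree_of_dvd hd hs
    have hsub : d.primeFactors ⊆ n.primeFactors := Nat.primeFactors_mono hd hn0
    have hpd : ∏ p ∈ d.primeFactors, p = d := Nat.prod_primeFactors_of_squarefree hsd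
    have e := hf' _ hsub (by rw [hpd]; exact h8)
    have k := kpm _ hsub (by rw [hpd]; exact h8)
    rw [hpd] at e k
    rw [← e]
    rcases k with h | h <;> rw [h] <;> ring
  have hnev : ∀ d, d ∣ n → d % 8 = 1 → (d.primeFactors.filter (fun p => p % 4 = 3)).card % 2 = 0 := by
    intro d hd h8
    have hsd : Squarefree d := Squarefree.squarefree_of_dvd hd hs
    have hsub : d.primeFactors ⊆ n.primeFactors := Nat.primeFactors_mono hd hn0
    have hpd : ∏ p ∈ d.primeFactors, p = d := Nat.prod_primeFactors_of_squarefree hsd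
    rcases kg_par d.primeFactors (fun p h => (hP p (hsub h)).2) with h | h
    · exact h.2
    · rw [hpd] at h; omega
  rcases h13 with h13 | h13
  · refine ⟨e0, he0, ?_, hd0⟩
    have e := hf' n.primeFactors (Finset.Subset.refl _) (by rw [hPn]; exact h13)
    rw [hPn, h1 h13, one_mul] at e
    rw [← e]
    unfold sgd
    have hev := hnev n (dvd_refl n) h13
    change nu n % 2 = 0 at hev
    by_cases hn : nu n % 4 = 2
    · rw [if_pos ⟨hn, (hp0 hn).2⟩, Odd.neg_one_pow (Nat.odd_iff.2 (by omega))]; norm_num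
    · rw [if_neg (by tauto), Even.neg_one_pow (Nat.even_iff.2 (by omega))]; norm_num
  · have hpm : ∏ p ∈ n.primeFactors, e0 p = 1 ∨ ∏ p ∈ n.primeFactors, e0 p = -1 := by
      have : ∀ s : Finset ℕ, ∏ p ∈ s, e0 p = 1 ∨ ∏ p ∈ s, e0 p = -1 := by
        intro s
        induction s using Finset.induction_on with
        | empty => left; simp
        | insert a s ha ih =>
          rw [Finset.prod_insert ha]
          rcases he0 a with h | h <;> rcases ih with h' | h' <;> rw [h, h'] <;> simp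
      exact this _
    rcases hpm with hpm | hpm
    · exact ⟨e0, he0, hpm, hd0⟩
    · have hch : ∀ s : Finset ℕ, ∏ p ∈ s, (if p % 4 = 3 then -e0 p else e0 p) =
          (-1) ^ (s.filter (fun p => p % 4 = 3)).card * ∏ p ∈ s, e0 p := by
        intro s
        induction s using Finset.induction_on with
        | empty => simp
        | insert a s ha ih =>
          rw [Finset.prod_insert ha, Finset.prod_insert ha, ih, Finset.filter_insert]
          by_cases h : a % 4 = 3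
          · rw [if_pos h, if_pos h, Finset.card_insert_of_notMem (by simp [ha]), pow_succ]; ring
          · rw [if_neg h, if_neg h]; ring
      refine ⟨fun p => if p % 4 = 3 then -e0 p else e0 p, ?_, ?_, ?_⟩
      · intro p
        show (if p % 4 = 3 then -e0 p else e0 p) = 1 ∨ (if p % 4 = 3 then -e0 p else e0 p) = -1
        rcases he0 p with h | h <;> split_ifs <;> simp [h]
      · show ∏ p ∈ n.primeFactors, (if p % 4 = 3 then -e0 p else e0 p) = 1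
        rw [hch, hpm]
        rcases kg_par n.primeFactors (fun p h => (hP p h).2) with h | h
        · rw [hPn] at h; omega
        · rw [Odd.neg_one_pow (Nat.odd_iff.2 h.2)]; norm_num
      · intro d hd h8
        show kap d v0 * ∏ p ∈ d.primeFactors, (if p % 4 = 3 then -e0 p else e0 p) = sgd n p0 d
        rw [hch, Even.neg_one_pow (Nat.even_iff.2 (hnev d hd h8)), one_mul]
        exact hd0 d hd h8

end Pool.Agent.GNF
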