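import Pool.Agent.Lib_helper7.GNF.D

set_option autoImplicit false

namespace Pool.Agent.GNF

open Finset Pool.Agent.GEN
open scoped Real

/-- reduction modulo `M` -/
def fa_md (M : ℕ) (v : T) : T := (v.1 % M, v.2.1 % M, v.2.2 % M)

/-- the Chinese remainder in one variable -/
def fa_c1 (M N : ℕ) (M' N' a b : ℤ) : ℤ := (a * (N * N') + b * (M * M')) % ((M * N : ℕ) : ℤ)

def fa_cr (M N : ℕ) (M' N' : ℤ) (x : T × T) : T :=
  (fa_c1 M N M' N' x.1.1 x.2.1, fa_c1 M N M' N' x.1.2.1 x.2.2.1, fa_c1 M N M' N' x.1.2.2 x.2.2.2)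

theorem fa_mem1 {M : ℕ} (hM : 0 < M) (x : ℤ) : x % (M : ℤ) ∈ Ico (0 : ℤ) M := by
  rw [Finset.mem_Ico]
  have : (0 : ℤ) < M := by exact_mod_cast hM
  exact ⟨Int.emod_nonneg _ this.ne', Int.emod_lt_of_pos _ this⟩

theorem fa_md_mem {M : ℕ} (hM : 0 < M) (v : T) : fa_md M v ∈ cube M := by
  unfold cube fa_md
  rw [Finset.mem_product, Finset.mem_product]
  exact ⟨fa_mem1 hM _, fa_mem1 hM _, fa_mem1 hM _⟩

theorem fa_cr_mem {M N : ℕ} (hM : 0 < M) (hN : 0 < N) (M' N' : ℤ) (x : T × T) :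
    fa_cr M N M' N' x ∈ cube (M * N) := by
  unfold cube fa_cr
  rw [Finset.mem_product, Finset.mem_product]
  have h : 0 < M * N := Nat.mul_pos hM hN
  exact ⟨fa_mem1 h _, fa_mem1 h _, fa_mem1 h _⟩

theorem fa_left1 {M N : ℕ} (hc : Nat.Coprime M N) {M' N' : ℤ} (h1 : (N : ℤ) * N' ≡ 1 [ZMOD M])
    (h2 : (M : ℤ) * M' ≡ 1 [ZMOD N]) {x : ℤ} (hx : x ∈ Ico (0 : ℤ) ((M * N : ℕ) : ℤ)) :
    fa_c1 M N M' N' (x % M) (x % N) = x := by
  unfold fa_c1
  have e1 : (x % M) * (N * N') + (x % N) * (M * M') ≡ x [ZMOD M] := by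
    have a1 : (x % M) ≡ x [ZMOD M] := Int.mod_modEq _ _
    have a2 : (M : ℤ) * M' ≡ 0 [ZMOD M] := (Int.modEq_zero_iff_dvd).2 (dvd_mul_right _ _)
    calc (x % M) * (N * N') + (x % N) * (M * M') ≡ x * 1 + (x % N) * 0 [ZMOD M] :=
          (a1.mul h1).add (Int.ModEq.mul_left _ a2)
      _ = x := by ring
  have e2 : (x % M) * (N * N') + (x % N) * (M * M') ≡ x [ZMOD N] := by
    have a1 : (x % N) ≡ x [ZMOD N] := Int.mod_modEq _ _
    have a2 : (N : ℤ) * N' ≡ 0 [ZMOD N] := (Int.modEq_zero_iff_dvd).2 (dvd_mul_right _ _)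
    calc (x % M) * (N * N') + (x % N) * (M * M') ≡ (x % M) * 0 + x * 1 [ZMOD N] :=
          (Int.ModEq.mul_left _ a2).add (a1.mul h2)
      _ = x := by ring
  have e3 : (x % M) * (N * N') + (x % N) * (M * M') ≡ x [ZMOD ((M * N : ℕ) : ℤ)] := by
    push_cast
    exact (Int.modEq_and_modEq_iff_modEq_mul (by simpa using hc)).1 ⟨e1, e2⟩
  rw [e3]
  rw [Finset.mem_Ico] at hx
  exact Int.emod_eq_of_lt hx.1 hx.2

theorem fa_right1 {M N : ℕ} {M' N' : ℤ} (h1 : (N : ℤ) * N' ≡ 1 [ZMOD M]) {a b : ℤ}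
    (ha : a ∈ Ico (0 : ℤ) M) : fa_c1 M N M' N' a b % M = a := by
  unfold fa_c1
  rw [Int.emod_emod_of_dvd _ (by push_cast; exact dvd_mul_right _ _)]
  have e1 : a * (N * N') + b * (M * M') ≡ a [ZMOD M] := by
    have a2 : (M : ℤ) * M' ≡ 0 [ZMOD M] := (Int.modEq_zero_iff_dvd).2 (dvd_mul_right _ _)
    calc a * (N * N') + b * (M * M') ≡ a * 1 + b * 0 [ZMOD M] :=
          (Int.ModEq.mul_left _ h1).add (Int.ModEq.mul_left _ a2)
      _ = a := by ring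
  rw [e1]
  rw [Finset.mem_Ico] at ha
  exact Int.emod_eq_of_lt ha.1 ha.2

theorem fa_right2 {M N : ℕ} {M' N' : ℤ} (h2 : (M : ℤ) * M' ≡ 1 [ZMOD N]) {a b : ℤ}
    (hb : b ∈ Ico (0 : ℤ) N) : fa_c1 M N M' N' a b % N = b := by
  unfold fa_c1
  rw [Int.emod_emod_of_dvd _ (by push_cast; exact dvd_mul_left _ _)]
  have e1 : a * (N * N') + b * (M * M') ≡ b [ZMOD N] := by
    have a2 : (N : ℤ) * N' ≡ 0 [ZMOD N] := (Int.modEq_zero_iff_dvd).2 (dvd_mul_right _ _)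
    calc a * (N * N') + b * (M * M') ≡ a * 0 + b * 1 [ZMOD N] :=
          (Int.ModEq.mul_left _ a2).add (Int.ModEq.mul_left _ h2)
      _ = b := by ring
  rw [e1]
  rw [Finset.mem_Ico] at hb
  exact Int.emod_eq_of_lt hb.1 hb.2

theorem fa_per {M : ℕ} {F : T → ℂ} (hF : Per M F) (v : T) : F v = F (fa_md M v) := by
  have h := hF (fa_md M v) (v.1 / M, v.2.1 / M, v.2.2 / M)
  unfold fa_md at h ⊢
  simp only [Int.emod_add_mul_ediv] at h
  exact h

theorem fa_exp {M N : ℕ} (hM : 0 < M) (hN : 0 < N) (hc : Nat.Coprime M N) {M' N' : ℤ}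
    (h1 : (N : ℤ) * N' ≡ 1 [ZMOD M]) (h2 : (M : ℤ) * M' ≡ 1 [ZMOD N]) (v w : T) :
    Complex.exp (2 * π * Complex.I * (dot v w : ℤ) / ((M * N : ℕ) : ℂ)) =
      Complex.exp (2 * π * Complex.I * (dot (fa_md M v) (sm N' w) : ℤ) / M) *
        Complex.exp (2 * π * Complex.I * (dot (fa_md N v) (sm M' w) : ℤ) / N) := by
  obtain ⟨z, hz⟩ : ∃ z : ℤ, 1 - N * N' - M * M' = (M * N) * z := by
    have e : (1 - N * N' - M * M' : ℤ) ≡ 0 [ZMOD (M : ℤ) * N] := by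
      refine (Int.modEq_and_modEq_iff_modEq_mul (by simpa using hc)).1 ⟨?_, ?_⟩
      · have a2 : (M : ℤ) * M' ≡ 0 [ZMOD M] := (Int.modEq_zero_iff_dvd).2 (dvd_mul_right _ _)
        exact ((Int.ModEq.refl 1).sub h1).sub a2
      · have a2 : (N : ℤ) * N' ≡ 0 [ZMOD N] := (Int.modEq_zero_iff_dvd).2 (dvd_mul_right _ _)
        exact ((Int.ModEq.refl 1).sub a2).sub h2
    exact (Int.modEq_zero_iff_dvd).1 e
  have hMc : (M : ℂ) ≠ 0 := by exact_mod_cast hM.ne'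
  have hNc : (N : ℂ) ≠ 0 := by exact_mod_cast hN.ne'
  rw [← Complex.exp_add, Complex.exp_eq_exp_iff_exists_int]
  have d1 := Int.emod_add_mul_ediv v.1 M
  have d2 := Int.emod_add_mul_ediv v.2.1 M
  have d3 := Int.emod_add_mul_ediv v.2.2 M
  have d4 := Int.emod_add_mul_ediv v.1 N
  have d5 := Int.emod_add_mul_ediv v.2.1 N
  have d6 := Int.emod_add_mul_ediv v.2.2 N
  refine ⟨dot v w * z + N' * dot (v.1 / M, v.2.1 / M, v.2.2 / M) w +
    M' * dot (v.1 / N, v.2.1 / N, v.2.2 / N) w, ?_⟩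
  have key : (dot v w : ℤ) = dot (fa_md M v) (sm N' w) * N + dot (fa_md N v) (sm M' w) * M +
      (dot v w * z + N' * dot (v.1 / M, v.2.1 / M, v.2.2 / M) w +
        M' * dot (v.1 / N, v.2.1 / N, v.2.2 / N) w) * (M * N) := by
    have e1 : dot (fa_md M v) (sm N' w) = N' * dot v w -
        M * (N' * dot (v.1 / M, v.2.1 / M, v.2.2 / M) w) := by
      unfold fa_md sm dot
      simp only
      linear_combination (N' * w.1) * d1 + (N' * w.2.1) * d2 + (N' * w.2.2) * d3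
    have e2 : dot (fa_md N v) (sm M' w) = M' * dot v w -
        N * (M' * dot (v.1 / N, v.2.1 / N, v.2.2 / N) w) := by
      unfold fa_md sm dot
      simp only
      linear_combination (M' * w.1) * d4 + (M' * w.2.1) * d5 + (M' * w.2.2) * d6
    rw [e1, e2]
    linear_combination (dot v w) * hz
  have key' : ((dot v w : ℤ) : ℂ) = (dot (fa_md M v) (sm N' w) : ℤ) * N +
      (dot (fa_md N v) (sm M' w) : ℤ) * M +
      ((dot v w * z + N' * dot (v.1 / M, v.2.1 / M, v.2.2 / M) w +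
        M' * dot (v.1 / N, v.2.1 / N, v.2.2 / N) w : ℤ) : ℂ) * (M * N) := by
    exact_mod_cast key
  rw [key', Nat.cast_mul]
  field_simp

/-- Fourier transform of a product of two functions with coprime periods -/
theorem FA (M N : ℕ) (hM : 0 < M) (hN : 0 < N) (hc : Nat.Coprime M N) (F G : T → ℂ) (hF : Per M F)
    (hG : Per N G) (M' N' : ℤ) (h1 : (N : ℤ) * N' ≡ 1 [ZMOD M]) (h2 : (M : ℤ) * M' ≡ 1 [ZMOD N])
    (w : T) : FT (M * N) (fun v => F v * G v) w = FT M F (sm N' w) * FT N G (sm M' w) := by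
  unfold FT
  rw [Finset.sum_mul_sum, ← Finset.sum_product']
  refine Finset.sum_nbij' (fun v => (fa_md M v, fa_md N v)) (fa_cr M N M' N') ?_ ?_ ?_ ?_ ?_
  · intro v _
    rw [Finset.mem_product]
    exact ⟨fa_md_mem hM v, fa_md_mem hN v⟩
  · intro x _
    exact fa_cr_mem hM hN M' N' x
  · intro v hv
    unfold cube at hv
    rw [Finset.mem_product, Finset.mem_product] at hv
    obtain ⟨k1, k2, k3⟩ := hv
    exact Prod.ext (fa_left1 hc h1 h2 k1) (Prod.ext (fa_left1 hc h1 h2 k2) (fa_left1 hc h1 h2 k3))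
  · intro x hx
    rw [Finset.mem_product] at hx
    obtain ⟨hx1, hx2⟩ := hx
    unfold cube at hx1 hx2
    rw [Finset.mem_product, Finset.mem_product] at hx1 hx2
    obtain ⟨k1, k2, k3⟩ := hx1
    obtain ⟨l1, l2, l3⟩ := hx2
    exact Prod.ext (Prod.ext (fa_right1 h1 k1) (Prod.ext (fa_right1 h1 k2) (fa_right1 h1 k3)))
      (Prod.ext (fa_right2 h2 l1) (Prod.ext (fa_right2 h2 l2) (fa_right2 h2 l3)))
  · intro v _
    simp only
    rw [fa_exp hM hN hc h1 h2 v w, ← fa_per hF v, ← fa_per hG v]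
    ring

end Pool.Agent.GNF
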