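import Pool.Agent.Lib_helper7.GNF.D

set_option autoImplicit false

namespace Pool.Agent.GNF

open Finset Pool.Agent.GEN
open scoped Real

theorem fb_sym_congr (p : ℕ) {a b : ℤ} (h : (p : ℤ) ∣ a - b) : jacobiSym a p = jacobiSym b p := by
  have h1 : a % (p : ℤ) = b % (p : ℤ) := Int.emod_eq_emod_iff_emod_sub_eq_zero.2
    (Int.emod_eq_zero_of_dvd h)
  rw [jacobiSym.mod_left a, jacobiSym.mod_left b, h1]

theorem fb_dvd_iff {p a b : ℤ} (h : p ∣ a - b) : p ∣ a ↔ p ∣ b := by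
  constructor
  · intro h1
    have := dvd_sub h1 h
    rwa [sub_sub_cancel] at this
  · intro h1
    have := dvd_add h h1
    rwa [sub_add_cancel] at this

/-- the symbol is homogeneous -/
theorem psi_sm (p : ℕ) [Fact p.Prime] (hp2 : p ≠ 2) (u : T) (hu : Iso p u) (c : ℤ) (v : T) :
    psi p u (sm c v) = jacobiSym c p * psi p u v := by
  have hp : Prime (p : ℤ) := Nat.prime_iff_prime_int.1 Fact.out
  by_cases hc : (p : ℤ) ∣ c
  · have h1 : ¬ Iso p (sm c v) := by
      intro h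
      exact h.2 ⟨dvd_mul_of_dvd_left hc _, dvd_mul_of_dvd_left hc _, dvd_mul_of_dvd_left hc _⟩
    have h2 : jacobiSym c p = 0 := by
      rw [← jacobiSym.legendreSym.to_jacobiSym, legendreSym.eq_zero_iff]
      exact (ZMod.intCast_zmod_eq_zero_iff_dvd _ _).2 hc
    unfold psi
    rw [if_neg h1, h2, zero_mul]
  · have hdot : dot (sm c v) (sm c v) = c * (c * dot v v) := by unfold dot sm; ring
    have hdu : dot (sm c v) u = c * dot v u := by unfold dot sm; ring
    have hm : ∀ x : ℤ, (p : ℤ) ∣ c * x ↔ (p : ℤ) ∣ x := by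
      intro x
      constructor
      · intro h; exact (hp.dvd_or_dvd h).resolve_left hc
      · intro h; exact dvd_mul_of_dvd_right h _
    have hiso : Iso p (sm c v) ↔ Iso p v := by
      unfold Iso
      rw [hdot, hm, hm]
      show _ ∧ ¬((p : ℤ) ∣ c * v.1 ∧ (p : ℤ) ∣ c * v.2.1 ∧ (p : ℤ) ∣ c * v.2.2) ↔ _
      rw [hm, hm, hm]
    unfold psi
    by_cases hv : Iso p v
    · rw [if_pos (hiso.2 hv), if_pos hv]
      unfold chi
      rw [hdu]
      by_cases h1 : (p : ℤ) ∣ dot v u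
      · rw [if_pos ((hm _).2 h1), if_pos h1]
        by_cases h2 : (p : ℤ) ∣ u.1
        · rw [if_pos h2, if_pos h2, ← jacobiSym.mul_left]
          congr 1
          show c * v.2.1 * u.2.1 = _
          ring
        · rw [if_neg h2, if_neg h2, ← jacobiSym.mul_left]
          congr 1
          show c * v.1 * u.1 = _
          ring
      · rw [if_neg (fun h => h1 ((hm _).1 h)), if_neg h1, ← jacobiSym.mul_left]
        congr 1
        ring
    · rw [if_neg (fun h => hv (hiso.1 h)), if_neg hv, mul_zero]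

/-- the symbol is periodic -/
theorem psi_per (p : ℕ) [Fact p.Prime] (u : T) (hu : Iso p u) (v w : T) :
    psi p u (v.1 + p * w.1, v.2.1 + p * w.2.1, v.2.2 + p * w.2.2) = psi p u v := by
  set v' : T := (v.1 + p * w.1, v.2.1 + p * w.2.1, v.2.2 + p * w.2.2) with hv'
  have a1 : (p : ℤ) ∣ v'.1 - v.1 := ⟨w.1, by rw [hv']; ring⟩
  have a2 : (p : ℤ) ∣ v'.2.1 - v.2.1 := ⟨w.2.1, by rw [hv']; ring⟩
  have a3 : (p : ℤ) ∣ v'.2.2 - v.2.2 := ⟨w.2.2, by rw [hv']; ring⟩
  have d1 : (p : ℤ) ∣ dot v' v' - dot v v := by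
    obtain ⟨x, hx⟩ := a1
    obtain ⟨y, hy⟩ := a2
    obtain ⟨z, hz⟩ := a3
    refine ⟨x * (v'.1 + v.1) + y * (v'.2.1 + v.2.1) + z * (v'.2.2 + v.2.2), ?_⟩
    unfold dot
    linear_combination (v'.1 + v.1) * hx + (v'.2.1 + v.2.1) * hy + (v'.2.2 + v.2.2) * hz
  have d2 : (p : ℤ) ∣ dot v' u - dot v u := by
    obtain ⟨x, hx⟩ := a1
    obtain ⟨y, hy⟩ := a2
    obtain ⟨z, hz⟩ := a3
    refine ⟨x * u.1 + y * u.2.1 + z * u.2.2, ?_⟩
    unfold dot
    linear_combination u.1 * hx + u.2.1 * hy + u.2.2 * hz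
  have hiso : Iso p v' ↔ Iso p v := by
    unfold Iso
    rw [fb_dvd_iff d1, fb_dvd_iff a1, fb_dvd_iff a2, fb_dvd_iff a3]
  unfold psi
  by_cases hv : Iso p v
  · rw [if_pos (hiso.2 hv), if_pos hv]
    unfold chi
    by_cases h1 : (p : ℤ) ∣ dot v u
    · rw [if_pos ((fb_dvd_iff d2).2 h1), if_pos h1]
      by_cases h2 : (p : ℤ) ∣ u.1
      · rw [if_pos h2, if_pos h2]
        apply fb_sym_congr
        rw [← sub_mul]
        exact dvd_mul_of_dvd_left a2 _
      · rw [if_neg h2, if_neg h2]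
        apply fb_sym_congr
        rw [← sub_mul]
        exact dvd_mul_of_dvd_left a1 _
    · rw [if_neg (fun h => h1 ((fb_dvd_iff d2).1 h)), if_neg h1]
      apply fb_sym_congr
      rw [← mul_sub]
      exact dvd_mul_of_dvd_right d2 _
  · rw [if_neg (fun h => hv (hiso.1 h)), if_neg hv]

end Pool.Agent.GNF
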