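import Pool.Agent.Lib_helper7.GNF.D
import Pool.Agent.Lib_helper7.GNF.P.FB

set_option autoImplicit false

namespace Pool.Agent.GNF

open Finset Pool.Agent.GEN
open scoped Real

/-- congruence of vectors -/
def fc_cong (p : ℕ) (v w : T) : Prop :=
  (p : ℤ) ∣ v.1 - w.1 ∧ (p : ℤ) ∣ v.2.1 - w.2.1 ∧ (p : ℤ) ∣ v.2.2 - w.2.2

theorem fc_cong_symm {p : ℕ} {v w : T} (h : fc_cong p v w) : fc_cong p w v :=
  ⟨(dvd_sub_comm).1 h.1, (dvd_sub_comm).1 h.2.1, (dvd_sub_comm).1 h.2.2⟩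

theorem fc_cong_trans {p : ℕ} {u v w : T} (h : fc_cong p u v) (h' : fc_cong p v w) :
    fc_cong p u w :=
  ⟨(by have := dvd_add h.1 h'.1; rwa [sub_add_sub_cancel] at this),
    (by have := dvd_add h.2.1 h'.2.1; rwa [sub_add_sub_cancel] at this),
    (by have := dvd_add h.2.2 h'.2.2; rwa [sub_add_sub_cancel] at this)⟩

theorem fc_per {α : Type} {p : ℕ} {Φ : T → α}
    (hΦ : ∀ v w : T, Φ (v.1 + p * w.1, v.2.1 + p * w.2.1, v.2.2 + p * w.2.2) = Φ v) {v w : T}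
    (h : fc_cong p v w) : Φ v = Φ w := by
  obtain ⟨⟨a, ha⟩, ⟨b, hb⟩, ⟨c, hc⟩⟩ := h
  rw [← hΦ w (a, b, c)]
  congr 1
  refine Prod.ext ?_ (Prod.ext ?_ ?_)
  · show v.1 = w.1 + p * a
    linarith
  · show v.2.1 = w.2.1 + p * b
    linarith
  · show v.2.2 = w.2.2 + p * c
    linarith

/-- reduction -/
def fc_red (p : ℕ) (v : T) : T := (v.1 % p, v.2.1 % p, v.2.2 % p)

theorem fc_red_mem {p : ℕ} (hp : 0 < p) (v : T) : fc_red p v ∈ cube p := by
  have hp' : (0 : ℤ) < p := by exact_mod_cast hp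
  unfold cube fc_red
  rw [mem_product, mem_product, mem_Ico, mem_Ico, mem_Ico]
  exact ⟨⟨Int.emod_nonneg _ hp'.ne', Int.emod_lt_of_pos _ hp'⟩,
    ⟨Int.emod_nonneg _ hp'.ne', Int.emod_lt_of_pos _ hp'⟩,
    ⟨Int.emod_nonneg _ hp'.ne', Int.emod_lt_of_pos _ hp'⟩⟩

theorem fc_red_cong (p : ℕ) (v : T) : fc_cong p (fc_red p v) v := by
  have h : ∀ x : ℤ, (p : ℤ) ∣ x % p - x := fun x => ⟨-(x / p), by
    have := Int.emod_add_mul_ediv x p
    linarith⟩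
  exact ⟨h _, h _, h _⟩

theorem fc_red_eq {p : ℕ} {v w : T} (h : fc_cong p v w) : fc_red p v = fc_red p w := by
  have h1 : ∀ x y : ℤ, (p : ℤ) ∣ x - y → x % p = y % p := fun x y hxy =>
    (Int.modEq_iff_dvd.2 hxy).symm
  unfold fc_red
  rw [h1 _ _ h.1, h1 _ _ h.2.1, h1 _ _ h.2.2]

theorem fc_red_self {p : ℕ} {v : T} (h : v ∈ cube p) : fc_red p v = v := by
  unfold cube at h
  rw [mem_product, mem_product, mem_Ico, mem_Ico, mem_Ico] at h
  obtain ⟨⟨a1, a2⟩, ⟨b1, b2⟩, ⟨c1, c2⟩⟩ := h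
  unfold fc_red
  rw [Int.emod_eq_of_lt a1 a2, Int.emod_eq_of_lt b1 b2, Int.emod_eq_of_lt c1 c2]

/-- change of variables -/
theorem fc_cv {p : ℕ} (hp : 0 < p) {Φ : T → ℂ}
    (hΦ : ∀ v w : T, Φ (v.1 + p * w.1, v.2.1 + p * w.2.1, v.2.2 + p * w.2.2) = Φ v)
    (g h : T → T) (hg : ∀ v w, fc_cong p v w → fc_cong p (g v) (g w))
    (hh : ∀ v w, fc_cong p v w → fc_cong p (h v) (h w))
    (hgh : ∀ v, fc_cong p (g (h v)) v) (hhg : ∀ v, fc_cong p (h (g v)) v) :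
    ∑ v ∈ cube p, Φ (g v) = ∑ v ∈ cube p, Φ v := by
  refine Finset.sum_nbij' (fun v => fc_red p (g v)) (fun v => fc_red p (h v)) ?_ ?_ ?_ ?_ ?_
  · exact fun v _ => fc_red_mem hp _
  · exact fun v _ => fc_red_mem hp _
  · intro v hv
    show fc_red p (h (fc_red p (g v))) = v
    rw [fc_red_eq (fc_cong_trans (hh _ _ (fc_red_cong p (g v))) (hhg v)), fc_red_self hv]
  · intro v hv
    show fc_red p (g (fc_red p (h v))) = v
    rw [fc_red_eq (fc_cong_trans (hg _ _ (fc_red_cong p (h v))) (hgh v)), fc_red_self hv]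
  · intro v _
    exact fc_per hΦ (fc_cong_symm (fc_red_cong p (g v)))

theorem fc_exp {p : ℕ} (hp : 0 < p) {a b : ℤ} (h : (p : ℤ) ∣ a - b) :
    Complex.exp (2 * π * Complex.I * (a : ℤ) / p) =
      Complex.exp (2 * π * Complex.I * (b : ℤ) / p) := by
  obtain ⟨k, hk⟩ := h
  have hp' : (p : ℂ) ≠ 0 := by exact_mod_cast hp.ne'
  have e : (a : ℂ) = b + p * k := by
    have : a = b + p * k := by linarith
    rw [this]
    push_cast
    ring
  rw [e]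
  have e2 : 2 * π * Complex.I * (b + p * k) / p =
      2 * π * Complex.I * (b : ℤ) / p + k * (2 * π * Complex.I) := by
    field_simp
  rw [e2, Complex.exp_add, Complex.exp_int_mul_two_pi_mul_I, mul_one]

theorem fc_dot_cong {p : ℕ} {v v' w w' : T} (h : fc_cong p v v') (h' : fc_cong p w w') :
    (p : ℤ) ∣ dot v w - dot v' w' := by
  obtain ⟨⟨a, ha⟩, ⟨b, hb⟩, ⟨c, hc⟩⟩ := h
  obtain ⟨⟨d, hd⟩, ⟨e, he⟩, ⟨f, hf⟩⟩ := h'
  refine ⟨a * w.1 + v'.1 * d + b * w.2.1 + v'.2.1 * e + c * w.2.2 + v'.2.2 * f, ?_⟩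
  unfold dot
  linear_combination w.1 * ha + v'.1 * hd + w.2.1 * hb + v'.2.1 * he + w.2.2 * hc + v'.2.2 * hf

theorem fc_cong_refl (p : ℕ) (v : T) : fc_cong p v v := by
  unfold fc_cong
  simp

/-- reflection -/
def fc_r (a : T) (b : ℤ) (v : T) : T :=
  (v.1 - 2 * b * dot v a * a.1, v.2.1 - 2 * b * dot v a * a.2.1, v.2.2 - 2 * b * dot v a * a.2.2)

theorem fc_r_dot (a : T) (b : ℤ) (v w : T) :
    dot (fc_r a b v) (fc_r a b w) = dot v w + 4 * b * dot v a * dot w a * (b * dot a a - 1) := by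
  unfold fc_r dot
  ring

theorem fc_r_dot' (a : T) (b : ℤ) (v w : T) :
    dot (fc_r a b v) w = dot v w - 2 * b * dot v a * dot w a := by
  unfold fc_r dot
  ring

theorem fc_r_cong {p : ℕ} (a : T) (b : ℤ) (v w : T) (h : fc_cong p v w) :
    fc_cong p (fc_r a b v) (fc_r a b w) := by
  have h1 := fc_dot_cong h (fc_cong_refl p a)
  obtain ⟨k, hk⟩ := h1
  obtain ⟨⟨x, hx⟩, ⟨y, hy⟩, ⟨z, hz⟩⟩ := h
  refine ⟨⟨x - 2 * b * k * a.1, ?_⟩, ⟨y - 2 * b * k * a.2.1, ?_⟩, ⟨z - 2 * b * k * a.2.2, ?_⟩⟩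
  · show v.1 - 2 * b * dot v a * a.1 - (w.1 - 2 * b * dot w a * a.1) = _
    linear_combination hx - 2 * b * a.1 * hk
  · show v.2.1 - 2 * b * dot v a * a.2.1 - (w.2.1 - 2 * b * dot w a * a.2.1) = _
    linear_combination hy - 2 * b * a.2.1 * hk
  · show v.2.2 - 2 * b * dot v a * a.2.2 - (w.2.2 - 2 * b * dot w a * a.2.2) = _
    linear_combination hz - 2 * b * a.2.2 * hk

theorem fc_r_r {p : ℕ} {a : T} {b : ℤ} (hb : (p : ℤ) ∣ b * dot a a - 1) (v : T) :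
    fc_cong p (fc_r a b (fc_r a b v)) v := by
  obtain ⟨k, hk⟩ := hb
  have e := fc_r_dot' a b v a
  refine ⟨⟨4 * b * dot v a * k * a.1, ?_⟩, ⟨4 * b * dot v a * k * a.2.1, ?_⟩,
    ⟨4 * b * dot v a * k * a.2.2, ?_⟩⟩
  · show v.1 - 2 * b * dot v a * a.1 - 2 * b * dot (fc_r a b v) a * a.1 - v.1 = _
    rw [e]
    linear_combination 4 * b * dot v a * a.1 * hk
  · show v.2.1 - 2 * b * dot v a * a.2.1 - 2 * b * dot (fc_r a b v) a * a.2.1 - v.2.1 = _
    rw [e]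
    linear_combination 4 * b * dot v a * a.2.1 * hk
  · show v.2.2 - 2 * b * dot v a * a.2.2 - 2 * b * dot (fc_r a b v) a * a.2.2 - v.2.2 = _
    rw [e]
    linear_combination 4 * b * dot v a * a.2.2 * hk

theorem fc_iso_cong {p : ℕ} {v w : T} (h : fc_cong p v w) (hv : Iso p v) : Iso p w := by
  refine ⟨?_, fun h' => hv.2 ?_⟩
  · have h1 := dvd_sub hv.1 (fc_dot_cong h h)
    rwa [sub_sub_cancel] at h1
  · have k1 := dvd_add h.1 h'.1
    have k2 := dvd_add h.2.1 h'.2.1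
    have k3 := dvd_add h.2.2 h'.2.2
    rw [sub_add_cancel] at k1 k2 k3
    exact ⟨k1, k2, k3⟩

theorem fc_iso_r {p : ℕ} {a : T} {b : ℤ} (hb : (p : ℤ) ∣ b * dot a a - 1) {v : T}
    (hv : Iso p v) : Iso p (fc_r a b v) := by
  refine ⟨?_, fun h' => ?_⟩
  · rw [fc_r_dot]
    exact dvd_add hv.1 (dvd_mul_of_dvd_right hb _)
  · have hz : fc_cong p (fc_r a b v) (0, 0, 0) := by
      refine ⟨?_, ?_, ?_⟩
      · show (p : ℤ) ∣ (fc_r a b v).1 - 0
        rw [sub_zero]; exact h'.1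
      · show (p : ℤ) ∣ (fc_r a b v).2.1 - 0
        rw [sub_zero]; exact h'.2.1
      · show (p : ℤ) ∣ (fc_r a b v).2.2 - 0
        rw [sub_zero]; exact h'.2.2
    have h1 := fc_r_cong a b _ _ hz
    have e : fc_r a b (0, 0, 0) = (0, 0, 0) := by
      unfold fc_r dot
      simp
    rw [e] at h1
    have h2 := fc_cong_trans (fc_cong_symm (fc_r_r hb v)) h1
    apply hv.2
    obtain ⟨k1, k2, k3⟩ := h2
    have k1' : (p : ℤ) ∣ v.1 - 0 := k1
    have k2' : (p : ℤ) ∣ v.2.1 - 0 := k2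
    have k3' : (p : ℤ) ∣ v.2.2 - 0 := k3
    rw [sub_zero] at k1' k2' k3'
    exact ⟨k1', k2', k3'⟩

theorem fc_cross {p : ℕ} [Fact p.Prime] {v a : T} (hv : Iso p v) (ha : ¬ (p : ℤ) ∣ dot a a)
    (h : (p : ℤ) ∣ dot v a) : jacobiSym (-dot a a) p = 1 := by
  have hp : Prime (p : ℤ) := Nat.prime_iff_prime_int.1 Fact.out
  obtain ⟨hv1, hv2⟩ := hv
  have hx2 : ¬ ((p : ℤ) ∣ v.2.1 * a.2.2 - v.2.2 * a.2.1 ∧ (p : ℤ) ∣ v.2.2 * a.1 - v.1 * a.2.2 ∧
      (p : ℤ) ∣ v.1 * a.2.1 - v.2.1 * a.1) := by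
    rintro ⟨⟨x, hx⟩, ⟨y, hy⟩, ⟨z, hz⟩⟩
    obtain ⟨k, hk⟩ := h
    unfold dot at hk
    apply hv2
    refine ⟨?_, ?_, ?_⟩
    · have : (p : ℤ) ∣ v.1 * dot a a := ⟨a.1 * k - (y * a.2.2 - z * a.2.1), by
        unfold dot
        linear_combination a.1 * hk - a.2.2 * hy + a.2.1 * hz⟩
      rcases hp.dvd_or_dvd this with h1 | h1
      · exact h1
      · exact absurd h1 ha
    · have : (p : ℤ) ∣ v.2.1 * dot a a := ⟨a.2.1 * k - (z * a.1 - x * a.2.2), by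
        unfold dot
        linear_combination a.2.1 * hk - a.1 * hz + a.2.2 * hx⟩
      rcases hp.dvd_or_dvd this with h1 | h1
      · exact h1
      · exact absurd h1 ha
    · have : (p : ℤ) ∣ v.2.2 * dot a a := ⟨a.2.2 * k - (x * a.2.1 - y * a.1), by
        unfold dot
        linear_combination a.2.2 * hk - a.2.1 * hx + a.1 * hy⟩
      rcases hp.dvd_or_dvd this with h1 | h1
      · exact h1
      · exact absurd h1 ha
  have hx1 : Iso p (v.2.1 * a.2.2 - v.2.2 * a.2.1, v.2.2 * a.1 - v.1 * a.2.2,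
      v.1 * a.2.1 - v.2.1 * a.1) := by
    refine ⟨?_, hx2⟩
    obtain ⟨k, hk⟩ := h
    obtain ⟨m, hm⟩ := hv1
    refine ⟨m * dot a a - p * k * k, ?_⟩
    unfold dot at hk hm ⊢
    linear_combination (a.1 * a.1 + a.2.1 * a.2.1 + a.2.2 * a.2.2) * hm -
      (v.1 * a.1 + v.2.1 * a.2.1 + v.2.2 * a.2.2 + p * k) * hk
  have hxv : (p : ℤ) ∣ dot (v.2.1 * a.2.2 - v.2.2 * a.2.1, v.2.2 * a.1 - v.1 * a.2.2,
      v.1 * a.2.1 - v.2.1 * a.1) v := ⟨0, by unfold dot; ring⟩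
  obtain ⟨l, hl, ⟨x, hx⟩, ⟨y, hy⟩, ⟨z, hz⟩⟩ := iso_prop hx1 ⟨hv1, hv2⟩ hxv
  obtain ⟨k, hk⟩ := h
  simp only at hx hy hz
  have m1 : (p : ℤ) ∣ v.1 * (-dot a a - l ^ 2) := ⟨l * x - a.1 * k + a.2.2 * y - a.2.1 * z, by
    unfold dot at hk ⊢
    linear_combination l * hx - a.1 * hk + a.2.2 * hy - a.2.1 * hz⟩
  have m2 : (p : ℤ) ∣ v.2.1 * (-dot a a - l ^ 2) := ⟨l * y - a.2.1 * k + a.1 * z - a.2.2 * x, by
    unfold dot at hk ⊢
    linear_combination l * hy - a.2.1 * hk + a.1 * hz - a.2.2 * hx⟩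
  have m3 : (p : ℤ) ∣ v.2.2 * (-dot a a - l ^ 2) := ⟨l * z - a.2.2 * k + a.2.1 * x - a.1 * y, by
    unfold dot at hk ⊢
    linear_combination l * hz - a.2.2 * hk + a.2.1 * hx - a.1 * hy⟩
  refine sq_sym (-dot a a) l ?_ (fun h' => ha ((dvd_neg).1 h'))
  by_contra hc
  apply hv2
  refine ⟨?_, ?_, ?_⟩
  · rcases hp.dvd_or_dvd m1 with h1 | h1
    · exact h1
    · exact absurd h1 hc
  · rcases hp.dvd_or_dvd m2 with h1 | h1
    · exact h1
    · exact absurd h1 hc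
  · rcases hp.dvd_or_dvd m3 with h1 | h1
    · exact h1
    · exact absurd h1 hc

theorem fc_eq_of_mul {a b : ℤ} (ha : a = 1 ∨ a = -1) (hb : b = 1 ∨ b = -1) (h : a * b = 1) :
    a = b := by
  rcases ha with rfl | rfl <;> rcases hb with rfl | rfl <;> simp_all

theorem fc_chi_r {p : ℕ} [Fact p.Prime] (hp2 : p ≠ 2) {v a : T} {b : ℤ} (hv : Iso p v)
    (ha : ¬ (p : ℤ) ∣ dot a a) (hb : (p : ℤ) ∣ b * dot a a - 1) :
    chi p (fc_r a b v) v = jacobiSym (-dot a a) p := by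
  have hp : Prime (p : ℤ) := Nat.prime_iff_prime_int.1 Fact.out
  have e := fc_r_dot' a b v v
  by_cases h : (p : ℤ) ∣ dot v a
  · rw [fc_cross hv ha h]
    have h1 : (p : ℤ) ∣ dot (fc_r a b v) v := by
      rw [e]
      exact dvd_sub hv.1 (dvd_mul_of_dvd_right h _)
    have hc := chi_deg (v := fc_r a b v) hv h1 1 hp.not_dvd_one (by
      rw [one_mul]
      show (p : ℤ) ∣ v.1 - 2 * b * dot v a * a.1 - v.1
      obtain ⟨k, hk⟩ := h
      exact ⟨-(2 * b * k * a.1), by rw [hk]; ring⟩) (by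
      rw [one_mul]
      show (p : ℤ) ∣ v.2.1 - 2 * b * dot v a * a.2.1 - v.2.1
      obtain ⟨k, hk⟩ := h
      exact ⟨-(2 * b * k * a.2.1), by rw [hk]; ring⟩)
    rw [hc, jacobiSym.one_left]
  · have h1 : ¬ (p : ℤ) ∣ dot (fc_r a b v) v := by
      rw [e]
      intro h'
      have h2 : (p : ℤ) ∣ 2 * b * dot v a * dot v a := by
        have := dvd_sub hv.1 h'
        rwa [sub_sub_cancel] at this
      rcases hp.dvd_or_dvd h2 with h3 | h3
      · rcases hp.dvd_or_dvd h3 with h4 | h4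
        · rcases hp.dvd_or_dvd h4 with h5 | h5
          · exact two_nd hp2 h5
          · have h6 := dvd_sub (dvd_mul_of_dvd_left h5 (dot a a)) hb
            rw [sub_sub_cancel] at h6
            exact hp.not_dvd_one h6
        · exact h h4
      · exact h h3
    rw [chi_nd h1]
    have hx : ¬ (p : ℤ) ∣ 2 * dot (fc_r a b v) v := by
      intro h'
      rcases hp.dvd_or_dvd h' with h6 | h6
      · exact two_nd hp2 h6
      · exact h1 h6
    have hy : ¬ (p : ℤ) ∣ -dot a a := fun h' => ha ((dvd_neg).1 h')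
    obtain ⟨k, hk⟩ := hb
    obtain ⟨m, hm⟩ := hv.1
    have h3 := three_sym (p := p) (2 * dot (fc_r a b v) v) (-dot a a) 1 (2 * dot v a)
      ⟨-(2 * m * dot a a) + 4 * (dot v a) ^ 2 * k, by
        rw [e]
        linear_combination -(2 * dot a a) * hm + 4 * (dot v a) ^ 2 * hk⟩ hx hy hp.not_dvd_one
    rw [jacobiSym.one_left] at h3
    exact fc_eq_of_mul (sym_pm _ hx) (sym_pm _ hy) h3

theorem fc_psi_pos {p : ℕ} {u v : T} (hv : Iso p v) : psi p u v = chi p v u := by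
  unfold psi
  rw [if_pos hv]

theorem fc_psi_neg {p : ℕ} {u v : T} (hv : ¬ Iso p v) : psi p u v = 0 := by
  unfold psi
  rw [if_neg hv]

theorem fc_psi_r {p : ℕ} [Fact p.Prime] (hp2 : p ≠ 2) {u : T} (hu : Iso p u) {a : T} {b : ℤ}
    (ha : ¬ (p : ℤ) ∣ dot a a) (hb : (p : ℤ) ∣ b * dot a a - 1) (v : T) :
    psi p u (fc_r a b v) = jacobiSym (-dot a a) p * psi p u v := by
  by_cases hv : Iso p v
  · have hr := fc_iso_r hb hv
    rw [fc_psi_pos hv, fc_psi_pos hr, ← chi_trans hp2 hr hv hu, fc_chi_r hp2 hv ha hb]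
  · have hr : ¬ Iso p (fc_r a b v) := fun h =>
      hv (fc_iso_cong (fc_r_r hb v) (fc_iso_r hb h))
    rw [fc_psi_neg hv, fc_psi_neg hr, mul_zero]

theorem fc_psi_cong {p : ℕ} [Fact p.Prime] {u : T} (hu : Iso p u) {v w : T}
    (h : fc_cong p v w) : psi p u v = psi p u w :=
  fc_per (fun v w => psi_per p u hu v w) h

/-- the summand is periodic -/
theorem fc_summand {p : ℕ} [Fact p.Prime] {u : T} (hu : Iso p u) (x v w : T) :
    ((psi p u (v.1 + p * w.1, v.2.1 + p * w.2.1, v.2.2 + p * w.2.2) : ℤ) : ℂ) *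
      Complex.exp (2 * π * Complex.I *
        (dot (v.1 + p * w.1, v.2.1 + p * w.2.1, v.2.2 + p * w.2.2) x : ℤ) / p) =
    ((psi p u v : ℤ) : ℂ) * Complex.exp (2 * π * Complex.I * (dot v x : ℤ) / p) := by
  have hp0 : 0 < p := (Fact.out : p.Prime).pos
  have hc : fc_cong p (v.1 + p * w.1, v.2.1 + p * w.2.1, v.2.2 + p * w.2.2) v :=
    ⟨⟨w.1, by ring⟩, ⟨w.2.1, by ring⟩, ⟨w.2.2, by ring⟩⟩
  rw [fc_psi_cong hu hc, fc_exp hp0 (fc_dot_cong hc (fc_cong_refl p x))]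

/-- the Fourier transform and reflections -/
theorem fc_FT_r {p : ℕ} [Fact p.Prime] (hp2 : p ≠ 2) {u : T} (hu : Iso p u) {a : T} {b : ℤ}
    (ha : ¬ (p : ℤ) ∣ dot a a) (hb : (p : ℤ) ∣ b * dot a a - 1) {w w' : T}
    (hw : fc_cong p w' (fc_r a b w)) :
    FT p (fun v => ((psi p u v : ℤ) : ℂ)) w' =
      (jacobiSym (-dot a a) p : ℤ) * FT p (fun v => ((psi p u v : ℤ) : ℂ)) w := by
  have hp0 : 0 < p := (Fact.out : p.Prime).pos
  unfold FT
  rw [← fc_cv hp0 (Φ := fun v => ((psi p u v : ℤ) : ℂ) *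
    Complex.exp (2 * π * Complex.I * (dot v w' : ℤ) / p)) (fun v x => fc_summand hu w' v x)
    (fc_r a b) (fc_r a b) (fun v x h => fc_r_cong a b v x h) (fun v x h => fc_r_cong a b v x h)
    (fc_r_r hb) (fc_r_r hb), Finset.mul_sum]
  refine Finset.sum_congr rfl fun v _ => ?_
  show ((psi p u (fc_r a b v) : ℤ) : ℂ) *
    Complex.exp (2 * π * Complex.I * (dot (fc_r a b v) w' : ℤ) / p) = _
  have h1 : (p : ℤ) ∣ dot (fc_r a b v) w' - dot v w := by
    have h2 := fc_dot_cong (fc_cong_refl p (fc_r a b v)) hw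
    rw [fc_r_dot] at h2
    obtain ⟨k, hk⟩ := h2
    obtain ⟨m, hm⟩ := hb
    exact ⟨k + 4 * b * dot v a * dot w a * m, by
      linear_combination hk + 4 * b * dot v a * dot w a * hm⟩
  rw [fc_exp hp0 h1, fc_psi_r hp2 hu ha hb, Int.cast_mul, mul_assoc]

/-- the Fourier transform and homotheties -/
theorem fc_FT_sm {p : ℕ} [Fact p.Prime] (hp2 : p ≠ 2) {u : T} (hu : Iso p u) {l m : ℤ}
    (hlm : (p : ℤ) ∣ l * m - 1) {w w' : T} (hw : fc_cong p w (sm l w')) :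
    FT p (fun v => ((psi p u v : ℤ) : ℂ)) w' =
      (jacobiSym l p : ℤ) * FT p (fun v => ((psi p u v : ℤ) : ℂ)) w := by
  have hp0 : 0 < p := (Fact.out : p.Prime).pos
  have hs : ∀ c : ℤ, ∀ v x : T, fc_cong p v x → fc_cong p (sm c v) (sm c x) := by
    rintro c v x ⟨⟨i, hi⟩, ⟨j, hj⟩, ⟨k, hk⟩⟩
    refine ⟨⟨c * i, ?_⟩, ⟨c * j, ?_⟩, ⟨c * k, ?_⟩⟩
    · show c * v.1 - c * x.1 = _
      linear_combination c * hi
    · show c * v.2.1 - c * x.2.1 = _
      linear_combination c * hj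
    · show c * v.2.2 - c * x.2.2 = _
      linear_combination c * hk
  have hss : ∀ c d : ℤ, (p : ℤ) ∣ c * d - 1 → ∀ v : T, fc_cong p (sm c (sm d v)) v := by
    rintro c d ⟨k, hk⟩ v
    refine ⟨⟨k * v.1, ?_⟩, ⟨k * v.2.1, ?_⟩, ⟨k * v.2.2, ?_⟩⟩
    · show c * (d * v.1) - v.1 = _
      linear_combination v.1 * hk
    · show c * (d * v.2.1) - v.2.1 = _
      linear_combination v.2.1 * hk
    · show c * (d * v.2.2) - v.2.2 = _
      linear_combination v.2.2 * hk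
  unfold FT
  rw [← fc_cv hp0 (Φ := fun v => ((psi p u v : ℤ) : ℂ) *
    Complex.exp (2 * π * Complex.I * (dot v w' : ℤ) / p)) (fun v x => fc_summand hu w' v x)
    (sm l) (sm m) (hs l) (hs m) (hss l m hlm) (hss m l (by rw [mul_comm]; exact hlm)),
    Finset.mul_sum]
  refine Finset.sum_congr rfl fun v _ => ?_
  show ((psi p u (sm l v) : ℤ) : ℂ) *
    Complex.exp (2 * π * Complex.I * (dot (sm l v) w' : ℤ) / p) = _
  have h1 : (p : ℤ) ∣ dot (sm l v) w' - dot v w := by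
    obtain ⟨k, hk⟩ := fc_dot_cong (fc_cong_refl p v) hw
    have e : dot (sm l v) w' = dot v (sm l w') := by
      unfold dot sm
      ring
    exact ⟨-k, by rw [e]; linear_combination -hk⟩
  rw [fc_exp hp0 h1, psi_sm p hp2 u hu, Int.cast_mul, mul_assoc]

theorem fc_inv {p : ℕ} [Fact p.Prime] {x : ℤ} (hx : ¬ (p : ℤ) ∣ x) :
    ∃ b : ℤ, (p : ℤ) ∣ b * x - 1 := by
  obtain ⟨b, hb⟩ := ZMod.intCast_surjective ((x : ZMod p)⁻¹)
  refine ⟨b, ?_⟩
  rw [← ZMod.intCast_zmod_eq_zero_iff_dvd] at hx ⊢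
  push_cast
  rw [hb, inv_mul_cancel₀ hx, sub_self]

/-- an orthogonal vector of given square class -/
theorem fc_exists_nd {p : ℕ} [Fact p.Prime] (hp2 : p ≠ 2) {w : T} (hw : ¬ (p : ℤ) ∣ dot w w) :
    ∃ a : T, (p : ℤ) ∣ dot w a ∧ ¬ (p : ℤ) ∣ dot a a ∧ jacobiSym (-dot a a) p = -1 := by
  have hp : Prime (p : ℤ) := Nat.prime_iff_prime_int.1 Fact.out
  have h1 : ∃ c : T, dot w c = 0 ∧ ¬ (p : ℤ) ∣ dot c c := by
    by_contra hc
    push Not at hc
    have k1 := hc (w.2.1, -w.1, 0) (by unfold dot; ring)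
    have k2 := hc (w.2.2, 0, -w.1) (by unfold dot; ring)
    have k3 := hc (0, w.2.2, -w.2.1) (by unfold dot; ring)
    have k4 : (p : ℤ) ∣ 2 * dot w w := by
      have := dvd_add (dvd_add k1 k2) k3
      refine dvd_eq this ?_
      unfold dot
      ring
    rcases hp.dvd_or_dvd k4 with h5 | h5
    · exact two_nd hp2 h5
    · exact hw h5
  obtain ⟨c, hc1, hc2⟩ := h1
  have hF : ringChar (ZMod p) ≠ 2 := by
    rw [ZMod.ringChar_zmod_n]
    exact hp2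
  obtain ⟨n, hn⟩ := FiniteField.exists_nonsquare hF
  have hcz : ((dot c c : ℤ) : ZMod p) ≠ 0 := by
    rw [Ne, ZMod.intCast_zmod_eq_zero_iff_dvd]; exact hc2
  have hwz : ((dot w w : ℤ) : ZMod p) ≠ 0 := by
    rw [Ne, ZMod.intCast_zmod_eq_zero_iff_dvd]; exact hw
  have hcard : Fintype.card (ZMod p) % 2 = 1 := by
    rw [ZMod.card]
    rcases (Fact.out : p.Prime).eq_two_or_odd with h | h
    · exact absurd h hp2
    · exact h
  obtain ⟨x, y, hxy⟩ := FiniteField.exists_root_sum_quadratic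
    (f := Polynomial.C ((dot c c : ℤ) : ZMod p) * Polynomial.X ^ 2 + Polynomial.C 0 * Polynomial.X +
      Polynomial.C n)
    (g := Polynomial.C (((dot w w : ℤ) : ZMod p) * ((dot c c : ℤ) : ZMod p)) * Polynomial.X ^ 2 +
      Polynomial.C 0 * Polynomial.X + Polynomial.C 0)
    (Polynomial.degree_quadratic hcz) (Polynomial.degree_quadratic (mul_ne_zero hwz hcz)) hcard
  simp only [Polynomial.eval_add, Polynomial.eval_mul, Polynomial.eval_C, Polynomial.eval_pow,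
    Polynomial.eval_X] at hxy
  obtain ⟨x, rfl⟩ := ZMod.intCast_surjective x
  obtain ⟨y, rfl⟩ := ZMod.intCast_surjective y
  have hdd : dot (x * c.1 + y * (w.2.1 * c.2.2 - w.2.2 * c.2.1),
      x * c.2.1 + y * (w.2.2 * c.1 - w.1 * c.2.2), x * c.2.2 + y * (w.1 * c.2.1 - w.2.1 * c.1))
      (x * c.1 + y * (w.2.1 * c.2.2 - w.2.2 * c.2.1),
      x * c.2.1 + y * (w.2.2 * c.1 - w.1 * c.2.2), x * c.2.2 + y * (w.1 * c.2.1 - w.2.1 * c.1)) =
      x ^ 2 * dot c c + y ^ 2 * (dot w w * dot c c) := by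
    unfold dot at hc1 ⊢
    linear_combination -(y ^ 2 * (w.1 * c.1 + w.2.1 * c.2.1 + w.2.2 * c.2.2)) * hc1
  have hval : ((-(x ^ 2 * dot c c + y ^ 2 * (dot w w * dot c c)) : ℤ) : ZMod p) = n := by
    push_cast
    linear_combination -hxy
  have hnz : n ≠ 0 := fun h => hn (h ▸ IsSquare.zero)
  refine ⟨(x * c.1 + y * (w.2.1 * c.2.2 - w.2.2 * c.2.1),
    x * c.2.1 + y * (w.2.2 * c.1 - w.1 * c.2.2), x * c.2.2 + y * (w.1 * c.2.1 - w.2.1 * c.1)),
    ?_, ?_, ?_⟩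
  · refine ⟨0, ?_⟩
    unfold dot at hc1 ⊢
    linear_combination x * hc1
  · rw [hdd]
    intro h
    apply hnz
    rw [← hval, ZMod.intCast_zmod_eq_zero_iff_dvd]
    exact (dvd_neg).2 h
  · rw [hdd, ← jacobiSym.legendreSym.to_jacobiSym, legendreSym.eq_neg_one_iff, hval]
    exact hn

theorem fc_exists {p : ℕ} [Fact p.Prime] (hp2 : p ≠ 2) {w : T} (hw : ¬ Iso p w) :
    ∃ a : T, (p : ℤ) ∣ dot w a ∧ ¬ (p : ℤ) ∣ dot a a ∧ jacobiSym (-dot a a) p = -1 := by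
  by_cases h : (p : ℤ) ∣ dot w w
  · have h0 : (p : ℤ) ∣ w.1 ∧ (p : ℤ) ∣ w.2.1 ∧ (p : ℤ) ∣ w.2.2 := by
      by_contra hc
      exact hw ⟨h, hc⟩
    have hp : Prime (p : ℤ) := Nat.prime_iff_prime_int.1 Fact.out
    obtain ⟨a, _, ha2, ha3⟩ := fc_exists_nd (p := p) hp2 (w := (1, 0, 0)) (by
      unfold dot
      simpa using hp.not_dvd_one)
    refine ⟨a, ?_, ha2, ha3⟩
    unfold dot
    exact dvd_add (dvd_add (dvd_mul_of_dvd_left h0.1 _) (dvd_mul_of_dvd_left h0.2.1 _))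
      (dvd_mul_of_dvd_left h0.2.2 _)
  · exact fc_exists_nd hp2 h

/-- the genus symbol modulo `p` is an eigenfunction of the Fourier transform -/
theorem FC (p : ℕ) [Fact p.Prime] (hp2 : p ≠ 2) (u : T) (hu : Iso p u) :
    ∃ γ : ℂ, ∀ w : T, FT p (fun v => ((psi p u v : ℤ) : ℂ)) w = γ * (psi p u w : ℤ) := by
  have hp : Prime (p : ℤ) := Nat.prime_iff_prime_int.1 Fact.out
  refine ⟨FT p (fun v => ((psi p u v : ℤ) : ℂ)) u, fun w => ?_⟩
  by_cases hw : Iso p w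
  · by_cases h : (p : ℤ) ∣ dot w u
    · obtain ⟨l, hl, h1, h2, h3⟩ := iso_prop hw hu h
      obtain ⟨m, hm⟩ := fc_inv hl
      have e1 := fc_FT_sm hp2 hu (l := l) (m := m) (by rw [mul_comm]; exact hm) (w := w) (w' := u)
        ⟨h1, h2, h3⟩
      rw [fc_psi_pos hw, chi_deg hu h l hl h1 h2, e1]
      rcases sym_pm l hl with h4 | h4 <;> rw [h4] <;> push_cast <;> ring
    · have hdd : dot (u.1 - w.1, u.2.1 - w.2.1, u.2.2 - w.2.2)
          (u.1 - w.1, u.2.1 - w.2.1, u.2.2 - w.2.2) = dot u u + dot w w - 2 * dot w u := by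
        unfold dot
        ring
      have ha : ¬ (p : ℤ) ∣ dot (u.1 - w.1, u.2.1 - w.2.1, u.2.2 - w.2.2)
          (u.1 - w.1, u.2.1 - w.2.1, u.2.2 - w.2.2) := by
        rw [hdd]
        intro h'
        have h2 : (p : ℤ) ∣ 2 * dot w u := by
          have := dvd_sub (dvd_add hu.1 hw.1) h'
          rwa [sub_sub_cancel] at this
        rcases hp.dvd_or_dvd h2 with h3 | h3
        · exact two_nd hp2 h3
        · exact h h3
      obtain ⟨b, hb⟩ := fc_inv ha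
      have hua : dot u (u.1 - w.1, u.2.1 - w.2.1, u.2.2 - w.2.2) = dot u u - dot w u := by
        unfold dot
        ring
      have hc : fc_cong p w (fc_r (u.1 - w.1, u.2.1 - w.2.1, u.2.2 - w.2.2) b u) := by
        obtain ⟨k, hk⟩ := hb
        obtain ⟨i, hi⟩ := hu.1
        obtain ⟨j, hj⟩ := hw.1
        rw [hdd] at hk
        refine ⟨⟨(k + b * i - b * j) * (u.1 - w.1), ?_⟩, ⟨(k + b * i - b * j) * (u.2.1 - w.2.1), ?_⟩,
          ⟨(k + b * i - b * j) * (u.2.2 - w.2.2), ?_⟩⟩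
        · show w.1 - (u.1 - 2 * b * dot u (u.1 - w.1, u.2.1 - w.2.1, u.2.2 - w.2.2) *
            (u.1 - w.1)) = _
          rw [hua]
          linear_combination (u.1 - w.1) * hk + b * (u.1 - w.1) * hi - b * (u.1 - w.1) * hj
        · show w.2.1 - (u.2.1 - 2 * b * dot u (u.1 - w.1, u.2.1 - w.2.1, u.2.2 - w.2.2) *
            (u.2.1 - w.2.1)) = _
          rw [hua]
          linear_combination (u.2.1 - w.2.1) * hk + b * (u.2.1 - w.2.1) * hi -
            b * (u.2.1 - w.2.1) * hj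
        · show w.2.2 - (u.2.2 - 2 * b * dot u (u.1 - w.1, u.2.1 - w.2.1, u.2.2 - w.2.2) *
            (u.2.2 - w.2.2)) = _
          rw [hua]
          linear_combination (u.2.2 - w.2.2) * hk + b * (u.2.2 - w.2.2) * hi -
            b * (u.2.2 - w.2.2) * hj
      rw [fc_FT_r hp2 hu ha hb hc, fc_psi_cong hu hc, fc_psi_r hp2 hu ha hb, fc_psi_pos hu,
        chi_self hu]
      push_cast
      ring
  · rw [fc_psi_neg hw]
    obtain ⟨a, ha1, ha2, ha3⟩ := fc_exists hp2 hw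
    obtain ⟨b, hb⟩ := fc_inv ha2
    have hc : fc_cong p w (fc_r a b w) := by
      obtain ⟨k, hk⟩ := ha1
      refine ⟨⟨2 * b * k * a.1, ?_⟩, ⟨2 * b * k * a.2.1, ?_⟩, ⟨2 * b * k * a.2.2, ?_⟩⟩
      · show w.1 - (w.1 - 2 * b * dot w a * a.1) = _
        rw [hk]; ring
      · show w.2.1 - (w.2.1 - 2 * b * dot w a * a.2.1) = _
        rw [hk]; ring
      · show w.2.2 - (w.2.2 - 2 * b * dot w a * a.2.2) = _
        rw [hk]; ring
    have e := fc_FT_r hp2 hu ha2 hb hc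
    rw [ha3] at e
    push_cast at e ⊢
    have e2 : FT p (fun v => ((psi p u v : ℤ) : ℂ)) w = 0 := by linear_combination e / 2
    rw [e2, mul_zero]

end Pool.Agent.GNF
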