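import Pool.Agent.Lib_helper7.GNF.D
import Pool.Agent.Lib_helper7.GNF.P.FA
import Pool.Agent.Lib_helper7.GNF.P.FC

set_option autoImplicit false

namespace Pool.Agent.GNF

open Finset Pool.Agent.GEN
open scoped Real

theorem fd_jac (c : ℤ) (S : Finset ℕ) (hS : ∀ p ∈ S, p ≠ 0) :
    jacobiSym c (∏ p ∈ S, p) = ∏ p ∈ S, jacobiSym c p := by
  classical
  induction S using Finset.induction_on with
  | empty => simp
  | insert p S hp ih =>
    rw [Finset.prod_insert hp, Finset.prod_insert hp, jacobiSym.mul_right', ih]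
    · intro q hq; exact hS q (Finset.mem_insert_of_mem hq)
    · exact hS p (Finset.mem_insert_self p S)
    · exact Finset.prod_ne_zero_iff.2 (fun q hq => hS q (Finset.mem_insert_of_mem hq))

theorem fd_sm (S : Finset ℕ) (u : T) (hS : ∀ p ∈ S, p.Prime ∧ p ≠ 2 ∧ Iso p u) (c : ℤ) (v : T) :
    ∏ p ∈ S, psi p u (sm c v) = (∏ p ∈ S, jacobiSym c p) * ∏ p ∈ S, psi p u v := by
  rw [← Finset.prod_mul_distrib]
  refine Finset.prod_congr rfl ?_
  intro p hp
  obtain ⟨h1, h2, h3⟩ := hS p hp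
  haveI : Fact p.Prime := ⟨h1⟩
  exact psi_sm p h2 u h3 c v

theorem fd_per (S : Finset ℕ) (u : T) (hS : ∀ p ∈ S, p.Prime ∧ p ≠ 2 ∧ Iso p u) :
    Per (∏ p ∈ S, p) (fun v => ((∏ p ∈ S, psi p u v : ℤ) : ℂ)) := by
  intro v w
  have : ∏ p ∈ S, psi p u (v.1 + (∏ p ∈ S, p : ℕ) * w.1, v.2.1 + (∏ p ∈ S, p : ℕ) * w.2.1,
      v.2.2 + (∏ p ∈ S, p : ℕ) * w.2.2) = ∏ p ∈ S, psi p u v := by
    refine Finset.prod_congr rfl ?_
    intro p hp
    obtain ⟨h1, h2, h3⟩ := hS p hp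
    haveI : Fact p.Prime := ⟨h1⟩
    obtain ⟨m, hm⟩ : p ∣ ∏ p ∈ S, p := Finset.dvd_prod_of_mem _ hp
    have := psi_per p u h3 v (m * w.1, m * w.2.1, m * w.2.2)
    rw [hm, ← this]
    congr 1
    ext
    · push_cast; ring
    · push_cast; ring
    · push_cast; ring
  exact congrArg (fun z : ℤ => (z : ℂ)) this

theorem fd_main (S : Finset ℕ) (u : T) (hS : ∀ p ∈ S, p.Prime ∧ p ≠ 2 ∧ Iso p u) :
    ∃ γ : ℂ, ∀ w : T, FT (∏ p ∈ S, p) (fun v => ((∏ p ∈ S, psi p u v : ℤ) : ℂ)) w =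
      γ * (∏ p ∈ S, psi p u w : ℤ) := by
  classical
  induction S using Finset.induction_on with
  | empty =>
    refine ⟨1, fun w => ?_⟩
    have hI : Ico (0 : ℤ) ((1 : ℕ) : ℤ) = {0} := by decide
    simp only [FT, cube, Finset.prod_empty]
    rw [hI]
    simp [dot]
  | insert p S hp ih =>
    have hS' : ∀ q ∈ S, q.Prime ∧ q ≠ 2 ∧ Iso q u := fun q hq => hS q (Finset.mem_insert_of_mem hq)
    obtain ⟨γ, hγ⟩ := ih hS'
    obtain ⟨h1, h2, h3⟩ := hS p (Finset.mem_insert_self p S)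
    haveI : Fact p.Prime := ⟨h1⟩
    obtain ⟨γp, hγp⟩ := FC p h2 u h3
    set N : ℕ := ∏ q ∈ S, q with hN
    have hNpos : 0 < N := Finset.prod_pos (fun q hq => (hS' q hq).1.pos)
    have hc : Nat.Coprime p N := by
      rw [hN]
      apply Nat.Coprime.prod_right
      intro q hq
      rw [Nat.coprime_primes h1 (hS' q hq).1]
      rintro rfl
      exact hp hq
    obtain ⟨a, b, hab⟩ : IsCoprime (p : ℤ) (N : ℤ) := Nat.isCoprime_iff_coprime.2 hc
    have e1 : (N : ℤ) * b ≡ 1 [ZMOD p] := by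
      apply (Int.modEq_iff_dvd).2
      exact ⟨a, by linear_combination -hab⟩
    have e2 : (p : ℤ) * a ≡ 1 [ZMOD N] := by
      apply (Int.modEq_iff_dvd).2
      exact ⟨b, by linear_combination -hab⟩
    have perF : Per p (fun v => ((psi p u v : ℤ) : ℂ)) := by
      intro v w
      exact congrArg (fun z : ℤ => (z : ℂ)) (psi_per p u h3 v w)
    have perG := fd_per S u hS'
    refine ⟨γp * (jacobiSym b p : ℤ) * γ * (∏ q ∈ S, jacobiSym a q : ℤ), fun w => ?_⟩
    have key := FA p N h1.pos hNpos hc (fun v => ((psi p u v : ℤ) : ℂ))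
      (fun v => ((∏ q ∈ S, psi q u v : ℤ) : ℂ)) perF perG a b e1 e2 w
    have hfun : (fun v => ((∏ q ∈ insert p S, psi q u v : ℤ) : ℂ)) =
        fun v => ((psi p u v : ℤ) : ℂ) * ((∏ q ∈ S, psi q u v : ℤ) : ℂ) := by
      funext v
      rw [Finset.prod_insert hp]
      push_cast
      rfl
    rw [hfun, Finset.prod_insert hp, key, hγp, hγ, psi_sm p h2 u h3 b w, fd_sm S u hS' a w,
      Finset.prod_insert hp]
    push_cast
    ring

theorem fd_hyp (d : ℕ) (h2 : d % 2 = 1) (u : T)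
    (hu : ∀ p ∈ d.primeFactors, Iso p u) : ∀ p ∈ d.primeFactors, p.Prime ∧ p ≠ 2 ∧ Iso p u := by
  intro p hp
  refine ⟨Nat.prime_of_mem_primeFactors hp, ?_, hu p hp⟩
  rintro rfl
  have := Nat.dvd_of_mem_primeFactors hp
  omega

theorem Psi_sm (d : ℕ) (hs : Squarefree d) (h2 : d % 2 = 1) (u : T)
    (hu : ∀ p ∈ d.primeFactors, Iso p u) (c : ℤ) (v : T) :
    Psi d u (sm c v) = jacobiSym c d * Psi d u v := by
  have h := fd_sm d.primeFactors u (fd_hyp d h2 u hu) c v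
  have hj := fd_jac c d.primeFactors (fun p hp => (Nat.prime_of_mem_primeFactors hp).ne_zero)
  rw [Nat.prod_primeFactors_of_squarefree hs] at hj
  rw [← hj] at h
  exact h

theorem Psi_per (d : ℕ) (hs : Squarefree d) (h2 : d % 2 = 1) (u : T)
    (hu : ∀ p ∈ d.primeFactors, Iso p u) : Per d (fun v => ((Psi d u v : ℤ) : ℂ)) := by
  have h := fd_per d.primeFactors u (fd_hyp d h2 u hu)
  rw [Nat.prod_primeFactors_of_squarefree hs] at h
  exact h

/-- the product of the genus symbols over the primes of `d` is an eigenfunction of the Fourier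
transform -/
theorem FD (d : ℕ) (hs : Squarefree d) (h2 : d % 2 = 1) (u : T)
    (hu : ∀ p ∈ d.primeFactors, Iso p u) :
    ∃ γ : ℂ, ∀ w : T, FT d (fun v => ((Psi d u v : ℤ) : ℂ)) w = γ * (Psi d u w : ℤ) := by
  have h := fd_main d.primeFactors u (fd_hyp d h2 u hu)
  rw [Nat.prod_primeFactors_of_squarefree hs] at h
  exact h

end Pool.Agent.GNF
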