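import Pool.Agent.Lib_helper7.GNF.D2
import Pool.Agent.Lib_helper7.GNF.P.FD

set_option autoImplicit false

namespace Pool.Agent.GNF

open Finset Pool.Agent.GEN

theorem ra_mem (N : ℕ) (v : T) : v ∈ sph N ↔ dot v v = N := by
  unfold sph
  rw [Finset.mem_filter]
  constructor
  · intro h
    exact h.2
  · intro h
    refine ⟨?_, h⟩
    obtain ⟨x, y, z⟩ := v
    have h' : x * x + y * y + z * z = N := h
    have hb : ∀ a : ℤ, a * a ≤ N → -(N : ℤ) ≤ a ∧ a ≤ N := by
      intro a ha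
      constructor
      · by_contra hc
        push Not at hc
        nlinarith [Int.natCast_nonneg N]
      · by_contra hc
        push Not at hc
        nlinarith [Int.natCast_nonneg N]
    have hx := hb x (by nlinarith [mul_self_nonneg y, mul_self_nonneg z])
    have hy := hb y (by nlinarith [mul_self_nonneg x, mul_self_nonneg z])
    have hz := hb z (by nlinarith [mul_self_nonneg x, mul_self_nonneg y])
    simp only [Finset.mem_product, Finset.mem_Icc]
    exact ⟨hx, hy, hz⟩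

/-- sums over the sphere of a function supported on the doubles -/
theorem ra_sum (N : ℕ) (f : T → ℂ) (hf : ∀ v : T, f v ≠ 0 → ∃ v' : T, v = sm 2 v') :
    ∑ v ∈ sph (4 * N), f v = ∑ v ∈ sph N, f (sm 2 v) := by
  have hinj : Function.Injective (sm 2) := by
    rintro ⟨x, y, z⟩ ⟨x', y', z'⟩ h
    simp only [sm, Prod.mk.injEq] at h
    obtain ⟨h1, h2, h3⟩ := h
    have e1 : x = x' := by omega
    have e2 : y = y' := by omega
    have e3 : z = z' := by omega
    rw [e1, e2, e3]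
  have hd : ∀ v : T, dot (sm 2 v) (sm 2 v) = 4 * dot v v := by
    intro v
    unfold dot sm
    ring
  rw [← Finset.sum_image (s := sph N) (g := sm 2) (f := f) (fun a _ b _ hab => hinj hab)]
  symm
  refine Finset.sum_subset ?_ ?_
  · intro v hv
    rw [Finset.mem_image] at hv
    obtain ⟨v', hv', rfl⟩ := hv
    rw [ra_mem] at hv' ⊢
    rw [hd, hv']
    push_cast
    ring
  · intro v hv hnv
    by_contra hne
    obtain ⟨v', rfl⟩ := hf v hne
    apply hnv
    rw [Finset.mem_image]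
    refine ⟨v', ?_, rfl⟩
    rw [ra_mem] at hv ⊢
    rw [hd] at hv
    push_cast at hv
    omega

theorem ra_two (d : ℕ) (h8 : d % 8 = 1) : jacobiSym 2 d = 1 := by
  have hodd : Odd d := Nat.odd_iff.2 (by omega)
  rw [jacobiSym.at_two hodd]
  have h : (d : ZMod 8) = 1 := by
    have h1 : ((d % 8 : ℕ) : ZMod 8) = (d : ZMod 8) := ZMod.natCast_mod d 8
    rw [← h1, h8]
    norm_num
  rw [h]
  decide

theorem ra_k2 (x : ℤ) : k2 (2 * x) = (j2 x : ℂ) := by
  unfold k2 j2
  have h : (2 * x) % 16 = 2 * (x % 8) := by omega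
  rw [h]
  have h0 : 0 ≤ x % 8 := Int.emod_nonneg _ (by norm_num)
  have h1 : x % 8 < 8 := Int.emod_lt_of_pos _ (by norm_num)
  generalize x % 8 = r at h0 h1
  interval_cases r <;> norm_num

theorem ra_e8 (x : ℤ) : e8 (2 * x) = (q4 x : ℂ) := by
  unfold e8 q4
  have h : (2 * x) % 16 = 2 * (x % 8) := by omega
  rw [h]
  have h0 : 0 ≤ x % 8 := Int.emod_nonneg _ (by norm_num)
  have h1 : x % 8 < 8 := Int.emod_lt_of_pos _ (by norm_num)
  generalize x % 8 = r at h0 h1
  interval_cases r <;> norm_num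

theorem ra_o2 (x : ℤ) : o2 (2 * x) = if x % 2 = 1 then 1 else 0 := by
  unfold o2
  by_cases h : x % 2 = 1
  · rw [if_pos h, if_pos (by omega)]
  · rw [if_neg h, if_neg (by omega)]

theorem ra_A0 (v : T) : A 0 (sm 2 v) = (w3 v : ℂ) := by
  show o2 (2 * v.1) * k2 (2 * v.2.1) * k2 (2 * v.2.2) = _
  rw [ra_o2, ra_k2, ra_k2]
  unfold w3
  by_cases h : v.1 % 2 = 1
  · rw [if_pos h, if_pos h]
    push_cast
    ring
  · rw [if_neg h, if_neg h]
    push_cast
    ring

theorem ra_A5 (v : T) : A 5 (sm 2 v) = (w1 v : ℂ) := by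
  show o2 (2 * v.1) * e8 (2 * v.2.1) * e8 (2 * v.2.2) = _
  rw [ra_o2, ra_e8, ra_e8]
  unfold w1
  by_cases h : v.1 % 2 = 1
  · rw [if_pos h, if_pos h]
    push_cast
    ring
  · rw [if_neg h, if_neg h]
    push_cast
    ring

theorem ra_o2_even (x : ℤ) (h : o2 x ≠ 0) : x % 2 = 0 := by
  unfold o2 at h
  by_contra h'
  exact h (if_neg (by omega))

theorem ra_k2_even (x : ℤ) (h : k2 x ≠ 0) : x % 2 = 0 := by
  unfold k2 at h
  by_contra h'
  rw [if_neg (by omega), if_neg (by omega)] at h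
  exact h rfl

theorem ra_e8_even (x : ℤ) (h : e8 x ≠ 0) : x % 2 = 0 := by
  unfold e8 at h
  by_contra h'
  rw [if_neg (by omega), if_neg (by omega)] at h
  exact h rfl

theorem ra_half (v : T) (h1 : v.1 % 2 = 0) (h2 : v.2.1 % 2 = 0) (h3 : v.2.2 % 2 = 0) :
    ∃ v' : T, v = sm 2 v' := by
  obtain ⟨x, y, z⟩ := v
  refine ⟨(x / 2, y / 2, z / 2), ?_⟩
  simp only at h1 h2 h3
  simp only [sm, Prod.mk.injEq]
  refine ⟨by omega, by omega, by omega⟩

theorem ra_Psi (d : ℕ) (hs : Squarefree d) (h8 : d % 8 = 1) (u : T)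
    (hu : ∀ p ∈ d.primeFactors, Iso p u) (v : T) : Psi d u (sm 2 v) = Psi d u v := by
  rw [Psi_sm d hs (by omega) u hu, ra_two d h8, one_mul]

/-- halving the vectors, `n = 3 mod 8` -/
theorem RA (d : ℕ) (hs : Squarefree d) (h8 : d % 8 = 1) (u : T)
    (hu : ∀ p ∈ d.primeFactors, Iso p u) (N : ℕ) :
    ∑ v ∈ sph (4 * N), A 0 v * (Psi d u v : ℤ) = ((∑ v ∈ sph N, w3 v * Psi d u v : ℤ) : ℂ) := by
  rw [ra_sum N (fun v => A 0 v * ((Psi d u v : ℤ) : ℂ))]
  · rw [Int.cast_sum]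
    refine Finset.sum_congr rfl fun v _ => ?_
    rw [ra_A0, ra_Psi d hs h8 u hu]
    push_cast
    ring
  · intro v hv
    have h0 : A 0 v ≠ 0 := left_ne_zero_of_mul hv
    have h1 : o2 v.1 * k2 v.2.1 * k2 v.2.2 ≠ 0 := h0
    have h2 := left_ne_zero_of_mul h1
    exact ra_half v (ra_o2_even _ (left_ne_zero_of_mul h2)) (ra_k2_even _ (right_ne_zero_of_mul h2))
      (ra_k2_even _ (right_ne_zero_of_mul h1))

/-- halving the vectors, `n = 1 mod 8` -/
theorem RB (d : ℕ) (hs : Squarefree d) (h8 : d % 8 = 1) (u : T)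
    (hu : ∀ p ∈ d.primeFactors, Iso p u) (N : ℕ) :
    ∑ v ∈ sph (4 * N), A 5 v * (Psi d u v : ℤ) = ((∑ v ∈ sph N, w1 v * Psi d u v : ℤ) : ℂ) := by
  rw [ra_sum N (fun v => A 5 v * ((Psi d u v : ℤ) : ℂ))]
  · rw [Int.cast_sum]
    refine Finset.sum_congr rfl fun v _ => ?_
    rw [ra_A5, ra_Psi d hs h8 u hu]
    push_cast
    ring
  · intro v hv
    have h0 : A 5 v ≠ 0 := left_ne_zero_of_mul hv
    have h1 : o2 v.1 * e8 v.2.1 * e8 v.2.2 ≠ 0 := h0
    have h2 := left_ne_zero_of_mul h1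
    exact ra_half v (ra_o2_even _ (left_ne_zero_of_mul h2)) (ra_e8_even _ (right_ne_zero_of_mul h2))
      (ra_e8_even _ (right_ne_zero_of_mul h1))

end Pool.Agent.GNF
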