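import Pool.Agent.Lib_helper7.GNF.D2

set_option autoImplicit false

namespace Pool.Agent.GNF

open Finset Pool.Agent.GEN

/-- the set `B_n` as a finite set -/
noncomputable def rc_B (n : ℕ) : Finset T :=
  (Icc (-(n : ℤ)) n ×ˢ Icc (-(n : ℤ)) n ×ˢ Icc (-(n : ℤ)) n).filter
    (fun v => (n : ℤ) = 2 * v.1 ^ 2 + v.2.1 ^ 2 + 8 * v.2.2 ^ 2)

/-- the sign of the last coordinate -/
def rc_sg (z : ℤ) : ℤ := if z % 2 = 0 then 1 else -1

theorem rc_abs {x n : ℤ} (h : x ^ 2 ≤ n) : -n ≤ x ∧ x ≤ n := by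
  have h1 := Int.le_self_sq x
  have h2 := Int.le_self_sq (-x)
  rw [neg_sq] at h2
  constructor <;> linarith

theorem rc_memB {n : ℕ} {v : T} :
    v ∈ rc_B n ↔ (n : ℤ) = 2 * v.1 ^ 2 + v.2.1 ^ 2 + 8 * v.2.2 ^ 2 := by
  unfold rc_B
  rw [mem_filter, mem_product, mem_product, mem_Icc, mem_Icc, mem_Icc]
  constructor
  · exact fun h => h.2
  · intro h
    have h1 := sq_nonneg v.1
    have h2 := sq_nonneg v.2.1
    have h3 := sq_nonneg v.2.2
    exact ⟨⟨rc_abs (by linarith), rc_abs (by linarith), rc_abs (by linarith)⟩, h⟩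

theorem rc_memS {n : ℕ} {v : T} :
    v ∈ sph n ↔ v.1 ^ 2 + v.2.1 ^ 2 + v.2.2 ^ 2 = (n : ℤ) := by
  unfold sph
  rw [mem_filter, mem_product, mem_product, mem_Icc, mem_Icc, mem_Icc]
  have e : dot v v = v.1 ^ 2 + v.2.1 ^ 2 + v.2.2 ^ 2 := by
    unfold dot
    ring
  rw [e]
  constructor
  · exact fun h => h.2
  · intro h
    have h1 := sq_nonneg v.1
    have h2 := sq_nonneg v.2.1
    have h3 := sq_nonneg v.2.2
    exact ⟨⟨rc_abs (by linarith), rc_abs (by linarith), rc_abs (by linarith)⟩, h⟩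

/-- Tunnell's number as a signed count of `B_n` -/
theorem rc_tc (n : ℕ) : tc n = ∑ v ∈ rc_B n, rc_sg v.2.2 := by
  have hB : (N9003ba20.B n).ncard = (rc_B n).card := by
    have h : N9003ba20.B n = ↑(rc_B n) := by
      ext v
      rw [Finset.mem_coe, rc_memB]
      exact Iff.rfl
    rw [h, Set.ncard_coe_finset]
  have hA : (N9003ba20.A n).ncard = ((rc_B n).filter (fun v => v.2.2 % 2 = 0)).card := by
    have h : (fun v : T => ((v.1, v.2.1, 2 * v.2.2) : T)) '' N9003ba20.A n =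
        ↑((rc_B n).filter (fun v => v.2.2 % 2 = 0)) := by
      ext v
      rw [Finset.mem_coe, mem_filter, rc_memB, Set.mem_image]
      constructor
      · rintro ⟨⟨x, y, z⟩, h, rfl⟩
        have h' : (n : ℤ) = 2 * x ^ 2 + y ^ 2 + 32 * z ^ 2 := h
        refine ⟨?_, ?_⟩
        · show (n : ℤ) = 2 * x ^ 2 + y ^ 2 + 8 * (2 * z) ^ 2
          rw [h']
          ring
        · show 2 * z % 2 = 0
          omega
      · obtain ⟨x, y, z⟩ := v
        rintro ⟨h, h2⟩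
        have h' : (n : ℤ) = 2 * x ^ 2 + y ^ 2 + 8 * z ^ 2 := h
        have h2' : z % 2 = 0 := h2
        obtain ⟨t, rfl⟩ : ∃ t, z = 2 * t := ⟨z / 2, by omega⟩
        refine ⟨(x, y, t), ?_, rfl⟩
        show (n : ℤ) = 2 * x ^ 2 + y ^ 2 + 32 * t ^ 2
        rw [h']
        ring
    have hinj : Function.Injective (fun v : T => ((v.1, v.2.1, 2 * v.2.2) : T)) := by
      rintro ⟨a, b, c⟩ ⟨a', b', c'⟩ h
      simp only [Prod.mk.injEq] at h ⊢
      refine ⟨h.1, h.2.1, by omega⟩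
    rw [← Set.ncard_image_of_injective _ hinj, h, Set.ncard_coe_finset]
  unfold tc
  rw [hA, hB]
  have h1 : ∀ v ∈ rc_B n, rc_sg v.2.2 = 2 * (if v.2.2 % 2 = 0 then 1 else 0) - 1 := by
    intro v _
    unfold rc_sg
    split_ifs <;> norm_num
  rw [sum_congr rfl h1, sum_sub_distrib, ← mul_sum, sum_boole, sum_const, nsmul_eq_mul, mul_one]

theorem rc_j2 {x z : ℤ} (hx : x % 2 = 1) : j2 (x + 2 * z) * j2 (x - 2 * z) = rc_sg z := by
  unfold j2 rc_sg
  split_ifs <;> first | rfl | (exfalso; omega)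

theorem rc_j2' {x z : ℤ} (hx : x % 2 = 1) : j2 (x + 2 * z) * j2 (-x + 2 * z) = rc_sg z := by
  unfold j2 rc_sg
  split_ifs <;> first | rfl | (exfalso; omega)

theorem rc_sq8 (x : ℤ) : x % 2 = 1 ∧ x ^ 2 % 8 = 1 ∨ x % 4 = 0 ∧ x ^ 2 % 8 = 0 ∨
    x % 4 = 2 ∧ x ^ 2 % 8 = 4 := by
  have h : x ^ 2 % 8 = (x % 8) ^ 2 % 8 := by rw [pow_two, pow_two, Int.mul_emod]
  have h8 : x % 8 = 0 ∨ x % 8 = 1 ∨ x % 8 = 2 ∨ x % 8 = 3 ∨ x % 8 = 4 ∨ x % 8 = 5 ∨ x % 8 = 6 ∨
      x % 8 = 7 := by omega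
  rcases h8 with e | e | e | e | e | e | e | e <;> rw [e] at h <;> norm_num at h <;> omega

/-- Tunnell's number as a weighted sum over the sphere, `n = 3 mod 8` -/
theorem RC3 (n : ℕ) (h : n % 8 = 3) : ∑ v ∈ sph n, w3 v = 2 * tc n := by
  classical
  set f1 : T → T := fun v => (v.2.1, v.1 + 2 * v.2.2, v.1 - 2 * v.2.2) with hf1
  set f2 : T → T := fun v => (v.2.1, v.1 + 2 * v.2.2, -v.1 + 2 * v.2.2) with hf2
  have i1 : Function.Injective f1 := by
    rintro ⟨a, b, c⟩ ⟨a', b', c'⟩ hh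
    simp only [hf1, Prod.mk.injEq] at hh ⊢
    refine ⟨by omega, by omega, by omega⟩
  have i2 : Function.Injective f2 := by
    rintro ⟨a, b, c⟩ ⟨a', b', c'⟩ hh
    simp only [hf2, Prod.mk.injEq] at hh ⊢
    refine ⟨by omega, by omega, by omega⟩
  have hodd : ∀ v ∈ rc_B n, v.1 % 2 = 1 ∧ v.2.1 % 2 = 1 := by
    intro v hv
    rw [rc_memB] at hv
    have h1 := rc_sq8 v.1
    have h2 := rc_sq8 v.2.1
    omega
  have hU : sph n = (rc_B n).image f1 ∪ (rc_B n).image f2 := by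
    ext v
    rw [mem_union, mem_image, mem_image, rc_memS]
    obtain ⟨x, y, z⟩ := v
    constructor
    · intro hv
      have hv' : x ^ 2 + y ^ 2 + z ^ 2 = (n : ℤ) := hv
      have hx := rc_sq8 x
      have hy := rc_sq8 y
      have hz := rc_sq8 z
      have ho : x % 2 = 1 ∧ y % 2 = 1 ∧ z % 2 = 1 := by omega
      by_cases h4 : (y + z) % 4 = 0
      · right
        obtain ⟨s, hs⟩ : ∃ s, y + z = 4 * s := ⟨(y + z) / 4, by omega⟩
        obtain ⟨t, ht⟩ : ∃ t, y - z = 2 * t := ⟨(y - z) / 2, by omega⟩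
        have e3 : y = t + 2 * s := by omega
        have e4 : z = -t + 2 * s := by omega
        refine ⟨(t, x, s), ?_, ?_⟩
        · rw [rc_memB]
          show (n : ℤ) = 2 * t ^ 2 + x ^ 2 + 8 * s ^ 2
          rw [← hv', e3, e4]
          ring
        · simp only [hf2, Prod.mk.injEq]
          exact ⟨trivial, e3.symm, e4.symm⟩
      · left
        obtain ⟨s, hs⟩ : ∃ s, y - z = 4 * s := ⟨(y - z) / 4, by omega⟩
        obtain ⟨t, ht⟩ : ∃ t, y + z = 2 * t := ⟨(y + z) / 2, by omega⟩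
        have e3 : y = t + 2 * s := by omega
        have e4 : z = t - 2 * s := by omega
        refine ⟨(t, x, s), ?_, ?_⟩
        · rw [rc_memB]
          show (n : ℤ) = 2 * t ^ 2 + x ^ 2 + 8 * s ^ 2
          rw [← hv', e3, e4]
          ring
        · simp only [hf1, Prod.mk.injEq]
          exact ⟨trivial, e3.symm, e4.symm⟩
    · rintro (⟨⟨a, b, c⟩, hv, e⟩ | ⟨⟨a, b, c⟩, hv, e⟩)
      · rw [rc_memB] at hv
        simp only [hf1, Prod.mk.injEq] at e
        rw [← e.1, ← e.2.1, ← e.2.2]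
        rw [hv]
        ring
      · rw [rc_memB] at hv
        simp only [hf2, Prod.mk.injEq] at e
        rw [← e.1, ← e.2.1, ← e.2.2]
        rw [hv]
        ring
  have hD : Disjoint ((rc_B n).image f1) ((rc_B n).image f2) := by
    rw [disjoint_left]
    intro v hv hv'
    rw [mem_image] at hv hv'
    obtain ⟨⟨a, b, c⟩, h1, rfl⟩ := hv
    obtain ⟨⟨a', b', c'⟩, h2, e⟩ := hv'
    have o1 := (hodd _ h1).1
    have o2 := (hodd _ h2).1
    simp only [hf1, hf2, Prod.mk.injEq] at e o1 o2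
    omega
  rw [hU, sum_union hD, sum_image (fun a _ b _ hab => i1 hab),
    sum_image (fun a _ b _ hab => i2 hab), rc_tc, two_mul]
  congr 1
  · refine sum_congr rfl fun v hv => ?_
    obtain ⟨o1, o2⟩ := hodd v hv
    show (if v.2.1 % 2 = 1 then j2 (v.1 + 2 * v.2.2) * j2 (v.1 - 2 * v.2.2) else 0) = _
    rw [if_pos o2, rc_j2 o1]
  · refine sum_congr rfl fun v hv => ?_
    obtain ⟨o1, o2⟩ := hodd v hv
    show (if v.2.1 % 2 = 1 then j2 (v.1 + 2 * v.2.2) * j2 (-v.1 + 2 * v.2.2) else 0) = _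
    rw [if_pos o2, rc_j2' o1]

/-- Tunnell's number as a weighted sum over the sphere, `n = 1 mod 8` -/
theorem RC1 (n : ℕ) (h : n % 8 = 1) : ∑ v ∈ sph n, w1 v = tc n := by
  classical
  rw [rc_tc, ← sum_filter_add_sum_filter_not (rc_B n) (fun v => (v.1 / 2 - v.2.2) % 2 = 0)]
  have hev : ∀ v ∈ rc_B n, v.1 % 2 = 0 ∧ v.2.1 % 2 = 1 := by
    intro v hv
    rw [rc_memB] at hv
    have h1 := rc_sq8 v.1
    have h2 := rc_sq8 v.2.1
    omega
  have hz : ∑ v ∈ (rc_B n).filter (fun v => ¬ (v.1 / 2 - v.2.2) % 2 = 0), rc_sg v.2.2 = 0 := by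
    refine sum_involution (fun v _ => ((2 * v.2.2, v.2.1, v.1 / 2) : T)) ?_ ?_ ?_ ?_
    · intro v hv
      rw [mem_filter] at hv
      have h1 := hv.2
      unfold rc_sg
      show (if v.2.2 % 2 = 0 then (1 : ℤ) else -1) + (if v.1 / 2 % 2 = 0 then (1 : ℤ) else -1) = 0
      split_ifs <;> first | rfl | (exfalso; omega)
    · intro v hv _ he
      rw [mem_filter] at hv
      have h1 := hv.2
      have h2 : 2 * v.2.2 = v.1 := congrArg Prod.fst he
      omega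
    · intro v hv
      rw [mem_filter, rc_memB] at hv ⊢
      obtain ⟨x, y, z⟩ := v
      have h1 : (n : ℤ) = 2 * x ^ 2 + y ^ 2 + 8 * z ^ 2 := hv.1
      have h2 : ¬ (x / 2 - z) % 2 = 0 := hv.2
      have h3 := (hev (x, y, z) (rc_memB.2 hv.1)).1
      have h3' : x % 2 = 0 := h3
      obtain ⟨t, rfl⟩ : ∃ t, x = 2 * t := ⟨x / 2, by omega⟩
      refine ⟨?_, ?_⟩
      · show (n : ℤ) = 2 * (2 * z) ^ 2 + y ^ 2 + 8 * (2 * t / 2) ^ 2
        have e : 2 * t / 2 = t := by omega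
        rw [e, h1]
        ring
      · show ¬ (2 * z / 2 - 2 * t / 2) % 2 = 0
        omega
    · intro v hv
      rw [mem_filter] at hv
      have h3 := (hev v hv.1).1
      obtain ⟨x, y, z⟩ := v
      show ((2 * (x / 2), y, 2 * z / 2) : T) = (x, y, z)
      have h3' : x % 2 = 0 := h3
      have e1 : 2 * (x / 2) = x := by omega
      have e2 : 2 * z / 2 = z := by omega
      rw [e1, e2]
  rw [hz, add_zero]
  have hL : ∑ v ∈ sph n, w1 v =
      ∑ v ∈ (sph n).filter (fun v => v.2.1 % 4 = 0 ∧ v.2.2 % 4 = 0), w1 v := by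
    symm
    refine sum_filter_of_ne ?_
    intro v _ hne
    by_contra hc
    apply hne
    unfold w1 q4
    split_ifs <;> first | rfl | (exfalso; omega)
  rw [hL]
  refine sum_bij' (fun v _ => ((2 * (v.2.1 / 4 + v.2.2 / 4), v.1, v.2.1 / 4 - v.2.2 / 4) : T))
    (fun v _ => ((v.2.1, 2 * (v.1 / 2 + v.2.2), 2 * (v.1 / 2 - v.2.2)) : T)) ?_ ?_ ?_ ?_ ?_
  · intro v hv
    rw [mem_filter, rc_memS] at hv
    obtain ⟨x, y, z⟩ := v
    obtain ⟨h1, h2, h3⟩ := hv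
    have h1' : x ^ 2 + y ^ 2 + z ^ 2 = (n : ℤ) := h1
    have h2' : y % 4 = 0 := h2
    have h3' : z % 4 = 0 := h3
    obtain ⟨b, rfl⟩ : ∃ b, y = 4 * b := ⟨y / 4, by omega⟩
    obtain ⟨c, rfl⟩ : ∃ c, z = 4 * c := ⟨z / 4, by omega⟩
    rw [mem_filter, rc_memB]
    have e1 : 4 * b / 4 = b := by omega
    have e2 : 4 * c / 4 = c := by omega
    refine ⟨?_, ?_⟩
    · show (n : ℤ) = 2 * (2 * (4 * b / 4 + 4 * c / 4)) ^ 2 + x ^ 2 + 8 * (4 * b / 4 - 4 * c / 4) ^ 2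
      rw [e1, e2, ← h1']
      ring
    · show (2 * (4 * b / 4 + 4 * c / 4) / 2 - (4 * b / 4 - 4 * c / 4)) % 2 = 0
      omega
  · intro v hv
    rw [mem_filter] at hv
    have h4 := (hev v hv.1).1
    rw [rc_memB] at hv
    obtain ⟨x, y, z⟩ := v
    have h1 : (n : ℤ) = 2 * x ^ 2 + y ^ 2 + 8 * z ^ 2 := hv.1
    have h2 : (x / 2 - z) % 2 = 0 := hv.2
    have h3 : x % 2 = 0 := h4
    obtain ⟨t, rfl⟩ : ∃ t, x = 2 * t := ⟨x / 2, by omega⟩
    have e1 : 2 * t / 2 = t := by omega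
    rw [mem_filter, rc_memS]
    refine ⟨?_, ?_, ?_⟩
    · show y ^ 2 + (2 * (2 * t / 2 + z)) ^ 2 + (2 * (2 * t / 2 - z)) ^ 2 = (n : ℤ)
      rw [e1, h1]
      ring
    · show 2 * (2 * t / 2 + z) % 4 = 0
      omega
    · show 2 * (2 * t / 2 - z) % 4 = 0
      omega
  · intro v hv
    rw [mem_filter] at hv
    obtain ⟨x, y, z⟩ := v
    have h2 : y % 4 = 0 := hv.2.1
    have h3 : z % 4 = 0 := hv.2.2
    simp only [Prod.mk.injEq]
    refine ⟨trivial, ?_, ?_⟩ <;> omega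
  · intro v hv
    rw [mem_filter] at hv
    have h4 := (hev v hv.1).1
    obtain ⟨x, y, z⟩ := v
    have h2 : (x / 2 - z) % 2 = 0 := hv.2
    have h3 : x % 2 = 0 := h4
    simp only [Prod.mk.injEq]
    refine ⟨?_, trivial, ?_⟩ <;> omega
  · intro v hv
    rw [mem_filter, rc_memS] at hv
    obtain ⟨x, y, z⟩ := v
    obtain ⟨h1, h2, h3⟩ := hv
    have h1' : x ^ 2 + y ^ 2 + z ^ 2 = (n : ℤ) := h1
    have h2' : y % 4 = 0 := h2
    have h3' : z % 4 = 0 := h3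
    have hx : x % 2 = 1 := by
      have a1 := rc_sq8 x
      have a2 := rc_sq8 y
      have a3 := rc_sq8 z
      omega
    show (if x % 2 = 1 then q4 y * q4 z else 0) = rc_sg (y / 4 - z / 4)
    rw [if_pos hx]
    unfold q4 rc_sg
    split_ifs <;> first | rfl | (exfalso; omega)

end Pool.Agent.GNF
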