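import Pool.Agent.Lib_helper7.GNF.D
import Pool.Agent.Lib_helper7.GNF.P.LA
import Pool.Agent.Lib_helper7.GNF.P.LB

set_option autoImplicit false

namespace Pool.Agent.GNF

open Finset Pool.Agent.GEN
open scoped Real

theorem lc_im {τ : ℂ} (hτ : 0 < τ.im) : 0 < (-1 / τ).im := by
  have hne : τ ≠ 0 := by
    rintro rfl
    simp at hτ
  rw [neg_div, Complex.neg_im, one_div, Complex.inv_im, neg_div, neg_neg]
  exact div_pos hτ (Complex.normSq_pos.2 hne)

theorem lc_im' {τ : ℂ} (hτ : 0 < τ.im) : 0 < (τ + 1).im := by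
  rw [Complex.add_im, Complex.one_im, add_zero]
  exact hτ

theorem lc_J {τ : ℂ} (hτ : 0 < τ.im) : J τ ≠ 0 := by
  have hne : τ ≠ 0 := by
    rintro rfl
    simp at hτ
  unfold J
  rw [Ne, Complex.cpow_eq_zero_iff]
  intro h
  have h1 := h.1
  rw [neg_mul, neg_eq_zero, mul_eq_zero] at h1
  rcases h1 with h1 | h1
  · exact Complex.I_ne_zero h1
  · exact hne h1

theorem lc_J72 (τ : ℂ) : J τ ^ 72 = τ ^ 36 := by
  have h1 : J τ ^ 2 = -Complex.I * τ := by
    unfold J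
    rw [← Complex.cpow_nat_mul]
    norm_num
  have h2 : J τ ^ 72 = (J τ ^ 2) ^ 36 := by rw [← pow_mul]
  rw [h2, h1, mul_pow]
  have h3 : (-Complex.I) ^ 36 = 1 := by
    have h4 : (-Complex.I) ^ 2 = -1 := by rw [neg_sq, Complex.I_sq]
    have h5 : (-Complex.I) ^ 36 = ((-Complex.I) ^ 2) ^ 18 := by rw [← pow_mul]
    rw [h5, h4]
    norm_num
  rw [h3, one_mul]

theorem lc_ze : ze ^ 16 = 1 := by
  unfold ze
  rw [← Complex.exp_nat_mul]
  have h : ((16 : ℕ) : ℂ) * (2 * π * Complex.I / 16) = 2 * π * Complex.I := by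
    push_cast
    ring
  rw [h, Complex.exp_two_pi_mul_I]

theorem lc_ze0 : ze ≠ 0 := Complex.exp_ne_zero _

theorem lc_cS (i : Fin 6) : cS i ≠ 0 := by
  have := lc_ze0
  fin_cases i <;> simp [cS, this]

theorem lc_cT (i : Fin 6) : cT i ≠ 0 := by
  have := lc_ze0
  fin_cases i <;> simp [cT, this]

theorem lc_eT {ε : ℂ} (hε : ε ^ 2 = 1) (i : Fin 6) : eT ε i ^ 2 = 1 := by
  fin_cases i <;> simp [eT, hε]

theorem lc_ne {a : ℂ} (h : a ^ 2 = 1) : a ≠ 0 := by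
  rintro rfl
  norm_num at h

/-- the size of the exponential -/
theorem lc_exp (n : ℕ) (τ : ℂ) : ‖Complex.exp (-(π * Complex.I * n * τ / 16))‖ =
    Real.exp (π * n * τ.im / 16) := by
  rw [Complex.norm_exp]
  congr 1
  have h : -(π * Complex.I * n * τ / 16) = ((-(π * n / 16) : ℝ) : ℂ) * (Complex.I * τ) := by
    push_cast
    ring
  rw [h, Complex.re_ofReal_mul]
  simp only [Complex.mul_re, Complex.I_re, Complex.I_im, zero_mul, one_mul, zero_sub]
  ring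

/-- lower bound near the cusp -/
theorem lc_low {g : ℂ → ℂ} {n : ℕ} (hL : ∃ L : ℂ, L ≠ 0 ∧ ∀ e : ℝ, 0 < e → ∃ Y : ℝ, ∀ τ : ℂ,
    Y ≤ τ.im → ‖g τ * Complex.exp (-(π * Complex.I * n * τ / 16)) - L‖ ≤ e) :
    ∃ (a : ℝ) (Y : ℝ), 0 < a ∧ ∀ τ : ℂ, Y ≤ τ.im → a * Real.exp (-π * n * τ.im / 16) ≤ ‖g τ‖ := by
  obtain ⟨L, hL0, hL1⟩ := hL
  have hpos : 0 < ‖L‖ / 2 := by
    have := norm_pos_iff.2 hL0
    linarith
  obtain ⟨Y, hY⟩ := hL1 _ hpos
  refine ⟨‖L‖ / 2, Y, hpos, fun τ hτ => ?_⟩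
  have h1 := hY τ hτ
  have h2 : ‖L‖ - ‖g τ * Complex.exp (-(π * Complex.I * n * τ / 16))‖ ≤
      ‖g τ * Complex.exp (-(π * Complex.I * n * τ / 16)) - L‖ := by
    rw [← norm_neg (g τ * Complex.exp (-(π * Complex.I * n * τ / 16)) - L), neg_sub]
    exact norm_sub_norm_le _ _
  rw [norm_mul, lc_exp] at h2
  have h3 : ‖L‖ / 2 ≤ ‖g τ‖ * Real.exp (π * n * τ.im / 16) := by linarith
  have h4 : Real.exp (π * n * τ.im / 16) * Real.exp (-π * n * τ.im / 16) = 1 := by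
    rw [← Real.exp_add]
    have : π * n * τ.im / 16 + -π * n * τ.im / 16 = 0 := by ring
    rw [this, Real.exp_zero]
  calc ‖L‖ / 2 * Real.exp (-π * n * τ.im / 16)
      ≤ ‖g τ‖ * Real.exp (π * n * τ.im / 16) * Real.exp (-π * n * τ.im / 16) :=
        mul_le_mul_of_nonneg_right h3 (Real.exp_pos _).le
    _ = ‖g τ‖ := by rw [mul_assoc, h4, mul_one]

/-- the base system has no zeros -/
theorem LC_ne (h : Fin 6 → ℂ → ℂ) (δ ε : ℂ) (hδ : δ ^ 2 = 1) (hε : ε ^ 2 = 1) (H : Sys h δ ε)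
    (hL : ∀ i, ∃ L : ℂ, L ≠ 0 ∧ ∀ e : ℝ, 0 < e → ∃ Y : ℝ, ∀ τ : ℂ, Y ≤ τ.im →
      ‖h i τ * Complex.exp (-(π * Complex.I * oT i * τ / 16)) - L‖ ≤ e) (i : Fin 6) (τ : ℂ)
    (hτ : 0 < τ.im) : h i τ ≠ 0 := by
  have key : ∀ τ : ℂ, 0 < τ.im → (∏ i, h i τ) ^ 4 ≠ 0 := by
    intro τ hτ
    refine LB (fun τ => (∏ i, h i τ) ^ 4) ?_ ?_ ?_ ?_ ?_ τ hτ
    · exact (DifferentiableOn.fun_finsetProd fun i _ => H.hol i).pow 4
    · intro τ hτ
      show (∏ i, h i (-1 / τ)) ^ 4 = τ ^ 36 * (∏ i, h i τ) ^ 4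
      rw [← lc_J72 τ]
      simp only [H.S _ τ hτ, Fin.prod_univ_six]
      have hz : ze ^ 64 = 1 := by
        have : ze ^ 64 = (ze ^ 16) ^ 4 := by rw [← pow_mul]
        rw [this, lc_ze, one_pow]
      have hd : δ ^ 24 = 1 := by
        have : δ ^ 24 = (δ ^ 2) ^ 12 := by rw [← pow_mul]
        rw [this, hδ, one_pow]
      have e : ∀ a b c d e f : ℂ, (δ * cS 0 * J τ ^ 3 * a * (δ * cS 1 * J τ ^ 3 * b) *
          (δ * cS 2 * J τ ^ 3 * c) * (δ * cS 3 * J τ ^ 3 * d) * (δ * cS 4 * J τ ^ 3 * e) *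
          (δ * cS 5 * J τ ^ 3 * f)) ^ 4 = δ ^ 24 * ze ^ 64 * (J τ ^ 72 * (a * b * c * d * e * f) ^ 4) := by
        intro a b c d e f
        have c0 : cS 0 = 1 / 2 := rfl
        have c1 : cS 1 = 2 := rfl
        have c2 : cS 2 = ze ^ 14 := rfl
        have c3 : cS 3 = 4 := rfl
        have c4 : cS 4 = ze ^ 2 := rfl
        have c5 : cS 5 = 1 / 4 := rfl
        rw [c0, c1, c2, c3, c4, c5]
        ring
      rw [e, hz, hd, one_mul, one_mul]
      show J τ ^ 72 * (h 1 τ * h 0 τ * h 4 τ * h 5 τ * h 2 τ * h 3 τ) ^ 4 = _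
      ring
    · intro τ hτ
      show (∏ i, h i (τ + 1)) ^ 4 = (∏ i, h i τ) ^ 4
      simp only [H.T _ τ hτ, Fin.prod_univ_six]
      have hz : ze ^ 48 = 1 := by
        have : ze ^ 48 = (ze ^ 16) ^ 3 := by rw [← pow_mul]
        rw [this, lc_ze, one_pow]
      have hd : ε ^ 16 = 1 := by
        have : ε ^ 16 = (ε ^ 2) ^ 8 := by rw [← pow_mul]
        rw [this, hε, one_pow]
      have e : ∀ a b c d e f : ℂ, (eT ε 0 * cT 0 * a * (eT ε 1 * cT 1 * b) *
          (eT ε 2 * cT 2 * c) * (eT ε 3 * cT 3 * d) * (eT ε 4 * cT 4 * e) *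
          (eT ε 5 * cT 5 * f)) ^ 4 = ε ^ 16 * ze ^ 48 * (a * b * c * d * e * f) ^ 4 := by
        intro a b c d e f
        have c0 : cT 0 = ze ^ 6 := rfl
        have c1 : cT 1 = ze := rfl
        have c2 : cT 2 = ze := rfl
        have c3 : cT 3 = ze := rfl
        have c4 : cT 4 = ze := rfl
        have c5 : cT 5 = ze ^ 2 := rfl
        have e0 : eT ε 0 = 1 := rfl
        have e1 : eT ε 1 = ε := rfl
        have e2 : eT ε 2 = ε := rfl
        have e3 : eT ε 3 = ε := rfl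
        have e4 : eT ε 4 = ε := rfl
        have e5 : eT ε 5 = 1 := rfl
        rw [c0, c1, c2, c3, c4, c5, e0, e1, e2, e3, e4, e5]
        ring
      rw [e, hz, hd, one_mul, one_mul]
      show (h 0 τ * h 2 τ * h 3 τ * h 4 τ * h 1 τ * h 5 τ) ^ 4 = _
      ring
    · choose C hC using H.bd
      refine ⟨(∏ i, C i) ^ 4, fun τ hτ => ?_⟩
      show ‖(∏ i, h i τ) ^ 4‖ ≤ _
      rw [norm_pow, norm_prod]
      have h1 : ∏ i, ‖h i τ‖ ≤ ∏ i, (C i * Real.exp (-π * oT i * τ.im / 16)) :=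
        prod_le_prod (fun i _ => norm_nonneg _) (fun i _ => hC i τ hτ)
      have h2 : ∏ i, (C i * Real.exp (-π * oT i * τ.im / 16)) =
          (∏ i, C i) * Real.exp (-3 / 2 * π * τ.im) := by
        rw [prod_mul_distrib, ← Real.exp_sum]
        congr 2
        simp only [Fin.sum_univ_six]
        have o0 : oT 0 = 12 := rfl
        have o1 : oT 1 = 2 := rfl
        have o2 : oT 2 = 2 := rfl
        have o3 : oT 3 = 2 := rfl
        have o4 : oT 4 = 2 := rfl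
        have o5 : oT 5 = 4 := rfl
        rw [o0, o1, o2, o3, o4, o5]
        push_cast
        ring
      calc (∏ i, ‖h i τ‖) ^ 4 ≤ ((∏ i, C i) * Real.exp (-3 / 2 * π * τ.im)) ^ 4 := by
            rw [← h2]
            exact pow_le_pow_left₀ (prod_nonneg fun i _ => norm_nonneg _) h1 4
        _ = (∏ i, C i) ^ 4 * Real.exp (-6 * π * τ.im) := by
            rw [mul_pow, ← Real.exp_nat_mul]
            congr 2
            push_cast
            ring
    · have hlow := fun i => lc_low (hL i)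
      choose a Y ha hY using hlow
      have hsup : ∃ y : ℝ, 0 < y ∧ ∀ i, Y i ≤ y := by
        refine ⟨1 + ∑ i, |Y i|, ?_, fun i => ?_⟩
        · have := sum_nonneg (fun i (_ : i ∈ (univ : Finset (Fin 6))) => abs_nonneg (Y i))
          linarith
        · have h1 := single_le_sum (fun i _ => abs_nonneg (Y i)) (mem_univ i)
          have h2 := le_abs_self (Y i)
          linarith
      obtain ⟨y, hy0, hy⟩ := hsup
      have him : (Complex.I * (y : ℂ)).im = y := by simp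
      refine ⟨Complex.I * y, by rw [him]; exact hy0, ?_⟩
      show (∏ i, h i (Complex.I * y)) ^ 4 ≠ 0
      apply pow_ne_zero
      rw [prod_ne_zero_iff]
      intro i _
      have h1 := hY i (Complex.I * y) (by rw [him]; exact hy i)
      have h2 : 0 < a i * Real.exp (-π * oT i * (Complex.I * (y : ℂ)).im / 16) :=
        mul_pos (ha i) (Real.exp_pos _)
      exact norm_pos_iff.1 (lt_of_lt_of_le h2 h1)
  have h1 := key τ hτ
  have h2 : ∏ i, h i τ ≠ 0 := by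
    intro h0
    rw [h0] at h1
    exact h1 (by norm_num)
  exact prod_ne_zero_iff.1 h2 i (mem_univ i)

/-- two systems are proportional -/
theorem LC (h f : Fin 6 → ℂ → ℂ) (δ ε δ' ε' : ℂ) (hδ : δ ^ 2 = 1) (hε : ε ^ 2 = 1)
    (hδ' : δ' ^ 2 = 1) (hε' : ε' ^ 2 = 1) (H : Sys h δ ε) (H' : Sys f δ' ε')
    (hL : ∀ i, ∃ L : ℂ, L ≠ 0 ∧ ∀ e : ℝ, 0 < e → ∃ Y : ℝ, ∀ τ : ℂ, Y ≤ τ.im →
      ‖h i τ * Complex.exp (-(π * Complex.I * oT i * τ / 16)) - L‖ ≤ e) :
    ∃ κ : ℂ, ∀ τ : ℂ, 0 < τ.im → f 0 τ = κ * h 0 τ ∧ f 5 τ = κ * h 5 τ := by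
  have hne := LC_ne h δ ε hδ hε H hL
  set U : Set ℂ := {τ : ℂ | 0 < τ.im} with hU
  have hd0 := lc_ne hδ
  have he0 := lc_ne hε
  set q : Fin 6 → ℂ → ℂ := fun i τ => f i τ / h i τ with hq
  have hqd : ∀ i, DifferentiableOn ℂ (q i) U := fun i =>
    (H'.hol i).div (H.hol i) (fun τ hτ => hne i τ hτ)
  have hqS : ∀ i τ, 0 < τ.im → q i (-1 / τ) * δ = δ' * q (sS i) τ := by
    intro i τ hτ
    have h1 := hne (sS i) τ hτ
    have h2 := lc_J hτ
    have h3 := lc_cS i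
    show f i (-1 / τ) / h i (-1 / τ) * δ = δ' * (f (sS i) τ / h (sS i) τ)
    rw [H'.S i τ hτ, H.S i τ hτ]
    field_simp
  have hqT : ∀ i τ, 0 < τ.im → q i (τ + 1) * eT ε i = eT ε' i * q (sT i) τ := by
    intro i τ hτ
    have h1 := hne (sT i) τ hτ
    have h3 := lc_cT i
    have h4 := lc_ne (lc_eT hε i)
    show f i (τ + 1) / h i (τ + 1) * eT ε i = eT ε' i * (f (sT i) τ / h (sT i) τ)
    rw [H'.T i τ hτ, H.T i τ hτ]
    field_simp
  -- the squares are constant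
  have hconst2 : ∀ i, ∃ c : ℂ, ∀ τ : ℂ, 0 < τ.im → q i τ ^ 2 = c := by
    refine LA (fun i τ => q i τ ^ 2) (fun i => (hqd i).pow 2) ?_ ?_ ?_
    · intro i τ hτ
      have h1 := congrArg (fun z => z ^ 2) (hqS i τ hτ)
      simp only [mul_pow, hδ, hδ', mul_one, one_mul] at h1
      exact h1
    · intro i τ hτ
      have h1 := congrArg (fun z => z ^ 2) (hqT i τ hτ)
      simp only [mul_pow, lc_eT hε i, lc_eT hε' i, mul_one, one_mul] at h1
      exact h1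
    · intro i
      obtain ⟨C, hC⟩ := H'.bd i
      obtain ⟨a, Y, ha, hY⟩ := lc_low (hL i)
      refine ⟨(C / a) ^ 2, max Y 1, fun τ hτ => ?_⟩
      have h1 := hC τ (le_trans (le_max_right _ _) hτ)
      have h2 := hY τ (le_trans (le_max_left _ _) hτ)
      show ‖(f i τ / h i τ) ^ 2‖ ≤ _
      rw [norm_pow, norm_div]
      refine pow_le_pow_left₀ (by positivity) ?_ 2
      have h3 := Real.exp_pos (-π * oT i * τ.im / 16)
      have h4 : 0 < a * Real.exp (-π * oT i * τ.im / 16) := mul_pos ha h3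
      have h5 : 0 < ‖h i τ‖ := lt_of_lt_of_le h4 h2
      have hC0 : 0 ≤ C := by
        have h6 := le_trans (norm_nonneg _) h1
        exact nonneg_of_mul_nonneg_left h6 h3
      rw [div_le_div_iff₀ h5 ha]
      calc ‖f i τ‖ * a ≤ C * Real.exp (-π * oT i * τ.im / 16) * a :=
            mul_le_mul_of_nonneg_right h1 ha.le
        _ = C * (a * Real.exp (-π * oT i * τ.im / 16)) := by ring
        _ ≤ C * ‖h i τ‖ := mul_le_mul_of_nonneg_left h2 hC0
  have hpre : IsPreconnected U := by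
    have hconv : Convex ℝ U := by
      have h1 : U = Complex.imLm ⁻¹' (Set.Ioi 0) := rfl
      rw [h1]
      exact (convex_Ioi (0 : ℝ)).linear_preimage Complex.imLm
    exact hconv.isPreconnected
  -- the quotients are constant
  have hconst : ∀ i, ∃ c : ℂ, ∀ τ : ℂ, 0 < τ.im → q i τ = c := by
    intro i
    obtain ⟨c, hc⟩ := hconst2 i
    obtain ⟨s, hs⟩ : ∃ s : ℂ, s ^ 2 = c := IsAlgClosed.exists_pow_nat_eq c two_pos
    by_cases hs0 : s = 0
    · refine ⟨0, fun τ hτ => ?_⟩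
      have h1 := hc τ hτ
      rw [← hs, hs0] at h1
      have h2 : q i τ ^ 2 = 0 := by rw [h1]; norm_num
      exact pow_eq_zero_iff (two_ne_zero) |>.1 h2
    · have h1 := hpre.eq_or_eq_neg_of_sq_eq (f := q i) (g := fun _ => s)
        (hqd i).continuousOn continuousOn_const
        (fun τ hτ => by
          show q i τ ^ 2 = s ^ 2
          rw [hc τ hτ, hs]) (fun _ => hs0)
      rcases h1 with h1 | h1
      · exact ⟨s, fun τ hτ => h1 hτ⟩
      · exact ⟨-s, fun τ hτ => h1 hτ⟩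
  choose κ hκ using hconst
  have hI : 0 < (Complex.I).im := by rw [Complex.I_im]; exact one_pos
  have e0 : κ 0 * δ = δ' * κ 1 := by
    have h1 := hqS 0 Complex.I hI
    rw [hκ 0 _ (lc_im hI)] at h1
    have h2 : q (sS 0) Complex.I = κ 1 := hκ 1 _ hI
    rwa [h2] at h1
  have e1 : κ 1 * ε = ε' * κ 2 := by
    have h1 := hqT 1 Complex.I hI
    rw [hκ 1 _ (lc_im' hI)] at h1
    have h2 : q (sT 1) Complex.I = κ 2 := hκ 2 _ hI
    rw [h2] at h1
    exact h1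
  have e2 : κ 2 * ε = ε' * κ 3 := by
    have h1 := hqT 2 Complex.I hI
    rw [hκ 2 _ (lc_im' hI)] at h1
    have h2 : q (sT 2) Complex.I = κ 3 := hκ 3 _ hI
    rw [h2] at h1
    exact h1
  have e3 : κ 3 * δ = δ' * κ 5 := by
    have h1 := hqS 3 Complex.I hI
    rw [hκ 3 _ (lc_im hI)] at h1
    have h2 : q (sS 3) Complex.I = κ 5 := hκ 5 _ hI
    rwa [h2] at h1
  have e4 : κ 0 = κ 5 := by
    have h1 : κ 0 * δ ^ 2 * ε ^ 2 = δ' ^ 2 * ε' ^ 2 * κ 5 := by
      calc κ 0 * δ ^ 2 * ε ^ 2 = (κ 0 * δ) * δ * ε ^ 2 := by ring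
        _ = δ' * δ * ε * (κ 1 * ε) := by rw [e0]; ring
        _ = δ' * δ * ε' * (κ 2 * ε) := by rw [e1]; ring
        _ = δ' * ε' ^ 2 * (κ 3 * δ) := by rw [e2]; ring
        _ = δ' ^ 2 * ε' ^ 2 * κ 5 := by rw [e3]; ring
    rw [hδ, hε, hδ', hε'] at h1
    simpa using h1
  refine ⟨κ 0, fun τ hτ => ⟨?_, ?_⟩⟩
  · have h1 : f 0 τ / h 0 τ = κ 0 := hκ 0 τ hτ
    rw [div_eq_iff (hne 0 τ hτ)] at h1
    exact h1
  · have h1 : f 5 τ / h 5 τ = κ 5 := hκ 5 τ hτ
    rw [div_eq_iff (hne 5 τ hτ)] at h1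
    rw [e4]
    exact h1

end Pool.Agent.GNF
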