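import Pool.Agent.Lib_helper7.GNF.D
import Pool.Agent.Lib_helper7.GNF.P.FD

set_option autoImplicit false

namespace Pool.Agent.GNF

open Finset Pool.Agent.GEN
open scoped Real

theorem fe_sum_Ico (M : ℕ) (f : ℤ → ℂ) : ∑ k ∈ Ico (0 : ℤ) M, f k = ∑ k ∈ range M, f (k : ℤ) := by
  induction M with
  | zero => simp
  | succ n ih =>
    rw [Finset.sum_range_succ, ← ih]
    have h : Ico (0 : ℤ) ((n + 1 : ℕ) : ℤ) = insert (n : ℤ) (Ico (0 : ℤ) n) := by
      ext x
      simp only [mem_Ico, mem_insert]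
      push_cast
      omega
    rw [h, Finset.sum_insert (by simp), add_comm]

theorem fe_geom (M : ℕ) (hM : 0 < M) (a : ℤ) :
    ∑ k ∈ Ico (0 : ℤ) M, Complex.exp (2 * π * Complex.I * (k * a : ℤ) / M) =
      if (M : ℤ) ∣ a then (M : ℂ) else 0 := by
  have hM' : (M : ℂ) ≠ 0 := by exact_mod_cast hM.ne'
  rw [fe_sum_Ico]
  have h1 : ∀ k : ℕ, Complex.exp (2 * π * Complex.I * (((k : ℤ) * a : ℤ) : ℂ) / M) =
      Complex.exp (2 * π * Complex.I * a / M) ^ k := by
    intro k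
    rw [← Complex.exp_nat_mul]
    congr 1
    push_cast
    field_simp
  rw [Finset.sum_congr rfl (fun k _ => h1 k)]
  split_ifs with h
  · obtain ⟨b, rfl⟩ := h
    have h2 : Complex.exp (2 * π * Complex.I * ((M * b : ℤ) : ℂ) / M) = 1 := by
      rw [Complex.exp_eq_one_iff]
      refine ⟨b, ?_⟩
      push_cast
      field_simp
    rw [h2]
    simp
  · have h3 : Complex.exp (2 * π * Complex.I * a / M) ≠ 1 := by
      intro h4
      rw [Complex.exp_eq_one_iff] at h4
      obtain ⟨n, hn⟩ := h4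
      apply h
      refine ⟨n, ?_⟩
      have h5 : (2 * π * Complex.I : ℂ) ≠ 0 := by
        simp [Complex.I_ne_zero, Real.pi_ne_zero]
      have h6 : (a : ℂ) = M * n := by
        have h7 : (2 * π * Complex.I : ℂ) * a = (2 * π * Complex.I) * (M * n) := by
          rw [div_eq_iff hM'] at hn
          rw [hn]; ring
        exact mul_left_cancel₀ h5 h7
      exact_mod_cast h6
    have h8 : Complex.exp (2 * π * Complex.I * a / M) ^ M = 1 := by
      rw [← Complex.exp_nat_mul, Complex.exp_eq_one_iff]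
      refine ⟨a, ?_⟩
      field_simp
    have h9 := geom_sum_mul (Complex.exp (2 * π * Complex.I * a / M)) M
    rw [h8, sub_self] at h9
    rcases mul_eq_zero.1 h9 with h10 | h10
    · exact h10
    · exact absurd (sub_eq_zero.1 h10) h3

theorem fe_cube (M : ℕ) (hM : 0 < M) (y : T) :
    ∑ w ∈ cube M, Complex.exp (2 * π * Complex.I * (dot w y : ℤ) / M) =
      if (M : ℤ) ∣ y.1 ∧ (M : ℤ) ∣ y.2.1 ∧ (M : ℤ) ∣ y.2.2 then (M : ℂ) ^ 3 else 0 := by
  have h1 : ∀ w : T, Complex.exp (2 * π * Complex.I * (dot w y : ℤ) / M) =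
      Complex.exp (2 * π * Complex.I * (w.1 * y.1 : ℤ) / M) *
      (Complex.exp (2 * π * Complex.I * (w.2.1 * y.2.1 : ℤ) / M) *
       Complex.exp (2 * π * Complex.I * (w.2.2 * y.2.2 : ℤ) / M)) := by
    intro w
    rw [← Complex.exp_add, ← Complex.exp_add]
    congr 1
    unfold dot
    push_cast
    ring
  rw [Finset.sum_congr rfl (fun w _ => h1 w)]
  unfold cube
  rw [Finset.sum_product]
  simp only [Finset.sum_product]
  simp only [← Finset.mul_sum, ← Finset.sum_mul]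
  rw [fe_geom M hM, fe_geom M hM, fe_geom M hM]
  by_cases a1 : (M : ℤ) ∣ y.1 <;> by_cases a2 : (M : ℤ) ∣ y.2.1 <;> by_cases a3 : (M : ℤ) ∣ y.2.2 <;>
    simp [a1, a2, a3] <;> ring

/-- Fourier inversion modulo `M` -/
theorem FT_FT (M : ℕ) (hM : 0 < M) (F : T → ℂ) (hF : Per M F) (v : T) :
    FT M (FT M F) v = (M : ℂ) ^ 3 * F (sm (-1) v) := by
  have hM0 : (M : ℤ) ≠ 0 := by exact_mod_cast hM.ne'
  have hMp : (0 : ℤ) < M := by exact_mod_cast hM
  have h1 : FT M (FT M F) v = ∑ x ∈ cube M, F x *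
      (if (M : ℤ) ∣ x.1 + v.1 ∧ (M : ℤ) ∣ x.2.1 + v.2.1 ∧ (M : ℤ) ∣ x.2.2 + v.2.2
        then (M : ℂ) ^ 3 else 0) := by
    unfold FT
    simp only [Finset.sum_mul]
    rw [Finset.sum_comm]
    refine Finset.sum_congr rfl (fun x _ => ?_)
    rw [← fe_cube M hM ((x.1 + v.1, x.2.1 + v.2.1, x.2.2 + v.2.2) : T), Finset.mul_sum]
    refine Finset.sum_congr rfl (fun w _ => ?_)
    rw [mul_assoc, ← Complex.exp_add]
    congr 2
    unfold dot
    push_cast
    ring
  rw [h1]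
  have h2 : ((-v.1) % M, (-v.2.1) % M, (-v.2.2) % M) ∈ cube M := by
    unfold cube
    simp only [mem_product, mem_Ico]
    exact ⟨⟨Int.emod_nonneg _ hM0, Int.emod_lt_of_pos _ hMp⟩,
      ⟨Int.emod_nonneg _ hM0, Int.emod_lt_of_pos _ hMp⟩,
      ⟨Int.emod_nonneg _ hM0, Int.emod_lt_of_pos _ hMp⟩⟩
  have key : ∀ a b : ℤ, 0 ≤ a → a < M → (M : ℤ) ∣ a + b → a = (-b) % M := by
    intro a b h0 h3 h4
    have h5 : (-b) % M = a % M := by
      apply Int.ModEq.symm
      rw [Int.modEq_iff_dvd]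
      obtain ⟨c, hc⟩ := h4
      exact ⟨-c, by linear_combination -hc⟩
    rw [h5, Int.emod_eq_of_lt h0 h3]
  have dv : ∀ b : ℤ, (M : ℤ) ∣ (-b) % M + b := by
    intro b
    have := Int.mul_ediv_add_emod (-b) M
    exact ⟨-((-b) / M), by linear_combination this⟩
  rw [Finset.sum_eq_single_of_mem _ h2]
  · rw [if_pos ⟨dv _, dv _, dv _⟩]
    have h3 := hF ((-v.1) % M, (-v.2.1) % M, (-v.2.2) % M) ((-v.1) / M, (-v.2.1) / M, (-v.2.2) / M)
    simp only [Int.emod_add_mul_ediv] at h3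
    rw [← h3, mul_comm]
    congr 2
    unfold sm
    simp
  · intro x hx hne
    unfold cube at hx
    simp only [mem_product, mem_Ico] at hx
    rw [if_neg, mul_zero]
    rintro ⟨c1, c2, c3⟩
    apply hne
    have e1 := key _ _ hx.1.1 hx.1.2 c1
    have e2 := key _ _ hx.2.1.1 hx.2.1.2 c2
    have e3 := key _ _ hx.2.2.1 hx.2.2.2 c3
    ext
    · exact e1
    · exact e2
    · exact e3

theorem fe_self (d : ℕ) (u : T) (hu : ∀ p ∈ d.primeFactors, Iso p u) : Psi d u u = 1 := by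
  unfold Psi
  apply Finset.prod_eq_one
  intro p hp
  have : Fact p.Prime := ⟨Nat.prime_of_mem_primeFactors hp⟩
  unfold psi
  rw [if_pos (hu p hp), chi_self (hu p hp)]

/-- the square of the eigenvalue -/
theorem FE (d : ℕ) (hs : Squarefree d) (h4 : d % 4 = 1) (u : T)
    (hu : ∀ p ∈ d.primeFactors, Iso p u) (γ : ℂ)
    (h : ∀ w : T, FT d (fun v => ((Psi d u v : ℤ) : ℂ)) w = γ * (Psi d u w : ℤ)) :
    γ ^ 2 = (d : ℂ) ^ 3 := by
  have hd : 0 < d := by omega
  have h2 : d % 2 = 1 := by omega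
  have h1 := FT_FT d hd (fun v => ((Psi d u v : ℤ) : ℂ)) (Psi_per d hs h2 u hu) u
  have e1 : FT d (FT d (fun v => ((Psi d u v : ℤ) : ℂ))) u =
      γ * FT d (fun v => ((Psi d u v : ℤ) : ℂ)) u := by
    conv_lhs => unfold FT
    have : ∀ v ∈ cube d, (∑ v_1 ∈ cube d, ((Psi d u v_1 : ℤ) : ℂ) *
        Complex.exp (2 * π * Complex.I * (dot v_1 v : ℤ) / d)) *
        Complex.exp (2 * π * Complex.I * (dot v u : ℤ) / d) =
        γ * (((Psi d u v : ℤ) : ℂ) * Complex.exp (2 * π * Complex.I * (dot v u : ℤ) / d)) := by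
      intro v _
      have := h v
      unfold FT at this
      rw [this]; ring
    rw [Finset.sum_congr rfl this, ← Finset.mul_sum]
    rfl
  rw [e1, h u] at h1
  have e2 : Psi d u (sm (-1) u) = 1 := by
    rw [Psi_sm d hs h2 u hu, fe_self d u hu, mul_one]
    rw [jacobiSym.at_neg_one (Nat.odd_iff.2 h2), ZMod.χ₄_nat_one_mod_four h4]
  rw [fe_self d u hu] at h1
  simp only [e2] at h1
  push_cast at h1
  linear_combination h1

end Pool.Agent.GNF
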