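import Pool.Agent.Lib_helper7.GNF.D

set_option autoImplicit false

namespace Pool.Agent.GNF

open Finset Pool.Agent.GEN
open scoped Real

theorem ff_ze_nat (n : ℕ) : Complex.exp (2 * π * Complex.I * (n : ℂ) / 16) = ze ^ n := by
  unfold ze
  rw [← Complex.exp_nat_mul]
  congr 1
  ring

theorem ff_ze8 : ze ^ 8 = -1 := by
  unfold ze
  rw [← Complex.exp_nat_mul]
  have e : ((8 : ℕ) : ℂ) * (2 * π * Complex.I / 16) = π * Complex.I := by
    push_cast
    ring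
  rw [e, Complex.exp_pi_mul_I]

theorem ff_ze4 : ze ^ 4 = Complex.I := by
  unfold ze
  rw [← Complex.exp_nat_mul]
  have e : ((4 : ℕ) : ℂ) * (2 * π * Complex.I / 16) = π / 2 * Complex.I := by
    push_cast
    ring
  rw [e, Complex.exp_mul_I]
  rw [Complex.cos_pi_div_two, Complex.sin_pi_div_two]
  ring

theorem ff_ze16 : ze ^ 16 = 1 := by
  have e : ze ^ 16 = (ze ^ 8) ^ 2 := by ring
  rw [e, ff_ze8]
  norm_num

theorem ff_ze_mod (n : ℕ) : ze ^ n = ze ^ (n % 16) := by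
  conv_lhs => rw [← Nat.div_add_mod n 16]
  rw [pow_add, pow_mul, ff_ze16, one_pow, one_mul]

theorem ff_exp (n : ℤ) : Complex.exp (2 * π * Complex.I * (n : ℤ) / 16) = ze ^ (n % 16).toNat := by
  have h0 : 0 ≤ n % 16 := Int.emod_nonneg _ (by norm_num)
  have e : (n : ℂ) = ((n % 16).toNat : ℂ) + 16 * ((n / 16 : ℤ) : ℂ) := by
    have h1 : n = ((n % 16).toNat : ℤ) + 16 * (n / 16) := by
      rw [Int.toNat_of_nonneg h0]
      omega
    have h2 := congrArg (fun z : ℤ => (z : ℂ)) h1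
    push_cast at h2
    exact h2
  rw [e]
  have e2 : 2 * π * Complex.I * (((n % 16).toNat : ℂ) + 16 * ((n / 16 : ℤ) : ℂ)) / 16 =
      2 * π * Complex.I * ((n % 16).toNat : ℂ) / 16 + (n / 16 : ℤ) * (2 * π * Complex.I) := by
    ring
  rw [e2, Complex.exp_add, Complex.exp_int_mul_two_pi_mul_I, mul_one, ff_ze_nat]

/-- sum of powers -/
noncomputable def ff_S (L : List ℕ) : ℂ := (L.map fun n => ze ^ n).sum

/-- coefficients with respect to `1, z, …, z^7` -/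
def ff_c (L : List ℕ) (j : ℕ) : ℤ :=
  (L.countP (fun n => n % 16 == j) : ℤ) - (L.countP (fun n => n % 16 == j + 8) : ℤ)

theorem ff_one (n : ℕ) : ze ^ n = ∑ j ∈ range 8, (ff_c [n] j : ℂ) * ze ^ j := by
  have e : ∀ j, ff_c [n] j = ff_c [n % 16] j := fun j => by
    unfold ff_c
    simp
  simp only [e]
  rw [ff_ze_mod]
  have h8 := ff_ze8
  have hlt : n % 16 < 16 := Nat.mod_lt _ (by norm_num)
  generalize n % 16 = m at hlt ⊢
  have key : ∀ m, m < 16 → ∀ j, j < 8 → ff_c [m] j = if m = j then 1 else if m = j + 8 then -1 else 0 := by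
    decide +kernel
  rw [Finset.sum_congr rfl fun j hj => by rw [key m hlt j (Finset.mem_range.1 hj)]]
  interval_cases m <;> simp [Finset.sum_range_succ] <;>
    first
    | linear_combination h8
    | linear_combination ze * h8
    | linear_combination ze ^ 2 * h8
    | linear_combination ze ^ 3 * h8
    | linear_combination ze ^ 4 * h8
    | linear_combination ze ^ 5 * h8
    | linear_combination ze ^ 6 * h8
    | linear_combination ze ^ 7 * h8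

theorem ff_c_cons (n : ℕ) (L : List ℕ) (j : ℕ) : ff_c (n :: L) j = ff_c [n] j + ff_c L j := by
  unfold ff_c
  rw [List.countP_cons, List.countP_cons, List.countP_cons, List.countP_cons, List.countP_nil,
    List.countP_nil]
  push_cast
  ring

theorem ff_S_eq (L : List ℕ) : ff_S L = ∑ j ∈ range 8, (ff_c L j : ℂ) * ze ^ j := by
  induction L with
  | nil => simp [ff_S, ff_c]
  | cons n L ih =>
    have e : ff_S (n :: L) = ze ^ n + ff_S L := by simp [ff_S]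
    rw [e, ih, ff_one n, ← Finset.sum_add_distrib]
    refine Finset.sum_congr rfl fun j _ => ?_
    rw [ff_c_cons n L j]
    push_cast
    ring

theorem ff_S_congr {L L' : List ℕ} (h : ∀ j < 8, ff_c L j = ff_c L' j) : ff_S L = ff_S L' := by
  rw [ff_S_eq, ff_S_eq]
  exact Finset.sum_congr rfl fun j hj => by rw [h j (Finset.mem_range.1 hj)]

theorem ff_S_append (L L' : List ℕ) : ff_S (L ++ L') = ff_S L + ff_S L' := by
  simp [ff_S]

theorem ff_S_shift (L : List ℕ) (k : ℕ) : ff_S (L.map (· + k)) = ff_S L * ze ^ k := by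
  induction L with
  | nil => simp [ff_S]
  | cons n L ih =>
    have e : ff_S (n :: L) = ze ^ n + ff_S L := by simp [ff_S]
    have e' : ff_S ((n :: L).map (· + k)) = ze ^ (n + k) + ff_S (L.map (· + k)) := by simp [ff_S]
    rw [e, e', ih, pow_add]
    ring

theorem ff_S_flat (L : List ℕ) (f : ℕ → List ℕ) :
    ff_S (L.flatMap f) = (L.map fun a => ff_S (f a)).sum := by
  induction L with
  | nil => simp [ff_S]
  | cons n L ih =>
    rw [List.flatMap_cons, ff_S_append, ih, List.map_cons, List.sum_cons]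

theorem ff_S_mul (K L : List ℕ) : ff_S (K.flatMap (fun k => L.map (· + k))) = ff_S K * ff_S L := by
  rw [ff_S_flat]
  induction K with
  | nil => simp [ff_S]
  | cons n K ih =>
    rw [List.map_cons, List.sum_cons, ih, ff_S_shift]
    have e : ff_S (n :: K) = ze ^ n + ff_S K := by simp [ff_S]
    rw [e]
    ring

theorem ff_Ico : Ico (0 : ℤ) ((16 : ℕ) : ℤ) = (range 16).image (fun n : ℕ => (n : ℤ)) := by
  decide +kernel

/-- one-dimensional transforms -/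
theorem ff_T (f g : ℤ → ℂ) (hf hg : ℕ → List ℕ) (K : List ℕ)
    (h1 : ∀ x, f x = ff_S (hf (x % 16).toNat)) (h2 : ∀ x, g x = ff_S (hg (x % 16).toNat))
    (h : ∀ r < 16, ∀ j < 8,
      ff_c ((List.range 16).flatMap (fun a => (hf a).map (· + a * r))) j =
        ff_c (K.flatMap (fun k => (hg r).map (· + k))) j) (y : ℤ) :
    ∑ a ∈ Ico (0 : ℤ) ((16 : ℕ) : ℤ), f a * Complex.exp (2 * π * Complex.I * ((a * y : ℤ) : ℂ) / 16) =
      ff_S K * g y := by
  have hr : (y % 16).toNat < 16 := by omega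
  rw [h2, ← ff_S_mul, ← ff_S_congr (h _ hr), ff_S_flat, ff_Ico,
    Finset.sum_image (fun a _ b _ hab => by exact_mod_cast hab), Finset.sum_range,
    ← List.sum_ofFn]
  have e : List.range 16 = List.ofFn (fun i : Fin 16 => (i : ℕ)) := by decide
  rw [e, List.map_ofFn]
  congr 1
  congr 1
  funext i
  show f ((i : ℕ) : ℤ) * Complex.exp (2 * π * Complex.I * ((((i : ℕ) : ℤ) * y : ℤ) : ℂ) / 16) =
    ff_S ((hf i).map (· + i * (y % 16).toNat))
  rw [ff_S_shift, ff_exp, h1, ff_ze_mod ((i : ℕ) * (y % 16).toNat)]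
  have e1 : (((i : ℕ) : ℤ) % 16).toNat = (i : ℕ) := by
    have := i.2
    omega
  have e2 : ((((i : ℕ) : ℤ) * y) % 16).toNat = ((i : ℕ) * (y % 16).toNat) % 16 := by
    have h3 : ((y % 16).toNat : ℤ) = y % 16 := Int.toNat_of_nonneg (by omega)
    have h4 : ((((i : ℕ) * (y % 16).toNat) % 16 : ℕ) : ℤ) = (((i : ℕ) : ℤ) * y) % 16 := by
      push_cast
      rw [h3, Int.mul_emod, Int.mul_emod _ y, Int.emod_emod_of_dvd _ (dvd_refl _)]
    rw [← h4, Int.toNat_natCast]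
  rw [e1, e2]

def ff_hc2 (x : ℕ) : List ℕ :=
  if x % 8 = 1 ∨ x % 8 = 7 then [0] else if x % 8 = 3 ∨ x % 8 = 5 then [8] else []
def ff_ho2 (x : ℕ) : List ℕ := if x % 4 = 2 then [0] else []
def ff_hk2 (x : ℕ) : List ℕ :=
  if x % 16 = 2 ∨ x % 16 = 14 then [0] else if x % 16 = 6 ∨ x % 16 = 10 then [8] else []
def ff_hu4 (x : ℕ) : List ℕ := if x % 8 = 0 then [0] else if x % 8 = 4 then [8] else []
def ff_hn4 (x : ℕ) : List ℕ := if x % 4 = 0 then [0] else []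
def ff_hod (x : ℕ) : List ℕ := if x % 2 = 1 then [0] else []
def ff_he8 (x : ℕ) : List ℕ := if x % 16 = 0 then [0] else if x % 16 = 8 then [8] else []
def ff_hbq (x : ℕ) : List ℕ :=
  if x % 16 = 1 ∨ x % 16 = 15 then [0] else if x % 16 = 3 ∨ x % 16 = 13 then [12]
  else if x % 16 = 5 ∨ x % 16 = 11 then [4] else if x % 16 = 7 ∨ x % 16 = 9 then [8] else []
def ff_hbb (x : ℕ) : List ℕ :=
  if x % 16 = 1 ∨ x % 16 = 15 then [0] else if x % 16 = 3 ∨ x % 16 = 13 then [4]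
  else if x % 16 = 5 ∨ x % 16 = 11 then [12] else if x % 16 = 7 ∨ x % 16 = 9 then [8] else []

theorem ff_S_nil : ff_S [] = 0 := by simp [ff_S]
theorem ff_S_0 : ff_S [0] = 1 := by simp [ff_S]
theorem ff_S_8 : ff_S [8] = -1 := by simp [ff_S, ff_ze8]
theorem ff_S_4 : ff_S [4] = Complex.I := by simp [ff_S, ff_ze4]
theorem ff_S_12 : ff_S [12] = -Complex.I := by
  have e : ff_S [12] = ze ^ 8 * ze ^ 4 := by
    simp only [ff_S, List.map_cons, List.map_nil, List.sum_cons, List.sum_nil]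
    ring
  rw [e, ff_ze8, ff_ze4]
  ring

theorem ff_m16 (x : ℤ) (k : ℕ) : (x % 16).toNat % 16 = k ↔ x % 16 = k := by omega
theorem ff_m8 (x : ℤ) (k : ℕ) : (x % 16).toNat % 8 = k ↔ x % 8 = k := by omega
theorem ff_m4 (x : ℤ) (k : ℕ) : (x % 16).toNat % 4 = k ↔ x % 4 = k := by omega
theorem ff_m2 (x : ℤ) (k : ℕ) : (x % 16).toNat % 2 = k ↔ x % 2 = k := by omega

theorem ff_c2 (x : ℤ) : c2 x = ff_S (ff_hc2 (x % 16).toNat) := by
  unfold c2 ff_hc2
  simp only [ff_m8]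
  push_cast
  split_ifs
  · rw [ff_S_0]
  · rw [ff_S_8]
  · rw [ff_S_nil]

theorem ff_o2 (x : ℤ) : o2 x = ff_S (ff_ho2 (x % 16).toNat) := by
  unfold o2 ff_ho2
  simp only [ff_m4]
  push_cast
  split_ifs
  · rw [ff_S_0]
  · rw [ff_S_nil]

theorem ff_k2 (x : ℤ) : k2 x = ff_S (ff_hk2 (x % 16).toNat) := by
  unfold k2 ff_hk2
  simp only [ff_m16]
  push_cast
  split_ifs
  · rw [ff_S_0]
  · rw [ff_S_8]
  · rw [ff_S_nil]

theorem ff_u4 (x : ℤ) : u4 x = ff_S (ff_hu4 (x % 16).toNat) := by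
  unfold u4 ff_hu4
  simp only [ff_m8]
  push_cast
  split_ifs
  · rw [ff_S_0]
  · rw [ff_S_8]
  · rw [ff_S_nil]

theorem ff_n4 (x : ℤ) : n4 x = ff_S (ff_hn4 (x % 16).toNat) := by
  unfold n4 ff_hn4
  simp only [ff_m4]
  push_cast
  split_ifs
  · rw [ff_S_0]
  · rw [ff_S_nil]

theorem ff_od (x : ℤ) : od x = ff_S (ff_hod (x % 16).toNat) := by
  unfold od ff_hod
  simp only [ff_m2]
  push_cast
  split_ifs
  · rw [ff_S_0]
  · rw [ff_S_nil]

theorem ff_e8 (x : ℤ) : e8 x = ff_S (ff_he8 (x % 16).toNat) := by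
  unfold e8 ff_he8
  simp only [ff_m16]
  push_cast
  split_ifs
  · rw [ff_S_0]
  · rw [ff_S_8]
  · rw [ff_S_nil]

theorem ff_bq (x : ℤ) : bq x = ff_S (ff_hbq (x % 16).toNat) := by
  unfold bq ff_hbq
  simp only [ff_m16]
  push_cast
  split_ifs
  · rw [ff_S_0]
  · rw [ff_S_12]
  · rw [ff_S_4]
  · rw [ff_S_8]
  · rw [ff_S_nil]

theorem ff_bb (x : ℤ) : bb x = ff_S (ff_hbb (x % 16).toNat) := by
  unfold bb ff_hbb
  simp only [ff_m16]
  push_cast
  split_ifs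
  · rw [ff_S_0]
  · rw [ff_S_4]
  · rw [ff_S_12]
  · rw [ff_S_8]
  · rw [ff_S_nil]

theorem ff_T_o2 (y : ℤ) : ∑ a ∈ Ico (0 : ℤ) ((16 : ℕ) : ℤ),
    o2 a * Complex.exp (2 * π * Complex.I * ((a * y : ℤ) : ℂ) / 16) = ff_S [0, 0, 0, 0] * u4 y :=
  ff_T o2 u4 ff_ho2 ff_hu4 [0, 0, 0, 0] ff_o2 ff_u4 (by decide +kernel) y

theorem ff_T_k2 (y : ℤ) : ∑ a ∈ Ico (0 : ℤ) ((16 : ℕ) : ℤ),
    k2 a * Complex.exp (2 * π * Complex.I * ((a * y : ℤ) : ℂ) / 16) = ff_S [2, 2, 14, 14] * c2 y :=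
  ff_T k2 c2 ff_hk2 ff_hc2 [2, 2, 14, 14] ff_k2 ff_c2 (by decide +kernel) y

theorem ff_T_u4 (y : ℤ) : ∑ a ∈ Ico (0 : ℤ) ((16 : ℕ) : ℤ),
    u4 a * Complex.exp (2 * π * Complex.I * ((a * y : ℤ) : ℂ) / 16) = ff_S [0, 0, 0, 0] * o2 y :=
  ff_T u4 o2 ff_hu4 ff_ho2 [0, 0, 0, 0] ff_u4 ff_o2 (by decide +kernel) y

theorem ff_T_c2 (y : ℤ) : ∑ a ∈ Ico (0 : ℤ) ((16 : ℕ) : ℤ),
    c2 a * Complex.exp (2 * π * Complex.I * ((a * y : ℤ) : ℂ) / 16) = ff_S [2, 2, 2, 2, 14, 14, 14, 14] * k2 y :=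
  ff_T c2 k2 ff_hc2 ff_hk2 [2, 2, 2, 2, 14, 14, 14, 14] ff_c2 ff_k2 (by decide +kernel) y

theorem ff_T_n4 (y : ℤ) : ∑ a ∈ Ico (0 : ℤ) ((16 : ℕ) : ℤ),
    n4 a * Complex.exp (2 * π * Complex.I * ((a * y : ℤ) : ℂ) / 16) = ff_S [0, 0, 0, 0] * n4 y :=
  ff_T n4 n4 ff_hn4 ff_hn4 [0, 0, 0, 0] ff_n4 ff_n4 (by decide +kernel) y

theorem ff_T_bq (y : ℤ) : ∑ a ∈ Ico (0 : ℤ) ((16 : ℕ) : ℤ),
    bq a * Complex.exp (2 * π * Complex.I * ((a * y : ℤ) : ℂ) / 16) = ff_S [15, 15, 15, 15] * bb y :=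
  ff_T bq bb ff_hbq ff_hbb [15, 15, 15, 15] ff_bq ff_bb (by decide +kernel) y

theorem ff_T_bb (y : ℤ) : ∑ a ∈ Ico (0 : ℤ) ((16 : ℕ) : ℤ),
    bb a * Complex.exp (2 * π * Complex.I * ((a * y : ℤ) : ℂ) / 16) = ff_S [1, 1, 1, 1] * bq y :=
  ff_T bb bq ff_hbb ff_hbq [1, 1, 1, 1] ff_bb ff_bq (by decide +kernel) y

theorem ff_T_od (y : ℤ) : ∑ a ∈ Ico (0 : ℤ) ((16 : ℕ) : ℤ),
    od a * Complex.exp (2 * π * Complex.I * ((a * y : ℤ) : ℂ) / 16) = ff_S [0, 0, 0, 0, 0, 0, 0, 0] * e8 y :=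
  ff_T od e8 ff_hod ff_he8 [0, 0, 0, 0, 0, 0, 0, 0] ff_od ff_e8 (by decide +kernel) y

theorem ff_T_e8 (y : ℤ) : ∑ a ∈ Ico (0 : ℤ) ((16 : ℕ) : ℤ),
    e8 a * Complex.exp (2 * π * Complex.I * ((a * y : ℤ) : ℂ) / 16) = ff_S [0, 0] * od y :=
  ff_T e8 od ff_he8 ff_hod [0, 0] ff_e8 ff_od (by decide +kernel) y

theorem ff_K4 : ff_S [0, 0, 0, 0] = 4 := by
  simp only [ff_S, List.map_cons, List.map_nil, List.sum_cons, List.sum_nil]
  norm_num

theorem ff_K2 : ff_S [0, 0] = 2 := by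
  simp only [ff_S, List.map_cons, List.map_nil, List.sum_cons, List.sum_nil]
  norm_num

theorem ff_K8 : ff_S [0, 0, 0, 0, 0, 0, 0, 0] = 8 := by
  simp only [ff_S, List.map_cons, List.map_nil, List.sum_cons, List.sum_nil]
  norm_num

theorem ff_K15 : ff_S [15, 15, 15, 15] = 4 * ze ^ 15 := by
  simp only [ff_S, List.map_cons, List.map_nil, List.sum_cons, List.sum_nil]
  ring

theorem ff_K1 : ff_S [1, 1, 1, 1] = 4 * ze := by
  simp only [ff_S, List.map_cons, List.map_nil, List.sum_cons, List.sum_nil]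
  ring

theorem ff_K22 : ff_S [2, 2, 14, 14] * ff_S [2, 2, 14, 14] = 8 := by
  rw [← ff_S_mul]
  have e : (8 : ℂ) = ff_S [0, 0, 0, 0, 0, 0, 0, 0] := ff_K8.symm
  rw [e]
  exact ff_S_congr (by decide +kernel)

theorem ff_K44 : ff_S [2, 2, 2, 2, 14, 14, 14, 14] * ff_S [2, 2, 2, 2, 14, 14, 14, 14] = 32 := by
  have e : ff_S [2, 2, 2, 2, 14, 14, 14, 14] = 2 * ff_S [2, 2, 14, 14] := by
    simp only [ff_S, List.map_cons, List.map_nil, List.sum_cons, List.sum_nil]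
    ring
  rw [e]
  linear_combination 4 * ff_K22

/-- the transform of a product -/
theorem ff_prod (f g h : ℤ → ℂ) (w : T) :
    FT 16 (fun v => f v.1 * g v.2.1 * h v.2.2) w =
      (∑ a ∈ Ico (0 : ℤ) ((16 : ℕ) : ℤ), f a *
        Complex.exp (2 * π * Complex.I * ((a * w.1 : ℤ) : ℂ) / 16)) *
      (∑ a ∈ Ico (0 : ℤ) ((16 : ℕ) : ℤ), g a *
        Complex.exp (2 * π * Complex.I * ((a * w.2.1 : ℤ) : ℂ) / 16)) *
      (∑ a ∈ Ico (0 : ℤ) ((16 : ℕ) : ℤ), h a *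
        Complex.exp (2 * π * Complex.I * ((a * w.2.2 : ℤ) : ℂ) / 16)) := by
  have key : ∀ a b c : ℤ, f a * g b * h c *
      Complex.exp (2 * π * Complex.I * ((dot (a, b, c) w : ℤ) : ℂ) / ((16 : ℕ) : ℂ)) =
      (f a * Complex.exp (2 * π * Complex.I * ((a * w.1 : ℤ) : ℂ) / 16)) *
      (g b * Complex.exp (2 * π * Complex.I * ((b * w.2.1 : ℤ) : ℂ) / 16)) *
      (h c * Complex.exp (2 * π * Complex.I * ((c * w.2.2 : ℤ) : ℂ) / 16)) := by
    intro a b c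
    have e : Complex.exp (2 * π * Complex.I * ((dot (a, b, c) w : ℤ) : ℂ) / ((16 : ℕ) : ℂ)) =
        Complex.exp (2 * π * Complex.I * ((a * w.1 : ℤ) : ℂ) / 16) *
        Complex.exp (2 * π * Complex.I * ((b * w.2.1 : ℤ) : ℂ) / 16) *
        Complex.exp (2 * π * Complex.I * ((c * w.2.2 : ℤ) : ℂ) / 16) := by
      rw [← Complex.exp_add, ← Complex.exp_add]
      congr 1
      unfold dot
      push_cast
      ring
    rw [e]
    ring
  have e1 : FT 16 (fun v => f v.1 * g v.2.1 * h v.2.2) w =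
      ∑ a ∈ Ico (0 : ℤ) ((16 : ℕ) : ℤ), ∑ b ∈ Ico (0 : ℤ) ((16 : ℕ) : ℤ),
        ∑ c ∈ Ico (0 : ℤ) ((16 : ℕ) : ℤ),
      (f a * Complex.exp (2 * π * Complex.I * ((a * w.1 : ℤ) : ℂ) / 16)) *
      (g b * Complex.exp (2 * π * Complex.I * ((b * w.2.1 : ℤ) : ℂ) / 16)) *
      (h c * Complex.exp (2 * π * Complex.I * ((c * w.2.2 : ℤ) : ℂ) / 16)) := by
    unfold FT cube
    rw [Finset.sum_product]
    refine Finset.sum_congr rfl fun a _ => ?_
    rw [Finset.sum_product]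
    exact Finset.sum_congr rfl fun b _ => Finset.sum_congr rfl fun c _ => key a b c
  rw [e1, Finset.sum_mul_sum, Finset.sum_mul]
  refine Finset.sum_congr rfl fun a _ => ?_
  rw [Finset.sum_mul_sum]

theorem ff_FT (f g f' g' : ℤ → ℂ) (k l : ℂ) (K : ℂ) (w : T)
    (h1 : ∀ y : ℤ, ∑ a ∈ Ico (0 : ℤ) ((16 : ℕ) : ℤ),
      f a * Complex.exp (2 * π * Complex.I * ((a * y : ℤ) : ℂ) / 16) = k * f' y)
    (h2 : ∀ y : ℤ, ∑ a ∈ Ico (0 : ℤ) ((16 : ℕ) : ℤ),
      g a * Complex.exp (2 * π * Complex.I * ((a * y : ℤ) : ℂ) / 16) = l * g' y)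
    (hK : k * (l * l) = K) :
    FT 16 (fun v => f v.1 * g v.2.1 * g v.2.2) w = K * (f' w.1 * g' w.2.1 * g' w.2.2) := by
  rw [ff_prod, h1, h2, h2, ← hK]
  ring

/-- Fourier transforms of the six functions -/
theorem FF (i : Fin 6) (w : T) : FT 16 (A i) w = 64 * cS i * A (sS i) w := by
  fin_cases i
  · exact ff_FT o2 k2 u4 c2 _ _ (64 * (1 / 2)) w ff_T_o2 ff_T_k2 (by rw [ff_K22, ff_K4]; norm_num)
  · exact ff_FT u4 c2 o2 k2 _ _ (64 * 2) w ff_T_u4 ff_T_c2 (by rw [ff_K44, ff_K4]; norm_num)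
  · exact ff_FT n4 bq n4 bb _ _ (64 * ze ^ 14) w ff_T_n4 ff_T_bq (by
      rw [ff_K15, ff_K4]
      linear_combination 64 * ze ^ 14 * ff_ze16)
  · exact ff_FT u4 od o2 e8 _ _ (64 * 4) w ff_T_u4 ff_T_od (by rw [ff_K8, ff_K4]; norm_num)
  · exact ff_FT n4 bb n4 bq _ _ (64 * ze ^ 2) w ff_T_n4 ff_T_bb (by
      rw [ff_K1, ff_K4]
      ring)
  · exact ff_FT o2 e8 u4 od _ _ (64 * (1 / 4)) w ff_T_o2 ff_T_e8 (by
      rw [ff_K2, ff_K4]; norm_num)

/-- the six functions are `16`-periodic -/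
theorem A_per (i : Fin 6) : Per 16 (A i) := by
  intro v w
  have e : ∀ x y : ℤ, (x + ((16 : ℕ) : ℤ) * y) % 16 = x % 16 := fun x y => by
    push_cast
    omega
  fin_cases i
  · show o2 _ * k2 _ * k2 _ = o2 _ * k2 _ * k2 _
    simp only [ff_o2, ff_k2, e]
  · show u4 _ * c2 _ * c2 _ = u4 _ * c2 _ * c2 _
    simp only [ff_u4, ff_c2, e]
  · show n4 _ * bq _ * bq _ = n4 _ * bq _ * bq _
    simp only [ff_n4, ff_bq, e]
  · show u4 _ * od _ * od _ = u4 _ * od _ * od _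
    simp only [ff_u4, ff_od, e]
  · show n4 _ * bb _ * bb _ = n4 _ * bb _ * bb _
    simp only [ff_n4, ff_bb, e]
  · show o2 _ * e8 _ * e8 _ = o2 _ * e8 _ * e8 _
    simp only [ff_o2, ff_e8, e]

/-- multiplication by a residue `1 mod 8` on a coded function -/
theorem ff_sm1 (f : ℤ → ℂ) (hf : ℕ → List ℕ) (h1 : ∀ x, f x = ff_S (hf (x % 16).toNat))
    (h : ∀ c < 16, ∀ r < 16, c % 8 = 1 → hf (c * r % 16) = hf r) (c : ℤ) (hc : c % 8 = 1)
    (x : ℤ) : f (c * x) = f x := by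
  have hx : (x % 16).toNat < 16 := by omega
  have hc16 : (c % 16).toNat < 16 := by omega
  have hc8 : (c % 16).toNat % 8 = 1 := by omega
  have e : (c * x % 16).toNat = (c % 16).toNat * (x % 16).toNat % 16 := by
    have h3 : ((x % 16).toNat : ℤ) = x % 16 := Int.toNat_of_nonneg (by omega)
    have h3' : ((c % 16).toNat : ℤ) = c % 16 := Int.toNat_of_nonneg (by omega)
    have h4 : (((c % 16).toNat * (x % 16).toNat % 16 : ℕ) : ℤ) = c * x % 16 := by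
      push_cast
      rw [h3, h3', ← Int.mul_emod]
    rw [← h4, Int.toNat_natCast]
  rw [h1, h1, e, h _ hc16 _ hx hc8]

theorem ff_sm2 (f : ℤ → ℂ) (hf : ℕ → List ℕ) (h1 : ∀ x, f x = ff_S (hf (x % 16).toNat))
    (h : ∀ c < 16, ∀ r < 16, ∀ j < 8, c % 8 = 1 →
      ff_c (hf (c * r % 16)) j = (if c = 1 then 1 else -1) * ff_c (hf r) j)
    (c : ℤ) (hc : c % 8 = 1) (x y : ℤ) : f (c * x) * f (c * y) = f x * f y := by
  have key : ∀ x : ℤ, f (c * x) = (if (c % 16).toNat = 1 then 1 else -1) * f x := by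
    intro x
    have hx : (x % 16).toNat < 16 := by omega
    have hc16 : (c % 16).toNat < 16 := by omega
    have hc8 : (c % 16).toNat % 8 = 1 := by omega
    have e : (c * x % 16).toNat = (c % 16).toNat * (x % 16).toNat % 16 := by
      have h3 : ((x % 16).toNat : ℤ) = x % 16 := Int.toNat_of_nonneg (by omega)
      have h3' : ((c % 16).toNat : ℤ) = c % 16 := Int.toNat_of_nonneg (by omega)
      have h4 : (((c % 16).toNat * (x % 16).toNat % 16 : ℕ) : ℤ) = c * x % 16 := by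
        push_cast
        rw [h3, h3', ← Int.mul_emod]
      rw [← h4, Int.toNat_natCast]
    rw [h1, h1, e, ff_S_eq, ff_S_eq, Finset.mul_sum]
    refine Finset.sum_congr rfl fun j hj => ?_
    rw [h _ hc16 _ hx _ (Finset.mem_range.1 hj) hc8]
    split_ifs <;> push_cast <;> ring
  rw [key, key]
  split_ifs <;> ring

/-- and invariant under multiplication by residues `1 mod 8` -/
theorem A_sm (i : Fin 6) (c : ℤ) (hc : c % 8 = 1) (v : T) : A i (sm c v) = A i v := by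
  have h_o2 := ff_sm1 o2 ff_ho2 ff_o2 (by decide +kernel) c hc
  have h_u4 := ff_sm1 u4 ff_hu4 ff_u4 (by decide +kernel) c hc
  have h_n4 := ff_sm1 n4 ff_hn4 ff_n4 (by decide +kernel) c hc
  have h_k2 := ff_sm1 k2 ff_hk2 ff_k2 (by decide +kernel) c hc
  have h_c2 := ff_sm1 c2 ff_hc2 ff_c2 (by decide +kernel) c hc
  have h_od := ff_sm1 od ff_hod ff_od (by decide +kernel) c hc
  have h_e8 := ff_sm1 e8 ff_he8 ff_e8 (by decide +kernel) c hc
  have h_bq := ff_sm2 bq ff_hbq ff_bq (by decide +kernel) c hc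
  have h_bb := ff_sm2 bb ff_hbb ff_bb (by decide +kernel) c hc
  fin_cases i
  · show o2 (c * v.1) * k2 (c * v.2.1) * k2 (c * v.2.2) = o2 _ * k2 _ * k2 _
    rw [h_o2, h_k2, h_k2]
  · show u4 (c * v.1) * c2 (c * v.2.1) * c2 (c * v.2.2) = u4 _ * c2 _ * c2 _
    rw [h_u4, h_c2, h_c2]
  · show n4 (c * v.1) * bq (c * v.2.1) * bq (c * v.2.2) = n4 _ * bq _ * bq _
    rw [h_n4, mul_assoc, h_bq, mul_assoc]
  · show u4 (c * v.1) * od (c * v.2.1) * od (c * v.2.2) = u4 _ * od _ * od _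
    rw [h_u4, h_od, h_od]
  · show n4 (c * v.1) * bb (c * v.2.1) * bb (c * v.2.2) = n4 _ * bb _ * bb _
    rw [h_n4, mul_assoc, h_bb, mul_assoc]
  · show o2 (c * v.1) * e8 (c * v.2.1) * e8 (c * v.2.2) = o2 _ * e8 _ * e8 _
    rw [h_o2, h_e8, h_e8]

end Pool.Agent.GNF
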