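import Pool.Agent.Lib_helper7.GNF.D

set_option autoImplicit false

namespace Pool.Agent.GNF

open Finset Pool.Agent.GEN
open scoped Real

theorem fh_n3 (a b c : ℂ) (ha : ‖a‖ ≤ 1) (hb : ‖b‖ ≤ 1) (hc : ‖c‖ ≤ 1) : ‖a * b * c‖ ≤ 1 := by
  rw [norm_mul, norm_mul]
  have h1 : ‖a‖ * ‖b‖ ≤ 1 := mul_le_one₀ ha (norm_nonneg _) hb
  exact mul_le_one₀ h1 (norm_nonneg _) hc

theorem fh_c2n (x : ℤ) : ‖c2 x‖ ≤ 1 := by unfold c2; split_ifs <;> simp
theorem fh_o2n (x : ℤ) : ‖o2 x‖ ≤ 1 := by unfold o2; split_ifs <;> simp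
theorem fh_k2n (x : ℤ) : ‖k2 x‖ ≤ 1 := by unfold k2; split_ifs <;> simp
theorem fh_u4n (x : ℤ) : ‖u4 x‖ ≤ 1 := by unfold u4; split_ifs <;> simp
theorem fh_n4n (x : ℤ) : ‖n4 x‖ ≤ 1 := by unfold n4; split_ifs <;> simp
theorem fh_odn (x : ℤ) : ‖od x‖ ≤ 1 := by unfold od; split_ifs <;> simp
theorem fh_e8n (x : ℤ) : ‖e8 x‖ ≤ 1 := by unfold e8; split_ifs <;> simp
theorem fh_bqn (x : ℤ) : ‖bq x‖ ≤ 1 := by unfold bq; split_ifs <;> simp
theorem fh_bbn (x : ℤ) : ‖bb x‖ ≤ 1 := by unfold bb; split_ifs <;> simp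

theorem fh_An (i : Fin 6) (v : T) : ‖A i v‖ ≤ 1 := by
  fin_cases i
  · exact fh_n3 _ _ _ (fh_o2n _) (fh_k2n _) (fh_k2n _)
  · exact fh_n3 _ _ _ (fh_u4n _) (fh_c2n _) (fh_c2n _)
  · exact fh_n3 _ _ _ (fh_n4n _) (fh_bqn _) (fh_bqn _)
  · exact fh_n3 _ _ _ (fh_u4n _) (fh_odn _) (fh_odn _)
  · exact fh_n3 _ _ _ (fh_n4n _) (fh_bbn _) (fh_bbn _)
  · exact fh_n3 _ _ _ (fh_o2n _) (fh_e8n _) (fh_e8n _)

theorem fh_prod (s : Finset ℕ) (f : ℕ → ℤ) (h : ∀ p ∈ s, f p = 1 ∨ f p = -1 ∨ f p = 0) :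
    (∏ p ∈ s, f p) = 1 ∨ (∏ p ∈ s, f p) = -1 ∨ (∏ p ∈ s, f p) = 0 := by
  induction s using Finset.induction_on with
  | empty => left; simp
  | insert a s ha ih =>
    rw [Finset.prod_insert ha]
    have h1 := h a (Finset.mem_insert_self a s)
    have h2 := ih (fun p hp => h p (Finset.mem_insert_of_mem hp))
    rcases h1 with h1 | h1 | h1 <;> rcases h2 with h2 | h2 | h2 <;> rw [h1, h2] <;> simp

/-- the weighted functions are bounded by `1` -/
theorem AP_norm (d : ℕ) (h2 : d % 2 = 1) (u : T) (hu : ∀ p ∈ d.primeFactors, Iso p u) (i : Fin 6)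
    (v : T) : ‖AP d u i v‖ ≤ 1 := by
  unfold AP
  rw [norm_mul]
  have h1 : Psi d u v = 1 ∨ Psi d u v = -1 ∨ Psi d u v = 0 := by
    unfold Psi
    apply fh_prod
    intro p hp
    unfold psi
    split_ifs with hv
    · have hpp := (Nat.mem_primeFactors.1 hp)
      have : Fact p.Prime := ⟨hpp.1⟩
      have hp2 : p ≠ 2 := by
        rintro rfl
        have := hpp.2.1
        omega
      rcases chi_pm hp2 hv (hu p hp) with h | h
      · left; exact h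
      · right; left; exact h
    · right; right; rfl
  have h3 : ‖((Psi d u v : ℤ) : ℂ)‖ ≤ 1 := by
    rcases h1 with h | h | h <;> rw [h] <;> simp
  exact mul_le_one₀ (fh_An i v) (norm_nonneg _) h3

theorem fh_psi (d : ℕ) (hs : Squarefree d) (u v : T) (h : Psi d u v ≠ 0) :
    (d : ℤ) ∣ dot v v := by
  rw [Int.natCast_dvd, ← Nat.prod_primeFactors_of_squarefree hs]
  apply Finset.prod_primes_dvd
  · intro p hp
    exact (Nat.mem_primeFactors.1 hp).1.prime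
  · intro p hp
    unfold Psi at h
    have h1 := Finset.prod_ne_zero_iff.1 h p hp
    unfold psi at h1
    split_ifs at h1 with hv
    · exact Int.natCast_dvd.1 hv.1
    · exact absurd rfl h1

theorem fh_AP (d : ℕ) (u : T) (i : Fin 6) (v : T) (h : AP d u i v ≠ 0) :
    A i v ≠ 0 ∧ Psi d u v ≠ 0 := by
  unfold AP at h
  refine ⟨left_ne_zero_of_mul h, ?_⟩
  have := right_ne_zero_of_mul h
  intro h0
  rw [h0] at this
  simp at this

/-- support of the weighted functions -/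
theorem AP_dvd (d : ℕ) (hs : Squarefree d) (u : T) (i : Fin 6) (v : T) (h : AP d u i v ≠ 0) :
    (d : ℤ) ∣ dot v v := fh_psi d hs u v (fh_AP d u i v h).2

theorem fh_c2z (x : ℤ) (h : c2 x ≠ 0) : x % 2 = 1 := by
  unfold c2 at h
  split_ifs at h with h1 h2
  · omega
  · omega
  · exact absurd rfl h
theorem fh_o2z (x : ℤ) (h : o2 x ≠ 0) : x % 4 = 2 := by
  unfold o2 at h
  split_ifs at h with h1
  · exact h1
  · exact absurd rfl h
theorem fh_k2z (x : ℤ) (h : k2 x ≠ 0) : x % 16 = 2 ∨ x % 16 = 14 ∨ x % 16 = 6 ∨ x % 16 = 10 := by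
  unfold k2 at h
  split_ifs at h with h1 h2
  · omega
  · omega
  · exact absurd rfl h
theorem fh_u4z (x : ℤ) (h : u4 x ≠ 0) : x % 4 = 0 := by
  unfold u4 at h
  split_ifs at h with h1 h2
  · omega
  · omega
  · exact absurd rfl h
theorem fh_n4z (x : ℤ) (h : n4 x ≠ 0) : x % 4 = 0 := by
  unfold n4 at h
  split_ifs at h with h1
  · exact h1
  · exact absurd rfl h
theorem fh_odz (x : ℤ) (h : od x ≠ 0) : x % 2 = 1 := by
  unfold od at h
  split_ifs at h with h1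
  · exact h1
  · exact absurd rfl h
theorem fh_e8z (x : ℤ) (h : e8 x ≠ 0) : x % 8 = 0 := by
  unfold e8 at h
  split_ifs at h with h1 h2
  · omega
  · omega
  · exact absurd rfl h
theorem fh_bqz (x : ℤ) (h : bq x ≠ 0) : x % 2 = 1 := by
  unfold bq at h
  split_ifs at h with h1 h2 h3 h4
  · omega
  · omega
  · omega
  · omega
  · exact absurd rfl h
theorem fh_bbz (x : ℤ) (h : bb x ≠ 0) : x % 2 = 1 := by
  unfold bb at h
  split_ifs at h with h1 h2 h3 h4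
  · omega
  · omega
  · omega
  · omega
  · exact absurd rfl h

theorem fh_nz3 {a b c : ℂ} (h : a * b * c ≠ 0) : a ≠ 0 ∧ b ≠ 0 ∧ c ≠ 0 :=
  ⟨left_ne_zero_of_mul (left_ne_zero_of_mul h), right_ne_zero_of_mul (left_ne_zero_of_mul h),
    right_ne_zero_of_mul h⟩

/-- squares modulo `32` -/
theorem fh_s2 (x : ℤ) (h : x % 4 = 2) : x * x % 32 = 4 := by
  have : ∃ k, x = 4 * k + 2 := ⟨x / 4, by omega⟩
  obtain ⟨k, rfl⟩ := this
  have h2 : (k * (k + 1)) % 2 = 0 := Int.even_iff.1 (Int.even_mul_succ_self k)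
  have : (4 * k + 2) * (4 * k + 2) = 16 * (k * (k + 1)) + 4 := by ring
  rw [this]; omega
theorem fh_s4 (x : ℤ) (h : x % 4 = 0) : x * x % 16 = 0 := by
  have : ∃ k, x = 4 * k := ⟨x / 4, by omega⟩
  obtain ⟨k, rfl⟩ := this
  have : (4 * k) * (4 * k) = 16 * (k * k) := by ring
  rw [this]; omega
theorem fh_s8 (x : ℤ) (h : x % 8 = 0) : x * x % 32 = 0 := by
  have : ∃ k, x = 8 * k := ⟨x / 8, by omega⟩
  obtain ⟨k, rfl⟩ := this
  have : (8 * k) * (8 * k) = 32 * (2 * (k * k)) := by ring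
  rw [this]; omega
theorem fh_s1 (x : ℤ) (h : x % 2 = 1) : x * x % 8 = 1 := by
  have : ∃ k, x = 2 * k + 1 := ⟨x / 2, by omega⟩
  obtain ⟨k, rfl⟩ := this
  have h2 : (k * (k + 1)) % 2 = 0 := Int.even_iff.1 (Int.even_mul_succ_self k)
  have : (2 * k + 1) * (2 * k + 1) = 4 * (k * (k + 1)) + 1 := by ring
  rw [this]; omega

/-- the norm modulo `32` -/
theorem fh_A0 (v : T) (h : A 0 v ≠ 0) : dot v v % 32 = 12 := by
  have h1 := fh_nz3 (a := o2 v.1) (b := k2 v.2.1) (c := k2 v.2.2) h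
  have a1 := fh_s2 _ (fh_o2z _ h1.1)
  have b := fh_k2z _ h1.2.1
  have c := fh_k2z _ h1.2.2
  have a2 := fh_s2 v.2.1 (by omega)
  have a3 := fh_s2 v.2.2 (by omega)
  unfold dot
  omega
theorem fh_A5 (v : T) (h : A 5 v ≠ 0) : dot v v % 32 = 4 := by
  have h1 := fh_nz3 (a := o2 v.1) (b := e8 v.2.1) (c := e8 v.2.2) h
  have a1 := fh_s2 _ (fh_o2z _ h1.1)
  have a2 := fh_s8 _ (fh_e8z _ h1.2.1)
  have a3 := fh_s8 _ (fh_e8z _ h1.2.2)
  unfold dot
  omega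

/-- the shape for the indices `1, 2, 3, 4` -/
def fh_sh (v : T) : Prop := v.1 % 4 = 0 ∧ v.2.1 % 2 = 1 ∧ v.2.2 % 2 = 1

theorem fh_sh_dot (v : T) (h : fh_sh v) : dot v v % 8 = 2 := by
  obtain ⟨h1, h2, h3⟩ := h
  have a1 := fh_s4 _ h1
  have a2 := fh_s1 _ h2
  have a3 := fh_s1 _ h3
  unfold dot
  omega

theorem fh_A1 (v : T) (h : A 1 v ≠ 0) : fh_sh v := by
  have h1 := fh_nz3 (a := u4 v.1) (b := c2 v.2.1) (c := c2 v.2.2) h
  exact ⟨fh_u4z _ h1.1, fh_c2z _ h1.2.1, fh_c2z _ h1.2.2⟩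
theorem fh_A2 (v : T) (h : A 2 v ≠ 0) : fh_sh v := by
  have h1 := fh_nz3 (a := n4 v.1) (b := bq v.2.1) (c := bq v.2.2) h
  exact ⟨fh_n4z _ h1.1, fh_bqz _ h1.2.1, fh_bqz _ h1.2.2⟩
theorem fh_A3 (v : T) (h : A 3 v ≠ 0) : fh_sh v := by
  have h1 := fh_nz3 (a := u4 v.1) (b := od v.2.1) (c := od v.2.2) h
  exact ⟨fh_u4z _ h1.1, fh_odz _ h1.2.1, fh_odz _ h1.2.2⟩
theorem fh_A4 (v : T) (h : A 4 v ≠ 0) : fh_sh v := by
  have h1 := fh_nz3 (a := n4 v.1) (b := bb v.2.1) (c := bb v.2.2) h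
  exact ⟨fh_n4z _ h1.1, fh_bbz _ h1.2.1, fh_bbz _ h1.2.2⟩

/-- the cofactor modulo `32` or `8` -/
theorem fh_cof (d : ℕ) (h8 : d % 8 = 1) (m r : ℤ) (hr : r % 4 = 0)
    (h : ((d : ℤ) * m) % 32 = r % 32) : m % 32 = r % 32 := by
  obtain ⟨k, hk⟩ : ∃ k : ℤ, (d : ℤ) = 8 * k + 1 := ⟨(d : ℤ) / 8, by omega⟩
  rw [hk] at h
  have e : (8 * k + 1) * m = 8 * (k * m) + m := by ring
  rw [e] at h
  obtain ⟨j, hj⟩ : ∃ j : ℤ, m = 4 * j := ⟨m / 4, by omega⟩
  rw [hj] at h ⊢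
  have e2 : k * (4 * j) = 4 * (k * j) := by ring
  rw [e2] at h
  omega

theorem fh_cof8 (d : ℕ) (h8 : d % 8 = 1) (m : ℤ) (h : ((d : ℤ) * m) % 8 = 2) : m % 8 = 2 := by
  obtain ⟨k, hk⟩ : ∃ k : ℤ, (d : ℤ) = 8 * k + 1 := ⟨(d : ℤ) / 8, by omega⟩
  rw [hk] at h
  have e : (8 * k + 1) * m = 8 * (k * m) + m := by ring
  rw [e] at h
  omega

theorem fh_nonneg (v : T) : 0 ≤ dot v v := by
  unfold dot
  exact add_nonneg (add_nonneg (mul_self_nonneg _) (mul_self_nonneg _)) (mul_self_nonneg _)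

theorem AP_supp (d : ℕ) (hs : Squarefree d) (h8 : d % 8 = 1) (u : T) (i : Fin 6) (v : T)
    (h : AP d u i v ≠ 0) : (oT i * d : ℕ) ≤ dot v v := by
  obtain ⟨m, hm⟩ := AP_dvd d hs u i v h
  have hA := (fh_AP d u i v h).1
  have hd : (0 : ℤ) < d := by
    have : 0 < d := by omega
    exact_mod_cast this
  have hm0 : 0 ≤ m := by
    have := fh_nonneg v
    rw [hm] at this
    exact nonneg_of_mul_nonneg_right this hd
  have key : (oT i : ℤ) ≤ m := by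
    fin_cases i
    · have h1 := fh_A0 v hA
      rw [hm] at h1
      have h2 := fh_cof d h8 m 12 (by norm_num) h1
      show (12 : ℤ) ≤ m
      omega
    · have h1 := fh_sh_dot v (fh_A1 v hA)
      rw [hm] at h1
      have h2 := fh_cof8 d h8 m h1
      show (2 : ℤ) ≤ m
      omega
    · have h1 := fh_sh_dot v (fh_A2 v hA)
      rw [hm] at h1
      have h2 := fh_cof8 d h8 m h1
      show (2 : ℤ) ≤ m
      omega
    · have h1 := fh_sh_dot v (fh_A3 v hA)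
      rw [hm] at h1
      have h2 := fh_cof8 d h8 m h1
      show (2 : ℤ) ≤ m
      omega
    · have h1 := fh_sh_dot v (fh_A4 v hA)
      rw [hm] at h1
      have h2 := fh_cof8 d h8 m h1
      show (2 : ℤ) ≤ m
      omega
    · have h1 := fh_A5 v hA
      rw [hm] at h1
      have h2 := fh_cof d h8 m 4 (by norm_num) h1
      show (4 : ℤ) ≤ m
      omega
  rw [hm]
  push_cast
  calc (oT i : ℤ) * d ≤ m * d := mul_le_mul_of_nonneg_right key hd.le
    _ = d * m := mul_comm _ _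

/-! ### the exponential -/

/-- `exp (π i m / 16)` -/
noncomputable def fh_e (m : ℤ) : ℂ := Complex.exp (π * Complex.I * (m : ℤ) / 16)

theorem fh_e_add (a b : ℤ) : fh_e (a + b) = fh_e a * fh_e b := by
  unfold fh_e
  rw [← Complex.exp_add]
  congr 1
  push_cast
  ring

theorem fh_e_32 (k : ℤ) : fh_e (32 * k) = 1 := by
  unfold fh_e
  rw [Complex.exp_eq_one_iff]
  exact ⟨k, by push_cast; ring⟩

theorem fh_e_mod (a b : ℤ) (h : a % 32 = b % 32) : fh_e a = fh_e b := by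
  obtain ⟨k, hk⟩ : ∃ k : ℤ, a = b + 32 * k := ⟨(a - b) / 32, by omega⟩
  rw [hk, fh_e_add, fh_e_32, mul_one]

theorem fh_e_0 : fh_e 0 = 1 := by unfold fh_e; simp

theorem fh_e_16 : fh_e 16 = -1 := by
  unfold fh_e
  rw [← Complex.exp_pi_mul_I]
  congr 1
  push_cast
  ring

theorem fh_e_8 : fh_e 8 = Complex.I := by
  unfold fh_e
  have : (π * Complex.I * ((8 : ℤ) : ℂ) / 16 : ℂ) = ((π / 2 : ℝ) : ℂ) * Complex.I := by
    push_cast
    ring
  rw [this, Complex.exp_mul_I, ← Complex.ofReal_cos, ← Complex.ofReal_sin, Real.cos_pi_div_two,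
    Real.sin_pi_div_two]
  simp

theorem fh_e_24 : fh_e 24 = -Complex.I := by
  have : fh_e (16 + 8) = fh_e 16 * fh_e 8 := fh_e_add 16 8
  rw [fh_e_16, fh_e_8] at this
  rw [show (24 : ℤ) = 16 + 8 by norm_num, this]
  ring

theorem fh_ze : ze = fh_e 2 := by
  unfold ze fh_e
  congr 1
  push_cast
  ring

theorem fh_ze6 : ze ^ 6 = fh_e 12 := by
  rw [fh_ze]
  unfold fh_e
  rw [← Complex.exp_nat_mul]
  congr 1
  push_cast
  ring

theorem fh_ze2 : ze ^ 2 = fh_e 4 := by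
  rw [fh_ze]
  unfold fh_e
  rw [← Complex.exp_nat_mul]
  congr 1
  push_cast
  ring

/-- values of the exponential at odd squares -/
theorem fh_sq (y : ℤ) (h : y % 2 = 1) :
    ((y % 16 = 1 ∨ y % 16 = 15) ∧ fh_e (y * y - 1) = 1) ∨
    ((y % 16 = 3 ∨ y % 16 = 13) ∧ fh_e (y * y - 1) = Complex.I) ∨
    ((y % 16 = 5 ∨ y % 16 = 11) ∧ fh_e (y * y - 1) = -Complex.I) ∨
    ((y % 16 = 7 ∨ y % 16 = 9) ∧ fh_e (y * y - 1) = -1) := by
  have hval : fh_e (y * y - 1) = fh_e ((y % 16) * (y % 16) - 1) := by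
    apply fh_e_mod
    obtain ⟨k, hk⟩ : ∃ k : ℤ, y = 16 * k + y % 16 := ⟨y / 16, by omega⟩
    have e3 : (y * y - 1) = 32 * (8 * (k * k) + k * (y % 16)) + ((y % 16) * (y % 16) - 1) := by
      conv_lhs => rw [hk]
      ring
    rw [e3]
    omega
  rw [hval]
  have hs : y % 16 = 1 ∨ y % 16 = 3 ∨ y % 16 = 5 ∨ y % 16 = 7 ∨ y % 16 = 9 ∨ y % 16 = 11 ∨
    y % 16 = 13 ∨ y % 16 = 15 := by omega
  rcases hs with h | h | h | h | h | h | h | h <;> rw [h]
  · left; exact ⟨Or.inl rfl, by norm_num [fh_e_0]⟩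
  · right; left; exact ⟨Or.inl rfl, by norm_num [fh_e_8]⟩
  · right; right; left; exact ⟨Or.inl rfl, by norm_num [fh_e_24]⟩
  · right; right; right; refine ⟨Or.inl rfl, ?_⟩
    rw [fh_e_mod _ 16 (by norm_num), fh_e_16]
  · right; right; right; refine ⟨Or.inr rfl, ?_⟩
    rw [fh_e_mod _ 16 (by norm_num), fh_e_16]
  · right; right; left; refine ⟨Or.inr rfl, ?_⟩
    rw [fh_e_mod _ 24 (by norm_num), fh_e_24]
  · right; left; refine ⟨Or.inr rfl, ?_⟩
    rw [fh_e_mod _ 8 (by norm_num), fh_e_8]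
  · left; refine ⟨Or.inr rfl, ?_⟩
    rw [fh_e_mod _ 0 (by norm_num), fh_e_0]

theorem fh_c2bq (y : ℤ) (h : y % 2 = 1) : c2 y * fh_e (y * y - 1) = bq y := by
  rcases fh_sq y h with ⟨h1, h2⟩ | ⟨h1, h2⟩ | ⟨h1, h2⟩ | ⟨h1, h2⟩ <;> rw [h2] <;> unfold c2 bq
  · rw [if_pos (by omega), if_pos (by omega)]; ring
  · rw [if_neg (by omega), if_pos (by omega), if_neg (by omega), if_pos (by omega)]; ring
  · rw [if_neg (by omega), if_pos (by omega), if_neg (by omega), if_neg (by omega),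
      if_pos (by omega)]; ring
  · rw [if_pos (by omega), if_neg (by omega), if_neg (by omega), if_neg (by omega),
      if_pos (by omega)]; ring

theorem fh_bqod (y : ℤ) (h : y % 2 = 1) : bq y * fh_e (y * y - 1) = od y := by
  rcases fh_sq y h with ⟨h1, h2⟩ | ⟨h1, h2⟩ | ⟨h1, h2⟩ | ⟨h1, h2⟩ <;> rw [h2] <;> unfold od bq <;>
    rw [if_pos h]
  · rw [if_pos (by omega)]; ring
  · rw [if_neg (by omega), if_pos (by omega)]
    linear_combination -Complex.I_mul_I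
  · rw [if_neg (by omega), if_neg (by omega), if_pos (by omega)]
    linear_combination -Complex.I_mul_I
  · rw [if_neg (by omega), if_neg (by omega), if_neg (by omega), if_pos (by omega)]; ring

theorem fh_odbb (y : ℤ) (h : y % 2 = 1) : od y * fh_e (y * y - 1) = bb y := by
  rcases fh_sq y h with ⟨h1, h2⟩ | ⟨h1, h2⟩ | ⟨h1, h2⟩ | ⟨h1, h2⟩ <;> rw [h2] <;> unfold od bb <;>
    rw [if_pos h]
  · rw [if_pos (by omega)]; ring
  · rw [if_neg (by omega), if_pos (by omega)]; ring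
  · rw [if_neg (by omega), if_neg (by omega), if_pos (by omega)]; ring
  · rw [if_neg (by omega), if_neg (by omega), if_neg (by omega), if_pos (by omega)]; ring

theorem fh_bbc2 (y : ℤ) (h : y % 2 = 1) : bb y * fh_e (y * y - 1) = c2 y := by
  rcases fh_sq y h with ⟨h1, h2⟩ | ⟨h1, h2⟩ | ⟨h1, h2⟩ | ⟨h1, h2⟩ <;> rw [h2] <;> unfold c2 bb
  · rw [if_pos (by omega), if_pos (by omega)]; ring
  · rw [if_neg (by omega), if_pos (by omega), if_neg (by omega), if_pos (by omega)]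
    linear_combination Complex.I_mul_I
  · rw [if_neg (by omega), if_neg (by omega), if_pos (by omega), if_neg (by omega),
      if_pos (by omega)]
    linear_combination Complex.I_mul_I
  · rw [if_neg (by omega), if_neg (by omega), if_neg (by omega), if_pos (by omega),
      if_pos (by omega)]; ring

theorem fh_x (x : ℤ) (h : x % 4 = 0) : (x % 8 = 0 ∧ fh_e (x * x) = 1) ∨
    (x % 8 = 4 ∧ fh_e (x * x) = -1) := by
  have h8 : x % 8 = 0 ∨ x % 8 = 4 := by omega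
  rcases h8 with h8 | h8
  · left
    refine ⟨h8, ?_⟩
    rw [fh_e_mod _ 0 (by rw [fh_s8 x h8]; norm_num), fh_e_0]
  · right
    refine ⟨h8, ?_⟩
    obtain ⟨k, rfl⟩ : ∃ k : ℤ, x = 8 * k + 4 := ⟨x / 8, by omega⟩
    have e : (8 * k + 4) * (8 * k + 4) = 32 * (2 * (k * k) + 2 * k) + 16 := by ring
    rw [e, fh_e_mod _ 16 (by omega), fh_e_16]

theorem fh_u4n4 (x : ℤ) (h : x % 4 = 0) : u4 x * fh_e (x * x) = n4 x := by
  unfold u4 n4
  rw [if_pos h]
  rcases fh_x x h with ⟨h1, h2⟩ | ⟨h1, h2⟩ <;> rw [h2]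
  · rw [if_pos h1]; ring
  · rw [if_neg (by omega), if_pos h1]; ring

theorem fh_n4u4 (x : ℤ) (h : x % 4 = 0) : n4 x * fh_e (x * x) = u4 x := by
  unfold u4 n4
  rw [if_pos h]
  rcases fh_x x h with ⟨h1, h2⟩ | ⟨h1, h2⟩ <;> rw [h2]
  · rw [if_pos h1]; ring
  · rw [if_neg (by omega), if_pos h1]; ring

theorem fh_dot (v : T) : fh_e (dot v v) =
    ze * fh_e (v.1 * v.1) * fh_e (v.2.1 * v.2.1 - 1) * fh_e (v.2.2 * v.2.2 - 1) := by
  rw [fh_ze, ← fh_e_add, ← fh_e_add, ← fh_e_add]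
  congr 1
  unfold dot
  ring

theorem fh_sd (d : ℕ) (h8 : d % 8 = 1) (m D : ℤ) (hD : D = d * m) (h2 : D % 8 = 2) :
    fh_e m = sd d * fh_e D := by
  have hm : m % 8 = 2 := by
    rw [hD] at h2
    exact fh_cof8 d h8 m h2
  obtain ⟨j, hj⟩ : ∃ j : ℤ, m = 8 * j + 2 := ⟨m / 8, by omega⟩
  unfold sd
  by_cases h16 : d % 16 = 1
  · rw [if_pos h16, one_mul]
    obtain ⟨k, hk⟩ : ∃ k : ℤ, (d : ℤ) = 16 * k + 1 := ⟨(d : ℤ) / 16, by omega⟩
    apply fh_e_mod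
    rw [hD, hk, hj]
    have : (16 * k + 1) * (8 * j + 2) = 32 * (4 * (k * j) + k) + (8 * j + 2) := by ring
    rw [this]
    omega
  · rw [if_neg h16]
    obtain ⟨k, hk⟩ : ∃ k : ℤ, (d : ℤ) = 16 * k + 9 := ⟨(d : ℤ) / 16, by omega⟩
    rw [← fh_e_16, ← fh_e_add]
    apply fh_e_mod
    rw [hD, hk, hj]
    have : (16 * k + 9) * (8 * j + 2) = 32 * (4 * (k * j) + k + 2 * j) + (8 * j + 18) := by ring
    rw [this]
    omega

theorem fh_sh_or (v : T) : fh_sh v ∨ (A 1 v = 0 ∧ A 2 v = 0 ∧ A 3 v = 0 ∧ A 4 v = 0) := by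
  by_cases h : fh_sh v
  · left; exact h
  · right
    refine ⟨?_, ?_, ?_, ?_⟩
    · by_contra h1; exact h (fh_A1 v h1)
    · by_contra h1; exact h (fh_A2 v h1)
    · by_contra h1; exact h (fh_A3 v h1)
    · by_contra h1; exact h (fh_A4 v h1)

theorem fh_12 (v : T) (h : fh_sh v) : A 1 v * fh_e (dot v v) = ze * A 2 v := by
  rw [fh_dot]
  show u4 v.1 * c2 v.2.1 * c2 v.2.2 * _ = ze * (n4 v.1 * bq v.2.1 * bq v.2.2)
  rw [← fh_u4n4 v.1 h.1, ← fh_c2bq v.2.1 h.2.1, ← fh_c2bq v.2.2 h.2.2]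
  ring
theorem fh_23 (v : T) (h : fh_sh v) : A 2 v * fh_e (dot v v) = ze * A 3 v := by
  rw [fh_dot]
  show n4 v.1 * bq v.2.1 * bq v.2.2 * _ = ze * (u4 v.1 * od v.2.1 * od v.2.2)
  rw [← fh_n4u4 v.1 h.1, ← fh_bqod v.2.1 h.2.1, ← fh_bqod v.2.2 h.2.2]
  ring
theorem fh_34 (v : T) (h : fh_sh v) : A 3 v * fh_e (dot v v) = ze * A 4 v := by
  rw [fh_dot]
  show u4 v.1 * od v.2.1 * od v.2.2 * _ = ze * (n4 v.1 * bb v.2.1 * bb v.2.2)
  rw [← fh_u4n4 v.1 h.1, ← fh_odbb v.2.1 h.2.1, ← fh_odbb v.2.2 h.2.2]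
  ring
theorem fh_41 (v : T) (h : fh_sh v) : A 4 v * fh_e (dot v v) = ze * A 1 v := by
  rw [fh_dot]
  show n4 v.1 * bb v.2.1 * bb v.2.2 * _ = ze * (u4 v.1 * c2 v.2.1 * c2 v.2.2)
  rw [← fh_n4u4 v.1 h.1, ← fh_bbc2 v.2.1 h.2.1, ← fh_bbc2 v.2.2 h.2.2]
  ring

/-- translation by one -/
theorem AP_T (d : ℕ) (hs : Squarefree d) (h8 : d % 8 = 1) (u : T) (i : Fin 6) (v : T) :
    AP d u i v * Complex.exp (π * Complex.I * (dot v v : ℤ) / (16 * d : ℕ)) =
      eT (sd d) i * cT i * AP d u (sT i) v := by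
  by_cases hP : Psi d u v = 0
  · unfold AP
    rw [hP]
    simp
  · obtain ⟨m, hm⟩ := fh_psi d hs u v hP
    have hd0 : ((d : ℕ) : ℂ) ≠ 0 := by
      have : d ≠ 0 := by omega
      exact_mod_cast this
    have he : Complex.exp (π * Complex.I * (dot v v : ℤ) / (16 * d : ℕ)) = fh_e m := by
      unfold fh_e
      congr 1
      rw [hm]
      push_cast
      field_simp
    rw [he]
    have key : A i v * fh_e m = eT (sd d) i * cT i * A (sT i) v := by
      have mid : ∀ a b : ℂ, (fh_sh v → a * fh_e (dot v v) = ze * b) →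
          (¬ fh_sh v → a = 0 ∧ b = 0) → a * fh_e m = sd d * ze * b := by
        intro a b h1 h2
        by_cases hsh : fh_sh v
        · rw [fh_sd d h8 m (dot v v) hm (fh_sh_dot v hsh)]
          have := h1 hsh
          calc a * (sd d * fh_e (dot v v)) = sd d * (a * fh_e (dot v v)) := by ring
            _ = sd d * ze * b := by rw [this]; ring
        · obtain ⟨h3, h4⟩ := h2 hsh
          rw [h3, h4]; ring
      have nsh : ¬ fh_sh v → (A 1 v = 0 ∧ A 2 v = 0 ∧ A 3 v = 0 ∧ A 4 v = 0) := by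
        intro h
        rcases fh_sh_or v with h1 | h1
        · exact absurd h1 h
        · exact h1
      fin_cases i
      · show A 0 v * fh_e m = 1 * ze ^ 6 * A 0 v
        by_cases hA : A 0 v = 0
        · rw [hA]; ring
        · have h1 := fh_A0 v hA
          rw [hm] at h1
          have h2 := fh_cof d h8 m 12 (by norm_num) h1
          rw [fh_e_mod m 12 h2, fh_ze6]; ring
      · show A 1 v * fh_e m = sd d * ze * A 2 v
        exact mid _ _ (fh_12 v) (fun h => ⟨(nsh h).1, (nsh h).2.1⟩)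
      · show A 2 v * fh_e m = sd d * ze * A 3 v
        exact mid _ _ (fh_23 v) (fun h => ⟨(nsh h).2.1, (nsh h).2.2.1⟩)
      · show A 3 v * fh_e m = sd d * ze * A 4 v
        exact mid _ _ (fh_34 v) (fun h => ⟨(nsh h).2.2.1, (nsh h).2.2.2⟩)
      · show A 4 v * fh_e m = sd d * ze * A 1 v
        exact mid _ _ (fh_41 v) (fun h => ⟨(nsh h).2.2.2, (nsh h).1⟩)
      · show A 5 v * fh_e m = 1 * ze ^ 2 * A 5 v
        by_cases hA : A 5 v = 0
        · rw [hA]; ring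
        · have h1 := fh_A5 v hA
          rw [hm] at h1
          have h2 := fh_cof d h8 m 4 (by norm_num) h1
          rw [fh_e_mod m 4 h2, fh_ze2]; ring
    unfold AP
    calc A i v * (Psi d u v : ℤ) * fh_e m = (A i v * fh_e m) * (Psi d u v : ℤ) := by ring
      _ = _ := by rw [key]; ring

end Pool.Agent.GNF
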