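import Pool.Agent.Lib_helper7.GNF.D

set_option autoImplicit false

namespace Pool.Agent.GNF

open Finset Pool.Agent.GEN
open scoped Real

/-- sum over the integers by residues -/
theorem ta_split (M : ℕ) (hM : 0 < M) (f : ℤ → ℂ) (hf : Summable f) :
    ∑' n : ℤ, f n = ∑ b ∈ Ico (0 : ℤ) M, ∑' k : ℤ, f (b + M * k) := by
  have : NeZero M := ⟨hM.ne'⟩
  have h1 : ∑' n : ℤ, f n = ∑' p : Fin M × ℤ, f ((p.1 : ℕ) + M * p.2) := by
    rw [← ((Equiv.prodComm (Fin M) ℤ).trans (Int.divModEquiv M).symm).tsum_eq]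
    refine tsum_congr fun p => ?_
    congr 1
    simp [Int.divModEquiv]
    ring
  have hs : Summable fun p : Fin M × ℤ => f ((p.1 : ℕ) + M * p.2) := by
    have := (((Equiv.prodComm (Fin M) ℤ).trans (Int.divModEquiv M).symm).summable_iff (f := f)).2 hf
    refine this.congr fun p => ?_
    simp [Int.divModEquiv]
    congr 1
    ring
  rw [h1, hs.tsum_prod, tsum_fintype]
  rw [Fin.sum_univ_eq_sum_range (fun b : ℕ => ∑' k : ℤ, f ((b : ℤ) + M * k)) M]
  refine Finset.sum_nbij' (fun n : ℕ => (n : ℤ)) (fun b : ℤ => b.toNat) ?_ ?_ ?_ ?_ ?_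
  · intro n hn
    simp only [Finset.mem_range] at hn
    simp only [Finset.mem_Ico]
    omega
  · intro b hb
    simp only [Finset.mem_Ico] at hb
    simp only [Finset.mem_range]
    omega
  · intro n hn
    simp
  · intro b hb
    simp only [Finset.mem_Ico] at hb
    omega
  · intro n hn
    rfl

/-- the square roots -/
theorem ta_sqrt (M : ℕ) (hM : 0 < M) (τ : ℂ) (hτ : 0 < τ.im) :
    1 / (-Complex.I * (M * (-1 / τ))) ^ (1 / 2 : ℂ) = J τ * (M : ℂ) ^ (-(1 / 2) : ℂ) := by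
  have hw : 0 < (-Complex.I * τ).re := by simpa using hτ
  have hw0 : -Complex.I * τ ≠ 0 := by
    intro h
    rw [h] at hw
    simp at hw
  have hτ0 : τ ≠ 0 := by
    rintro rfl
    simp at hτ
  have harg : (-Complex.I * τ).arg ≠ π := by
    intro h
    rw [Complex.arg_eq_pi_iff] at h
    linarith [h.1]
  have e1 : -Complex.I * (M * (-1 / τ)) = ((M : ℝ) : ℂ) * (-Complex.I * τ)⁻¹ := by
    have : (-Complex.I * τ)⁻¹ = Complex.I * τ⁻¹ := by
      rw [mul_inv, inv_neg, Complex.inv_I, neg_neg]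
    rw [this]
    push_cast
    field_simp
  have hM' : (0 : ℝ) < M := by exact_mod_cast hM
  rw [e1, Complex.cpow_def_of_ne_zero (mul_ne_zero (by exact_mod_cast hM'.ne') (inv_ne_zero hw0)),
    Complex.log_ofReal_mul hM' (inv_ne_zero hw0), Complex.log_inv _ harg, J,
    Complex.cpow_def_of_ne_zero hw0, Complex.cpow_def_of_ne_zero (by exact_mod_cast hM.ne'),
    one_div, ← Complex.exp_neg, ← Complex.exp_add, ← Complex.natCast_log]
  congr 1
  push_cast
  ring

/-- transformation of the theta series of a residue class -/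
theorem TA (M : ℕ) (hM : 0 < M) (a : ℤ) (τ : ℂ) (hτ : 0 < τ.im) :
    th1 M a (-1 / τ) = J τ * (M : ℂ) ^ (-(1 / 2) : ℂ) *
      ∑ b ∈ Ico (0 : ℤ) M, Complex.exp (2 * π * Complex.I * (a * b : ℤ) / M) * th1 M b τ := by
  have hτ0 : τ ≠ 0 := by
    rintro rfl
    simp at hτ
  have hM0 : (M : ℂ) ≠ 0 := by exact_mod_cast hM.ne'
  have h1 : th1 M a (-1 / τ) = Complex.exp (π * Complex.I * a ^ 2 * (-1 / τ) / M) *
      jacobiTheta₂ (a * (-1 / τ)) (M * (-1 / τ)) := by
    rw [th1, jacobiTheta₂, ← tsum_mul_left]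
    refine tsum_congr fun k => ?_
    rw [jacobiTheta₂_term, ← Complex.exp_add]
    congr 1
    push_cast
    field_simp
    ring
  have h2 : jacobiTheta₂ (a / M) (τ / M) =
      ∑ b ∈ Ico (0 : ℤ) M, Complex.exp (2 * π * Complex.I * (a * b : ℤ) / M) * th1 M b τ := by
    have him : 0 < (τ / M).im := by
      rw [Complex.div_natCast_im]
      positivity
    rw [jacobiTheta₂, ta_split M hM _ ((summable_jacobiTheta₂_term_iff _ _).2 him)]
    refine Finset.sum_congr rfl fun b _ => ?_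
    rw [th1, ← tsum_mul_left]
    refine tsum_congr fun k => ?_
    rw [jacobiTheta₂_term, ← Complex.exp_add]
    rw [show 2 * ↑π * Complex.I * ((b + M * k : ℤ) : ℂ) * ((a : ℂ) / M) +
        ↑π * Complex.I * ((b + M * k : ℤ) : ℂ) ^ 2 * (τ / M) =
        (2 * ↑π * Complex.I * ((a * b : ℤ) : ℂ) / M +
        ↑π * Complex.I * (((b + M * k) ^ 2 : ℤ) : ℂ) * τ / M) + (a * k : ℤ) * (2 * ↑π * Complex.I) by
      push_cast
      field_simp
      ring]
    rw [Complex.exp_add, Complex.exp_int_mul_two_pi_mul_I, mul_one]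
  rw [h1, jacobiTheta₂_functional_equation, ta_sqrt M hM τ hτ, ← h2]
  have e1 : (a : ℂ) * (-1 / τ) / (M * (-1 / τ)) = a / M := by
    field_simp
  have e2 : -1 / ((M : ℂ) * (-1 / τ)) = τ / M := by
    field_simp
  rw [e1, e2]
  have e3 : Complex.exp (π * Complex.I * a ^ 2 * (-1 / τ) / M) *
      Complex.exp (-π * Complex.I * (a * (-1 / τ)) ^ 2 / (M * (-1 / τ))) = 1 := by
    rw [← Complex.exp_add, ← Complex.exp_zero]
    congr 1
    field_simp
    ring
  calc _ = (Complex.exp (π * Complex.I * a ^ 2 * (-1 / τ) / M) *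
      Complex.exp (-π * Complex.I * (a * (-1 / τ)) ^ 2 / (M * (-1 / τ)))) *
      (J τ * (M : ℂ) ^ (-(1 / 2) : ℂ) * jacobiTheta₂ (a / M) (τ / M)) := by ring
    _ = _ := by rw [e3, one_mul]

end Pool.Agent.GNF
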