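import Pool.Agent.Lib_helper7.GNF.D

set_option autoImplicit false

namespace Pool.Agent.GNF

open Finset Pool.Agent.GEN
open scoped Real

theorem td_one (c : ℝ) (hc : 0 < c) : Summable (fun n : ℤ => Real.exp (-c * ((n : ℝ) ^ 2))) := by
  have h1 : Summable (fun n : ℕ => Real.exp (-c) ^ n) :=
    summable_geometric_of_lt_one (Real.exp_pos _).le (by rw [Real.exp_lt_one_iff]; linarith)
  have h2 : ∀ n : ℕ, Real.exp (-c * ((n : ℝ) ^ 2)) ≤ Real.exp (-c) ^ n := by
    intro n
    rw [← Real.exp_nat_mul]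
    apply Real.exp_le_exp.2
    have h3 : (n : ℝ) ≤ (n : ℝ) ^ 2 := by
      exact_mod_cast Nat.le_self_pow (two_ne_zero) n
    nlinarith
  have h4 : Summable (fun n : ℕ => Real.exp (-c * ((n : ℝ) ^ 2))) :=
    Summable.of_nonneg_of_le (fun n => (Real.exp_pos _).le) h2 h1
  refine Summable.of_nat_of_neg ?_ ?_
  · simpa using h4
  · simpa using h4

theorem td_dot (v : T) : ((dot v v : ℤ) : ℝ) = (v.1 : ℝ) ^ 2 + ((v.2.1 : ℝ) ^ 2 + (v.2.2 : ℝ) ^ 2) := by
  unfold dot
  push_cast
  ring

/-- the real version: the Gaussian sum over all integral vectors converges -/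
theorem TD_gauss (c : ℝ) (hc : 0 < c) : Summable (fun v : T => Real.exp (-c * (dot v v : ℤ))) := by
  have h1 := td_one c hc
  have h2 := h1.mul_of_nonneg (h1.mul_of_nonneg h1 (fun n => (Real.exp_pos _).le)
    (fun n => (Real.exp_pos _).le)) (fun n => (Real.exp_pos _).le)
    (fun n => (mul_pos (Real.exp_pos _) (Real.exp_pos _)).le)
  refine h2.congr fun v => ?_
  rw [td_dot, mul_add, mul_add, Real.exp_add, Real.exp_add]

theorem td_norm (M : ℕ) (τ : ℂ) (n : ℤ) :
    ‖Complex.exp (π * Complex.I * (n : ℤ) * τ / M)‖ = Real.exp (-(π * τ.im / M) * n) := by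
  rw [Complex.norm_exp]
  congr 1
  have h : (π * Complex.I * (n : ℤ) * τ / M : ℂ) = ((π * n / M : ℝ) : ℂ) * (Complex.I * τ) := by
    push_cast
    ring
  rw [h, Complex.re_ofReal_mul, Complex.I_mul_re]
  ring

/-- absolute convergence -/
theorem TD (M : ℕ) (hM : 0 < M) (F : T → ℂ) (B : ℝ) (hF : ∀ v, ‖F v‖ ≤ B) (τ : ℂ) (hτ : 0 < τ.im) :
    Summable (fun v : T => ‖F v * Complex.exp (π * Complex.I * (dot v v : ℤ) * τ / M)‖) := by
  have hM' : (0 : ℝ) < M := by exact_mod_cast hM
  have h1 := (TD_gauss (π * τ.im / M) (by positivity)).mul_left B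
  refine Summable.of_nonneg_of_le (fun v => norm_nonneg _) (fun v => ?_) h1
  rw [norm_mul, td_norm]
  exact mul_le_mul_of_nonneg_right (hF v) (Real.exp_pos _).le

/-- absolute convergence in one variable -/
theorem TD1 (M : ℕ) (hM : 0 < M) (a : ℤ) (τ : ℂ) (hτ : 0 < τ.im) :
    Summable (fun k : ℤ => ‖Complex.exp (π * Complex.I * (((a + M * k) ^ 2 : ℤ) : ℂ) * τ / M)‖) := by
  have hM' : (0 : ℝ) < M := by exact_mod_cast hM
  have h1 := td_one (π * τ.im / M) (by positivity)
  have hinj : Function.Injective (fun k : ℤ => a + M * k) := by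
    intro k l h
    have h2 : (M : ℤ) * k = M * l := by simpa using h
    exact mul_left_cancel₀ (by exact_mod_cast hM.ne') h2
  refine (h1.comp_injective hinj).congr fun k => ?_
  rw [td_norm]
  simp only [Function.comp_apply]
  push_cast
  ring_nf

end Pool.Agent.GNF
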