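import Pool.Agent.Lib_helper7.GNF.D
import Pool.Agent.Lib_helper7.GNF.P.TD

set_option autoImplicit false

namespace Pool.Agent.GNF

open Finset Pool.Agent.GEN
open scoped Real

/-- a periodic function on the integers is bounded -/
theorem tb_bdd (M : ℕ) (hM : 0 < M) (G : ℤ → ℂ) (hG : ∀ x k : ℤ, G (x + M * k) = G x) (x : ℤ) :
    ‖G x‖ ≤ ∑ a ∈ Ico (0 : ℤ) M, ‖G a‖ := by
  have hM' : (0 : ℤ) < M := by exact_mod_cast hM
  have h1 : G x = G (x % M) := by
    rw [← hG (x % M) (x / M), Int.emod_add_mul_ediv]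
  rw [h1]
  exact single_le_sum (f := fun a => ‖G a‖) (fun _ _ => norm_nonneg _)
    (mem_Ico.2 ⟨Int.emod_nonneg x hM'.ne', Int.emod_lt_of_pos x hM'⟩)

/-- decomposition in one variable -/
theorem tb_one (M : ℕ) (hM : 0 < M) (e : ℤ → ℂ) (he : Summable (fun x => ‖e x‖)) (G : ℤ → ℂ)
    (hG : ∀ x k : ℤ, G (x + M * k) = G x) :
    ∑' x, G x * e x = ∑ a ∈ Ico (0 : ℤ) M, G a * ∑' k : ℤ, e (a + M * k) := by
  have : NeZero M := ⟨hM.ne'⟩
  have hs : Summable (fun x => G x * e x) := by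
    refine Summable.of_norm_bounded
      (he.mul_left (∑ a ∈ Ico (0 : ℤ) M, ‖G a‖)) fun x => ?_
    rw [norm_mul]
    exact mul_le_mul_of_nonneg_right (tb_bdd M hM G hG x) (norm_nonneg _)
  have hs' : Summable (fun q : Fin M × ℤ => G (q.2 * M + (q.1 : ℕ)) * e (q.2 * M + (q.1 : ℕ))) :=
    hs.comp_injective (((Equiv.prodComm _ _).trans (Int.divModEquiv M).symm).injective)
  rw [← ((Equiv.prodComm (Fin M) ℤ).trans (Int.divModEquiv M).symm).tsum_eq (fun x => G x * e x)]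
  have h1 : ∑' q : Fin M × ℤ, G (q.2 * M + (q.1 : ℕ)) * e (q.2 * M + (q.1 : ℕ)) =
      ∑ i : Fin M, ∑' k : ℤ, G (k * M + (i : ℕ)) * e (k * M + (i : ℕ)) := by
    rw [hs'.tsum_prod, tsum_fintype]
  refine Eq.trans h1 ?_
  have h2 : ∑ a ∈ Ico (0 : ℤ) M, G a * ∑' k : ℤ, e (a + M * k) =
      ∑ i : Fin M, G ((i : ℕ) : ℤ) * ∑' k : ℤ, e ((i : ℕ) + M * k) := by
    rw [Fin.sum_univ_eq_sum_range (fun i : ℕ => G (i : ℤ) * ∑' k : ℤ, e ((i : ℤ) + M * k)) M]
    symm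
    apply sum_bij (fun (i : ℕ) _ => (i : ℤ))
    · intro i hi
      rw [mem_range] at hi
      rw [mem_Ico]
      exact ⟨by positivity, by exact_mod_cast hi⟩
    · intro i _ j _ hij
      exact_mod_cast hij
    · intro b hb
      rw [mem_Ico] at hb
      refine ⟨b.toNat, ?_, ?_⟩
      · rw [mem_range]
        omega
      · show ((b.toNat : ℕ) : ℤ) = b
        omega
    · intro i _
      rfl
  rw [h2]
  refine Fintype.sum_congr _ _ fun i => ?_
  rw [← tsum_mul_left]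
  refine tsum_congr fun k => ?_
  have h3 : k * (M : ℤ) + (i : ℕ) = (i : ℕ) + M * k := by ring
  rw [h3, hG]

/-- decomposition into residue classes -/
theorem TB (M : ℕ) (hM : 0 < M) (F : T → ℂ) (hF : Per M F) (τ : ℂ) (hτ : 0 < τ.im) :
    th M F τ = ∑ a ∈ cube M, F a * (th1 M a.1 τ * th1 M a.2.1 τ * th1 M a.2.2 τ) := by
  have hM' : (M : ℂ) ≠ 0 := by exact_mod_cast hM.ne'
  obtain ⟨e, he⟩ : ∃ e : ℤ → ℂ, ∀ x, e x =
      Complex.exp (π * Complex.I * ((x ^ 2 : ℤ) : ℂ) * τ / M) := ⟨_, fun _ => rfl⟩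
  have hp1 : ∀ y z x k : ℤ, F (x + M * k, y, z) = F (x, y, z) := by
    intro y z x k
    have h := hF (x, y, z) (k, 0, 0)
    simpa using h
  have hp2 : ∀ x z y k : ℤ, F (x, y + M * k, z) = F (x, y, z) := by
    intro x z y k
    have h := hF (x, y, z) (0, k, 0)
    simpa using h
  have hp3 : ∀ x y z k : ℤ, F (x, y, z + M * k) = F (x, y, z) := by
    intro x y z k
    have h := hF (x, y, z) (0, 0, k)
    simpa using h
  have hes : Summable (fun x => ‖e x‖) := by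
    have h1 := TD1 1 one_pos 0 (τ / M) (by
      rw [Complex.div_natCast_im]
      exact div_pos hτ (by exact_mod_cast hM))
    refine h1.congr fun x => ?_
    rw [he]
    congr 2
    push_cast
    ring
  have hexp : ∀ v : T, Complex.exp (π * Complex.I * (dot v v : ℤ) * τ / M) =
      e v.1 * (e v.2.1 * e v.2.2) := by
    intro v
    rw [he, he, he, ← Complex.exp_add, ← Complex.exp_add]
    congr 1
    unfold dot
    push_cast
    field_simp
    ring
  have hth : ∀ a : ℤ, th1 M a τ = ∑' k : ℤ, e (a + M * k) := by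
    intro a
    unfold th1
    exact tsum_congr fun k => (he _).symm
  -- `F` is bounded
  have hB : ∀ v, ‖F v‖ ≤ ∑ a ∈ Ico (0 : ℤ) M, ∑ b ∈ Ico (0 : ℤ) M, ∑ c ∈ Ico (0 : ℤ) M,
      ‖F (a, b, c)‖ := by
    rintro ⟨x, y, z⟩
    have hM0 : (0 : ℤ) < M := by exact_mod_cast hM
    have hm : ∀ t : ℤ, t % M ∈ Ico (0 : ℤ) M := fun t =>
      mem_Ico.2 ⟨Int.emod_nonneg t hM0.ne', Int.emod_lt_of_pos t hM0⟩
    have h1 : F (x, y, z) = F (x % M, y % M, z % M) := by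
      rw [← hp1 _ _ (x % M) (x / M), ← hp2 _ _ (y % M) (y / M), ← hp3 _ _ (z % M) (z / M),
        Int.emod_add_mul_ediv, Int.emod_add_mul_ediv, Int.emod_add_mul_ediv]
    rw [h1]
    calc ‖F (x % M, y % M, z % M)‖ ≤ ∑ c ∈ Ico (0 : ℤ) M, ‖F (x % M, y % M, c)‖ :=
          single_le_sum (f := fun c => ‖F (x % M, y % M, c)‖) (fun _ _ => norm_nonneg _) (hm z)
      _ ≤ ∑ b ∈ Ico (0 : ℤ) M, ∑ c ∈ Ico (0 : ℤ) M, ‖F (x % M, b, c)‖ :=
          single_le_sum (f := fun b => ∑ c ∈ Ico (0 : ℤ) M, ‖F (x % M, b, c)‖)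
            (fun _ _ => sum_nonneg fun _ _ => norm_nonneg _) (hm y)
      _ ≤ _ := single_le_sum (f := fun a => ∑ b ∈ Ico (0 : ℤ) M, ∑ c ∈ Ico (0 : ℤ) M,
            ‖F (a, b, c)‖)
            (fun _ _ => sum_nonneg fun _ _ => sum_nonneg fun _ _ => norm_nonneg _) (hm x)
  have hsum : Summable (fun v : ℤ × ℤ × ℤ => F v * (e v.1 * (e v.2.1 * e v.2.2))) := by
    refine (TD M hM F _ hB τ hτ).of_norm.congr fun v => ?_
    rw [hexp]
  have hL : th M F τ = ∑' v : ℤ × ℤ × ℤ, F v * (e v.1 * (e v.2.1 * e v.2.2)) := by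
    unfold th
    exact tsum_congr fun v => by rw [hexp]
  rw [hL, hsum.tsum_prod]
  have h1 : ∀ x : ℤ, ∑' c : ℤ × ℤ, F (x, c) * (e x * (e c.1 * e c.2)) =
      (∑ b ∈ Ico (0 : ℤ) M, (∑ c ∈ Ico (0 : ℤ) M, F (x, b, c) * th1 M c τ) * th1 M b τ) * e x := by
    intro x
    have hx : Summable (fun c : ℤ × ℤ => F (x, c) * (e x * (e c.1 * e c.2))) :=
      hsum.comp_injective (f := fun v : ℤ × ℤ × ℤ => F v * (e v.1 * (e v.2.1 * e v.2.2)))
        (i := fun c : ℤ × ℤ => (x, c)) (fun c d h => (Prod.ext_iff.1 h).2)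
    rw [hx.tsum_prod]
    have h2 : ∀ y : ℤ, ∑' z : ℤ, F (x, y, z) * (e x * (e y * e z)) =
        ((∑ c ∈ Ico (0 : ℤ) M, F (x, y, c) * th1 M c τ) * e x) * e y := by
      intro y
      have h3 : ∀ z : ℤ, F (x, y, z) * (e x * (e y * e z)) = (e x * e y) * (F (x, y, z) * e z) :=
        fun z => by ring
      rw [tsum_congr h3, tsum_mul_left, tb_one M hM e hes (fun z => F (x, y, z)) (hp3 x y)]
      rw [sum_congr rfl fun c _ => by rw [← hth c]]
      ring
    rw [tsum_congr h2, tb_one M hM e hes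
      (fun y => (∑ c ∈ Ico (0 : ℤ) M, F (x, y, c) * th1 M c τ) * e x) (fun y k => by
        simp only [hp2])]
    rw [sum_mul]
    refine sum_congr rfl fun b _ => ?_
    rw [← hth b]
    ring
  rw [tsum_congr h1, tb_one M hM e hes
    (fun x => ∑ b ∈ Ico (0 : ℤ) M, (∑ c ∈ Ico (0 : ℤ) M, F (x, b, c) * th1 M c τ) * th1 M b τ)
    (fun x k => by simp only [hp1])]
  unfold cube
  rw [sum_product]
  refine sum_congr rfl fun a _ => ?_
  rw [sum_product, ← hth a, sum_mul]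
  refine sum_congr rfl fun b _ => ?_
  rw [sum_mul, sum_mul]
  refine sum_congr rfl fun c _ => ?_
  ring

end Pool.Agent.GNF
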