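import Pool.Agent.Lib_helper7.GNF.D
import Pool.Agent.Lib_helper7.GNF.P.TA
import Pool.Agent.Lib_helper7.GNF.P.TB

set_option autoImplicit false

namespace Pool.Agent.GNF

open Finset Pool.Agent.GEN
open scoped Real

/-- the Fourier transform is periodic -/
theorem FT_per (M : ℕ) (hM : 0 < M) (F : T → ℂ) : Per M (FT M F) := by
  intro v w
  unfold FT
  apply Finset.sum_congr rfl
  intro x _
  congr 1
  have hM' : (M : ℂ) ≠ 0 := by exact_mod_cast hM.ne'
  have h : (2 * π * Complex.I *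
      (dot x (v.1 + M * w.1, v.2.1 + M * w.2.1, v.2.2 + M * w.2.2) : ℤ) / M : ℂ) =
      2 * π * Complex.I * (dot x v : ℤ) / M + (dot x w : ℤ) * (2 * π * Complex.I) := by
    unfold dot
    push_cast
    field_simp
    ring
  rw [h, Complex.exp_add, Complex.exp_int_mul_two_pi_mul_I, mul_one]

/-- Poisson summation: transformation of a theta series under `τ ↦ -1/τ` -/
theorem TC (M : ℕ) (hM : 0 < M) (F : T → ℂ) (hF : Per M F) (τ : ℂ) (hτ : 0 < τ.im) :
    th M F (-1 / τ) = J τ ^ 3 * ((M : ℂ) ^ (-(1 / 2) : ℂ)) ^ 3 * th M (FT M F) τ := by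
  have hτ' : 0 < (-1 / τ).im := by
    have h0 : τ ≠ 0 := by
      rintro rfl
      simp at hτ
    have h1 : 0 < Complex.normSq τ := Complex.normSq_pos.mpr h0
    rw [Complex.div_im]
    simp only [Complex.neg_im, Complex.one_im, neg_zero, zero_mul, zero_div, Complex.neg_re,
      Complex.one_re, neg_mul, one_mul, zero_sub]
    rw [neg_div, neg_neg]
    exact div_pos hτ h1
  rw [TB M hM F hF _ hτ', TB M hM (FT M F) (FT_per M hM F) τ hτ]
  set c : ℂ := (M : ℂ) ^ (-(1 / 2) : ℂ) with hc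
  set e : ℤ → ℤ → ℂ := fun a b => Complex.exp (2 * π * Complex.I * (a * b : ℤ) / M) with he
  have hTA : ∀ a : ℤ, th1 M a (-1 / τ) = J τ * c * ∑ b ∈ Ico (0 : ℤ) M, e a b * th1 M b τ :=
    fun a => TA M hM a τ hτ
  have hprod : ∀ a : T, th1 M a.1 (-1 / τ) * th1 M a.2.1 (-1 / τ) * th1 M a.2.2 (-1 / τ) =
      J τ ^ 3 * c ^ 3 * ∑ b ∈ cube M, (e a.1 b.1 * e a.2.1 b.2.1 * e a.2.2 b.2.2) *
        (th1 M b.1 τ * th1 M b.2.1 τ * th1 M b.2.2 τ) := by
    intro a
    rw [hTA, hTA, hTA]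
    have h1 : (∑ b ∈ Ico (0 : ℤ) M, e a.1 b * th1 M b τ) *
        ((∑ b ∈ Ico (0 : ℤ) M, e a.2.1 b * th1 M b τ) *
        (∑ b ∈ Ico (0 : ℤ) M, e a.2.2 b * th1 M b τ)) =
        ∑ b ∈ cube M, (e a.1 b.1 * e a.2.1 b.2.1 * e a.2.2 b.2.2) *
        (th1 M b.1 τ * th1 M b.2.1 τ * th1 M b.2.2 τ) := by
      unfold cube
      rw [Finset.sum_product, Finset.sum_mul]
      apply Finset.sum_congr rfl
      intro b₁ _
      rw [Finset.sum_product, Finset.sum_mul_sum, Finset.mul_sum]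
      apply Finset.sum_congr rfl
      intro b₂ _
      rw [Finset.mul_sum]
      apply Finset.sum_congr rfl
      intro b₃ _
      ring
    rw [← h1]
    ring
  have hee : ∀ a b : T, e a.1 b.1 * e a.2.1 b.2.1 * e a.2.2 b.2.2 =
      Complex.exp (2 * π * Complex.I * (dot a b : ℤ) / M) := by
    intro a b
    rw [he, ← Complex.exp_add, ← Complex.exp_add]
    congr 1
    unfold dot
    push_cast
    ring
  simp_rw [hprod, hee]
  rw [Finset.mul_sum]
  simp_rw [Finset.mul_sum]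
  rw [Finset.sum_comm]
  apply Finset.sum_congr rfl
  intro b _
  unfold FT
  rw [Finset.sum_mul, Finset.mul_sum]
  apply Finset.sum_congr rfl
  intro a _
  ring

end Pool.Agent.GNF
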