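import Pool.Agent.Lib_helper7.GNF.D
import Pool.Agent.Lib_helper7.GNF.P.TD

set_option autoImplicit false

namespace Pool.Agent.GNF

open Finset Pool.Agent.GEN
open scoped Real

theorem te_norm (M : ℕ) (q : ℤ) (τ : ℂ) :
    ‖Complex.exp (π * Complex.I * (q : ℤ) * τ / M)‖ = Real.exp (-(π * q * τ.im / M)) := by
  rw [Complex.norm_exp]
  congr 1
  have h : (π * Complex.I * (q : ℤ) * τ / M : ℂ) =
      ((π * q / M : ℝ) : ℂ) * (Complex.I * τ) := by
    push_cast
    ring
  rw [h, Complex.re_ofReal_mul, Complex.I_mul_re]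
  ring

/-- theta series are holomorphic -/
theorem TE (M : ℕ) (hM : 0 < M) (F : T → ℂ) (B : ℝ) (hF : ∀ v, ‖F v‖ ≤ B) :
    DifferentiableOn ℂ (th M F) {τ | 0 < τ.im} := by
  intro τ₀ hτ₀
  have h0 : 0 < τ₀.im := hτ₀
  have hM' : (0 : ℝ) < M := by exact_mod_cast hM
  have hB : 0 ≤ B := (norm_nonneg _).trans (hF (0, 0, 0))
  have hop : IsOpen {τ : ℂ | τ₀.im / 2 < τ.im} :=
    isOpen_lt continuous_const Complex.continuous_im
  have hc : 0 < π * (τ₀.im / 2) / M := by positivity
  have hs : Summable (fun v : T => B * Real.exp (-(π * (τ₀.im / 2) / M) * (dot v v : ℤ))) :=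
    (TD_gauss _ hc).mul_left B
  have hd : DifferentiableOn ℂ (fun τ => ∑' v : T,
      F v * Complex.exp (π * Complex.I * (dot v v : ℤ) * τ / M)) {τ : ℂ | τ₀.im / 2 < τ.im} := by
    apply Complex.differentiableOn_tsum_of_summable_norm hs _ hop
    · intro v τ hτ
      have hτ' : τ₀.im / 2 < τ.im := hτ
      rw [norm_mul, te_norm]
      apply mul_le_mul (hF v) _ (Real.exp_pos _).le hB
      apply Real.exp_le_exp.mpr
      have hdot : (0 : ℝ) ≤ ((dot v v : ℤ) : ℝ) := by
        have : (0 : ℤ) ≤ dot v v := by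
          unfold dot
          nlinarith [mul_self_nonneg v.1, mul_self_nonneg v.2.1, mul_self_nonneg v.2.2]
        exact_mod_cast this
      have h1 : π * (τ₀.im / 2) / M * ((dot v v : ℤ) : ℝ) ≤ π * ((dot v v : ℤ) : ℝ) * τ.im / M := by
        have e1 : π * (τ₀.im / 2) / M * ((dot v v : ℤ) : ℝ) =
            (π * ((dot v v : ℤ) : ℝ) / M) * (τ₀.im / 2) := by ring
        have e2 : π * ((dot v v : ℤ) : ℝ) * τ.im / M = (π * ((dot v v : ℤ) : ℝ) / M) * τ.im := by
          ring
        rw [e1, e2]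
        exact mul_le_mul_of_nonneg_left hτ'.le (by positivity)
      linarith
    · intro v
      apply DifferentiableOn.const_mul
      apply DifferentiableOn.cexp
      fun_prop
  have hmem : {τ : ℂ | τ₀.im / 2 < τ.im} ∈ nhds τ₀ :=
    hop.mem_nhds (show τ₀.im / 2 < τ₀.im by linarith)
  exact (hd.differentiableAt hmem).differentiableWithinAt

end Pool.Agent.GNF
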