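import Pool.Agent.Lib_helper7.GNF.D
import Pool.Agent.Lib_helper7.GNF.P.TD

set_option autoImplicit false

namespace Pool.Agent.GNF

open Finset Pool.Agent.GEN
open scoped Real

theorem tf_norm (M : ℕ) (n : ℤ) (τ : ℂ) :
    ‖Complex.exp (π * Complex.I * (n : ℤ) * τ / M)‖ = Real.exp (-(π / M) * n * τ.im) := by
  rw [Complex.norm_exp]
  congr 1
  have : (π * Complex.I * (n : ℤ) * τ / M : ℂ) = ((π / M * n : ℝ) : ℂ) * (Complex.I * τ) := by
    push_cast
    ring
  rw [this, Complex.re_ofReal_mul, Complex.I_mul_re]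
  ring

theorem tf_dot_nonneg (v : T) : 0 ≤ dot v v := by
  unfold dot
  exact add_nonneg (add_nonneg (mul_self_nonneg _) (mul_self_nonneg _)) (mul_self_nonneg _)

theorem tf_B {F : T → ℂ} {B : ℝ} (hF : ∀ v, ‖F v‖ ≤ B) : 0 ≤ B := (norm_nonneg _).trans (hF 0)

/-- the bound for one term: `n >= N0`, `y >= 1` -/
theorem tf_exp {c y : ℝ} (hc : 0 < c) (hy : 1 ≤ y) {n N0 : ℤ} (h : N0 ≤ n) :
    Real.exp (-c * n * y) ≤ Real.exp (-c * n) * Real.exp (-c * N0 * (y - 1)) := by
  rw [← Real.exp_add]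
  apply Real.exp_le_exp.2
  have h' : (N0 : ℝ) ≤ n := by exact_mod_cast h
  have := mul_le_mul_of_nonneg_left h' (mul_nonneg hc.le (sub_nonneg.2 hy))
  linarith

/-- decay at the cusp -/
theorem TF (M : ℕ) (hM : 0 < M) (F : T → ℂ) (B : ℝ) (hF : ∀ v, ‖F v‖ ≤ B) (N0 : ℤ)
    (hs : ∀ v, F v ≠ 0 → N0 ≤ dot v v) :
    ∃ C : ℝ, ∀ τ : ℂ, 1 ≤ τ.im → ‖th M F τ‖ ≤ C * Real.exp (-π * N0 * τ.im / M) := by
  have hMr : (0 : ℝ) < M := by exact_mod_cast hM
  have hc : 0 < π / M := div_pos Real.pi_pos hMr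
  have hG := TD_gauss (π / M) hc
  have hB := tf_B hF
  refine ⟨B * (∑' v : T, Real.exp (-(π / M) * (dot v v : ℤ))) * Real.exp (π / M * N0), ?_⟩
  intro τ hτ
  unfold th
  have hterm : ∀ v : T, ‖F v * Complex.exp (π * Complex.I * (dot v v : ℤ) * τ / M)‖ ≤
      B * Real.exp (-(π / M) * N0 * (τ.im - 1)) * Real.exp (-(π / M) * (dot v v : ℤ)) := by
    intro v
    rw [norm_mul, tf_norm]
    by_cases hv : F v = 0
    · rw [hv, norm_zero, zero_mul]
      positivity
    · have h1 := tf_exp hc hτ (hs v hv)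
      calc ‖F v‖ * Real.exp (-(π / M) * (dot v v : ℤ) * τ.im) ≤
          B * (Real.exp (-(π / M) * (dot v v : ℤ)) * Real.exp (-(π / M) * N0 * (τ.im - 1))) :=
            mul_le_mul (hF v) h1 (Real.exp_pos _).le hB
        _ = _ := by ring
  have hS := hG.mul_left (B * Real.exp (-(π / M) * N0 * (τ.im - 1)))
  refine (tsum_of_norm_bounded hS.hasSum hterm).trans (le_of_eq ?_)
  rw [tsum_mul_left]
  have e1 : Real.exp (-(π / M) * N0 * (τ.im - 1)) =
      Real.exp (π / M * N0) * Real.exp (-π * N0 * τ.im / M) := by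
    rw [← Real.exp_add]
    congr 1
    ring
  rw [e1]
  ring

theorem tf_sph {v : T} {N : ℕ} (h : dot v v = N) : v ∈ sph N := by
  unfold sph
  rw [Finset.mem_filter]
  refine ⟨?_, h⟩
  unfold dot at h
  have key : ∀ x r : ℤ, 0 ≤ r → x * x + r = N → x ∈ Icc (-(N : ℤ)) N := by
    intro x r hr hx
    rw [Finset.mem_Icc]
    have h1 : x ≤ x * x := by
      rcases le_or_gt x 0 with h0 | h0
      · nlinarith
      · nlinarith
    have h2 : -x ≤ x * x := by
      rcases le_or_gt 0 x with h0 | h0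
      · nlinarith
      · nlinarith
    constructor <;> linarith
  rw [Finset.mem_product, Finset.mem_product]
  have sn : ∀ x y : ℤ, 0 ≤ x * x + y * y := fun x y =>
    add_nonneg (mul_self_nonneg _) (mul_self_nonneg _)
  exact ⟨key v.1 (v.2.1 * v.2.1 + v.2.2 * v.2.2) (sn _ _) (by linarith),
    key v.2.1 (v.1 * v.1 + v.2.2 * v.2.2) (sn _ _) (by linarith),
    key v.2.2 (v.1 * v.1 + v.2.1 * v.2.1) (sn _ _) (by linarith)⟩

/-- leading coefficient at the cusp -/
theorem TG (M : ℕ) (hM : 0 < M) (F : T → ℂ) (B : ℝ) (hF : ∀ v, ‖F v‖ ≤ B) (N0 : ℕ)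
    (hs : ∀ v, F v ≠ 0 → (N0 : ℤ) ≤ dot v v) (e : ℝ) (he : 0 < e) :
    ∃ Y : ℝ, ∀ τ : ℂ, Y ≤ τ.im →
      ‖th M F τ * Complex.exp (-(π * Complex.I * N0 * τ / M)) - ∑ v ∈ sph N0, F v‖ ≤ e := by
  classical
  have hMr : (0 : ℝ) < M := by exact_mod_cast hM
  have hc : 0 < π / M := div_pos Real.pi_pos hMr
  have hG := TD_gauss (π / M) hc
  have hB := tf_B hF
  obtain ⟨K, hK⟩ : ∃ K : ℝ, K = B * (∑' v : T, Real.exp (-(π / M) * (dot v v : ℤ))) *
    Real.exp (π / M * N0) := ⟨_, rfl⟩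
  have hK0 : 0 ≤ K := by
    rw [hK]
    have : 0 ≤ ∑' v : T, Real.exp (-(π / M) * (dot v v : ℤ)) :=
      tsum_nonneg fun v => (Real.exp_pos _).le
    positivity
  refine ⟨1 + (π / M)⁻¹ * max 0 (Real.log ((K + 1) / e)), ?_⟩
  intro τ hτ
  have hτ1 : 1 ≤ τ.im := by
    have : 0 ≤ (π / M)⁻¹ * max 0 (Real.log ((K + 1) / e)) :=
      mul_nonneg (inv_nonneg.2 hc.le) (le_max_left _ _)
    linarith
  have hfin : K * Real.exp (-(π / M) * (τ.im - 1)) ≤ e := by
    have h1 : Real.log ((K + 1) / e) ≤ π / M * (τ.im - 1) := by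
      have h2 := mul_le_mul_of_nonneg_left (sub_le_sub_right hτ 1) hc.le
      have h3 : π / M * (1 + (π / M)⁻¹ * max 0 (Real.log ((K + 1) / e)) - 1) =
          max 0 (Real.log ((K + 1) / e)) := by
        rw [add_sub_cancel_left, ← mul_assoc, mul_inv_cancel₀ hc.ne', one_mul]
      rw [h3] at h2
      exact (le_max_right _ _).trans h2
    have h4 : Real.exp (-(π / M) * (τ.im - 1)) ≤ e / (K + 1) := by
      have h5 : e / (K + 1) = Real.exp (-Real.log ((K + 1) / e)) := by
        rw [Real.exp_neg, Real.exp_log (by positivity), inv_div]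
      rw [h5]
      apply Real.exp_le_exp.2
      linarith
    calc K * Real.exp (-(π / M) * (τ.im - 1)) ≤ K * (e / (K + 1)) :=
          mul_le_mul_of_nonneg_left h4 hK0
      _ ≤ e := by
        rw [mul_div_assoc', div_le_iff₀ (by linarith)]
        nlinarith
  -- the series
  have hex : ∀ n : ℤ, Complex.exp (π * Complex.I * (n : ℤ) * τ / M) *
      Complex.exp (-(π * Complex.I * N0 * τ / M)) =
      Complex.exp (π * Complex.I * ((n - N0 : ℤ) : ℤ) * τ / M) := by
    intro n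
    rw [← Complex.exp_add]
    congr 1
    push_cast
    ring
  have hsum : Summable (fun v : T => F v * Complex.exp (π * Complex.I * (dot v v : ℤ) * τ / M)) :=
    (TD M hM F B hF τ (by linarith)).of_norm
  have e1 : th M F τ * Complex.exp (-(π * Complex.I * N0 * τ / M)) =
      ∑' v : T, F v * Complex.exp (π * Complex.I * ((dot v v - N0 : ℤ) : ℤ) * τ / M) := by
    unfold th
    rw [← tsum_mul_right]
    congr 1
    ext v
    rw [mul_assoc, hex]
  have hsum' : Summable (fun v : T =>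
      F v * Complex.exp (π * Complex.I * ((dot v v - N0 : ℤ) : ℤ) * τ / M)) := by
    have := hsum.mul_right (Complex.exp (-(π * Complex.I * N0 * τ / M)))
    refine this.congr fun v => ?_
    rw [mul_assoc, hex]
  have e2 : ∑ v ∈ sph N0, F v =
      ∑ v ∈ sph N0, F v * Complex.exp (π * Complex.I * ((dot v v - N0 : ℤ) : ℤ) * τ / M) := by
    refine Finset.sum_congr rfl fun v hv => ?_
    have hv' : dot v v = N0 := (Finset.mem_filter.1 hv).2
    rw [hv', sub_self]
    simp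
  rw [e1, e2]
  have e3 := hsum'.sum_add_tsum_compl (s := sph N0)
  have e4 : ∑' v : T, F v * Complex.exp (π * Complex.I * ((dot v v - N0 : ℤ) : ℤ) * τ / M) -
      ∑ v ∈ sph N0, F v * Complex.exp (π * Complex.I * ((dot v v - N0 : ℤ) : ℤ) * τ / M) =
      ∑' v : ↑((↑(sph N0) : Set T)ᶜ),
        F v * Complex.exp (π * Complex.I * ((dot (v : T) v - N0 : ℤ) : ℤ) * τ / M) := by
    rw [← e3, add_sub_cancel_left]
  rw [e4]
  have hterm : ∀ v : ↑((↑(sph N0) : Set T)ᶜ),
      ‖F v * Complex.exp (π * Complex.I * ((dot (v : T) v - N0 : ℤ) : ℤ) * τ / M)‖ ≤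
      B * Real.exp (π / M * N0) * Real.exp (-(π / M) * (τ.im - 1)) *
        Real.exp (-(π / M) * (dot (v : T) v : ℤ)) := by
    intro v
    rw [norm_mul, tf_norm]
    by_cases hv : F v = 0
    · rw [hv, norm_zero, zero_mul]
      positivity
    · have h0 := hs v hv
      have h1 : (1 : ℤ) ≤ dot (v : T) v - N0 := by
        have : dot (v : T) v ≠ N0 := by
          intro h
          exact v.2 (Finset.mem_coe.2 (tf_sph h))
        omega
      have h2 := tf_exp hc hτ1 h1
      have h3 : Real.exp (-(π / M) * ((dot (v : T) v - N0 : ℤ) : ℝ)) =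
          Real.exp (π / M * N0) * Real.exp (-(π / M) * (dot (v : T) v : ℤ)) := by
        rw [← Real.exp_add]
        congr 1
        push_cast
        ring
      rw [h3, Int.cast_one, mul_one] at h2
      calc ‖F v‖ * Real.exp (-(π / M) * ((dot (v : T) v - N0 : ℤ) : ℝ) * τ.im) ≤
          B * (Real.exp (π / M * N0) * Real.exp (-(π / M) * (dot (v : T) v : ℤ)) *
            Real.exp (-(π / M) * (τ.im - 1))) := mul_le_mul (hF v) h2 (Real.exp_pos _).le hB
        _ = _ := by ring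
  have hGs := hG.subtype ((↑(sph N0) : Set T)ᶜ)
  have hS := hGs.mul_left (B * Real.exp (π / M * N0) * Real.exp (-(π / M) * (τ.im - 1)))
  refine (tsum_of_norm_bounded hS.hasSum hterm).trans ?_
  refine le_trans ?_ hfin
  rw [tsum_mul_left, hK]
  have hle : ∑' v : ↑((↑(sph N0) : Set T)ᶜ),
      ((fun v : T => Real.exp (-(π / M) * (dot v v : ℤ))) ∘ Subtype.val) v ≤
      ∑' v : T, Real.exp (-(π / M) * (dot v v : ℤ)) :=
    Summable.tsum_subtype_le (fun v : T => Real.exp (-(π / M) * (dot v v : ℤ))) _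
      (fun v => (Real.exp_pos _).le) hG
  have := mul_le_mul_of_nonneg_left hle
    (by positivity : 0 ≤ B * Real.exp (π / M * N0) * Real.exp (-(π / M) * (τ.im - 1)))
  calc _ ≤ _ := this
    _ = _ := by ring

end Pool.Agent.GNF
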