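import Pool.Agent.Lib_helper7.GNF.D
import Pool.Agent.Lib_helper7.GNF.P.TC
import Pool.Agent.Lib_helper7.GNF.P.TE
import Pool.Agent.Lib_helper7.GNF.P.TF
import Pool.Agent.Lib_helper7.GNF.P.FE
import Pool.Agent.Lib_helper7.GNF.P.FG
import Pool.Agent.Lib_helper7.GNF.P.FH

set_option autoImplicit false

namespace Pool.Agent.GNF

open Finset Pool.Agent.GEN
open scoped Real

theorem sy_th_mul (M : ℕ) (c : ℂ) (F : T → ℂ) (τ : ℂ) :
    th M (fun w => c * F w) τ = c * th M F τ := by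
  unfold th
  rw [← tsum_mul_left]
  refine tsum_congr fun v => ?_
  ring

theorem sy_delta (d : ℕ) (hd : d ≠ 0) (γ : ℂ) (hγ : γ ^ 2 = (d : ℂ) ^ 3) :
    (γ * (((16 * d : ℕ) : ℂ) ^ (-(1 / 2) : ℂ)) ^ 3 * 64) ^ 2 = 1 := by
  have hx : ((16 * d : ℕ) : ℂ) ≠ 0 := by
    have : (16 * d : ℕ) ≠ 0 := by omega
    exact_mod_cast this
  have hdc : (d : ℂ) ≠ 0 := by exact_mod_cast hd
  have h2 : (((16 * d : ℕ) : ℂ) ^ (-(1 / 2) : ℂ)) ^ 2 = (((16 * d : ℕ) : ℂ))⁻¹ := by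
    rw [sq, ← Complex.cpow_add _ _ hx]
    have : (-(1 / 2) : ℂ) + (-(1 / 2) : ℂ) = -1 := by norm_num
    rw [this, Complex.cpow_neg_one]
  have h3 : (γ * (((16 * d : ℕ) : ℂ) ^ (-(1 / 2) : ℂ)) ^ 3 * 64) ^ 2 =
      γ ^ 2 * ((((16 * d : ℕ) : ℂ) ^ (-(1 / 2) : ℂ)) ^ 2) ^ 3 * 4096 := by ring
  rw [h3, h2, hγ]
  push_cast
  field_simp
  norm_num

/-- the theta series attached to `d` form a system -/
theorem SY (d : ℕ) (hs : Squarefree d) (h8 : d % 8 = 1) (u : T)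
    (hu : ∀ p ∈ d.primeFactors, Iso p u) :
    ∃ δ : ℂ, δ ^ 2 = 1 ∧ Sys (fun i => th (16 * d) (AP d u i)) δ (sd d) := by
  have hd : d ≠ 0 := by rintro rfl; simp at h8
  have h2 : d % 2 = 1 := by omega
  have h4 : d % 4 = 1 := by omega
  have hM : 0 < 16 * d := by omega
  obtain ⟨γ, hγ⟩ := FD d hs h2 u hu
  have hγ2 := FE d hs h4 u hu γ hγ
  refine ⟨γ * (((16 * d : ℕ) : ℂ) ^ (-(1 / 2) : ℂ)) ^ 3 * 64, sy_delta d hd γ hγ2, ?_, ?_, ?_, ?_⟩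
  · intro i
    exact TE (16 * d) hM (AP d u i) 1 (AP_norm d h2 u hu i)
  · intro i τ hτ
    show th (16 * d) (AP d u i) (-1 / τ) = _ * th (16 * d) (AP d u (sS i)) τ
    rw [TC (16 * d) hM (AP d u i) (AP_per d hs h8 u hu i) τ hτ]
    have e : FT (16 * d) (AP d u i) = fun w => (64 * cS i * γ) * AP d u (sS i) w := by
      funext w
      exact FG d hs h8 u hu γ hγ i w
    rw [e, sy_th_mul]
    ring
  · intro i τ hτ
    show th (16 * d) (AP d u i) (τ + 1) = _ * th (16 * d) (AP d u (sT i)) τ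
    rw [← sy_th_mul]
    unfold th
    refine tsum_congr fun v => ?_
    have e1 : Complex.exp (π * Complex.I * (dot v v : ℤ) * (τ + 1) / (16 * d : ℕ)) =
        Complex.exp (π * Complex.I * (dot v v : ℤ) / (16 * d : ℕ)) *
        Complex.exp (π * Complex.I * (dot v v : ℤ) * τ / (16 * d : ℕ)) := by
      rw [← Complex.exp_add]
      congr 1
      ring
    rw [e1, ← mul_assoc, AP_T d hs h8 u i v]
  · intro i
    obtain ⟨C, hC⟩ := TF (16 * d) hM (AP d u i) 1 (AP_norm d h2 u hu i) ((oT i * d : ℕ) : ℤ)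
      (fun v hv => AP_supp d hs h8 u i v hv)
    refine ⟨C, fun τ hτ => ?_⟩
    have h := hC τ hτ
    have e : -π * (((oT i * d : ℕ) : ℤ) : ℝ) * τ.im / ((16 * d : ℕ) : ℝ) =
        -π * (oT i : ℝ) * τ.im / 16 := by
      have hdr : (d : ℝ) ≠ 0 := by exact_mod_cast hd
      push_cast
      field_simp
    rw [e] at h
    exact h

theorem sy_bound (N : ℕ) (v : T) (h : v ∈ sph N) (hN : N < 16) :
    -3 ≤ v.1 ∧ v.1 ≤ 3 ∧ -3 ≤ v.2.1 ∧ v.2.1 ≤ 3 ∧ -3 ≤ v.2.2 ∧ v.2.2 ≤ 3 ∧ dot v v = N := by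
  unfold sph at h
  have h1 := (Finset.mem_filter.1 h).2
  have hN' : (N : ℤ) < 16 := by exact_mod_cast hN
  have h2 : v.1 * v.1 + v.2.1 * v.2.1 + v.2.2 * v.2.2 = N := h1
  refine ⟨?_, ?_, ?_, ?_, ?_, ?_, h1⟩ <;> nlinarith [mul_self_nonneg v.1, mul_self_nonneg v.2.1, mul_self_nonneg v.2.2]

theorem sy_mem (N : ℕ) (v : T) (h1 : v.1 ∈ Icc (-(N : ℤ)) N) (h2 : v.2.1 ∈ Icc (-(N : ℤ)) N)
    (h3 : v.2.2 ∈ Icc (-(N : ℤ)) N) (h : dot v v = N) : v ∈ sph N := by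
  unfold sph
  exact Finset.mem_filter.2 ⟨Finset.mem_product.2 ⟨h1, Finset.mem_product.2 ⟨h2, h3⟩⟩, h⟩

/-- a small box -/
noncomputable def sy_box : Finset T := Icc (-3 : ℤ) 3 ×ˢ Icc (-3 : ℤ) 3 ×ˢ Icc (-3 : ℤ) 3

theorem sy_sph (N : ℕ) (h3 : 3 ≤ N) (hN : N < 16) :
    sph N = sy_box.filter (fun v => v.1 * v.1 + v.2.1 * v.2.1 + v.2.2 * v.2.2 = (N : ℤ)) := by
  have hN3 : (3 : ℤ) ≤ N := by exact_mod_cast h3
  ext v
  constructor
  · intro h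
    obtain ⟨a, b, c, d, e, f, g⟩ := sy_bound N v h hN
    refine Finset.mem_filter.2 ⟨?_, g⟩
    exact Finset.mem_product.2 ⟨Finset.mem_Icc.2 ⟨a, b⟩, Finset.mem_product.2
      ⟨Finset.mem_Icc.2 ⟨c, d⟩, Finset.mem_Icc.2 ⟨e, f⟩⟩⟩
  · intro h
    obtain ⟨h1, h2⟩ := Finset.mem_filter.1 h
    obtain ⟨ha, hb⟩ := Finset.mem_product.1 h1
    obtain ⟨hb, hc⟩ := Finset.mem_product.1 hb
    rw [Finset.mem_Icc] at ha hb hc
    exact sy_mem N v (Finset.mem_Icc.2 ⟨by omega, by omega⟩) (Finset.mem_Icc.2 ⟨by omega, by omega⟩)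
      (Finset.mem_Icc.2 ⟨by omega, by omega⟩) h2

theorem sy_sph12 : sph 12 = {(2, 2, 2), (2, 2, -2), (2, -2, 2), (2, -2, -2), (-2, 2, 2),
    (-2, 2, -2), (-2, -2, 2), (-2, -2, -2)} := by
  rw [sy_sph 12 (by norm_num) (by norm_num)]
  decide +kernel

theorem sy_sph4 : sph 4 = {(2, 0, 0), (-2, 0, 0), (0, 2, 0), (0, -2, 0), (0, 0, 2), (0, 0, -2)} := by
  rw [sy_sph 4 (by norm_num) (by norm_num)]
  decide +kernel

theorem sy_sph2 : sph 2 = {(0, 1, 1), (0, 1, -1), (0, -1, 1), (0, -1, -1), (1, 0, 1), (1, 0, -1),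
    (-1, 0, 1), (-1, 0, -1), (1, 1, 0), (1, -1, 0), (-1, 1, 0), (-1, -1, 0)} := by
  unfold sph
  decide +kernel

theorem sy_AP1 (u : T) (i : Fin 6) (v : T) : AP 1 u i v = A i v := by
  unfold AP Psi
  simp

theorem sy_L (i : Fin 6) : ∑ v ∈ sph (oT i), A i v ≠ 0 := by
  fin_cases i
  · show ∑ v ∈ sph 12, A 0 v ≠ 0
    rw [sy_sph12]
    simp [A, o2, k2]
    norm_num
  · show ∑ v ∈ sph 2, A 1 v ≠ 0
    rw [sy_sph2]
    simp [A, u4, c2]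
    norm_num
  · show ∑ v ∈ sph 2, A 2 v ≠ 0
    rw [sy_sph2]
    simp [A, n4, bq]
    norm_num
  · show ∑ v ∈ sph 2, A 3 v ≠ 0
    rw [sy_sph2]
    simp [A, u4, od]
    norm_num
  · show ∑ v ∈ sph 2, A 4 v ≠ 0
    rw [sy_sph2]
    simp [A, n4, bb]
    norm_num
  · show ∑ v ∈ sph 4, A 5 v ≠ 0
    rw [sy_sph4]
    simp [A, o2, e8]

/-- leading coefficients for `d = 1` -/
theorem SY_lead (u : T) (i : Fin 6) : ∃ L : ℂ, L ≠ 0 ∧ ∀ e : ℝ, 0 < e → ∃ Y : ℝ, ∀ τ : ℂ, Y ≤ τ.im →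
    ‖th (16 * 1) (AP 1 u i) τ * Complex.exp (-(π * Complex.I * oT i * τ / 16)) - L‖ ≤ e := by
  refine ⟨∑ v ∈ sph (oT i), AP 1 u i v, ?_, fun e he => ?_⟩
  · rw [Finset.sum_congr rfl (fun v _ => sy_AP1 u i v)]
    exact sy_L i
  · have hu : ∀ p ∈ (1 : ℕ).primeFactors, Iso p u := by simp
    obtain ⟨Y, hY⟩ := TG (16 * 1) (by norm_num) (AP 1 u i) 1 (AP_norm 1 (by norm_num) u hu i) (oT i)
      (fun v hv => by
        have h := AP_supp 1 squarefree_one (by norm_num) u i v hv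
        rw [mul_one] at h
        exact h) e he
    refine ⟨Y, fun τ hτ => ?_⟩
    have h := hY τ hτ
    have e1 : ((16 * 1 : ℕ) : ℂ) = 16 := by norm_num
    rw [e1] at h
    exact h

end Pool.Agent.GNF
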