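import Pool.Agent.Lib_helper7.GNF.D
import Pool.Agent.Lib_helper7.GNF.P.TD

set_option autoImplicit false

namespace Pool.Agent.GNF

open Finset Pool.Agent.GEN
open scoped Real

theorem th_uniq (c : ℕ → ℂ)
    (h : ∀ q : ℝ, 0 < q → q < 1 → HasSum (fun m => c m * (q : ℂ) ^ m) 0) (m : ℕ) : c m = 0 := by
  induction m using Nat.strong_induction_on with
  | _ m ih =>
    have hs : Summable (fun j => ‖c j‖ * (1 / 2 : ℝ) ^ j) := by
      refine (h (1 / 2) (by norm_num) (by norm_num)).summable.norm.congr fun j => ?_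
      rw [norm_mul, norm_pow, Complex.norm_real, Real.norm_eq_abs, abs_of_pos (by norm_num)]
    set C := ∑' j, ‖c j‖ * (1 / 2 : ℝ) ^ j with hC
    have hC0 : 0 ≤ C := tsum_nonneg fun j => by positivity
    have key : ∀ q : ℝ, 0 < q → q ≤ 1 / 2 → ‖c m‖ ≤ 2 ^ (m + 1) * C * q := by
      intro q hq0 hq1
      have h1 := (h q hq0 (by linarith)).sub (hasSum_ite_eq m (c m * (q : ℂ) ^ m))
      have h2 := h1.norm_le_of_bounded (hs.hasSum.mul_right ((2 * q) ^ (m + 1))) (fun j => by
        rcases lt_trichotomy j m with hj | hj | hj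
        · rw [ih j hj, if_neg hj.ne, zero_mul, sub_zero, norm_zero, zero_mul, zero_mul]
        · subst hj
          rw [if_pos rfl, sub_self, norm_zero]
          positivity
        · rw [if_neg hj.ne', sub_zero, norm_mul, norm_pow, Complex.norm_real, Real.norm_eq_abs,
            abs_of_pos hq0, mul_assoc]
          refine mul_le_mul_of_nonneg_left ?_ (norm_nonneg _)
          calc q ^ j = (1 / 2) ^ j * (2 * q) ^ j := by rw [← mul_pow]; congr 1; ring
            _ ≤ (1 / 2) ^ j * (2 * q) ^ (m + 1) := by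
              refine mul_le_mul_of_nonneg_left ?_ (by positivity)
              exact pow_le_pow_of_le_one (by positivity) (by linarith) hj)
      rw [zero_sub, norm_neg, norm_mul, norm_pow, Complex.norm_real, Real.norm_eq_abs,
        abs_of_pos hq0, mul_pow, pow_succ q] at h2
      have h3 : 0 < q ^ m := pow_pos hq0 m
      have h4 : ‖c m‖ * q ^ m ≤ (2 ^ (m + 1) * C * q) * q ^ m := by
        calc ‖c m‖ * q ^ m ≤ _ := h2
          _ = (2 ^ (m + 1) * C * q) * q ^ m := by ring
      exact le_of_mul_le_mul_right h4 h3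
    by_contra hne
    have hpos : 0 < ‖c m‖ := norm_pos_iff.2 hne
    have hD : 0 < 2 ^ (m + 1) * C + 1 := by positivity
    set q := min (1 / 2) (‖c m‖ / (2 * (2 ^ (m + 1) * C + 1))) with hq
    have hq0 : 0 < q := lt_min (by norm_num) (by positivity)
    have h1 := key q hq0 (min_le_left _ _)
    have h2 : q * (2 * (2 ^ (m + 1) * C + 1)) ≤ ‖c m‖ := by
      rw [← le_div_iff₀ (by positivity)]
      exact min_le_right _ _
    nlinarith

theorem th_sph (n : ℕ) (v : T) : v ∈ sph n ↔ dot v v = n := by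
  unfold sph
  rw [mem_filter]
  constructor
  · exact fun h => h.2
  · intro h
    refine ⟨?_, h⟩
    have h1 : v.1 * v.1 + v.2.1 * v.2.1 + v.2.2 * v.2.2 = n := h
    have h2 : ∀ a : ℤ, |a| ≤ a * a := fun a => by
      rw [← abs_mul_abs_self a]
      rcases eq_or_ne a 0 with h0 | h0
      · simp [h0]
      · have : 1 ≤ |a| := Int.one_le_abs h0
        nlinarith
    have h3 := h2 v.1
    have h4 := h2 v.2.1
    have h5 := h2 v.2.2
    have h6 := mul_self_nonneg v.1
    have h7 := mul_self_nonneg v.2.1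
    have h8 := mul_self_nonneg v.2.2
    rw [mem_product, mem_product, mem_Icc, mem_Icc, mem_Icc]
    refine ⟨?_, ?_, ?_⟩
    · exact abs_le.1 (by linarith)
    · exact abs_le.1 (by linarith)
    · exact abs_le.1 (by linarith)

theorem th_dot (v : T) : 0 ≤ dot v v := by
  show 0 ≤ v.1 * v.1 + v.2.1 * v.2.1 + v.2.2 * v.2.2
  have h6 := mul_self_nonneg v.1
  have h7 := mul_self_nonneg v.2.1
  have h8 := mul_self_nonneg v.2.2
  linarith

theorem th_series (d : ℕ) (hd : 0 < d) (F : T → ℂ) (B : ℝ) (hF : ∀ v, ‖F v‖ ≤ B)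
    (hs : ∀ v, F v ≠ 0 → (d : ℤ) ∣ dot v v) (y : ℝ) (hy : 0 < y) :
    HasSum (fun m : ℕ => (∑ v ∈ sph (d * m), F v) * ((Real.exp (-π * y / 16) : ℝ) : ℂ) ^ m)
      (th (16 * d) F (y * Complex.I)) := by
  have him : 0 < ((y : ℂ) * Complex.I).im := by simpa using hy
  have h1 := (TD (16 * d) (by positivity) F B hF (y * Complex.I) him).of_norm.hasSum
  have h2 := h1.tsum_fiberwise (fun v : T => (dot v v).toNat)
  have h3 : ∀ n : ℕ, (∑' v : (fun v : T => (dot v v).toNat) ⁻¹' {n},
      F v * Complex.exp (π * Complex.I * (dot (v : T) v : ℤ) * (y * Complex.I) / (16 * d : ℕ))) =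
      ∑ v ∈ sph n, F v * Complex.exp (π * Complex.I * (dot (v : T) v : ℤ) * (y * Complex.I) / (16 * d : ℕ)) := by
    intro n
    have h4 : (fun v : T => (dot v v).toNat) ⁻¹' {n} = ((sph n : Finset T) : Set T) := by
      ext v
      rw [Set.mem_preimage, Set.mem_singleton_iff, mem_coe, th_sph]
      have := th_dot v
      omega
    rw [h4]
    exact Finset.tsum_subtype (sph n) (fun v : T => F v * Complex.exp (π * Complex.I * (dot (v : T) v : ℤ) * (y * Complex.I) / (16 * d : ℕ)))
  have h5 : HasSum (fun n : ℕ => ∑ v ∈ sph n, F v * Complex.exp (π * Complex.I * (dot (v : T) v : ℤ) * (y * Complex.I) / (16 * d : ℕ)))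
      (th (16 * d) F (y * Complex.I)) := by
    refine HasSum.congr_fun ?_ (fun n => (h3 n).symm)
    exact h2
  have hinj : Function.Injective (fun m : ℕ => d * m) := fun a b h => Nat.eq_of_mul_eq_mul_left hd h
  rw [← hinj.hasSum_iff] at h5
  · refine HasSum.congr_fun h5 (fun m => ?_)
    show _ = ∑ v ∈ sph (d * m), _
    rw [Finset.sum_mul]
    refine Finset.sum_congr rfl fun v hv => ?_
    rw [th_sph] at hv
    congr 1
    rw [hv, ← Complex.ofReal_pow, ← Real.exp_nat_mul, Complex.ofReal_exp]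
    congr 1
    have hd' : (d : ℂ) ≠ 0 := by exact_mod_cast hd.ne'
    push_cast
    field_simp
    ring_nf
    rw [Complex.I_sq]
    ring
  · intro n hn
    refine Finset.sum_eq_zero fun v hv => ?_
    rw [th_sph] at hv
    by_cases h0 : F v = 0
    · rw [h0, zero_mul]
    · exfalso
      apply hn
      have h6 := hs v h0
      rw [hv, Int.natCast_dvd_natCast] at h6
      obtain ⟨m, hm⟩ := h6
      exact ⟨m, hm.symm⟩

/-- comparison of coefficients of two theta series -/
theorem TH (d : ℕ) (hd : 0 < d) (F G : T → ℂ) (B : ℝ) (hF : ∀ v, ‖F v‖ ≤ B) (hG : ∀ v, ‖G v‖ ≤ B)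
    (hs : ∀ v, F v ≠ 0 → (d : ℤ) ∣ dot v v) (κ : ℂ)
    (h : ∀ τ : ℂ, 0 < τ.im → th (16 * d) F τ = κ * th 16 G τ) (N : ℕ) :
    ∑ v ∈ sph (d * N), F v = κ * ∑ v ∈ sph N, G v := by
  have h0 : (∑ v ∈ sph (d * N), F v) - κ * ∑ v ∈ sph N, G v = 0 := by
    refine th_uniq (fun N => (∑ v ∈ sph (d * N), F v) - κ * ∑ v ∈ sph N, G v) ?_ N
    intro q hq0 hq1
    set y : ℝ := -(Real.log q) * 16 / π with hy
    have hlog : Real.log q < 0 := Real.log_neg hq0 hq1
    have hy0 : 0 < y := by
      have := Real.pi_pos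
      rw [hy]
      apply div_pos _ this
      linarith
    have hq : Real.exp (-π * y / 16) = q := by
      have : -π * y / 16 = Real.log q := by
        have := Real.pi_pos
        rw [hy]
        field_simp
      rw [this, Real.exp_log hq0]
    have h1 := th_series d hd F B hF hs y hy0
    have h2 := th_series 1 one_pos G B hG (fun v _ => by simp) y hy0
    rw [hq] at h1 h2
    have h3 := h1.sub (h2.mul_left κ)
    have him : 0 < ((y : ℂ) * Complex.I).im := by simpa using hy0
    rw [mul_one, ← h _ him, sub_self] at h3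
    refine HasSum.congr_fun h3 (fun m => ?_)
    rw [one_mul]
    ring
  exact sub_eq_zero.1 h0

end Pool.Agent.GNF
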