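import Pool.Agent.Lib_helper7.GNF.D
import Pool.Agent.Lib_helper7.GNF.P.SY
import Pool.Agent.Lib_helper7.GNF.P.LC
import Pool.Agent.Lib_helper7.GNF.P.TH

set_option autoImplicit false

namespace Pool.Agent.GNF

open Finset Pool.Agent.GEN
open scoped Real

theorem TM_jac (a : ℤ) (b : ℕ) : |jacobiSym a b| ≤ 1 := by
  rcases jacobiSym.trichotomy a b with h | h | h <;> rw [h] <;> simp

theorem TM_chi (p : ℕ) (v w : T) : |chi p v w| ≤ 1 := by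
  unfold chi
  split_ifs <;> exact TM_jac _ _

theorem TM_Psi (d : ℕ) (u v : T) : |Psi d u v| ≤ 1 := by
  unfold Psi
  rw [Finset.abs_prod]
  refine Finset.prod_le_one (fun p _ => abs_nonneg _) fun p _ => ?_
  unfold psi
  split_ifs
  · exact TM_chi p v u
  · simp

theorem TM_c2 (x : ℤ) : ‖c2 x‖ ≤ 1 := by unfold c2; split_ifs <;> simp
theorem TM_o2 (x : ℤ) : ‖o2 x‖ ≤ 1 := by unfold o2; split_ifs <;> simp
theorem TM_k2 (x : ℤ) : ‖k2 x‖ ≤ 1 := by unfold k2; split_ifs <;> simp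
theorem TM_u4 (x : ℤ) : ‖u4 x‖ ≤ 1 := by unfold u4; split_ifs <;> simp
theorem TM_n4 (x : ℤ) : ‖n4 x‖ ≤ 1 := by unfold n4; split_ifs <;> simp
theorem TM_od (x : ℤ) : ‖od x‖ ≤ 1 := by unfold od; split_ifs <;> simp
theorem TM_e8 (x : ℤ) : ‖e8 x‖ ≤ 1 := by unfold e8; split_ifs <;> simp
theorem TM_bq (x : ℤ) : ‖bq x‖ ≤ 1 := by unfold bq; split_ifs <;> simp
theorem TM_bb (x : ℤ) : ‖bb x‖ ≤ 1 := by unfold bb; split_ifs <;> simp

theorem TM_mul {a b c : ℂ} (ha : ‖a‖ ≤ 1) (hb : ‖b‖ ≤ 1) (hc : ‖c‖ ≤ 1) : ‖a * b * c‖ ≤ 1 := by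
  rw [norm_mul, norm_mul]
  exact mul_le_one₀ (mul_le_one₀ ha (norm_nonneg _) hb) (norm_nonneg _) hc

theorem TM_A (i : Fin 6) (v : T) : ‖A i v‖ ≤ 1 := by
  fin_cases i
  · exact TM_mul (TM_o2 _) (TM_k2 _) (TM_k2 _)
  · exact TM_mul (TM_u4 _) (TM_c2 _) (TM_c2 _)
  · exact TM_mul (TM_n4 _) (TM_bq _) (TM_bq _)
  · exact TM_mul (TM_u4 _) (TM_od _) (TM_od _)
  · exact TM_mul (TM_n4 _) (TM_bb _) (TM_bb _)
  · exact TM_mul (TM_o2 _) (TM_e8 _) (TM_e8 _)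

theorem TM_AP (d : ℕ) (u : T) (i : Fin 6) (v : T) : ‖AP d u i v‖ ≤ 1 := by
  unfold AP
  rw [norm_mul]
  refine mul_le_one₀ (TM_A i v) (norm_nonneg _) ?_
  rw [Complex.norm_intCast]
  have h := TM_Psi d u v
  have h2 : ((|Psi d u v| : ℤ) : ℝ) ≤ ((1 : ℤ) : ℝ) := Int.cast_le.2 h
  rw [Int.cast_abs, Int.cast_one] at h2
  exact h2

theorem TM_dvd (d : ℕ) (hs : Squarefree d) (u v : T) (i : Fin 6) (h : AP d u i v ≠ 0) :
    (d : ℤ) ∣ dot v v := by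
  have h1 : Psi d u v ≠ 0 := by
    intro h0
    apply h
    unfold AP
    rw [h0]
    simp
  have h2 : ∀ p ∈ d.primeFactors, (p : ℤ) ∣ dot v v := by
    intro p hp
    have h3 : psi p u v ≠ 0 := Finset.prod_ne_zero_iff.1 h1 p hp
    have h4 : Iso p v := by
      by_contra h5
      apply h3
      unfold psi
      rw [if_neg h5]
    exact h4.1
  have h3 : d = ∏ p ∈ d.primeFactors, p := (Nat.prod_primeFactors_of_squarefree hs).symm
  rw [← Int.dvd_natAbs, Int.natCast_dvd_natCast]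
  rw [h3]
  refine Finset.prod_primes_dvd _ (fun p hp => (Nat.prime_of_mem_primeFactors hp).prime) ?_
  intro p hp
  have := h2 p hp
  rwa [← Int.dvd_natAbs, Int.natCast_dvd_natCast] at this

theorem TM_sd (d : ℕ) : sd d ^ 2 = 1 := by
  unfold sd
  split_ifs <;> norm_num

theorem TM_one (u : T) (i : Fin 6) : AP 1 u i = A i := by
  funext v
  unfold AP Psi
  simp

/-- **product structure of the weighted sums over spheres** -/
theorem TM (d : ℕ) (hs : Squarefree d) (h8 : d % 8 = 1) (u : T)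
    (hu : ∀ p ∈ d.primeFactors, Iso p u) :
    ∃ κ : ℂ, ∀ N : ℕ,
      (∑ v ∈ sph (d * N), A 0 v * (Psi d u v : ℤ)) = κ * ∑ v ∈ sph N, A 0 v ∧
      (∑ v ∈ sph (d * N), A 5 v * (Psi d u v : ℤ)) = κ * ∑ v ∈ sph N, A 5 v := by
  obtain ⟨δ, hδ, H⟩ := SY d hs h8 u hu
  obtain ⟨δ₁, hδ₁, H₁⟩ := SY 1 squarefree_one (by norm_num) u (by simp)
  obtain ⟨κ, hκ⟩ := LC _ _ δ₁ (sd 1) δ (sd d) hδ₁ (TM_sd 1) hδ (TM_sd d) H₁ H (SY_lead u)
  have hd : 0 < d := Nat.pos_of_ne_zero hs.ne_zero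
  have key : ∀ i : Fin 6, (∀ τ : ℂ, 0 < τ.im →
      th (16 * d) (AP d u i) τ = κ * th (16 * 1) (AP 1 u i) τ) → ∀ N : ℕ,
      (∑ v ∈ sph (d * N), AP d u i v) = κ * ∑ v ∈ sph N, A i v := by
    intro i hi N
    refine TH d hd (AP d u i) (A i) 1 (TM_AP d u i) (TM_A i)
      (fun v hv => TM_dvd d hs u v i hv) κ ?_ N
    intro τ hτ
    rw [hi τ hτ, TM_one, Nat.mul_one]
  refine ⟨κ, fun N => ⟨?_, ?_⟩⟩
  · exact key 0 (fun τ hτ => (hκ τ hτ).1) N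
  · exact key 5 (fun τ hτ => (hκ τ hτ).2) N

end Pool.Agent.GNF
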