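import Pool.Agent.Lib_helper7.GNF.D2
import Pool.Agent.Lib_helper7.GNF.P.RA
import Pool.Agent.Lib_helper7.GNF.P.RC
import Pool.Agent.Lib_helper7.GNF.P.KA
import Pool.Agent.Lib_helper7.GNF.P.TM

set_option autoImplicit false

namespace Pool.Agent.GNF

open Finset Pool.Agent.GEN

theorem pa_psi1 (u v : T) : Psi 1 u v = 1 := by
  unfold Psi
  rw [Nat.primeFactors_one, Finset.prod_empty]

theorem pa_iso1 (u : T) : ∀ p ∈ (1 : ℕ).primeFactors, Iso p u := by
  intro p hp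
  rw [Nat.primeFactors_one] at hp
  exact absurd hp (Finset.notMem_empty p)

/-- the common multiplier -/
theorem pa_mult (d : ℕ) (hs : Squarefree d) (h8 : d % 8 = 1) :
    ∃ K : ℂ, ∀ N : ℕ,
      ((∑ v ∈ sph (d * N), w3 v * kap d v : ℤ) : ℂ) = K * ((∑ v ∈ sph N, w3 v : ℤ) : ℂ) ∧
      ((∑ v ∈ sph (d * N), w1 v * kap d v : ℤ) : ℂ) = K * ((∑ v ∈ sph N, w1 v : ℤ) : ℂ) := by
  obtain ⟨u, hb⟩ := base_exists d h8
  have hu : ∀ p ∈ d.primeFactors, Iso p u := fun p hp => base_iso d hs u hb p hp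
  obtain ⟨κ, hκ⟩ := TM d hs h8 u hu
  refine ⟨((Pool.Agent.GEN.kap u : ℤ) : ℂ) * κ, fun N => ?_⟩
  have e4 : d * (4 * N) = 4 * (d * N) := by ring
  obtain ⟨h0, h5⟩ := hκ (4 * N)
  rw [e4] at h0 h5
  rw [RA d hs h8 u hu (d * N)] at h0
  rw [RB d hs h8 u hu (d * N)] at h5
  have h0' : ∑ v ∈ sph (4 * N), A 0 v = ((∑ v ∈ sph N, w3 v : ℤ) : ℂ) := by
    have h := RA 1 squarefree_one rfl u (pa_iso1 u) N
    simp only [pa_psi1, Int.cast_one, mul_one] at h
    exact h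
  have h5' : ∑ v ∈ sph (4 * N), A 5 v = ((∑ v ∈ sph N, w1 v : ℤ) : ℂ) := by
    have h := RB 1 squarefree_one rfl u (pa_iso1 u) N
    simp only [pa_psi1, Int.cast_one, mul_one] at h
    exact h
  rw [h0'] at h0
  rw [h5'] at h5
  constructor
  · have e : ∑ v ∈ sph (d * N), w3 v * kap d v =
        Pool.Agent.GEN.kap u * ∑ v ∈ sph (d * N), w3 v * Psi d u v := by
      rw [Finset.mul_sum]
      apply Finset.sum_congr rfl
      intro v _
      rw [kap_eq d hs h8 u hb v]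
      ring
    rw [e, Int.cast_mul, h0, mul_assoc]
  · have e : ∑ v ∈ sph (d * N), w1 v * kap d v =
        Pool.Agent.GEN.kap u * ∑ v ∈ sph (d * N), w1 v * Psi d u v := by
      rw [Finset.mul_sum]
      apply Finset.sum_congr rfl
      intro v _
      rw [kap_eq d hs h8 u hb v]
      ring
    rw [e, Int.cast_mul, h5, mul_assoc]

theorem pa_q4 {x : ℤ} (h : q4 x ≠ 0) : x % 4 = 0 := by
  unfold q4 at h
  by_contra h4
  apply h
  rw [if_neg (by omega), if_neg (by omega)]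

theorem pa_kap {v : T} (hw : w1 v ≠ 0) : Pool.Agent.GEN.kap v = 1 := by
  have h1 : v.1 % 2 = 1 := by
    by_contra h
    apply hw
    unfold w1
    rw [if_neg h]
  have h2 : q4 v.2.1 * q4 v.2.2 ≠ 0 := by
    intro h
    apply hw
    unfold w1
    rw [if_pos h1, h]
  have h3 := pa_q4 (left_ne_zero_of_mul h2)
  have h4 := pa_q4 (right_ne_zero_of_mul h2)
  unfold Pool.Agent.GEN.kap
  rw [if_neg]
  rintro (h | h | h) <;> omega

theorem pa_sum1 : ∑ v ∈ sph 1, w1 v = 2 := by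
  unfold sph
  rw [Finset.sum_filter]
  rfl

theorem pa_val (d : ℕ) (hs : Squarefree d) (h8 : d % 8 = 1) (K : ℂ)
    (hK : ∀ N : ℕ,
      ((∑ v ∈ sph (d * N), w3 v * kap d v : ℤ) : ℂ) = K * ((∑ v ∈ sph N, w3 v : ℤ) : ℂ) ∧
      ((∑ v ∈ sph (d * N), w1 v * kap d v : ℤ) : ℂ) = K * ((∑ v ∈ sph N, w1 v : ℤ) : ℂ)) :
    (tc d : ℂ) = 2 * K := by
  have h := (hK 1).2
  rw [mul_one, pa_sum1] at h
  have e : ∑ v ∈ sph d, w1 v * kap d v = ∑ v ∈ sph d, w1 v := by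
    apply Finset.sum_congr rfl
    intro v hv
    by_cases hw : w1 v = 0
    · rw [hw, zero_mul]
    · rw [kap_self d hs h8 v (Finset.mem_filter.mp hv).2, pa_kap hw, mul_one]
  rw [e, RC1 d h8] at h
  rw [h]
  push_cast
  ring

/-- **product formula**, `n = d m = 3 mod 8` -/
theorem PA3 (d m : ℕ) (hs : Squarefree d) (h8 : d % 8 = 1) (hm : m % 8 = 3) :
    ∑ v ∈ sph (d * m), w3 v * kap d v = tc d * tc m := by
  obtain ⟨K, hK⟩ := pa_mult d hs h8
  have h := (hK m).1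
  rw [RC3 m hm] at h
  have hv := pa_val d hs h8 K hK
  have : ((∑ v ∈ sph (d * m), w3 v * kap d v : ℤ) : ℂ) = ((tc d * tc m : ℤ) : ℂ) := by
    rw [h]
    push_cast
    rw [hv]
    ring
  exact_mod_cast this

/-- **product formula**, `n = d m = 1 mod 8` -/
theorem PA1 (d m : ℕ) (hs : Squarefree d) (h8 : d % 8 = 1) (hm : m % 8 = 1) :
    2 * ∑ v ∈ sph (d * m), w1 v * kap d v = tc d * tc m := by
  obtain ⟨K, hK⟩ := pa_mult d hs h8
  have h := (hK m).2
  rw [RC1 m hm] at h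
  have hv := pa_val d hs h8 K hK
  have : ((2 * ∑ v ∈ sph (d * m), w1 v * kap d v : ℤ) : ℂ) = ((tc d * tc m : ℤ) : ℂ) := by
    rw [Int.cast_mul, h]
    push_cast
    rw [hv]
    ring
  exact_mod_cast this

end Pool.Agent.GNF
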