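import Pool.Agent.Lib_helper7.GNF.D2
import Pool.Agent.Lib_helper7.GNF.P.PA

set_option autoImplicit false

namespace Pool.Agent.GNF

open Finset Pool.Agent.GEN

theorem xa_mem {N : ℕ} {v : T} : v ∈ sph N ↔ (((-(N : ℤ) ≤ v.1 ∧ v.1 ≤ N) ∧
    (-(N : ℤ) ≤ v.2.1 ∧ v.2.1 ≤ N) ∧ (-(N : ℤ) ≤ v.2.2 ∧ v.2.2 ≤ N))) ∧ dot v v = N := by
  unfold sph
  simp only [mem_filter, mem_product, mem_Icc]

theorem xa_neg_mem {N : ℕ} {v : T} (h : v ∈ sph N) : sm (-1) v ∈ sph N := by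
  rw [xa_mem] at h ⊢
  obtain ⟨⟨h1, h2, h3⟩, h4⟩ := h
  refine ⟨⟨⟨?_, ?_⟩, ⟨?_, ?_⟩, ⟨?_, ?_⟩⟩, ?_⟩ <;> unfold sm
  · linarith [h1.2]
  · linarith [h1.1]
  · linarith [h2.2]
  · linarith [h2.1]
  · linarith [h3.2]
  · linarith [h3.1]
  · unfold dot at h4 ⊢
    simp only
    linarith

theorem xa_neg_neg (v : T) : sm (-1) (sm (-1) v) = v := by
  obtain ⟨x, y, z⟩ := v
  unfold sm
  simp

/-- halving a sum over the sphere -/
theorem xa_half (n : ℕ) (P P' : T → Prop) [DecidablePred P] [DecidablePred P'] (f : T → ℤ)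
    (hf : ∀ v, f (sm (-1) v) = f v) (h0 : ∀ v, f v ≠ 0 → P v ∨ P' v)
    (hPP : ∀ v, P v → ¬ P' v) (hneg : ∀ v, P v ↔ P' (sm (-1) v)) :
    ∑ v ∈ sph n, f v = 2 * ∑ v ∈ (sph n).filter P, f v := by
  have hneg' : ∀ v, P' v ↔ P (sm (-1) v) := fun v => by rw [hneg, xa_neg_neg]
  rw [← sum_filter_add_sum_filter_not (sph n) P f, two_mul]
  congr 1
  have h1 : ∑ v ∈ (sph n).filter (fun v => ¬ P v), f v = ∑ v ∈ (sph n).filter P', f v := by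
    symm
    apply sum_subset
    · intro v hv
      obtain ⟨hv1, hv2⟩ := mem_filter.1 hv
      exact mem_filter.2 ⟨hv1, fun h => hPP v h hv2⟩
    · intro v hv hv'
      obtain ⟨hv1, hv2⟩ := mem_filter.1 hv
      by_contra hne
      rcases h0 v hne with h | h
      · exact hv2 h
      · exact hv' (mem_filter.2 ⟨hv1, h⟩)
  rw [h1]
  refine sum_bij' (fun v _ => sm (-1) v) (fun v _ => sm (-1) v) ?_ ?_ ?_ ?_ ?_
  · intro v hv
    obtain ⟨hv1, hv2⟩ := mem_filter.1 hv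
    exact mem_filter.2 ⟨xa_neg_mem hv1, (hneg' v).1 hv2⟩
  · intro v hv
    obtain ⟨hv1, hv2⟩ := mem_filter.1 hv
    exact mem_filter.2 ⟨xa_neg_mem hv1, (hneg v).1 hv2⟩
  · intro v _
    exact xa_neg_neg v
  · intro v _
    exact xa_neg_neg v
  · intro v _
    exact (hf v).symm

theorem xa_j2_neg (x : ℤ) : j2 (-1 * x) = j2 x := by
  unfold j2
  have h1 : (-1 * x % 8 = 1 ∨ -1 * x % 8 = 7) ↔ (x % 8 = 1 ∨ x % 8 = 7) := by omega
  have h2 : (-1 * x % 8 = 3 ∨ -1 * x % 8 = 5) ↔ (x % 8 = 3 ∨ x % 8 = 5) := by omega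
  simp only [h1, h2]

theorem xa_q4_neg (x : ℤ) : q4 (-1 * x) = q4 x := by
  unfold q4
  have h1 : (-1 * x % 8 = 0) ↔ (x % 8 = 0) := by omega
  have h2 : (-1 * x % 8 = 4) ↔ (x % 8 = 4) := by omega
  simp only [h1, h2]

theorem xa_w3_neg (v : T) : w3 (sm (-1) v) = w3 v := by
  unfold w3 sm
  have h1 : (-1 * v.1 % 2 = 1) ↔ (v.1 % 2 = 1) := by omega
  simp only [h1, xa_j2_neg]

theorem xa_w1_neg (v : T) : w1 (sm (-1) v) = w1 v := by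
  unfold w1 sm
  have h1 : (-1 * v.1 % 2 = 1) ↔ (v.1 % 2 = 1) := by omega
  simp only [h1, xa_q4_neg]

theorem xa_j2_odd {x : ℤ} (h : j2 x ≠ 0) : x % 2 = 1 := by
  unfold j2 at h
  by_contra hc
  rw [if_neg (by omega), if_neg (by omega)] at h
  exact h rfl

theorem xa_q4_four {x : ℤ} (h : q4 x ≠ 0) : x % 4 = 0 := by
  unfold q4 at h
  by_contra hc
  rw [if_neg (by omega), if_neg (by omega)] at h
  exact h rfl

theorem xa_w3_odd {v : T} (h : w3 v ≠ 0) : v.1 % 2 = 1 ∧ v.2.1 % 2 = 1 ∧ v.2.2 % 2 = 1 := by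
  unfold w3 at h
  by_cases h1 : v.1 % 2 = 1
  · rw [if_pos h1] at h
    exact ⟨h1, xa_j2_odd (left_ne_zero_of_mul h), xa_j2_odd (right_ne_zero_of_mul h)⟩
  · rw [if_neg h1] at h
    exact absurd rfl h

theorem xa_w1_odd {v : T} (h : w1 v ≠ 0) : v.1 % 2 = 1 ∧ v.2.1 % 4 = 0 ∧ v.2.2 % 4 = 0 := by
  unfold w1 at h
  by_cases h1 : v.1 % 2 = 1
  · rw [if_pos h1] at h
    exact ⟨h1, xa_q4_four (left_ne_zero_of_mul h), xa_q4_four (right_ne_zero_of_mul h)⟩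
  · rw [if_neg h1] at h
    exact absurd rfl h

theorem xa_mod {n d a : ℕ} (h3 : n % 8 = a) (hd : d ∣ n) (h8 : d % 8 = 1) : (n / d) % 8 = a := by
  obtain ⟨m, rfl⟩ := hd
  have hd0 : 0 < d := by omega
  rw [Nat.mul_div_cancel_left m hd0]
  have : d * m % 8 = m % 8 := by
    rw [Nat.mul_mod, h8, one_mul, Nat.mod_mod]
  omega

theorem OP_iso (n : ℕ) (hs : Squarefree n) (v : T) (hv : v ∈ sph n) (p : ℕ)
    (hp : p ∈ n.primeFactors) : Iso p v := by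
  have hdot := (xa_mem.1 hv).2
  have hpp := Nat.prime_of_mem_primeFactors hp
  have hpn := Nat.dvd_of_mem_primeFactors hp
  refine ⟨?_, ?_⟩
  · rw [hdot]
    exact_mod_cast hpn
  · rintro ⟨⟨a, ha⟩, ⟨b, hb⟩, ⟨c, hc⟩⟩
    have h1 : ((p * p : ℕ) : ℤ) ∣ (n : ℤ) := by
      rw [← hdot]
      refine ⟨a * a + b * b + c * c, ?_⟩
      unfold dot
      rw [ha, hb, hc]
      push_cast
      ring
    have h2 : p * p ∣ n := by exact_mod_cast h1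
    have h3 := hs p h2
    rw [Nat.isUnit_iff] at h3
    exact hpp.one_lt.ne' h3

theorem XA (n d : ℕ) (hs : Squarefree n) (h3 : n % 8 = 3) (hd : d ∣ n) (h8 : d % 8 = 1) :
    2 * ∑ v ∈ OP n, w3 v * kap d v = tc d * tc (n / d) := by
  have hsd : Squarefree d := hs.squarefree_of_dvd hd
  have h1 := PA3 d (n / d) hsd h8 (xa_mod h3 hd h8)
  rw [Nat.mul_div_cancel' hd] at h1
  rw [← h1]
  unfold OP
  refine (xa_half n (fun v => v.1 * v.2.1 * v.2.2 % 4 = 1) (fun v => v.1 * v.2.1 * v.2.2 % 4 = 3)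
    (fun v => w3 v * kap d v) ?_ ?_ ?_ ?_).symm
  · intro v
    show w3 (sm (-1) v) * kap d (sm (-1) v) = w3 v * kap d v
    rw [xa_w3_neg, kap_neg d hsd h8]
  · intro v hv
    obtain ⟨a1, a2, a3⟩ := xa_w3_odd (left_ne_zero_of_mul hv)
    have h4 : v.1 * v.2.1 * v.2.2 % 2 = 1 := by
      rw [Int.mul_emod, Int.mul_emod v.1, a1, a2, a3]
      norm_num
    show v.1 * v.2.1 * v.2.2 % 4 = 1 ∨ v.1 * v.2.1 * v.2.2 % 4 = 3
    omega
  · intro v hv hv'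
    have e1 : v.1 * v.2.1 * v.2.2 % 4 = 1 := hv
    have e2 : v.1 * v.2.1 * v.2.2 % 4 = 3 := hv'
    omega
  · intro v
    show v.1 * v.2.1 * v.2.2 % 4 = 1 ↔ (-1 * v.1) * (-1 * v.2.1) * (-1 * v.2.2) % 4 = 3
    have h5 : (-1 * v.1) * (-1 * v.2.1) * (-1 * v.2.2) = -(v.1 * v.2.1 * v.2.2) := by ring
    rw [h5]
    omega

theorem YA (n d : ℕ) (hs : Squarefree n) (h1 : n % 8 = 1) (hd : d ∣ n) (h8 : d % 8 = 1) :
    4 * ∑ v ∈ OQ n, w1 v * kap d v = tc d * tc (n / d) := by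
  have hsd : Squarefree d := hs.squarefree_of_dvd hd
  have h2 := PA1 d (n / d) hsd h8 (xa_mod h1 hd h8)
  rw [Nat.mul_div_cancel' hd] at h2
  rw [← h2]
  unfold OQ
  have h3 := xa_half n (fun v => v.1 % 4 = 1 ∧ v.2.1 % 4 = 0 ∧ v.2.2 % 4 = 0)
    (fun v => v.1 % 4 = 3 ∧ v.2.1 % 4 = 0 ∧ v.2.2 % 4 = 0)
    (fun v => w1 v * kap d v) ?_ ?_ ?_ ?_
  · rw [h3]
    ring
  · intro v
    show w1 (sm (-1) v) * kap d (sm (-1) v) = w1 v * kap d v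
    rw [xa_w1_neg, kap_neg d hsd h8]
  · intro v hv
    obtain ⟨a1, a2, a3⟩ := xa_w1_odd (left_ne_zero_of_mul hv)
    have h4 : v.1 % 4 = 1 ∨ v.1 % 4 = 3 := by omega
    rcases h4 with h4 | h4
    · exact Or.inl ⟨h4, a2, a3⟩
    · exact Or.inr ⟨h4, a2, a3⟩
  · intro v hv hv'
    have e1 := hv.1
    have e2 := hv'.1
    omega
  · intro v
    show (v.1 % 4 = 1 ∧ v.2.1 % 4 = 0 ∧ v.2.2 % 4 = 0) ↔
      ((-1 * v.1) % 4 = 3 ∧ (-1 * v.2.1) % 4 = 0 ∧ (-1 * v.2.2) % 4 = 0)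
    omega

end Pool.Agent.GNF
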