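import Pool.Agent.Lib_helper7.GNF.D2
import Pool.Agent.Lib_helper72.GEN.E

set_option autoImplicit false

namespace Pool.Agent.GNF

open Finset Pool.Agent.GEN

theorem xb_mem_sph {n : ℕ} {v : T} : v ∈ sph n ↔ dot v v = n := by
  unfold sph
  rw [mem_filter, mem_product, mem_product, mem_Icc, mem_Icc, mem_Icc]
  constructor
  · exact fun h => h.2
  · intro h
    have key : ∀ x : ℤ, x * x ≤ n → -(n : ℤ) ≤ x ∧ x ≤ n := by
      intro x hx
      have hn : (0 : ℤ) ≤ n := Int.natCast_nonneg n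
      constructor
      · by_contra hc
        rw [not_le] at hc
        nlinarith
      · by_contra hc
        rw [not_le] at hc
        nlinarith
    have h' : v.1 * v.1 + v.2.1 * v.2.1 + v.2.2 * v.2.2 = n := h
    exact ⟨⟨key _ (by nlinarith [mul_self_nonneg v.2.1, mul_self_nonneg v.2.2]),
      key _ (by nlinarith [mul_self_nonneg v.1, mul_self_nonneg v.2.2]),
      key _ (by nlinarith [mul_self_nonneg v.1, mul_self_nonneg v.2.1])⟩, h⟩

theorem xb_van {Om : Finset T} {g : T → ℤ} (e e' : T → T) (h1 : ∀ v ∈ Om, e v ∈ Om)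
    (h2 : ∀ v ∈ Om, e' v ∈ Om) (h3 : ∀ v, e' (e v) = v) (h4 : ∀ v, e (e' v) = v)
    (h5 : ∀ v ∈ Om, g (e v) = - g v) : ∑ v ∈ Om, g v = 0 := by
  have h : ∑ v ∈ Om, g (e v) = ∑ v ∈ Om, g v :=
    Finset.sum_nbij' e e' h1 h2 (fun v _ => h3 v) (fun v _ => h4 v) (fun v _ => rfl)
  rw [Finset.sum_congr rfl h5, Finset.sum_neg_distrib] at h
  linarith

theorem xb_iso {n p : ℕ} (hs : Squarefree n) (hp : p ∈ n.primeFactors) {v : T}
    (hv : dot v v = n) : Iso p v := by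
  have : Fact p.Prime := ⟨Nat.prime_of_mem_primeFactors hp⟩
  apply iso_of hs (Nat.dvd_of_mem_primeFactors hp)
  rw [← hv]
  unfold dot
  ring

theorem xb_prod {n d : ℕ} (hs : Squarefree n) (hn : n % 2 = 1) (hd : d ∣ n) {v v' w : T}
    (hv : dot v v = n) (hv' : dot v' v' = n) (hw : ∀ p ∈ n.primeFactors, Iso p w)
    (a0 a1 a2 a3 : ℤ) (N : ℤ) (hN : ∀ p ∈ d.primeFactors, ¬ (p : ℤ) ∣ N)
    (h1 : v'.1 * N = (a0 ^ 2 - a1 ^ 2 - a2 ^ 2 - a3 ^ 2) * v.1 +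
      2 * (a1 * v.1 + a2 * v.2.1 + a3 * v.2.2) * a1 + 2 * a0 * (a2 * v.2.2 - a3 * v.2.1))
    (h2 : v'.2.1 * N = (a0 ^ 2 - a1 ^ 2 - a2 ^ 2 - a3 ^ 2) * v.2.1 +
      2 * (a1 * v.1 + a2 * v.2.1 + a3 * v.2.2) * a2 + 2 * a0 * (a3 * v.1 - a1 * v.2.2))
    (h3 : v'.2.2 * N = (a0 ^ 2 - a1 ^ 2 - a2 ^ 2 - a3 ^ 2) * v.2.2 +
      2 * (a1 * v.1 + a2 * v.2.1 + a3 * v.2.2) * a3 + 2 * a0 * (a1 * v.2.1 - a2 * v.1)) :
    ∏ p ∈ d.primeFactors, chi p v' w = jacobiSym N d * ∏ p ∈ d.primeFactors, chi p v w := by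
  rw [← prod_sym N d (Squarefree.squarefree_of_dvd hd hs), ← Finset.prod_mul_distrib]
  have hn0 : n ≠ 0 := by rintro rfl; simp at hn
  refine Finset.prod_congr rfl fun p hp => ?_
  have hpn : p ∈ n.primeFactors := Nat.primeFactors_mono hd hn0 hp
  have : Fact p.Prime := ⟨Nat.prime_of_mem_primeFactors hp⟩
  have hp2 : p ≠ 2 := by
    rintro rfl
    have := Nat.dvd_of_mem_primeFactors hpn
    omega
  have i1 := xb_iso hs hpn hv
  have i2 := xb_iso hs hpn hv'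
  rw [← chi_trans hp2 i2 i1 (hw p hpn), chi_comm i2 i1,
    chi_rot hp2 i1 i2 a0 a1 a2 a3 N (hN p hp) h1 h2 h3]

theorem xb_two {d n : ℕ} (hn : n % 2 = 1) (hd : d ∣ n) : ∀ p ∈ d.primeFactors, ¬ (p : ℤ) ∣ 2 := by
  intro p hp h
  have : Fact p.Prime := ⟨Nat.prime_of_mem_primeFactors hp⟩
  apply two_nd (p := p) _ h
  rintro rfl
  have := (Nat.dvd_of_mem_primeFactors hp).trans hd
  omega

theorem xb_two' {d n : ℕ} (hn : n % 2 = 1) (hd : d ∣ n) :
    ∀ p ∈ d.primeFactors, ¬ (p : ℤ) ∣ -2 := by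
  intro p hp h
  exact xb_two hn hd p hp ((dvd_neg (b := (2 : ℤ))).1 h)

/-- exchange of the last two coordinates -/
def xb_tau (v : T) : T := (v.1, v.2.2, v.2.1)

/-- quarter turn about the first axis -/
def xb_R (v : T) : T := (v.1, -v.2.2, v.2.1)

/-- its inverse -/
def xb_R' (v : T) : T := (v.1, v.2.2, -v.2.1)

theorem xb_dot_tau (v : T) : dot (xb_tau v) (xb_tau v) = dot v v := by
  unfold dot xb_tau; ring

theorem xb_dot_R (v : T) : dot (xb_R v) (xb_R v) = dot v v := by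
  unfold dot xb_R; ring

theorem xb_dot_R' (v : T) : dot (xb_R' v) (xb_R' v) = dot v v := by
  unfold dot xb_R'; ring

theorem xb_prod_tau {n d : ℕ} (hs : Squarefree n) (hn : n % 2 = 1) (hd : d ∣ n) {v w : T}
    (hv : dot v v = n) (hw : ∀ p ∈ n.primeFactors, Iso p w) :
    ∏ p ∈ d.primeFactors, chi p (xb_tau v) w =
      jacobiSym (-2) d * ∏ p ∈ d.primeFactors, chi p v w := by
  apply xb_prod hs hn hd hv (by rw [xb_dot_tau, hv]) hw 0 0 1 (-1) (-2) (xb_two' hn hd) <;>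
    · unfold xb_tau; ring

theorem xb_prod_R {n d : ℕ} (hs : Squarefree n) (hn : n % 2 = 1) (hd : d ∣ n) {v w : T}
    (hv : dot v v = n) (hw : ∀ p ∈ n.primeFactors, Iso p w) :
    ∏ p ∈ d.primeFactors, chi p (xb_R v) w =
      jacobiSym 2 d * ∏ p ∈ d.primeFactors, chi p v w := by
  apply xb_prod hs hn hd hv (by rw [xb_dot_R, hv]) hw 1 1 0 0 2 (xb_two hn hd) <;>
    · unfold xb_R; ring

theorem xb_j2 {d : ℕ} (h : d % 8 = 5 ∨ d % 8 = 7) : jacobiSym (-2) d = -1 := by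
  rw [jacobiSym.at_neg_two (Nat.odd_iff.2 (by omega)), ZMod.χ₈'_nat_eq_if_mod_eight,
    if_neg (by omega), if_neg (by omega)]

theorem xb_j2' {d : ℕ} (h : d % 8 = 3 ∨ d % 8 = 5) : jacobiSym 2 d = -1 := by
  rw [jacobiSym.at_two (Nat.odd_iff.2 (by omega)), ZMod.χ₈_nat_eq_if_mod_eight,
    if_neg (by omega), if_neg (by omega)]

/-- vanishing by a transposition, `n = 3 mod 8` -/
theorem XB (n d : ℕ) (hs : Squarefree n) (h3 : n % 8 = 3) (hd : d ∣ n) (h8 : d % 8 = 5 ∨ d % 8 = 7)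
    (w : T) (hw : ∀ p ∈ n.primeFactors, Iso p w) :
    ∑ v ∈ OP n, w3 v * ∏ p ∈ d.primeFactors, chi p v w = 0 := by
  have hn : n % 2 = 1 := by omega
  have hmem : ∀ v ∈ OP n, xb_tau v ∈ OP n := by
    intro v hv
    unfold OP at hv ⊢
    rw [mem_filter, xb_mem_sph] at hv ⊢
    refine ⟨by rw [xb_dot_tau]; exact hv.1, ?_⟩
    have e : (xb_tau v).1 * (xb_tau v).2.1 * (xb_tau v).2.2 = v.1 * v.2.1 * v.2.2 := by
      unfold xb_tau; ring
    rw [e]
    exact hv.2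
  apply xb_van xb_tau xb_tau hmem hmem (fun _ => rfl) (fun _ => rfl)
  intro v hv
  have hdv : dot v v = n := by
    unfold OP at hv
    rw [mem_filter, xb_mem_sph] at hv
    exact hv.1
  rw [xb_prod_tau hs hn hd hdv hw, xb_j2 h8]
  have e : w3 (xb_tau v) = w3 v := by
    unfold w3 xb_tau
    simp only [mul_comm]
  rw [e]
  ring

theorem xb_q4 (x : ℤ) : q4 (-x) = q4 x := by
  unfold q4
  split_ifs <;> first | rfl | (exfalso; omega)

/-- vanishing by symmetries, `n = 1 mod 8` -/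
theorem YB (n d : ℕ) (hs : Squarefree n) (h1 : n % 8 = 1) (hd : d ∣ n)
    (h8 : d % 8 = 3 ∨ d % 8 = 5 ∨ d % 8 = 7) (w : T) (hw : ∀ p ∈ n.primeFactors, Iso p w) :
    ∑ v ∈ OQ n, w1 v * ∏ p ∈ d.primeFactors, chi p v w = 0 := by
  have hn : n % 2 = 1 := by omega
  have hdv : ∀ v ∈ OQ n, dot v v = n := by
    intro v hv
    unfold OQ at hv
    rw [mem_filter, xb_mem_sph] at hv
    exact hv.1
  by_cases h7 : d % 8 = 5 ∨ d % 8 = 7
  · have hmem : ∀ v ∈ OQ n, xb_tau v ∈ OQ n := by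
      intro v hv
      unfold OQ at hv ⊢
      rw [mem_filter, xb_mem_sph] at hv ⊢
      exact ⟨by rw [xb_dot_tau]; exact hv.1, hv.2.1, hv.2.2.2, hv.2.2.1⟩
    apply xb_van xb_tau xb_tau hmem hmem (fun _ => rfl) (fun _ => rfl)
    intro v hv
    rw [xb_prod_tau hs hn hd (hdv v hv) hw, xb_j2 h7]
    have e : w1 (xb_tau v) = w1 v := by
      unfold w1 xb_tau
      simp only [mul_comm]
    rw [e]
    ring
  · have h35 : d % 8 = 3 ∨ d % 8 = 5 := by omega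
    have hmem : ∀ v ∈ OQ n, xb_R v ∈ OQ n := by
      intro v hv
      unfold OQ at hv ⊢
      rw [mem_filter, xb_mem_sph] at hv ⊢
      refine ⟨by rw [xb_dot_R]; exact hv.1, hv.2.1, ?_, hv.2.2.1⟩
      show (-v.2.2) % 4 = 0
      omega
    have hmem' : ∀ v ∈ OQ n, xb_R' v ∈ OQ n := by
      intro v hv
      unfold OQ at hv ⊢
      rw [mem_filter, xb_mem_sph] at hv ⊢
      refine ⟨by rw [xb_dot_R']; exact hv.1, hv.2.1, hv.2.2.2, ?_⟩
      show (-v.2.1) % 4 = 0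
      omega
    apply xb_van xb_R xb_R' hmem hmem' (fun v => ?_) (fun v => ?_)
    · intro v hv
      rw [xb_prod_R hs hn hd (hdv v hv) hw, xb_j2' h35]
      have e : w1 (xb_R v) = w1 v := by
        unfold w1 xb_R
        simp only [xb_q4, mul_comm]
      rw [e]
      ring
    · show (v.1, v.2.1, -(-v.2.2)) = v
      rw [neg_neg]
    · show (v.1, -(-v.2.1), v.2.2) = v
      rw [neg_neg]

end Pool.Agent.GNF
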