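import Pool.Agent.Lib_helper7.GNF.D2
import Pool.Agent.Lib_helper7.GNF.P.XA
import Pool.Agent.Lib_helper7.GNF.P.XB
import Pool.Agent.Lib_helper7.GNF.P.KA
import Pool.Agent.Lib_helper72.GEN.H

set_option autoImplicit false

namespace Pool.Agent.GNF

open Finset Pool.Agent.GEN

/-- divisors of a squarefree number as sets of primes -/
theorem xc_div (n : ℕ) (hs : Squarefree n) (F : Finset ℕ → ℤ) :
    ∑ d ∈ n.divisors, F d.primeFactors = ∑ s ∈ n.primeFactors.powerset, F s := by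
  refine Finset.sum_nbij' (fun d => d.primeFactors) (fun s => ∏ p ∈ s, p) ?_ ?_ ?_ ?_ ?_
  · intro d hd
    rw [Nat.mem_divisors] at hd
    rw [Finset.mem_powerset]
    exact Nat.primeFactors_mono hd.1 hd.2
  · intro s h
    rw [Finset.mem_powerset] at h
    rw [Nat.mem_divisors]
    refine ⟨?_, hs.ne_zero⟩
    have h1 := Finset.prod_dvd_prod_of_subset _ _ (fun p => p) h
    rwa [Nat.prod_primeFactors_of_squarefree hs] at h1
  · intro d hd
    rw [Nat.mem_divisors] at hd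
    exact Nat.prod_primeFactors_of_squarefree (hs.squarefree_of_dvd hd.1)
  · intro s h
    rw [Finset.mem_powerset] at h
    exact Nat.primeFactors_prod fun p hp => Nat.prime_of_mem_primeFactors (h hp)
  · intro d _
    rfl

/-- the characteristic function of a genus -/
theorem xc_ind (n : ℕ) (hs : Squarefree n) (e : ℕ → ℤ)
    (he : ∀ p ∈ n.primeFactors, e p = 1 ∨ e p = -1) :
    (2 : ℤ) ^ n.primeFactors.card * (if ∀ p ∈ n.primeFactors, e p = 1 then 1 else 0) =
      ∑ d ∈ n.divisors, ∏ p ∈ d.primeFactors, e p := by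
  rw [xc_div n hs (fun s => ∏ p ∈ s, e p), ← Finset.prod_one_add]
  split_ifs with h
  · rw [mul_one, Finset.prod_congr rfl (fun p hp => by rw [h p hp]), Finset.prod_const]
    norm_num
  · push Not at h
    obtain ⟨p, hp, hp1⟩ := h
    rw [mul_zero, Finset.prod_eq_zero hp]
    rw [(he p hp).resolve_left hp1]
    norm_num

theorem xc_gen (n : ℕ) (hs : Squarefree n) (Om : Finset T) (w : T) (W : T → ℤ)
    (hpm : ∀ v ∈ Om, ∀ p ∈ n.primeFactors, chi p v w = 1 ∨ chi p v w = -1) :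
    2 ^ n.primeFactors.card * ∑ v ∈ Ge n Om w, W v =
      ∑ d ∈ n.divisors, ∑ v ∈ Om, W v * ∏ p ∈ d.primeFactors, chi p v w := by
  rw [Finset.sum_comm, Ge, Finset.sum_filter, Finset.mul_sum]
  refine Finset.sum_congr rfl fun v hv => ?_
  rw [← Finset.mul_sum, ← xc_ind n hs (fun p => chi p v w) (hpm v hv)]
  split_ifs
  · ring
  · ring

theorem xc_odd {n d : ℕ} (hn : n % 2 = 1) (hd : d ∣ n) : d % 2 = 1 := by
  obtain ⟨k, rfl⟩ := hd
  exact Nat.odd_iff.1 (Nat.odd_mul.1 (Nat.odd_iff.2 hn)).1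

/-- the part of `d = 1 mod 8` -/
theorem xc_one (n d : ℕ) (hs : Squarefree n) (hd : d ∣ n) (h8 : d % 8 = 1)
    (Om : Finset T) (w : T) (W : T → ℤ) (hO : ∀ v ∈ Om, ∀ p ∈ n.primeFactors, Iso p v)
    (hw : ∀ p ∈ n.primeFactors, Iso p w) :
    ∑ v ∈ Om, W v * ∏ p ∈ d.primeFactors, chi p v w =
      kap d w * ∑ v ∈ Om, W v * kap d v := by
  have hsd : Squarefree d := hs.squarefree_of_dvd hd
  have hsub : d.primeFactors ⊆ n.primeFactors := Nat.primeFactors_mono hd hs.ne_zero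
  rw [Finset.mul_sum]
  refine Finset.sum_congr rfl fun v hv => ?_
  rw [← kap_mul d hsd h8 v w (fun p hp => hO v hv p (hsub hp))
    (fun p hp => hw p (hsub hp))]
  ring

theorem xc_pm {n : ℕ} (hn : n % 2 = 1) {v w : T} (hv : ∀ p ∈ n.primeFactors, Iso p v)
    (hw : ∀ p ∈ n.primeFactors, Iso p w) (p : ℕ) (hp : p ∈ n.primeFactors) :
    chi p v w = 1 ∨ chi p v w = -1 := by
  have : Fact p.Prime := ⟨Nat.prime_of_mem_primeFactors hp⟩
  exact chi_pm (pf_ne_two hn hp) (hv p hp) (hw p hp)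

theorem xc_OP {n : ℕ} {v : T} (hv : v ∈ OP n) : OmP n v := by
  rw [OP, Finset.mem_filter, sph, Finset.mem_filter] at hv
  refine ⟨?_, hv.2⟩
  have h := hv.1.2
  unfold dot at h
  rw [← h]
  ring

theorem xc_OPs {n : ℕ} {v : T} (hv : v ∈ OP n) : v ∈ sph n := (Finset.mem_filter.1 hv).1

theorem xc_OQs {n : ℕ} {v : T} (hv : v ∈ OQ n) : v ∈ sph n := (Finset.mem_filter.1 hv).1

/-- sum over a genus, `n = 3 mod 8` -/
theorem XC (n : ℕ) (hs : Squarefree n) (h3 : n % 8 = 3) (w : T) (hw : w ∈ OP n) :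
    2 ^ n.primeFactors.card * ∑ v ∈ Ge n (OP n) w, w3 v =
      ∑ d ∈ n.divisors.filter (fun d => d % 8 = 1), kap d w * tc d * tc (n / d) := by
  have hn2 : n % 2 = 1 := by omega
  have hO : ∀ v ∈ OP n, ∀ p ∈ n.primeFactors, Iso p v := fun v hv p hp =>
    OP_iso n hs v (xc_OPs hv) p hp
  have hwI := hO w hw
  rw [xc_gen n hs (OP n) w w3 (fun v hv p hp => xc_pm hn2 (hO v hv) hwI p hp)]
  set S : ℕ → ℤ := fun d => ∑ v ∈ OP n, w3 v * ∏ p ∈ d.primeFactors, chi p v w with hS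
  have h57 : ∀ d, d ∣ n → (d % 8 = 5 ∨ d % 8 = 7) → S d = 0 := fun d hd h => XB n d hs h3 hd h w hwI
  have hdiv : ∀ d, d ∣ n → S d = S (n / d) := by
    intro d hd
    simp only [hS]
    refine Finset.sum_congr rfl fun v hv => ?_
    congr 1
    obtain ⟨k, hk⟩ := hd
    have hd0 : 0 < d := Nat.pos_of_ne_zero (by
      rintro rfl
      rw [zero_mul] at hk
      exact hs.ne_zero hk)
    have hk' : n / d = k := by rw [hk, Nat.mul_div_cancel_left _ hd0]
    have hcop : Nat.Coprime d k := Nat.coprime_of_squarefree_mul (hk ▸ hs)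
    have h1 := chi_prod hs h3 (xc_OP hv) (xc_OP hw)
    rw [hk, hcop.primeFactors_mul, Finset.prod_union hcop.disjoint_primeFactors] at h1
    have h2 : (∏ p ∈ k.primeFactors, chi p v w) * (∏ p ∈ k.primeFactors, chi p v w) = 1 := by
      rw [← Finset.prod_mul_distrib]
      refine Finset.prod_eq_one fun p hp => ?_
      have hp' : p ∈ n.primeFactors := by
        rw [hk, hcop.primeFactors_mul]
        exact Finset.mem_union_right _ hp
      rcases xc_pm hn2 (hO v hv) hwI p hp' with h | h <;> rw [h] <;> norm_num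
    rw [hk']
    calc ∏ p ∈ d.primeFactors, chi p v w
        = (∏ p ∈ d.primeFactors, chi p v w) *
          ((∏ p ∈ k.primeFactors, chi p v w) * (∏ p ∈ k.primeFactors, chi p v w)) := by
          rw [h2, mul_one]
      _ = ((∏ p ∈ d.primeFactors, chi p v w) * (∏ p ∈ k.primeFactors, chi p v w)) *
          (∏ p ∈ k.primeFactors, chi p v w) := by ring
      _ = ∏ p ∈ k.primeFactors, chi p v w := by rw [h1, one_mul]
  have hmod : ∀ d, d ∣ n → ((n / d) % 8 = 1 ↔ d % 8 = 3) ∧ ((n / d) % 8 = 3 ↔ d % 8 = 1) := by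
    intro d hd
    have h1 : d % 2 = 1 := xc_odd hn2 hd
    have h2 : (n / d) % 2 = 1 := xc_odd hn2 (Nat.div_dvd_of_dvd hd)
    have h4 : d * (n / d) % 8 = 3 := by rw [Nat.mul_div_cancel' hd, h3]
    rw [Nat.mul_mod] at h4
    have h5 : d % 8 = 1 ∨ d % 8 = 3 ∨ d % 8 = 5 ∨ d % 8 = 7 := by omega
    have h6 : (n / d) % 8 = 1 ∨ (n / d) % 8 = 3 ∨ (n / d) % 8 = 5 ∨ (n / d) % 8 = 7 := by omega
    rcases h5 with h5 | h5 | h5 | h5 <;> rcases h6 with h6 | h6 | h6 | h6 <;>
      rw [h5, h6] at h4 <;> omega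
  have hsplit : ∑ d ∈ n.divisors, S d =
      ∑ d ∈ n.divisors.filter (fun d => d % 8 = 1), S d +
        ∑ d ∈ n.divisors.filter (fun d => d % 8 = 3), S d := by
    rw [← Finset.sum_union]
    · refine (Finset.sum_subset ?_ ?_).symm
      · intro d hd
        rw [Finset.mem_union, Finset.mem_filter, Finset.mem_filter] at hd
        rcases hd with hd | hd <;> exact hd.1
      · intro d hd hd'
        rw [Finset.mem_union, Finset.mem_filter, Finset.mem_filter] at hd'
        have h1 : d ∣ n := Nat.dvd_of_mem_divisors hd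
        have h2 : d % 2 = 1 := xc_odd hn2 h1
        refine h57 d h1 ?_
        by_contra h4
        exact hd' (by
          rcases (by omega : d % 8 = 1 ∨ d % 8 = 3) with h5 | h5
          · exact Or.inl ⟨hd, h5⟩
          · exact Or.inr ⟨hd, h5⟩)
    · rw [Finset.disjoint_filter]
      intro d _ h1 h2
      omega
  have hinv : ∑ d ∈ n.divisors.filter (fun d => d % 8 = 3), S d =
      ∑ d ∈ n.divisors.filter (fun d => d % 8 = 1), S d := by
    refine Finset.sum_nbij' (fun d => n / d) (fun d => n / d) ?_ ?_ ?_ ?_ ?_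
    · intro d hd
      rw [Finset.mem_filter, Nat.mem_divisors] at hd ⊢
      exact ⟨⟨Nat.div_dvd_of_dvd hd.1.1, hd.1.2⟩, (hmod d hd.1.1).1.2 hd.2⟩
    · intro d hd
      rw [Finset.mem_filter, Nat.mem_divisors] at hd ⊢
      exact ⟨⟨Nat.div_dvd_of_dvd hd.1.1, hd.1.2⟩, (hmod d hd.1.1).2.2 hd.2⟩
    · intro d hd
      rw [Finset.mem_filter, Nat.mem_divisors] at hd
      exact Nat.div_div_self hd.1.1 hd.1.2
    · intro d hd
      rw [Finset.mem_filter, Nat.mem_divisors] at hd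
      exact Nat.div_div_self hd.1.1 hd.1.2
    · intro d hd
      rw [Finset.mem_filter, Nat.mem_divisors] at hd
      exact hdiv d hd.1.1
  rw [hsplit, hinv, ← Finset.sum_add_distrib]
  refine Finset.sum_congr rfl fun d hd => ?_
  rw [Finset.mem_filter, Nat.mem_divisors] at hd
  have h1 : S d = kap d w * ∑ v ∈ OP n, w3 v * kap d v :=
    xc_one n d hs hd.1.1 hd.2 (OP n) w w3 hO hwI
  have h2 := XA n d hs h3 hd.1.1 hd.2
  rw [h1, mul_assoc, ← h2]
  ring

/-- sum over a genus, `n = 1 mod 8` -/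
theorem YC (n : ℕ) (hs : Squarefree n) (h1 : n % 8 = 1) (w : T) (hw : w ∈ OQ n) :
    4 * 2 ^ n.primeFactors.card * ∑ v ∈ Ge n (OQ n) w, w1 v =
      ∑ d ∈ n.divisors.filter (fun d => d % 8 = 1), kap d w * tc d * tc (n / d) := by
  have hn2 : n % 2 = 1 := by omega
  have hO : ∀ v ∈ OQ n, ∀ p ∈ n.primeFactors, Iso p v := fun v hv p hp =>
    OP_iso n hs v (xc_OQs hv) p hp
  have hwI := hO w hw
  rw [mul_assoc, xc_gen n hs (OQ n) w w1 (fun v hv p hp => xc_pm hn2 (hO v hv) hwI p hp)]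
  have hsplit : ∑ d ∈ n.divisors, ∑ v ∈ OQ n, w1 v * ∏ p ∈ d.primeFactors, chi p v w =
      ∑ d ∈ n.divisors.filter (fun d => d % 8 = 1),
        ∑ v ∈ OQ n, w1 v * ∏ p ∈ d.primeFactors, chi p v w := by
    refine (Finset.sum_subset (Finset.filter_subset _ _) ?_).symm
    intro d hd hd'
    rw [Finset.mem_filter] at hd'
    have h2 : d ∣ n := Nat.dvd_of_mem_divisors hd
    have h3 : d % 2 = 1 := xc_odd hn2 h2
    exact YB n d hs h1 h2 (by
      have : ¬ d % 8 = 1 := fun h => hd' ⟨hd, h⟩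
      omega) w hwI
  rw [hsplit, Finset.mul_sum]
  refine Finset.sum_congr rfl fun d hd => ?_
  rw [Finset.mem_filter, Nat.mem_divisors] at hd
  rw [xc_one n d hs hd.1.1 hd.2 (OQ n) w w1 hO hwI, mul_assoc, ← YA n d hs h1 hd.1.1 hd.2]
  ring

end Pool.Agent.GNF
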