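import Pool.Agent.Lib_helper7.GNF.D2

set_option autoImplicit false

namespace Pool.Agent.GNF

open Finset Pool.Agent.GEN

theorem xd_half (S : Finset T) (P : T → Prop) [DecidablePred P] (f g : T → T)
    (hf : ∀ v ∈ S, P v → f v ∈ S ∧ ¬ P (f v)) (hg : ∀ v ∈ S, ¬ P v → g v ∈ S ∧ P (g v))
    (hgf : ∀ v, g (f v) = v) (hfg : ∀ v, f (g v) = v) :
    S.card = 2 * (S.filter P).card := by
  have h1 : (S.filter P).card = (S.filter (fun v => ¬ P v)).card := by
    apply Finset.card_bij' (fun v _ => f v) (fun v _ => g v)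
    · intro v hv
      rw [Finset.mem_filter] at hv ⊢
      exact hf v hv.1 hv.2
    · intro v hv
      rw [Finset.mem_filter] at hv ⊢
      exact hg v hv.1 hv.2
    · intro v _
      exact hgf v
    · intro v _
      exact hfg v
  have h2 := Finset.card_filter_add_card_filter_not (s := S) P
  omega

theorem xd_sph (n : ℕ) (v : T) : v ∈ sph n ↔ dot v v = n := by
  unfold sph
  rw [Finset.mem_filter]
  constructor
  · exact fun h => h.2
  · intro h
    refine ⟨?_, h⟩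
    obtain ⟨x, y, z⟩ := v
    simp only [dot] at h
    have key : ∀ a b : ℤ, 0 ≤ b → a * a + b = n → -(n : ℤ) ≤ a ∧ a ≤ n := by
      intro a b hb hab
      constructor
      · by_contra hc
        push Not at hc
        nlinarith [Int.natCast_nonneg n]
      · by_contra hc
        push Not at hc
        nlinarith [Int.natCast_nonneg n]
    have hx := key x (y * y + z * z) (add_nonneg (mul_self_nonneg _) (mul_self_nonneg _)) (by linarith)
    have hy := key y (x * x + z * z) (add_nonneg (mul_self_nonneg _) (mul_self_nonneg _)) (by linarith)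
    have hz := key z (x * x + y * y) (add_nonneg (mul_self_nonneg _) (mul_self_nonneg _)) (by linarith)
    simp only [Finset.mem_product, Finset.mem_Icc]
    exact ⟨hx, hy, hz⟩

theorem xd_iso (n : ℕ) (hs : Squarefree n) (v : T) (hv : dot v v = n) (p : ℕ)
    (hp : p ∈ n.primeFactors) : Iso p v := by
  have hpp : p.Prime := Nat.prime_of_mem_primeFactors hp
  have hpn : p ∣ n := Nat.dvd_of_mem_primeFactors hp
  refine ⟨?_, ?_⟩
  · rw [hv]
    exact_mod_cast hpn
  · rintro ⟨⟨a, ha⟩, ⟨b, hb⟩, ⟨c, hc⟩⟩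
    have h1 : (n : ℤ) = p * p * (a * a + b * b + c * c) := by
      rw [← hv]
      unfold dot
      rw [ha, hb, hc]
      ring
    have h2 : ((p * p : ℕ) : ℤ) ∣ (n : ℤ) := ⟨a * a + b * b + c * c, by push_cast; exact h1⟩
    have h3 : p * p ∣ n := by exact_mod_cast h2
    have h4 := hs p h3
    exact hpp.one_lt.ne' (Nat.isUnit_iff.1 h4)

theorem xd_two {n : ℕ} (hn : n % 2 = 1) {p : ℕ} (hp : p ∈ n.primeFactors) : p ≠ 2 := by
  rintro rfl
  have := Nat.dvd_of_mem_primeFactors hp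
  omega

/-- rotation by a quaternion whose norm is a square modulo `p` keeps the genus -/
theorem xd_ge {n : ℕ} (hs : Squarefree n) (hn : n % 2 = 1) {Om : Finset T} {w : T}
    (hOm : ∀ v ∈ Om, dot v v = n) (hw : dot w w = n) {v v' : T} (hv : v ∈ Ge n Om w)
    (hv' : v' ∈ Om) (h : ∀ p ∈ n.primeFactors, chi p v' v = 1) : v' ∈ Ge n Om w := by
  unfold Ge at hv ⊢
  rw [Finset.mem_filter] at hv ⊢
  refine ⟨hv', fun p hp => ?_⟩
  have : Fact p.Prime := ⟨Nat.prime_of_mem_primeFactors hp⟩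
  rw [← chi_trans (xd_two hn hp) (xd_iso n hs v' (hOm v' hv') p hp)
    (xd_iso n hs v (hOm v hv.1) p hp) (xd_iso n hs w hw p hp), h p hp, hv.2 p hp]
  norm_num

theorem xd_nd {p : ℕ} [Fact p.Prime] (hp2 : p ≠ 2) : ¬ (p : ℤ) ∣ 4 := by
  intro h
  have hp : Prime (p : ℤ) := Nat.prime_iff_prime_int.1 Fact.out
  have h4 : (p : ℤ) ∣ 2 * 2 := h
  rcases hp.dvd_or_dvd h4 with h6 | h6
  · exact two_nd hp2 h6
  · exact two_nd hp2 h6

theorem xd_four {p : ℕ} [Fact p.Prime] (hp2 : p ≠ 2) : jacobiSym 4 p = 1 := by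
  apply sq_sym 4 2
  · norm_num
  · exact xd_nd hp2

theorem xd_j2_neg (x : ℤ) : j2 (-x) = j2 x := by
  unfold j2
  have h1 : ((-x) % 8 = 1 ∨ (-x) % 8 = 7) ↔ (x % 8 = 1 ∨ x % 8 = 7) := by omega
  have h2 : ((-x) % 8 = 3 ∨ (-x) % 8 = 5) ↔ (x % 8 = 3 ∨ x % 8 = 5) := by omega
  simp only [h1, h2]

theorem xd_j2_pm (x : ℤ) (h : x % 2 = 1) : j2 x = 1 ∨ j2 x = -1 := by
  unfold j2
  by_cases h1 : x % 8 = 1 ∨ x % 8 = 7
  · simp [h1]
  · by_cases h2 : x % 8 = 3 ∨ x % 8 = 5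
    · simp [h1, h2]
    · omega

/-- all coordinates are odd -/
theorem xd_odd {x y z : ℤ} (h : x * y * z % 4 = 1) : x % 2 = 1 ∧ y % 2 = 1 ∧ z % 2 = 1 := by
  refine ⟨?_, ?_, ?_⟩
  · rcases Int.emod_two_eq_zero_or_one x with hx | hx
    · exfalso
      obtain ⟨k, hk⟩ : (2 : ℤ) ∣ x := Int.dvd_of_emod_eq_zero hx
      rw [hk, show 2 * k * y * z = 2 * (k * y * z) by ring] at h
      omega
    · exact hx
  · rcases Int.emod_two_eq_zero_or_one y with hx | hx
    · exfalso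
      obtain ⟨k, hk⟩ : (2 : ℤ) ∣ y := Int.dvd_of_emod_eq_zero hx
      rw [hk, show x * (2 * k) * z = 2 * (x * k * z) by ring] at h
      omega
    · exact hx
  · rcases Int.emod_two_eq_zero_or_one z with hx | hx
    · exfalso
      obtain ⟨k, hk⟩ : (2 : ℤ) ∣ z := Int.dvd_of_emod_eq_zero hx
      rw [hk, show x * y * (2 * k) = 2 * (x * y * k) by ring] at h
      omega
    · exact hx

theorem xd_mem (n : ℕ) (x y z : ℤ) :
    ((x, y, z) : T) ∈ OP n ↔ x * x + y * y + z * z = n ∧ x * y * z % 4 = 1 := by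
  unfold OP
  rw [Finset.mem_filter, xd_sph]
  simp only [dot]

/-- the negative weights in a genus, `n = 3 mod 8` -/
theorem XD (n : ℕ) (hs : Squarefree n) (h3 : n % 8 = 3) (w : T) (hw : w ∈ OP n) :
    8 ∣ ((Ge n (OP n) w).filter (fun v => w3 v = -1)).card := by
  have hn : n % 2 = 1 := by omega
  have hOm : ∀ v ∈ OP n, dot v v = n := by
    intro v hv
    unfold OP at hv
    rw [Finset.mem_filter, xd_sph] at hv
    exact hv.1
  have hww := hOm w hw
  have iso : ∀ v ∈ OP n, ∀ p ∈ n.primeFactors, Iso p v := fun v hv p hp =>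
    xd_iso n hs v (hOm v hv) p hp
  -- the maps
  have ge : ∀ v ∈ Ge n (OP n) w, v ∈ OP n := fun v hv => by
    unfold Ge at hv; exact (Finset.mem_filter.1 hv).1
  have m1 : ∀ x y z : ℤ, ((x, y, z) : T) ∈ Ge n (OP n) w → ((y, z, x) : T) ∈ Ge n (OP n) w := by
    intro x y z hv
    have hv0 := ge _ hv
    have hv1 := (xd_mem n x y z).1 hv0
    have hv' : ((y, z, x) : T) ∈ OP n := by
      rw [xd_mem]
      refine ⟨by linarith [hv1.1], ?_⟩
      rw [show y * z * x = x * y * z by ring]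
      exact hv1.2
    refine xd_ge hs hn hOm hww hv hv' (fun p hp => ?_)
    have : Fact p.Prime := ⟨Nat.prime_of_mem_primeFactors hp⟩
    rw [chi_rot (xd_two hn hp) (iso _ hv' p hp) (iso _ hv0 p hp) 1 1 1 1 4 (xd_nd (xd_two hn hp))
      (by ring) (by ring) (by ring)]
    exact xd_four (xd_two hn hp)
  have m2 : ∀ x y z : ℤ, ((x, y, z) : T) ∈ Ge n (OP n) w → ((z, x, y) : T) ∈ Ge n (OP n) w := by
    intro x y z hv
    exact m1 _ _ _ (m1 _ _ _ hv)
  have m3 : ∀ x y z : ℤ, ((x, y, z) : T) ∈ Ge n (OP n) w → ((x, -y, -z) : T) ∈ Ge n (OP n) w := by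
    intro x y z hv
    have hv0 := ge _ hv
    have hv1 := (xd_mem n x y z).1 hv0
    have hv' : ((x, -y, -z) : T) ∈ OP n := by
      rw [xd_mem]
      refine ⟨by linarith [hv1.1], ?_⟩
      rw [show x * (-y) * (-z) = x * y * z by ring]
      exact hv1.2
    refine xd_ge hs hn hOm hww hv hv' (fun p hp => ?_)
    have : Fact p.Prime := ⟨Nat.prime_of_mem_primeFactors hp⟩
    have hp1 : ¬ (p : ℤ) ∣ 1 := (Nat.prime_iff_prime_int.1 (Fact.out : p.Prime)).not_dvd_one
    rw [chi_rot (xd_two hn hp) (iso _ hv' p hp) (iso _ hv0 p hp) 0 1 0 0 1 hp1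
      (by ring) (by ring) (by ring)]
    exact jacobiSym.one_left p
  have m4 : ∀ x y z : ℤ, ((x, y, z) : T) ∈ Ge n (OP n) w → ((-x, -y, z) : T) ∈ Ge n (OP n) w := by
    intro x y z hv
    have h1 := m2 _ _ _ hv
    have h2 := m3 _ _ _ h1
    have h3 := m1 _ _ _ h2
    exact h3
  have odd : ∀ x y z : ℤ, ((x, y, z) : T) ∈ Ge n (OP n) w → x % 2 = 1 ∧ y % 2 = 1 ∧ z % 2 = 1 :=
    fun x y z hv => xd_odd ((xd_mem n x y z).1 (ge _ hv)).2
  have wt : ∀ x y z : ℤ, x % 2 = 1 → w3 ((x, y, z) : T) = j2 y * j2 z := by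
    intro x y z hx
    unfold w3
    simp only [hx, if_true]
  set S := (Ge n (OP n) w).filter (fun v => w3 v = -1) with hS
  have memS : ∀ x y z : ℤ, ((x, y, z) : T) ∈ S ↔
      ((x, y, z) : T) ∈ Ge n (OP n) w ∧ j2 y * j2 z = -1 := by
    intro x y z
    rw [hS, Finset.mem_filter]
    constructor
    · rintro ⟨h1, h2⟩
      exact ⟨h1, by rw [← wt x y z (odd x y z h1).1]; exact h2⟩
    · rintro ⟨h1, h2⟩
      exact ⟨h1, by rw [wt x y z (odd x y z h1).1]; exact h2⟩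
  have c1 : S.card = 2 * (S.filter (fun v : T => j2 v.1 = j2 v.2.1)).card := by
    apply xd_half S _ (fun v => (v.2.1, v.2.2, v.1)) (fun v => (v.2.2, v.1, v.2.1))
    · rintro ⟨x, y, z⟩ hv hP
      rw [memS] at hv
      obtain ⟨o1, o2, o3⟩ := odd x y z hv.1
      simp only at hP ⊢
      rw [memS]
      have h1 := hv.2
      refine and_assoc.2 ⟨m1 _ _ _ hv.1, ?_⟩
      rcases xd_j2_pm x o1 with a | a <;> rcases xd_j2_pm y o2 with b | b <;>
        rcases xd_j2_pm z o3 with c | c <;> rw [a, b] at hP <;> rw [b, c] at h1 <;>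
        rw [a, b, c] <;> revert h1 hP <;> norm_num
    · rintro ⟨x, y, z⟩ hv hP
      rw [memS] at hv
      obtain ⟨o1, o2, o3⟩ := odd x y z hv.1
      simp only at hP ⊢
      rw [memS]
      have h1 := hv.2
      refine and_assoc.2 ⟨m2 _ _ _ hv.1, ?_⟩
      rcases xd_j2_pm x o1 with a | a <;> rcases xd_j2_pm y o2 with b | b <;>
        rcases xd_j2_pm z o3 with c | c <;> rw [a, b] at hP <;> rw [b, c] at h1 <;>
        rw [a, b, c] <;> revert h1 hP <;> norm_num
    · rintro ⟨x, y, z⟩; rfl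
    · rintro ⟨x, y, z⟩; rfl
  set S1 := S.filter (fun v : T => j2 v.1 = j2 v.2.1) with hS1
  have memS1 : ∀ x y z : ℤ, ((x, y, z) : T) ∈ S1 ↔
      ((x, y, z) : T) ∈ Ge n (OP n) w ∧ j2 y * j2 z = -1 ∧ j2 x = j2 y := by
    intro x y z
    rw [hS1, Finset.mem_filter, memS]
    simp only
    tauto
  have c2 : S1.card = 2 * (S1.filter (fun v : T => 0 < v.1)).card := by
    apply xd_half S1 _ (fun v => (-v.1, -v.2.1, v.2.2)) (fun v => (-v.1, -v.2.1, v.2.2))
    · rintro ⟨x, y, z⟩ hv hP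
      rw [memS1] at hv
      simp only at hP ⊢
      rw [memS1, xd_j2_neg, xd_j2_neg]
      exact ⟨⟨m4 _ _ _ hv.1, hv.2⟩, by omega⟩
    · rintro ⟨x, y, z⟩ hv hP
      rw [memS1] at hv
      have := (odd x y z hv.1).1
      simp only at hP ⊢
      rw [memS1, xd_j2_neg, xd_j2_neg]
      exact ⟨⟨m4 _ _ _ hv.1, hv.2⟩, by omega⟩
    · rintro ⟨x, y, z⟩; simp
    · rintro ⟨x, y, z⟩; simp
  set S2 := S1.filter (fun v : T => 0 < v.1) with hS2
  have memS2 : ∀ x y z : ℤ, ((x, y, z) : T) ∈ S2 ↔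
      ((x, y, z) : T) ∈ Ge n (OP n) w ∧ (j2 y * j2 z = -1 ∧ j2 x = j2 y) ∧ 0 < x := by
    intro x y z
    rw [hS2, Finset.mem_filter, memS1]
    simp only
    tauto
  have c3 : S2.card = 2 * (S2.filter (fun v : T => 0 < v.2.1)).card := by
    apply xd_half S2 _ (fun v => (v.1, -v.2.1, -v.2.2)) (fun v => (v.1, -v.2.1, -v.2.2))
    · rintro ⟨x, y, z⟩ hv hP
      rw [memS2] at hv
      simp only at hP ⊢
      rw [memS2, xd_j2_neg, xd_j2_neg]
      exact ⟨⟨m3 _ _ _ hv.1, hv.2⟩, by omega⟩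
    · rintro ⟨x, y, z⟩ hv hP
      rw [memS2] at hv
      have := (odd x y z hv.1).2.1
      simp only at hP ⊢
      rw [memS2, xd_j2_neg, xd_j2_neg]
      exact ⟨⟨m3 _ _ _ hv.1, hv.2⟩, by omega⟩
    · rintro ⟨x, y, z⟩; simp
    · rintro ⟨x, y, z⟩; simp
  rw [c1, c2, c3]
  exact ⟨_, by ring⟩

end Pool.Agent.GNF
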