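import Pool.Agent.Lib_helper7.GNF.D2

set_option autoImplicit false

namespace Pool.Agent.GNF

open Finset Pool.Agent.GEN

theorem yd_half (S : Finset T) (P : T → Prop) [DecidablePred P] (f g : T → T)
    (hf : ∀ v ∈ S, P v → f v ∈ S ∧ ¬ P (f v)) (hg : ∀ v ∈ S, ¬ P v → g v ∈ S ∧ P (g v))
    (hgf : ∀ v, g (f v) = v) (hfg : ∀ v, f (g v) = v) :
    S.card = 2 * (S.filter P).card := by
  have h1 : (S.filter P).card = (S.filter (fun v => ¬ P v)).card := by
    apply Finset.card_bij' (fun v _ => f v) (fun v _ => g v)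
    · intro v hv
      rw [Finset.mem_filter] at hv ⊢
      exact hf v hv.1 hv.2
    · intro v hv
      rw [Finset.mem_filter] at hv ⊢
      exact hg v hv.1 hv.2
    · intro v _
      exact hgf v
    · intro v _
      exact hfg v
  have h2 := Finset.card_filter_add_card_filter_not (s := S) P
  omega

theorem yd_sph (n : ℕ) (v : T) : v ∈ sph n ↔ dot v v = n := by
  unfold sph
  rw [Finset.mem_filter]
  constructor
  · exact fun h => h.2
  · intro h
    refine ⟨?_, h⟩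
    obtain ⟨x, y, z⟩ := v
    simp only [dot] at h
    have key : ∀ a b : ℤ, 0 ≤ b → a * a + b = n → -(n : ℤ) ≤ a ∧ a ≤ n := by
      intro a b hb hab
      constructor
      · by_contra hc
        push Not at hc
        nlinarith [Int.natCast_nonneg n]
      · by_contra hc
        push Not at hc
        nlinarith [Int.natCast_nonneg n]
    have hx := key x (y * y + z * z) (add_nonneg (mul_self_nonneg _) (mul_self_nonneg _)) (by linarith)
    have hy := key y (x * x + z * z) (add_nonneg (mul_self_nonneg _) (mul_self_nonneg _)) (by linarith)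
    have hz := key z (x * x + y * y) (add_nonneg (mul_self_nonneg _) (mul_self_nonneg _)) (by linarith)
    simp only [Finset.mem_product, Finset.mem_Icc]
    exact ⟨hx, hy, hz⟩

theorem yd_iso (n : ℕ) (hs : Squarefree n) (v : T) (hv : dot v v = n) (p : ℕ)
    (hp : p ∈ n.primeFactors) : Iso p v := by
  have hpp : p.Prime := Nat.prime_of_mem_primeFactors hp
  have hpn : p ∣ n := Nat.dvd_of_mem_primeFactors hp
  refine ⟨?_, ?_⟩
  · rw [hv]
    exact_mod_cast hpn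
  · rintro ⟨⟨a, ha⟩, ⟨b, hb⟩, ⟨c, hc⟩⟩
    have h1 : (n : ℤ) = p * p * (a * a + b * b + c * c) := by
      rw [← hv]
      unfold dot
      rw [ha, hb, hc]
      ring
    have h2 : ((p * p : ℕ) : ℤ) ∣ (n : ℤ) := ⟨a * a + b * b + c * c, by push_cast; exact h1⟩
    have h3 : p * p ∣ n := by exact_mod_cast h2
    have h4 := hs p h3
    exact hpp.one_lt.ne' (Nat.isUnit_iff.1 h4)

theorem yd_two {n : ℕ} (hn : n % 2 = 1) {p : ℕ} (hp : p ∈ n.primeFactors) : p ≠ 2 := by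
  rintro rfl
  have := Nat.dvd_of_mem_primeFactors hp
  omega

theorem yd_ge {n : ℕ} (hs : Squarefree n) (hn : n % 2 = 1) {Om : Finset T} {w : T}
    (hOm : ∀ v ∈ Om, dot v v = n) (hw : dot w w = n) {v v' : T} (hv : v ∈ Ge n Om w)
    (hv' : v' ∈ Om) (h : ∀ p ∈ n.primeFactors, chi p v' v = 1) : v' ∈ Ge n Om w := by
  unfold Ge at hv ⊢
  rw [Finset.mem_filter] at hv ⊢
  refine ⟨hv', fun p hp => ?_⟩
  have : Fact p.Prime := ⟨Nat.prime_of_mem_primeFactors hp⟩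
  rw [← chi_trans (yd_two hn hp) (yd_iso n hs v' (hOm v' hv') p hp)
    (yd_iso n hs v (hOm v hv.1) p hp) (yd_iso n hs w hw p hp), h p hp, hv.2 p hp]
  norm_num

theorem yd_odd {n p : ℕ} (hn : n % 2 = 1) (hp : p ∈ n.primeFactors) : p % 2 = 1 := by
  have hpp := Nat.prime_of_mem_primeFactors hp
  rcases hpp.eq_two_or_odd with h | h
  · exact absurd h (yd_two hn hp)
  · exact h

theorem yd_j2 {p : ℕ} (hp : p % 8 = 1 ∨ p % 8 = 7) : jacobiSym 2 p = 1 := by
  have ho : Odd p := Nat.odd_iff.2 (by omega)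
  rw [jacobiSym.at_two ho, ZMod.χ₈_nat_eq_if_mod_eight, if_neg (by omega), if_pos hp]

theorem yd_jm2 {p : ℕ} (hp : p % 8 = 1 ∨ p % 8 = 3) : jacobiSym (-2) p = 1 := by
  have ho : Odd p := Nat.odd_iff.2 (by omega)
  rw [jacobiSym.at_neg_two ho, ZMod.χ₈'_nat_eq_if_mod_eight, if_neg (by omega), if_pos hp]

theorem yd_mem (n : ℕ) (x y z : ℤ) :
    ((x, y, z) : T) ∈ OQ n ↔ x * x + y * y + z * z = n ∧ x % 4 = 1 ∧ y % 4 = 0 ∧ z % 4 = 0 := by
  unfold OQ
  rw [Finset.mem_filter, yd_sph]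
  simp only [dot]

theorem yd_OQ (n : ℕ) (v : T) (hv : v ∈ OQ n) : dot v v = n := by
  unfold OQ at hv
  rw [Finset.mem_filter, yd_sph] at hv
  exact hv.1

theorem yd_Ge {n : ℕ} {Om : Finset T} {w v : T} (hv : v ∈ Ge n Om w) : v ∈ Om := by
  unfold Ge at hv
  exact (Finset.mem_filter.1 hv).1

theorem yd_neg {n : ℕ} (hs : Squarefree n) (h1 : n % 8 = 1) {w : T} (hw : w ∈ OQ n) (x y z : ℤ)
    (hv : ((x, y, z) : T) ∈ Ge n (OQ n) w) : ((x, -y, -z) : T) ∈ Ge n (OQ n) w := by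
  have hn : n % 2 = 1 := by omega
  have hv0 := yd_Ge hv
  have hv1 := (yd_mem n x y z).1 hv0
  have hv' : ((x, -y, -z) : T) ∈ OQ n := by
    rw [yd_mem]
    refine ⟨by linarith [hv1.1], hv1.2.1, ?_, ?_⟩
    · have := hv1.2.2.1
      omega
    · have := hv1.2.2.2
      omega
  refine yd_ge hs hn (yd_OQ n) (yd_OQ n w hw) hv hv' (fun p hp => ?_)
  have : Fact p.Prime := ⟨Nat.prime_of_mem_primeFactors hp⟩
  have hp1 : ¬ (p : ℤ) ∣ 1 := (Nat.prime_iff_prime_int.1 (Fact.out : p.Prime)).not_dvd_one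
  rw [chi_rot (yd_two hn hp) (yd_iso n hs _ (yd_OQ n _ hv') p hp) (yd_iso n hs _ (yd_OQ n _ hv0) p hp)
    0 1 0 0 1 hp1 (by ring) (by ring) (by ring)]
  exact jacobiSym.one_left p

theorem yd_w1 {n : ℕ} {w : T} (x y z : ℤ) (hv : ((x, y, z) : T) ∈ Ge n (OQ n) w) :
    w1 ((x, y, z) : T) = -1 ↔ (y % 8 = 4 ∧ z % 8 = 0) ∨ (y % 8 = 0 ∧ z % 8 = 4) := by
  obtain ⟨h0, h1, h2, h3⟩ := (yd_mem n x y z).1 (yd_Ge hv)
  have hx : x % 2 = 1 := by omega
  unfold w1
  simp only [hx, if_true]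
  have hy : y % 8 = 0 ∨ y % 8 = 4 := by omega
  have hz : z % 8 = 0 ∨ z % 8 = 4 := by omega
  rcases hy with hy | hy <;> rcases hz with hz | hz <;> simp [q4, hy, hz]

theorem yd_memS {n : ℕ} {w : T} (x y z : ℤ) :
    ((x, y, z) : T) ∈ (Ge n (OQ n) w).filter (fun v => w1 v = -1) ↔
      ((x, y, z) : T) ∈ Ge n (OQ n) w ∧
        ((y % 8 = 4 ∧ z % 8 = 0) ∨ (y % 8 = 0 ∧ z % 8 = 4)) := by
  rw [Finset.mem_filter]
  constructor
  · rintro ⟨h1, h2⟩
    exact ⟨h1, (yd_w1 x y z h1).1 h2⟩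
  · rintro ⟨h1, h2⟩
    exact ⟨h1, (yd_w1 x y z h1).2 h2⟩

/-- the negative weights in a genus, `n = 1 mod 8` -/
theorem YD (n : ℕ) (hs : Squarefree n) (h1 : n % 8 = 1) (w : T) (hw : w ∈ OQ n) :
    2 ∣ ((Ge n (OQ n) w).filter (fun v => w1 v = -1)).card := by
  rw [yd_half _ (fun v : T => (v.2.1 % 8 = 4 ∧ 0 < v.2.1) ∨ (v.2.2 % 8 = 4 ∧ 0 < v.2.2))
    (fun v => (v.1, -v.2.1, -v.2.2)) (fun v => (v.1, -v.2.1, -v.2.2))]
  · exact ⟨_, rfl⟩
  · rintro ⟨x, y, z⟩ hv hP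
    rw [yd_memS] at hv
    simp only at hP ⊢
    rw [yd_memS]
    refine ⟨⟨yd_neg hs h1 hw x y z hv.1, ?_⟩, ?_⟩
    · have := hv.2
      omega
    · have := hv.2
      omega
  · rintro ⟨x, y, z⟩ hv hP
    rw [yd_memS] at hv
    simp only at hP ⊢
    rw [yd_memS]
    refine ⟨⟨yd_neg hs h1 hw x y z hv.1, ?_⟩, ?_⟩
    · have := hv.2
      omega
    · have := hv.2
      omega
  · rintro ⟨x, y, z⟩; simp
  · rintro ⟨x, y, z⟩; simp

/-- halving by an exchange of the last two coordinates -/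
theorem yd_quarter {n : ℕ} (hs : Squarefree n) (h1 : n % 8 = 1) {w : T} (hw : w ∈ OQ n)
    (f g : T → T) (hgf : ∀ v, g (f v) = v) (hfg : ∀ v, f (g v) = v)
    (hf : ∀ x y z : ℤ, ((x, y, z) : T) ∈ Ge n (OQ n) w → f (x, y, z) ∈ Ge n (OQ n) w)
    (hg : ∀ x y z : ℤ, ((x, y, z) : T) ∈ Ge n (OQ n) w → g (x, y, z) ∈ Ge n (OQ n) w)
    (hf8 : ∀ x y z : ℤ, (y % 8 = 4 ∧ z % 8 = 0) →
      ((f (x, y, z)).2.1 % 8 = 0 ∧ (f (x, y, z)).2.2 % 8 = 4))
    (hg8 : ∀ x y z : ℤ, (y % 8 = 0 ∧ z % 8 = 4) →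
      ((g (x, y, z)).2.1 % 8 = 4 ∧ (g (x, y, z)).2.2 % 8 = 0)) :
    4 ∣ ((Ge n (OQ n) w).filter (fun v => w1 v = -1)).card := by
  rw [yd_half ((Ge n (OQ n) w).filter (fun v => w1 v = -1)) (fun v : T => v.2.1 % 8 = 4) f g]
  · rw [yd_half (((Ge n (OQ n) w).filter (fun v => w1 v = -1)).filter
      (fun v : T => v.2.1 % 8 = 4)) (fun v : T => 0 < v.2.1)
      (fun v => (v.1, -v.2.1, -v.2.2)) (fun v => (v.1, -v.2.1, -v.2.2))]
    · exact ⟨_, by ring⟩
    · rintro ⟨x, y, z⟩ hv hP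
      rw [Finset.mem_filter, yd_memS] at hv
      simp only at hv hP ⊢
      rw [Finset.mem_filter, yd_memS]
      have hv2 := hv.1.2
      have hv3 := hv.2
      refine ⟨⟨⟨yd_neg hs h1 hw x y z hv.1.1, ?_⟩, ?_⟩, ?_⟩
      · omega
      · simp only
        omega
      · omega
    · rintro ⟨x, y, z⟩ hv hP
      rw [Finset.mem_filter, yd_memS] at hv
      simp only at hv hP ⊢
      rw [Finset.mem_filter, yd_memS]
      have hv2 := hv.1.2
      have hv3 := hv.2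
      refine ⟨⟨⟨yd_neg hs h1 hw x y z hv.1.1, ?_⟩, ?_⟩, ?_⟩
      · omega
      · simp only
        omega
      · omega
    · rintro ⟨x, y, z⟩; simp
    · rintro ⟨x, y, z⟩; simp
  · rintro ⟨x, y, z⟩ hv hP
    rw [yd_memS] at hv
    simp only at hP
    have hv2 := hv.2
    have e := hf8 x y z (by omega)
    have e2 := hf x y z hv.1
    generalize f (x, y, z) = q at e e2 ⊢
    obtain ⟨x', y', z'⟩ := q
    simp only at e
    rw [yd_memS]
    refine ⟨⟨e2, Or.inr e⟩, ?_⟩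
    simp only
    omega
  · rintro ⟨x, y, z⟩ hv hP
    rw [yd_memS] at hv
    simp only at hP
    have hv2 := hv.2
    have e := hg8 x y z (by omega)
    have e2 := hg x y z hv.1
    generalize g (x, y, z) = q at e e2 ⊢
    obtain ⟨x', y', z'⟩ := q
    simp only at e
    rw [yd_memS]
    exact ⟨⟨e2, Or.inl e⟩, e.1⟩
  · exact hgf
  · exact hfg

theorem YD7 (n : ℕ) (hs : Squarefree n) (h1 : n % 8 = 1) (w : T) (hw : w ∈ OQ n)
    (h : ∀ p ∈ n.primeFactors, p % 8 = 1 ∨ p % 8 = 7) :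
    4 ∣ ((Ge n (OQ n) w).filter (fun v => w1 v = -1)).card := by
  have hn : n % 2 = 1 := by omega
  have m1 : ∀ x y z : ℤ, ((x, y, z) : T) ∈ Ge n (OQ n) w → ((x, -z, y) : T) ∈ Ge n (OQ n) w := by
    intro x y z hv
    have hv0 := yd_Ge hv
    have hv1 := (yd_mem n x y z).1 hv0
    have hv' : ((x, -z, y) : T) ∈ OQ n := by
      rw [yd_mem]
      refine ⟨by linarith [hv1.1], hv1.2.1, ?_, hv1.2.2.1⟩
      have := hv1.2.2.2
      omega
    refine yd_ge hs hn (yd_OQ n) (yd_OQ n w hw) hv hv' (fun p hp => ?_)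
    have : Fact p.Prime := ⟨Nat.prime_of_mem_primeFactors hp⟩
    rw [chi_rot (yd_two hn hp) (yd_iso n hs _ (yd_OQ n _ hv') p hp)
      (yd_iso n hs _ (yd_OQ n _ hv0) p hp) 1 (-1) 0 0 2 (two_nd (yd_two hn hp))
      (by ring) (by ring) (by ring)]
    exact yd_j2 (h p hp)
  have m2 : ∀ x y z : ℤ, ((x, y, z) : T) ∈ Ge n (OQ n) w → ((x, z, -y) : T) ∈ Ge n (OQ n) w := by
    intro x y z hv
    have := m1 _ _ _ (m1 _ _ _ (m1 _ _ _ hv))
    simpa using this
  apply yd_quarter hs h1 hw (fun v => (v.1, -v.2.2, v.2.1)) (fun v => (v.1, v.2.2, -v.2.1))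
  · rintro ⟨x, y, z⟩; simp
  · rintro ⟨x, y, z⟩; simp
  · exact m1
  · exact m2
  · intro x y z hh
    simp only
    omega
  · intro x y z hh
    simp only
    omega

theorem YD3 (n : ℕ) (hs : Squarefree n) (h1 : n % 8 = 1) (w : T) (hw : w ∈ OQ n)
    (h : ∀ p ∈ n.primeFactors, p % 8 = 1 ∨ p % 8 = 3) :
    4 ∣ ((Ge n (OQ n) w).filter (fun v => w1 v = -1)).card := by
  have hn : n % 2 = 1 := by omega
  have m1 : ∀ x y z : ℤ, ((x, y, z) : T) ∈ Ge n (OQ n) w → ((x, z, y) : T) ∈ Ge n (OQ n) w := by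
    intro x y z hv
    have hv0 := yd_Ge hv
    have hv1 := (yd_mem n x y z).1 hv0
    have hv' : ((x, z, y) : T) ∈ OQ n := by
      rw [yd_mem]
      exact ⟨by linarith [hv1.1], hv1.2.1, hv1.2.2.2, hv1.2.2.1⟩
    refine yd_ge hs hn (yd_OQ n) (yd_OQ n w hw) hv hv' (fun p hp => ?_)
    have : Fact p.Prime := ⟨Nat.prime_of_mem_primeFactors hp⟩
    have hpp : Prime (p : ℤ) := Nat.prime_iff_prime_int.1 Fact.out
    have i0 := yd_iso n hs _ (yd_OQ n _ hv0) p hp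
    have i1 := yd_iso n hs _ (yd_OQ n _ hv') p hp
    have hneg : dot ((-x, -z, -y) : T) (-x, -z, -y) = n := by
      have := yd_OQ n _ hv'
      unfold dot at this ⊢
      simp only at this ⊢
      linarith
    have i2 := yd_iso n hs ((-x, -z, -y) : T) hneg p hp
    rw [← chi_trans (yd_two hn hp) i1 i2 i0]
    have e1 : chi p ((x, z, y) : T) (-x, -z, -y) = jacobiSym (-1) p := by
      apply chi_deg i2
      · obtain ⟨c, hc⟩ := i2.1
        refine ⟨-c, ?_⟩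
        unfold dot at hc ⊢
        simp only at hc ⊢
        linarith
      · intro hd
        exact hpp.not_dvd_one ((dvd_neg.2 hd).trans (by norm_num))
      · simp
      · simp
    have e2 : chi p ((-x, -z, -y) : T) (x, y, z) = jacobiSym 2 p := by
      apply chi_rot (yd_two hn hp) i2 i0 0 0 1 (-1) 2 (two_nd (yd_two hn hp))
      · ring
      · ring
      · ring
    rw [e1, e2, ← jacobiSym.mul_left]
    exact yd_jm2 (h p hp)
  apply yd_quarter hs h1 hw (fun v => (v.1, v.2.2, v.2.1)) (fun v => (v.1, v.2.2, v.2.1))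
  · rintro ⟨x, y, z⟩; rfl
  · rintro ⟨x, y, z⟩; rfl
  · exact m1
  · exact m1
  · intro x y z hh
    simp only
    omega
  · intro x y z hh
    simp only
    omega

end Pool.Agent.GNF
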