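import Pool.Agent.Lib_helper7.GNF.D2
import Pool.Agent.Lib_helper7.GNF.P.XC
import Pool.Agent.Lib_helper7.GNF.P.XD
import Pool.Agent.Lib_helper7.GNF.P.YD
import Pool.Agent.Lib_helper7.GNF.P.EQ
import Pool.Agent.Lib_helper7.GNF.P.KG
import Pool.Agent.Lib_helper7.GNF.P.XA
import Pool.Agent.Lib_helper7.GNF.P.KA

set_option autoImplicit false

namespace Pool.Agent.GNF

open Finset Pool.Agent.GEN

/-- a sum of signs -/
theorem fin_sum (s : Finset T) (W : T → ℤ) (h : ∀ v ∈ s, W v = 1 ∨ W v = -1) :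
    ∑ v ∈ s, W v = s.card - 2 * ((s.filter (fun v => W v = -1)).card : ℤ) := by
  have h1 : ∀ v ∈ s, W v = 1 - 2 * (if W v = -1 then (1 : ℤ) else 0) := by
    intro v hv
    rcases h v hv with h2 | h2
    · rw [h2]; norm_num
    · rw [h2]; norm_num
  rw [Finset.sum_congr rfl h1, Finset.sum_sub_distrib, ← Finset.mul_sum, Finset.sum_boole]
  simp

theorem fin_w3 {n : ℕ} {v : T} (hv : v ∈ OP n) : w3 v = 1 ∨ w3 v = -1 := by
  have h := (Finset.mem_filter.1 hv).2
  have hodd : (v.1 * v.2.1 * v.2.2) % 2 = 1 := by omega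
  have h1 : Odd (v.1 * v.2.1 * v.2.2) := Int.odd_iff.2 hodd
  rw [Int.odd_mul, Int.odd_mul] at h1
  obtain ⟨⟨ha, hb⟩, hc⟩ := h1
  rw [Int.odd_iff] at ha hb hc
  have hj : ∀ x : ℤ, x % 2 = 1 → j2 x = 1 ∨ j2 x = -1 := by
    intro x hx
    unfold j2
    by_cases h1 : x % 8 = 1 ∨ x % 8 = 7
    · left; rw [if_pos h1]
    · right; rw [if_neg h1, if_pos (by omega)]
  unfold w3
  rw [if_pos ha]
  rcases hj _ hb with h2 | h2 <;> rcases hj _ hc with h3 | h3 <;> rw [h2, h3] <;> norm_num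

theorem fin_w1 {n : ℕ} {v : T} (hv : v ∈ OQ n) : w1 v = 1 ∨ w1 v = -1 := by
  obtain ⟨ha, hb, hc⟩ := (Finset.mem_filter.1 hv).2
  have hj : ∀ x : ℤ, x % 4 = 0 → q4 x = 1 ∨ q4 x = -1 := by
    intro x hx
    unfold q4
    by_cases h1 : x % 8 = 0
    · left; rw [if_pos h1]
    · right; rw [if_neg h1, if_pos (by omega)]
  unfold w1
  rw [if_pos (by omega)]
  rcases hj _ hb with h2 | h2 <;> rcases hj _ hc with h3 | h3 <;> rw [h2, h3] <;> norm_num

theorem fin_self {n : ℕ} {v : T} (hv : ∀ p ∈ n.primeFactors, Iso p v) :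
    ∀ p ∈ n.primeFactors, chi p v v = 1 := by
  intro p hp
  have : Fact p.Prime := ⟨Nat.prime_of_mem_primeFactors hp⟩
  exact chi_self (hv p hp)

theorem fin_pc {n : ℕ} (hn : 1 < n) : 1 ≤ n.primeFactors.card := by
  rw [Nat.one_le_iff_ne_zero, Ne, Finset.card_eq_zero, Nat.primeFactors_eq_empty]
  omega

/-- every genus, `n = 3 mod 8` -/
theorem FINw3 (n : ℕ) [NeZero n] (hs : Squarefree n) (h3 : n % 8 = 3) (w : T) (hw : w ∈ OP n) :
    (∑ d ∈ n.divisors.filter (fun d => d % 8 = 1), kap d w * tc d * tc (n / d)) ≡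
      8 * (Nat.card (ClassGroup (Zsqrtd (-(n : ℤ)))) : ℤ) [ZMOD 2 ^ (n.primeFactors.card + 4)] := by
  have hw3 : ∀ v ∈ Ge n (OP n) w, w3 v = 1 ∨ w3 v = -1 := fun v hv =>
    fin_w3 (Finset.mem_filter.1 hv).1
  rw [← XC n hs h3 w hw, fin_sum _ _ hw3]
  have hcard := EQ3 n hs h3 w hw (fun _ => 1) (fun _ => Or.inl rfl) (by simp)
  have hcard' : ((Ge n (OP n) w).card : ℤ) * 2 ^ (n.primeFactors.card - 1) =
      4 * (Nat.card (ClassGroup (Zsqrtd (-(n : ℤ)))) : ℤ) := by exact_mod_cast hcard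
  obtain ⟨m, hm⟩ := XD n hs h3 w hw
  obtain ⟨k, hk'⟩ := Nat.exists_eq_add_of_le (fin_pc (n := n) (by omega))
  rw [hk', Nat.add_sub_cancel_left] at hcard'
  rw [hk', hm, Int.modEq_iff_dvd]
  refine ⟨m, ?_⟩
  push_cast
  have e1 : (2 : ℤ) ^ (1 + k + 4) = 32 * 2 ^ k := by ring
  have e2 : (2 : ℤ) ^ (1 + k) = 2 * 2 ^ k := by ring
  rw [e1, e2]
  linear_combination (-2) * hcard'

theorem fin_one (n : ℕ) [NeZero n] (hn : 1 < n) (hs : Squarefree n) (h1 : n % 8 = 1) (w : T)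
    (hw : w ∈ OQ n) :
    (∑ d ∈ n.divisors.filter (fun d => d % 8 = 1), kap d w * tc d * tc (n / d)) =
      8 * (Nat.card (ClassGroup (Zsqrtd (-(n : ℤ)))) : ℤ) -
      2 ^ (n.primeFactors.card + 3) * (((Ge n (OQ n) w).filter (fun v => w1 v = -1)).card : ℤ) := by
  have hw1' : ∀ v ∈ Ge n (OQ n) w, w1 v = 1 ∨ w1 v = -1 := fun v hv =>
    fin_w1 (Finset.mem_filter.1 hv).1
  rw [← YC n hs h1 w hw, fin_sum _ _ hw1']
  have hcard := EQ1 n hn hs h1 w hw (fun _ => 1) (fun _ => Or.inl rfl) (by simp)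
  have hcard' : ((Ge n (OQ n) w).card : ℤ) * 2 ^ (n.primeFactors.card - 1) =
      (Nat.card (ClassGroup (Zsqrtd (-(n : ℤ)))) : ℤ) := by exact_mod_cast hcard
  obtain ⟨k, hk'⟩ := Nat.exists_eq_add_of_le (fin_pc hn)
  rw [hk', Nat.add_sub_cancel_left] at hcard'
  rw [hk']
  have e1 : (2 : ℤ) ^ (1 + k + 3) = 16 * 2 ^ k := by ring
  have e2 : (2 : ℤ) ^ (1 + k) = 2 * 2 ^ k := by ring
  rw [e1, e2]
  linear_combination 8 * hcard'

/-- every genus, `n = 1 mod 8` -/
theorem FINw1 (n : ℕ) [NeZero n] (hn : 1 < n) (hs : Squarefree n) (h1 : n % 8 = 1) (w : T)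
    (hw : w ∈ OQ n) :
    (∑ d ∈ n.divisors.filter (fun d => d % 8 = 1), kap d w * tc d * tc (n / d)) ≡
      8 * (Nat.card (ClassGroup (Zsqrtd (-(n : ℤ)))) : ℤ) [ZMOD 2 ^ (n.primeFactors.card + 4)] := by
  obtain ⟨m, hm⟩ := YD n hs h1 w hw
  rw [fin_one n hn hs h1 w hw, hm, Int.modEq_iff_dvd]
  refine ⟨m, ?_⟩
  push_cast
  ring

theorem FINw7 (n : ℕ) [NeZero n] (hn : 1 < n) (hs : Squarefree n) (h1 : n % 8 = 1) (w : T)
    (hw : w ∈ OQ n)
    (h : (∀ p ∈ n.primeFactors, p % 8 = 1 ∨ p % 8 = 7) ∨ (∀ p ∈ n.primeFactors, p % 8 = 1 ∨ p % 8 = 3)) :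
    (∑ d ∈ n.divisors.filter (fun d => d % 8 = 1), kap d w * tc d * tc (n / d)) ≡
      8 * (Nat.card (ClassGroup (Zsqrtd (-(n : ℤ)))) : ℤ) [ZMOD 2 ^ (n.primeFactors.card + 5)] := by
  obtain ⟨m, hm⟩ : 4 ∣ ((Ge n (OQ n) w).filter (fun v => w1 v = -1)).card := by
    rcases h with h | h
    · exact YD7 n hs h1 w hw h
    · exact YD3 n hs h1 w hw h
  rw [fin_one n hn hs h1 w hw, hm, Int.modEq_iff_dvd]
  refine ⟨m, ?_⟩
  push_cast
  ring

/-- `(-1)^(nu d) = d mod 4` -/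
theorem fin_nu (d : ℕ) (hs : Squarefree d) (h2 : d % 2 = 1) : ((d : ℕ) : ZMod 4) = (-1) ^ nu d := by
  have h1 : ∀ p ∈ d.primeFactors, ((p : ℕ) : ZMod 4) = if p % 4 = 3 then -1 else 1 := by
    intro p hp
    have hp2 : p % 2 = 1 := by
      obtain ⟨k, hk⟩ := Nat.dvd_of_mem_primeFactors hp
      rw [hk] at h2
      exact Nat.odd_iff.1 (Nat.odd_mul.1 (Nat.odd_iff.2 h2)).1
    have h3 : ((p : ℕ) : ZMod 4) = ((p % 4 : ℕ) : ZMod 4) := (ZMod.natCast_mod p 4).symm
    rw [h3]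
    rcases (by omega : p % 4 = 1 ∨ p % 4 = 3) with h | h
    · rw [h]; rfl
    · rw [h]; rfl
  conv_lhs => rw [← Nat.prod_primeFactors_of_squarefree hs]
  rw [Nat.cast_prod, Finset.prod_congr rfl h1, Finset.prod_ite, Finset.prod_const,
    Finset.prod_const_one, mul_one]
  rfl

theorem fin_even (d : ℕ) (hs : Squarefree d) (h2 : d % 4 = 1) : Even (nu d) := by
  by_contra h
  rw [Nat.not_even_iff_odd] at h
  have h1 := fin_nu d hs (by omega)
  rw [h.neg_one_pow, ← ZMod.natCast_mod d 4, h2] at h1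
  exact absurd h1 (by decide)

theorem fin_odd (d : ℕ) (hs : Squarefree d) (h2 : d % 4 = 3) : Odd (nu d) := by
  by_contra h
  rw [Nat.not_odd_iff_even] at h
  have h1 := fin_nu d hs (by omega)
  rw [h.neg_one_pow, ← ZMod.natCast_mod d 4, h2] at h1
  exact absurd h1 (by decide)

/-- correction at one prime -/
theorem fin_c1 (n p0 : ℕ) (d : ℕ) (hd : d ≠ 0) (hp : nu n % 4 = 2 → p0.Prime) :
    ∏ p ∈ d.primeFactors, (if nu n % 4 = 2 ∧ p = p0 then (-1 : ℤ) else 1) =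
      if nu n % 4 = 2 ∧ p0 ∣ d then -1 else 1 := by
  by_cases h : nu n % 4 = 2
  · simp only [h, true_and]
    rw [Finset.prod_ite_eq' d.primeFactors p0 (fun _ => (-1 : ℤ))]
    have : p0 ∈ d.primeFactors ↔ p0 ∣ d := by
      rw [Nat.mem_primeFactors]
      exact ⟨fun h1 => h1.2.1, fun h1 => ⟨hp h, h1, hd⟩⟩
    simp only [this]
  · simp [h]

/-- correction by `(-1/p)` -/
theorem fin_c2 (d : ℕ) :
    ∏ p ∈ d.primeFactors, (if p % 4 = 3 then (-1 : ℤ) else 1) = (-1) ^ nu d := by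
  rw [Finset.prod_ite, Finset.prod_const, Finset.prod_const_one, mul_one]
  rfl

theorem fin_sign {s : ℕ → ℤ} (hs : ∀ p, s p = 1 ∨ s p = -1) (P : Finset ℕ) :
    ∏ p ∈ P, s p = 1 ∨ ∏ p ∈ P, s p = -1 := by
  classical
  induction P using Finset.induction_on with
  | empty => left; rfl
  | insert a t ha ih =>
    rw [Finset.prod_insert ha]
    rcases hs a with h | h <;> rcases ih with h' | h' <;> rw [h, h'] <;> norm_num

/-- from a base vector and signs to a vector with prescribed characters -/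
theorem fin_pres (n : ℕ) (hs : Squarefree n) (v0 w : T)
    (hv0 : ∀ p ∈ n.primeFactors, Iso p v0) (hw : ∀ p ∈ n.primeFactors, Iso p w) (e' : ℕ → ℤ)
    (hwe : ∀ p ∈ n.primeFactors, chi p w v0 = e' p) (d : ℕ) (hd : d ∣ n) (h8 : d % 8 = 1) :
    kap d w = kap d v0 * ∏ p ∈ d.primeFactors, e' p := by
  have hsd : Squarefree d := hs.squarefree_of_dvd hd
  have hsub : d.primeFactors ⊆ n.primeFactors := Nat.primeFactors_mono hd hs.ne_zero
  have h1 := kap_mul d hsd h8 w v0 (fun p hp => hw p (hsub hp)) (fun p hp => hv0 p (hsub hp))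
  have h2 : ∏ p ∈ d.primeFactors, chi p w v0 = ∏ p ∈ d.primeFactors, e' p :=
    Finset.prod_congr rfl fun p hp => hwe p (hsub hp)
  rw [← h2, ← h1]
  rcases kap_pm d hsd h8 v0 (fun p hp => hv0 p (hsub hp)) with h | h <;>
    rw [h] <;> ring

/-- the genus with given signs -/
theorem FINg (n : ℕ) [NeZero n] (hn : 1 < n) (hs : Squarefree n) (h13 : n % 8 = 1 ∨ n % 8 = 3)
    (s : ℕ → ℤ) (hs1 : ∀ p, s p = 1 ∨ s p = -1)
    (hsn : n % 8 = 1 → ∏ p ∈ n.primeFactors, s p = (-1) ^ (nu n / 2)) :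
    ∃ w : T, (n % 8 = 3 → w ∈ OP n) ∧ (n % 8 = 1 → w ∈ OQ n) ∧ ∀ d, d ∣ n → d % 8 = 1 →
      kap d w = (-1) ^ (nu d / 2) * ∏ p ∈ d.primeFactors, s p := by
  have hp0 : n.minFac.Prime := Nat.minFac_prime (by omega)
  set p0 := n.minFac with hp0d
  have hp0n : nu n % 4 = 2 → p0.Prime ∧ p0 ∣ n := fun _ => ⟨hp0, Nat.minFac_dvd n⟩
  rcases h13 with h1 | h3
  · -- `n = 1 mod 8`
    have hI : ∀ v ∈ OQ n, ∀ p ∈ n.primeFactors, Iso p v := fun v hv p hp =>
      OP_iso n hs v (Finset.mem_filter.1 hv).1 p hp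
    obtain ⟨v0, hv0⟩ := OQ_nonempty n hs h1
    have hI0 := hI v0 hv0
    have hkn : kap n v0 = 1 := by
      obtain ⟨hsp, ha, hb, hc⟩ := Finset.mem_filter.1 hv0
      have hnrm : dot v0 v0 = n := (Finset.mem_filter.1 hsp).2
      rw [kap_self n hs h1 v0 hnrm, Pool.Agent.GEN.kap, if_neg (by omega)]
    obtain ⟨e, he, heP, hk⟩ := KG n p0 hs (Or.inl h1) hp0n v0 hI0 (fun _ => hkn)
    set c : ℕ → ℤ := fun p => if nu n % 4 = 2 ∧ p = p0 then (-1 : ℤ) else 1 with hc
    have hc1 : ∀ p, c p = 1 ∨ c p = -1 := by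
      intro p
      simp only [hc]
      split_ifs
      · right; rfl
      · left; rfl
    have he' : ∀ p, e p * s p * c p = 1 ∨ e p * s p * c p = -1 := by
      intro p
      rcases he p with h | h <;> rcases hs1 p with h' | h' <;> rcases hc1 p with h'' | h'' <;>
        rw [h, h', h''] <;> norm_num
    have hprod : ∏ p ∈ n.primeFactors, e p * s p * c p = 1 := by
      rw [Finset.prod_mul_distrib, Finset.prod_mul_distrib, heP, one_mul, hsn h1,
        fin_c1 n p0 n hs.ne_zero (fun _ => hp0)]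
      have hev := fin_even n hs (by omega)
      obtain ⟨m, hm⟩ := hev
      by_cases h4 : nu n % 4 = 2
      · rw [if_pos ⟨h4, Nat.minFac_dvd n⟩]
        have h5 : Odd (nu n / 2) := Nat.odd_iff.2 (by omega)
        rw [h5.neg_one_pow]
        norm_num
      · rw [if_neg (fun h => h4 h.1)]
        have h5 : Even (nu n / 2) := Nat.even_iff.2 (by omega)
        rw [h5.neg_one_pow]
        norm_num
    have hpos : 0 < Nat.card (ClassGroup (Zsqrtd (-(n : ℤ)))) := by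
      have h5 := EQ1 n hn hs h1 v0 hv0 (fun _ => 1) (fun _ => Or.inl rfl) (by simp)
      rw [← h5]
      exact Nat.mul_pos (Finset.card_pos.2 ⟨v0, Finset.mem_filter.2 ⟨hv0, fin_self hI0⟩⟩)
        (by positivity)
    obtain ⟨w, hwm⟩ :
        ((OQ n).filter (fun v => ∀ p ∈ n.primeFactors, chi p v v0 = e p * s p * c p)).Nonempty := by
      have h5 := EQ1 n hn hs h1 v0 hv0 (fun p => e p * s p * c p) he' hprod
      rw [← Finset.card_pos]
      rcases Nat.eq_zero_or_pos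
        ((OQ n).filter (fun v => ∀ p ∈ n.primeFactors, chi p v v0 = e p * s p * c p)).card with h0 | h0
      · rw [h0, zero_mul] at h5
        omega
      · exact h0
    rw [Finset.mem_filter] at hwm
    obtain ⟨hw, hwe⟩ := hwm
    refine ⟨w, fun h => by omega, fun _ => hw, fun d hd h8 => ?_⟩
    have hd0 : d ≠ 0 := by
      rintro rfl
      exact hs.ne_zero (zero_dvd_iff.1 hd)
    rw [fin_pres n hs v0 w hI0 (hI w hw) (fun p => e p * s p * c p) hwe d hd h8,
      Finset.prod_mul_distrib, Finset.prod_mul_distrib, fin_c1 n p0 d hd0 (fun _ => hp0)]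
    have h6 := hk d hd h8
    rw [sgd] at h6
    have h7 : (if nu n % 4 = 2 ∧ p0 ∣ d then (-1 : ℤ) else 1) *
      (if nu n % 4 = 2 ∧ p0 ∣ d then (-1 : ℤ) else 1) = 1 := by split_ifs <;> norm_num
    calc kap d v0 * (((∏ p ∈ d.primeFactors, e p) * ∏ p ∈ d.primeFactors, s p) *
          (if nu n % 4 = 2 ∧ p0 ∣ d then (-1 : ℤ) else 1))
        = (kap d v0 * ∏ p ∈ d.primeFactors, e p) * (∏ p ∈ d.primeFactors, s p) *
          (if nu n % 4 = 2 ∧ p0 ∣ d then (-1 : ℤ) else 1) := by ring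
      _ = (-1) ^ (nu d / 2) * (∏ p ∈ d.primeFactors, s p) *
          ((if nu n % 4 = 2 ∧ p0 ∣ d then (-1 : ℤ) else 1) *
            (if nu n % 4 = 2 ∧ p0 ∣ d then (-1 : ℤ) else 1)) := by rw [h6]; ring
      _ = (-1) ^ (nu d / 2) * ∏ p ∈ d.primeFactors, s p := by rw [h7, mul_one]
  · -- `n = 3 mod 8`
    have hI : ∀ v ∈ OP n, ∀ p ∈ n.primeFactors, Iso p v := fun v hv p hp =>
      OP_iso n hs v (Finset.mem_filter.1 hv).1 p hp
    obtain ⟨v0, hv0⟩ := OP_nonempty n hs h3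
    have hI0 := hI v0 hv0
    obtain ⟨e, he, heP, hk⟩ := KG n p0 hs (Or.inr h3) hp0n v0 hI0 (fun h => by omega)
    have hodd := fin_odd n hs (by omega)
    have hnu : ¬ nu n % 4 = 2 := by
      rw [Nat.odd_iff] at hodd
      omega
    set c : ℕ → ℤ := fun p => if ∏ p ∈ n.primeFactors, s p = 1 then 1 else
      (if p % 4 = 3 then (-1 : ℤ) else 1) with hc
    have hc1 : ∀ p, c p = 1 ∨ c p = -1 := by
      intro p
      simp only [hc]
      split_ifs
      · left; rfl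
      · right; rfl
      · left; rfl
    have he' : ∀ p, e p * s p * c p = 1 ∨ e p * s p * c p = -1 := by
      intro p
      rcases he p with h | h <;> rcases hs1 p with h' | h' <;> rcases hc1 p with h'' | h'' <;>
        rw [h, h', h''] <;> norm_num
    have hcd : ∀ d, d ∣ n → ∏ p ∈ d.primeFactors, c p =
        if ∏ p ∈ n.primeFactors, s p = 1 then 1 else (-1) ^ nu d := by
      intro d _
      simp only [hc]
      split_ifs with h
      · exact Finset.prod_const_one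
      · exact fin_c2 d
    have hprod : ∏ p ∈ n.primeFactors, e p * s p * c p = 1 := by
      rw [Finset.prod_mul_distrib, Finset.prod_mul_distrib, heP, one_mul, hcd n dvd_rfl]
      split_ifs with h
      · rw [h]; norm_num
      · rw [(fin_sign hs1 n.primeFactors).resolve_left h, hodd.neg_one_pow]
        norm_num
    have hpos : 0 < Nat.card (ClassGroup (Zsqrtd (-(n : ℤ)))) := by
      have h1 := EQ3 n hs h3 v0 hv0 (fun _ => 1) (fun _ => Or.inl rfl) (by simp)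
      have h2 : 0 < ((OP n).filter (fun v => ∀ p ∈ n.primeFactors, chi p v v0 = 1)).card :=
        Finset.card_pos.2 ⟨v0, Finset.mem_filter.2 ⟨hv0, fin_self hI0⟩⟩
      have h3' : 0 < ((OP n).filter (fun v => ∀ p ∈ n.primeFactors, chi p v v0 = 1)).card *
        2 ^ (n.primeFactors.card - 1) := Nat.mul_pos h2 (by positivity)
      omega
    obtain ⟨w, hwm⟩ :
        ((OP n).filter (fun v => ∀ p ∈ n.primeFactors, chi p v v0 = e p * s p * c p)).Nonempty := by
      have h5 := EQ3 n hs h3 v0 hv0 (fun p => e p * s p * c p) he' hprod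
      rw [← Finset.card_pos]
      rcases Nat.eq_zero_or_pos
        ((OP n).filter (fun v => ∀ p ∈ n.primeFactors, chi p v v0 = e p * s p * c p)).card with h0 | h0
      · rw [h0, zero_mul] at h5
        omega
      · exact h0
    rw [Finset.mem_filter] at hwm
    obtain ⟨hw, hwe⟩ := hwm
    refine ⟨w, fun _ => hw, fun h => by omega, fun d hd h8 => ?_⟩
    have hev := fin_even d (hs.squarefree_of_dvd hd) (by omega)
    have h1 : ∏ p ∈ d.primeFactors, c p = 1 := by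
      rw [hcd d hd, hev.neg_one_pow]
      split_ifs <;> rfl
    rw [fin_pres n hs v0 w hI0 (hI w hw) (fun p => e p * s p * c p) hwe d hd h8,
      Finset.prod_mul_distrib, Finset.prod_mul_distrib, h1, mul_one, ← mul_assoc, hk d hd h8, sgd,
      if_neg (fun h => hnu h.1), mul_one]

end Pool.Agent.GNF
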