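import Pool.Agent.Lib_helper7.GNF.D2
import Pool.Agent.Lib_helper7.GNF.P.FIN

set_option autoImplicit false

namespace Pool.Agent.GNF

open Finset Pool.Agent.GEN

/-- the sum over the divisors `1 mod 8` with the signs `s` -/
noncomputable def Ss (n : ℕ) (s : ℕ → ℤ) : ℤ :=
  ∑ d ∈ n.divisors.filter (fun d => d % 8 = 1),
    (-1) ^ (nu d / 2) * (∏ p ∈ d.primeFactors, s p) * tc d * tc (n / d)

/-- **the genus formula** -/
theorem GF (n : ℕ) [NeZero n] (hn : 1 < n) (hs : Squarefree n) (h13 : n % 8 = 1 ∨ n % 8 = 3)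
    (s : ℕ → ℤ) (hs1 : ∀ p, s p = 1 ∨ s p = -1)
    (hsn : n % 8 = 1 → ∏ p ∈ n.primeFactors, s p = (-1) ^ (nu n / 2)) :
    Ss n s ≡ 8 * (Nat.card (ClassGroup (Zsqrtd (-(n : ℤ)))) : ℤ)
      [ZMOD 2 ^ (n.primeFactors.card + 4)] := by
  obtain ⟨w, h3, h1, hw⟩ := FINg n hn hs h13 s hs1 hsn
  have hS : Ss n s = ∑ d ∈ n.divisors.filter (fun d => d % 8 = 1), kap d w * tc d * tc (n / d) := by
    unfold Ss
    refine Finset.sum_congr rfl fun d hd => ?_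
    rw [Finset.mem_filter, Nat.mem_divisors] at hd
    rw [hw d hd.1.1 hd.2]
  rw [hS]
  rcases h13 with h | h
  · exact FINw1 n hn hs h w (h1 h)
  · exact FINw3 n hs h w (h3 h)

theorem GF7 (n : ℕ) [NeZero n] (hn : 1 < n) (hs : Squarefree n) (h1 : n % 8 = 1)
    (s : ℕ → ℤ) (hs1 : ∀ p, s p = 1 ∨ s p = -1)
    (hsn : ∏ p ∈ n.primeFactors, s p = (-1) ^ (nu n / 2))
    (h : (∀ p ∈ n.primeFactors, p % 8 = 1 ∨ p % 8 = 7) ∨ (∀ p ∈ n.primeFactors, p % 8 = 1 ∨ p % 8 = 3)) :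
    Ss n s ≡ 8 * (Nat.card (ClassGroup (Zsqrtd (-(n : ℤ)))) : ℤ)
      [ZMOD 2 ^ (n.primeFactors.card + 5)] := by
  obtain ⟨w, h3, h1', hw⟩ := FINg n hn hs (Or.inl h1) s hs1 (fun _ => hsn)
  have hS : Ss n s = ∑ d ∈ n.divisors.filter (fun d => d % 8 = 1), kap d w * tc d * tc (n / d) := by
    unfold Ss
    refine Finset.sum_congr rfl fun d hd => ?_
    rw [Finset.mem_filter, Nat.mem_divisors] at hd
    rw [hw d hd.1.1 hd.2]
  rw [hS]
  exact FINw7 n hn hs h1 w (h1' h1) h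

end Pool.Agent.GNF
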