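import Pool.Agent.Lib_helper7.GNF.D3
import Pool.Agent.Lib_helper7.TUN.Count

set_option autoImplicit false

namespace Pool.Agent.GNF

open Finset Pool.Agent.GEN
open scoped Real

/-- the solutions of `y² + c s² + 16 t² = n` in a box -/
noncomputable def re_F (c : ℤ) (n L : ℕ) : Finset T :=
  (Ico (-(L : ℤ)) L ×ˢ Ico (-(L : ℤ)) L ×ˢ Ico (-(L : ℤ)) L).filter
    (fun v => v.1 ^ 2 + c * v.2.1 ^ 2 + 16 * v.2.2 ^ 2 = n)

theorem re_Q (c : ℤ) (n L : ℕ) (a : ℤ → ℤ) :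
    TUN.Q c 16 n L a (fun _ => 1) = ∑ v ∈ re_F c n L, a v.2.1 := by
  unfold TUN.Q re_F
  rw [sum_filter, sum_product]
  refine sum_congr rfl fun y _ => ?_
  rw [sum_product]
  refine sum_congr rfl fun s _ => sum_congr rfl fun t _ => ?_
  simp only [mul_one]

theorem re_bd {y n : ℤ} {L : ℕ} (hL : 2 * n + 3 ≤ L) (h : y ^ 2 ≤ n) :
    y ∈ Ico (-(L : ℤ)) L := by
  have h1 : |y| < L := by
    by_contra hc
    push Not at hc
    have := TUN.sq_lt_of y n L hL hc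
    linarith
  rw [abs_lt] at h1
  exact mem_Ico.2 ⟨h1.1.le, h1.2⟩

theorem re_mem {c : ℤ} (hc : 0 ≤ c) {n L : ℕ} (hL : 2 * n + 3 ≤ L) (v : T) :
    v ∈ re_F c n L ↔ v.1 ^ 2 + c * v.2.1 ^ 2 + 16 * v.2.2 ^ 2 = n ∧
      v.2.1 ∈ Ico (-(L : ℤ)) L := by
  unfold re_F
  rw [mem_filter, mem_product, mem_product]
  constructor
  · rintro ⟨⟨-, h2, -⟩, h4⟩
    exact ⟨h4, h2⟩
  · rintro ⟨h, h2⟩
    have hL' : 2 * (n : ℤ) + 3 ≤ L := by exact_mod_cast hL
    have h3 := mul_nonneg hc (sq_nonneg v.2.1)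
    refine ⟨⟨re_bd hL' ?_, h2, re_bd hL' ?_⟩, h⟩
    · nlinarith [sq_nonneg v.2.2]
    · nlinarith [sq_nonneg v.1, sq_nonneg v.2.2]

theorem re_mem' {c : ℤ} (hc : 1 ≤ c) {n L : ℕ} (hL : 2 * n + 3 ≤ L) (v : T) :
    v ∈ re_F c n L ↔ v.1 ^ 2 + c * v.2.1 ^ 2 + 16 * v.2.2 ^ 2 = n := by
  rw [re_mem (by linarith) hL]
  refine ⟨fun h => h.1, fun h => ⟨h, re_bd (n := (n : ℤ)) (by exact_mod_cast hL) ?_⟩⟩
  nlinarith [sq_nonneg v.1, sq_nonneg v.2.1, sq_nonneg v.2.2]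

/-- odd squares -/
theorem re_sq (k : ℤ) : ∃ m : ℤ, (2 * k + 1) ^ 2 = 8 * m + 1 := by
  obtain ⟨m, hm⟩ := Int.even_mul_succ_self k
  refine ⟨m, ?_⟩
  linear_combination 4 * hm

/-- solutions of `4x² + y² + 8z² = n` have `x` even -/
theorem re_even {n : ℕ} (h : n % 8 = 1) {x y z : ℤ} (hx : 4 * x ^ 2 + y ^ 2 + 8 * z ^ 2 = n) :
    ∃ t, x = 2 * t := by
  rcases Int.even_or_odd' y with ⟨k, rfl | rfl⟩
  · exfalso
    have h1 : 2 * (2 * x ^ 2 + 2 * k ^ 2 + 4 * z ^ 2) = (n : ℤ) := by rw [← hx]; ring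
    generalize 2 * x ^ 2 + 2 * k ^ 2 + 4 * z ^ 2 = u at h1
    omega
  · obtain ⟨m, hm⟩ := re_sq k
    rcases Int.even_or_odd' x with ⟨t, rfl | rfl⟩
    · exact ⟨t, rfl⟩
    · exfalso
      obtain ⟨l, hl⟩ := re_sq t
      rw [hm, hl] at hx
      generalize z ^ 2 = u at hx
      omega

theorem re_odd {n : ℕ} (h : n % 8 = 1) {y s t : ℤ} (hx : y ^ 2 + 16 * s ^ 2 + 16 * t ^ 2 = n) :
    y % 2 = 1 := by
  by_contra hc
  obtain ⟨k, rfl⟩ : ∃ k, y = 2 * k := ⟨y / 2, by omega⟩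
  have h1 : 2 * (2 * k ^ 2 + 8 * s ^ 2 + 8 * t ^ 2) = (n : ℤ) := by rw [← hx]; ring
  generalize 2 * k ^ 2 + 8 * s ^ 2 + 8 * t ^ 2 = u at h1
  omega

theorem re_D {n : ℕ} (h : n % 8 = 1) {L : ℕ} (hL : 2 * n + 3 ≤ L) :
    (N9003ba20.D (2 * n)).ncard = (re_F 8 n L).card := by
  have h1 : N9003ba20.D (2 * n) = (fun v : T => ((2 * v.2.2, v.1, v.2.1) : T)) ''
      (re_F 8 n L : Set T) := by
    ext ⟨x, y, z⟩
    constructor
    · intro hx
      have h2 : 4 * x ^ 2 + y ^ 2 + 8 * z ^ 2 = (n : ℤ) := by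
        have h3 : ((2 * n : ℕ) : ℤ) = 8 * x ^ 2 + 2 * y ^ 2 + 16 * z ^ 2 := hx
        push_cast at h3
        linarith
      obtain ⟨t, rfl⟩ := re_even h h2
      refine ⟨(y, z, t), ?_, rfl⟩
      rw [mem_coe, re_mem' (by norm_num) hL]
      dsimp only
      linarith
    · rintro ⟨⟨y', z', t⟩, hv, he⟩
      rw [mem_coe, re_mem' (by norm_num) hL] at hv
      dsimp only at hv he
      obtain ⟨rfl, rfl, rfl⟩ : 2 * t = x ∧ y' = y ∧ z' = z := by
        simpa [Prod.ext_iff] using he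
      show ((2 * n : ℕ) : ℤ) = 8 * (2 * t) ^ 2 + 2 * y' ^ 2 + 16 * z' ^ 2
      push_cast
      linarith
  rw [h1, Set.ncard_image_of_injective, Set.ncard_coe_finset]
  rintro ⟨a, b, c⟩ ⟨a', b', c'⟩ he
  simp only [Prod.mk.injEq] at he
  obtain ⟨e1, e2, e3⟩ := he
  have e4 : c = c' := by omega
  rw [e2, e3, e4]

theorem re_C {n : ℕ} (h : n % 8 = 1) {L : ℕ} (hL : 2 * n + 3 ≤ L) :
    (N9003ba20.C (2 * n)).ncard = ((re_F 8 n L).filter (fun v => v.2.1 % 2 = 0)).card := by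
  have h1 : N9003ba20.C (2 * n) = (fun v : T => ((2 * v.2.2, v.1, v.2.1 / 2) : T)) ''
      (((re_F 8 n L).filter (fun v => v.2.1 % 2 = 0) : Finset T) : Set T) := by
    ext ⟨x, y, z⟩
    constructor
    · intro hx
      have h2 : 4 * x ^ 2 + y ^ 2 + 8 * (2 * z) ^ 2 = (n : ℤ) := by
        have h3 : ((2 * n : ℕ) : ℤ) = 8 * x ^ 2 + 2 * y ^ 2 + 64 * z ^ 2 := hx
        push_cast at h3
        linarith
      obtain ⟨t, rfl⟩ := re_even h h2
      refine ⟨(y, 2 * z, t), ?_, ?_⟩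
      · rw [mem_coe, mem_filter, re_mem' (by norm_num) hL]
        dsimp only
        exact ⟨by linarith, by omega⟩
      · simp only [Prod.mk.injEq, true_and]
        omega
    · rintro ⟨⟨y', z', t⟩, hv, he⟩
      rw [mem_coe, mem_filter, re_mem' (by norm_num) hL] at hv
      dsimp only at hv he
      obtain ⟨hv, hz⟩ := hv
      obtain ⟨w, rfl⟩ : ∃ w, z' = 2 * w := ⟨z' / 2, by omega⟩
      have hw : 2 * w / 2 = w := by omega
      rw [hw] at he
      obtain ⟨rfl, rfl, rfl⟩ : 2 * t = x ∧ y' = y ∧ w = z := by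
        simpa [Prod.ext_iff] using he
      show ((2 * n : ℕ) : ℤ) = 8 * (2 * t) ^ 2 + 2 * y' ^ 2 + 64 * w ^ 2
      push_cast
      linarith
  rw [h1, Set.InjOn.ncard_image, Set.ncard_coe_finset]
  rintro ⟨a, b, c⟩ hv ⟨a', b', c'⟩ hv' he
  rw [mem_coe, mem_filter] at hv hv'
  simp only [Prod.mk.injEq] at he
  obtain ⟨e1, e2, e3⟩ := he
  have e4 : c = c' := by omega
  have h5 := hv.2
  have h6 := hv'.2
  dsimp only at h5 h6
  have e5 : b = b' := by omega
  rw [e2, e4, e5]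

theorem re_ce {n : ℕ} (h : n % 8 = 1) {L : ℕ} (hL : 2 * n + 3 ≤ L) :
    ce n = ∑ v ∈ re_F 8 n L, TUN.sg v.2.1 := by
  unfold ce
  rw [re_D h hL, re_C h hL, card_filter, card_eq_sum_ones]
  push_cast
  rw [mul_sum, ← sum_sub_distrib]
  refine sum_congr rfl fun v _ => ?_
  unfold TUN.sg
  split_ifs <;> norm_num

theorem re_cb {n : ℕ} (h : n % 8 = 1) {L : ℕ} (hL : 2 * n + 3 ≤ L) :
    cb n = ∑ v ∈ re_F 16 n L, TUN.sg v.2.1 := by
  unfold cb
  symm
  refine sum_of_injOn (fun v : T => ((v.1, 4 * v.2.1, 4 * v.2.2) : T)) ?_ ?_ ?_ ?_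
  · rintro ⟨a, b, c⟩ - ⟨a', b', c'⟩ - he
    simp only [Prod.mk.injEq] at he
    obtain ⟨e1, e2, e3⟩ := he
    have e4 : b = b' := by omega
    have e5 : c = c' := by omega
    rw [e1, e4, e5]
  · rintro ⟨a, b, c⟩ hv
    rw [mem_coe, re_mem' (by norm_num) hL] at hv
    dsimp only at hv
    rw [mem_coe]
    unfold sph
    rw [mem_filter, mem_product, mem_product, mem_Icc, mem_Icc, mem_Icc]
    have hb : ∀ y : ℤ, y ^ 2 ≤ n → -(n : ℤ) ≤ y ∧ y ≤ n := by
      intro y hy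
      have hy1 : |y| ≤ n := by
        by_contra hc
        push Not at hc
        have h1 : |y| * |y| = y ^ 2 := by rw [← abs_mul, abs_of_nonneg (mul_self_nonneg y)]; ring
        have h2 : (1 : ℤ) ≤ |y| := by
          have : (0 : ℤ) ≤ n := Int.natCast_nonneg n
          omega
        nlinarith
      exact abs_le.1 hy1
    have h1 : (4 * b) ^ 2 = 16 * b ^ 2 := by ring
    have h2 : (4 * c) ^ 2 = 16 * c ^ 2 := by ring
    refine ⟨⟨hb _ ?_, hb _ ?_, hb _ ?_⟩, ?_⟩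
    · nlinarith [sq_nonneg b, sq_nonneg c]
    · dsimp only
      rw [h1]
      nlinarith [sq_nonneg a, sq_nonneg c]
    · dsimp only
      rw [h2]
      nlinarith [sq_nonneg a, sq_nonneg b]
    · unfold dot
      dsimp only
      linarith
  · rintro ⟨a, b, c⟩ hv hn
    by_contra hne
    apply hn
    unfold wb q4 at hne
    dsimp only at hne
    unfold sph at hv
    have hd : a * a + b * b + c * c = n := (mem_filter.1 hv).2
    split_ifs at hne with h1 h2 h3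
    · refine ⟨(a, b / 4, c / 4), ?_, ?_⟩
      · rw [mem_coe, re_mem' (by norm_num) hL]
        dsimp only
        have e1 : 16 * (b / 4) ^ 2 = b * b := by
          obtain ⟨w, rfl⟩ : ∃ w, b = 4 * w := ⟨b / 4, by omega⟩
          have : 4 * w / 4 = w := by omega
          rw [this]
          ring
        have e2 : 16 * (c / 4) ^ 2 = c * c := by
          obtain ⟨w, rfl⟩ : ∃ w, c = 4 * w := ⟨c / 4, by omega⟩
          have : 4 * w / 4 = w := by omega
          rw [this]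
          ring
        rw [e1, e2, ← hd]
        ring
      · simp only [Prod.mk.injEq, true_and]
        omega
    · refine ⟨(a, b / 4, c / 4), ?_, ?_⟩
      · rw [mem_coe, re_mem' (by norm_num) hL]
        dsimp only
        have e1 : 16 * (b / 4) ^ 2 = b * b := by
          obtain ⟨w, rfl⟩ : ∃ w, b = 4 * w := ⟨b / 4, by omega⟩
          have : 4 * w / 4 = w := by omega
          rw [this]
          ring
        have e2 : 16 * (c / 4) ^ 2 = c * c := by
          obtain ⟨w, rfl⟩ : ∃ w, c = 4 * w := ⟨c / 4, by omega⟩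
          have : 4 * w / 4 = w := by omega
          rw [this]
          ring
        rw [e1, e2, ← hd]
        ring
      · simp only [Prod.mk.injEq, true_and]
        omega
    · exact (hne rfl).elim
    · exact (hne rfl).elim
  · rintro ⟨a, b, c⟩ hv
    rw [re_mem' (by norm_num) hL] at hv
    dsimp only at hv
    have h1 := re_odd h hv
    show TUN.sg b = wb (a, 4 * b, 4 * c)
    unfold wb q4 TUN.sg
    dsimp only
    have h2 : 4 * c % 4 = 0 := by omega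
    rw [if_pos (show a % 2 = 1 ∧ 4 * c % 4 = 0 from ⟨h1, h2⟩)]
    split_ifs <;> omega

/-- Tunnell's number of `2n` as a sum over the vectors of norm `n` (Hecke's identity) -/
theorem RE (n : ℕ) (h : n % 8 = 1) : ce n = sn n * cb n := by
  rw [re_ce h le_rfl, re_cb h le_rfl, ← re_Q, ← re_Q]
  have h1 : (n : ℤ) % 8 = 1 := by exact_mod_cast h
  have h2 := TUN.Z_left (n : ℤ) h1 (2 * n + 3) (by push_cast; exact le_rfl) (fun _ => 1)
  rw [h2]
  congr 1
  unfold TUN.sig sn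
  have h3 : (n : ℤ) % 16 = 1 ↔ n % 16 = 1 := by omega
  simp only [h3]

end Pool.Agent.GNF
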