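import Pool.Agent.Lib_helper7.GNF.D3

set_option autoImplicit false

namespace Pool.Agent.GNF

open Finset Pool.Agent.GEN
open scoped Real

open UpperHalfPlane ModularForm SlashInvariantForm MatrixGroups Manifold in
/-- the product over the functions -/
theorem ga_prod {ι : Type} [Fintype ι] (σ ρ : ι → ι) (bS : Function.Bijective σ)
    (bT : Function.Bijective ρ) (r : ι → ℂ → ℂ) (hol : ∀ i, DifferentiableOn ℂ (r i) {τ | 0 < τ.im})
    (hS : ∀ i τ, 0 < τ.im → r i (-1 / τ) = r (σ i) τ)
    (hT : ∀ i τ, 0 < τ.im → r i (τ + 1) = r (ρ i) τ)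
    (hb : ∀ i, ∃ C Y : ℝ, ∀ τ : ℂ, Y ≤ τ.im → ‖r i τ‖ ≤ C) (X : ℂ) :
    ∃ c : ℂ, ∀ τ : ℂ, 0 < τ.im → ∏ i, (X - r i τ) = c := by
  set F : ℍ → ℂ := fun τ => ∏ i, (X - r i τ) with hF
  have h1 : F ∣[(0 : ℤ)] ModularGroup.S = F := by
    funext z
    rw [ModularForm.SL_slash_apply]
    have e : ((ModularGroup.S • z : ℍ) : ℂ) = -1 / (z : ℂ) := by
      rw [modular_S_smul]
      show (-(z : ℂ))⁻¹ = _
      rw [inv_neg, neg_div, one_div]
    simp only [neg_zero, zpow_zero, mul_one, hF, e]
    rw [← Function.Bijective.prod_comp bS (fun i => X - r i (z : ℂ))]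
    exact Finset.prod_congr rfl fun i _ => by rw [hS i z z.im_pos]
  have h2 : F ∣[(0 : ℤ)] ModularGroup.T = F := by
    funext z
    rw [ModularForm.SL_slash_apply]
    have e : ((ModularGroup.T • z : ℍ) : ℂ) = (z : ℂ) + 1 := by
      rw [modular_T_smul, coe_vadd]
      push_cast
      ring
    simp only [neg_zero, zpow_zero, mul_one, hF, e]
    rw [← Function.Bijective.prod_comp bT (fun i => X - r i (z : ℂ))]
    exact Finset.prod_congr rfl fun i _ => by rw [hT i z z.im_pos]
  have h3 : IsBoundedAtImInfty F := by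
    choose C Y hCY using hb
    rw [isBoundedAtImInfty_iff]
    refine ⟨∏ i, (‖X‖ + C i), ∑ i, |Y i|, fun z hz => ?_⟩
    simp only [hF, norm_prod]
    refine Finset.prod_le_prod (fun i _ => norm_nonneg _) fun i _ => ?_
    refine (norm_sub_le _ _).trans ?_
    have := hCY i z (le_trans (le_trans (le_abs_self _)
      (Finset.single_le_sum (f := fun i => |Y i|) (fun i _ => abs_nonneg _) (Finset.mem_univ i))) hz)
    linarith
  let f : ModularForm 𝒮ℒ 0 :=
    { toFun := F
      slash_action_eq' := by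
        rintro A ⟨A, rfl⟩
        exact slash_action_generators_SL2Z h1 h2 A
      holo' := by
        rw [UpperHalfPlane.mdifferentiable_iff]
        have : DifferentiableOn ℂ (fun τ => ∏ i, (X - r i τ)) {τ | 0 < τ.im} :=
          DifferentiableOn.fun_finsetProd fun i _ => (differentiableOn_const X).sub (hol i)
        refine this.congr fun z hz => ?_
        simp [hF, ofComplex_apply_of_im_pos hz]
      bdd_at_cusps' := by
        intro c hc
        rw [OnePoint.isBoundedAt_iff_forall_SL2Z hc]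
        intro γ _
        show IsBoundedAtImInfty (F ∣[(0 : ℤ)] γ)
        rw [slash_action_generators_SL2Z h1 h2]
        exact h3 }
  obtain ⟨c, hc⟩ := ModularFormClass.levelOne_weight_zero_const f
  refine ⟨c, fun τ hτ => ?_⟩
  exact congrFun hc ⟨τ, hτ⟩

/-- functions on the upper half plane which are permuted by the modular group and bounded at the
cusp are constant (any finite family) -/
theorem GA {ι : Type} [Fintype ι] (σ τ : ι → ι) (hσ : Function.Bijective σ)
    (hτ : Function.Bijective τ) (r : ι → ℂ → ℂ)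
    (hol : ∀ i, DifferentiableOn ℂ (r i) {z | 0 < z.im})
    (hS : ∀ i z, 0 < z.im → r i (-1 / z) = r (σ i) z)
    (hT : ∀ i z, 0 < z.im → r i (z + 1) = r (τ i) z)
    (hb : ∀ i, ∃ C Y : ℝ, ∀ z : ℂ, Y ≤ z.im → ‖r i z‖ ≤ C) (i : ι) :
    ∃ c : ℂ, ∀ z : ℂ, 0 < z.im → r i z = c := by
  have hpc : IsPreconnected {τ : ℂ | 0 < τ.im} :=
    (convex_halfSpace_im_gt 0).isPreconnected
  have hfin : (Set.range fun j => r j Complex.I).Finite := Set.finite_range _
  have hm : Set.MapsTo (r i) {τ : ℂ | 0 < τ.im} (Set.range fun j => r j Complex.I) := by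
    intro z hz
    obtain ⟨c, hc⟩ := ga_prod σ τ hσ hτ r hol hS hT hb (r i z)
    have e1 := hc z hz
    have e2 := hc Complex.I (by simp)
    rw [Finset.prod_eq_zero (Finset.mem_univ i) (sub_self _)] at e1
    rw [← e1, Finset.prod_eq_zero_iff] at e2
    obtain ⟨j, -, hj⟩ := e2
    exact ⟨j, (sub_eq_zero.1 hj).symm⟩
  refine ⟨r i Complex.I, fun z hz => ?_⟩
  exact hpc.constant_of_mapsTo hfin.isDiscrete (hol i).continuousOn hm hz
    (show (0 : ℝ) < Complex.I.im by simp)

end Pool.Agent.GNF
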