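import Pool.Agent.Lib_helper7.GNF.D3

set_option autoImplicit false

namespace Pool.Agent.GNF

open Finset Pool.Agent.GEN
open scoped Real

section
open scoped MatrixGroups Manifold

/-- the discriminant under `S` -/
theorem gb_dS (z : UpperHalfPlane) : ModularForm.discriminant (ModularGroup.S • z) =
    (z : ℂ) ^ 12 * ModularForm.discriminant z := by
  have h := congrFun ModularForm.discriminant_S_invariant z
  rw [ModularForm.SL_slash_apply, ModularGroup.denom_S] at h
  have hz : (z : ℂ) ≠ 0 := z.ne_zero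
  have e : (z : ℂ) ^ (-12 : ℤ) = ((z : ℂ) ^ 12)⁻¹ := by
    rw [zpow_neg, zpow_ofNat]
  rw [e] at h
  rw [← h]
  field_simp

/-- the discriminant under `T` -/
theorem gb_dT (z : UpperHalfPlane) : ModularForm.discriminant (ModularGroup.T • z) =
    ModularForm.discriminant z := by
  have h := congrFun ModularForm.discriminant_T_invariant z
  rw [ModularForm.SL_slash_apply] at h
  have hd : UpperHalfPlane.denom (ModularGroup.T : Matrix.SpecialLinearGroup (Fin 2) ℤ) z = 1 := by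
    rw [ModularGroup.denom_apply]
    simp [ModularGroup.T]
  rw [hd] at h
  simpa using h

/-- the quotient -/
noncomputable def gb_f (K : ℕ) (P : ℂ → ℂ) (z : UpperHalfPlane) : ℂ :=
  P z / ModularForm.discriminant z ^ K

theorem gb_slash (K : ℕ) (P : ℂ → ℂ)
    (hS : ∀ z : ℂ, 0 < z.im → P (-1 / z) = z ^ (12 * K) * P z)
    (hT : ∀ z : ℂ, 0 < z.im → P (z + 1) = P z) (γ : Matrix.SpecialLinearGroup (Fin 2) ℤ) :
    SlashAction.map (0 : ℤ) γ (gb_f K P) = gb_f K P := by
  apply SlashInvariantForm.slash_action_generators_SL2Z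
  · ext z
    rw [ModularForm.SL_slash_apply]
    unfold gb_f
    rw [gb_dS]
    have hz : (z : ℂ) ≠ 0 := z.ne_zero
    have e : ((ModularGroup.S • z : UpperHalfPlane) : ℂ) = -1 / z := by
      rw [UpperHalfPlane.modular_S_smul]
      simp [neg_div, inv_neg]
    rw [e, hS _ z.im_pos]
    have hd := ModularForm.discriminant_ne_zero z
    simp only [neg_zero, zpow_zero, mul_one]
    rw [mul_pow, ← pow_mul]
    rw [mul_div_mul_left _ _ (pow_ne_zero _ hz)]
  · ext z
    rw [ModularForm.SL_slash_apply]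
    unfold gb_f
    rw [gb_dT]
    have e : ((ModularGroup.T • z : UpperHalfPlane) : ℂ) = z + 1 := by
      rw [UpperHalfPlane.modular_T_smul]
      simp [add_comm]
    rw [e, hT _ z.im_pos]
    simp

theorem gb_hol (K : ℕ) (P : ℂ → ℂ) (hol : DifferentiableOn ℂ P {z | 0 < z.im}) :
    MDifferentiable 𝓘(ℂ) 𝓘(ℂ) (gb_f K P) := by
  rw [UpperHalfPlane.mdifferentiable_iff]
  have h : DifferentiableOn ℂ (fun z => P z / (ModularForm.eta z ^ 24) ^ K) {z | 0 < z.im} := by
    refine hol.div (DifferentiableOn.pow (fun z hz => ?_) K) (fun z hz => ?_)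
    · exact ((ModularForm.differentiableAt_eta_of_mem_upperHalfPlaneSet hz).pow 24).differentiableWithinAt
    · exact pow_ne_zero _ (pow_ne_zero _ (ModularForm.eta_ne_zero hz))
  refine h.congr fun z hz => ?_
  simp [gb_f, ModularForm.discriminant, UpperHalfPlane.ofComplex_apply_of_im_pos hz]

theorem gb_bdd (K : ℕ) (P : ℂ → ℂ)
    (hb : ∃ C : ℝ, ∀ z : ℂ, 1 ≤ z.im → ‖P z‖ ≤ C * Real.exp (-2 * π * K * z.im)) :
    UpperHalfPlane.IsBoundedAtImInfty (gb_f K P) := by
  obtain ⟨C, hC⟩ := hb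
  obtain ⟨c, hc⟩ := ModularForm.exp_isBigO_discriminant.bound
  rw [UpperHalfPlane.isBoundedAtImInfty_iff]
  rw [Filter.eventually_iff_exists_mem] at hc
  obtain ⟨U, hU, hc⟩ := hc
  rw [UpperHalfPlane.atImInfty_mem] at hU
  obtain ⟨A, hA⟩ := hU
  refine ⟨|C| * |c| ^ K, max A 1, fun z hz => ?_⟩
  have h1 := hc z (hA z ((le_max_left _ _).trans hz))
  have h2 := hC z ((le_max_right _ _).trans hz)
  have hd := ModularForm.discriminant_ne_zero z
  unfold gb_f
  rw [norm_div, norm_pow, div_le_iff₀ (pow_pos (norm_pos_iff.mpr hd) K)]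
  rw [Real.norm_of_nonneg (Real.exp_pos _).le] at h1
  have h3 : Real.exp (-2 * π * z.im) ≤ |c| * ‖ModularForm.discriminant z‖ :=
    h1.trans (mul_le_mul_of_nonneg_right (le_abs_self c) (norm_nonneg _))
  have h4 : Real.exp (-2 * π * K * z.im) = Real.exp (-2 * π * z.im) ^ K := by
    rw [← Real.exp_nat_mul]
    congr 1
    ring
  calc ‖P z‖ ≤ C * Real.exp (-2 * π * K * (z : ℂ).im) := h2
    _ ≤ |C| * Real.exp (-2 * π * K * (z : ℂ).im) :=
        mul_le_mul_of_nonneg_right (le_abs_self C) (Real.exp_pos _).le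
    _ = |C| * Real.exp (-2 * π * z.im) ^ K := by
        rw [← h4]
        rfl
    _ ≤ |C| * (|c| * ‖ModularForm.discriminant z‖) ^ K :=
        mul_le_mul_of_nonneg_left (pow_le_pow_left₀ (Real.exp_pos _).le h3 K) (abs_nonneg _)
    _ = _ := by rw [mul_pow]; ring

/-- a modular form of weight `12K` which vanishes to the order `K` at the cusp has no zeros -/
theorem gb_main (K : ℕ) (P : ℂ → ℂ) (hol : DifferentiableOn ℂ P {z | 0 < z.im})
    (hS : ∀ z : ℂ, 0 < z.im → P (-1 / z) = z ^ (12 * K) * P z)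
    (hT : ∀ z : ℂ, 0 < z.im → P (z + 1) = P z)
    (hb : ∃ C : ℝ, ∀ z : ℂ, 1 ≤ z.im → ‖P z‖ ≤ C * Real.exp (-2 * π * K * z.im))
    (h0 : ∃ z : ℂ, 0 < z.im ∧ P z ≠ 0) (z : ℂ) (hz : 0 < z.im) : P z ≠ 0 := by
  let f : ModularForm 𝒮ℒ 0 :=
    { toFun := gb_f K P
      slash_action_eq' := fun _ ⟨γ, hγ⟩ => hγ ▸ gb_slash K P hS hT γ
      holo' := gb_hol K P hol
      bdd_at_cusps' := by
        intro c hc
        rw [Subgroup.IsArithmetic.isCusp_iff_isCusp_SL2Z] at hc
        rw [OnePoint.isBoundedAt_iff_forall_SL2Z hc]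
        intro γ _
        rw [gb_slash K P hS hT γ]
        exact gb_bdd K P hb }
  obtain ⟨c, hc⟩ := ModularFormClass.levelOne_weight_zero_const f
  have h1 : ∀ z : UpperHalfPlane, P z = c * ModularForm.discriminant z ^ K := by
    intro z
    have h := congrFun hc z
    have hd := ModularForm.discriminant_ne_zero z
    have h' : gb_f K P z = c := h
    unfold gb_f at h'
    rw [div_eq_iff (pow_ne_zero _ hd)] at h'
    exact h'
  obtain ⟨σ, hσ, hP⟩ := h0
  have hc0 : c ≠ 0 := by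
    rintro rfl
    exact hP (by simpa using h1 ⟨σ, hσ⟩)
  have := h1 ⟨z, hz⟩
  intro h0
  have h2 : (0 : ℂ) = c * ModularForm.discriminant ⟨z, hz⟩ ^ K := by
    rw [← this]
    exact h0.symm
  exact mul_ne_zero hc0 (pow_ne_zero _ (ModularForm.discriminant_ne_zero _)) h2.symm

end

/-- a modular form of weight `12K` which vanishes to the order `K` at the cusp has no zeros -/
theorem GB (K : ℕ) (P : ℂ → ℂ) (hol : DifferentiableOn ℂ P {z | 0 < z.im})
    (hS : ∀ z : ℂ, 0 < z.im → P (-1 / z) = z ^ (12 * K) * P z)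
    (hT : ∀ z : ℂ, 0 < z.im → P (z + 1) = P z)
    (hb : ∃ C : ℝ, ∀ z : ℂ, 1 ≤ z.im → ‖P z‖ ≤ C * Real.exp (-2 * π * K * z.im))
    (h0 : ∃ z : ℂ, 0 < z.im ∧ P z ≠ 0) (z : ℂ) (hz : 0 < z.im) : P z ≠ 0 :=
  gb_main K P hol hS hT hb h0 z hz

end Pool.Agent.GNF
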