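import Pool.Agent.Lib_helper7.GNF.D3
import Pool.Agent.Lib_helper7.GNF.P.GA
import Pool.Agent.Lib_helper7.GNF.P.GB

set_option autoImplicit false

namespace Pool.Agent.GNF

open Finset Pool.Agent.GEN
open scoped Real

theorem gc_im {τ : ℂ} (hτ : 0 < τ.im) : 0 < (-1 / τ).im := by
  have hne : τ ≠ 0 := by
    rintro rfl
    simp at hτ
  rw [neg_div, Complex.neg_im, one_div, Complex.inv_im, neg_div, neg_neg]
  exact div_pos hτ (Complex.normSq_pos.2 hne)

theorem gc_im' {τ : ℂ} (hτ : 0 < τ.im) : 0 < (τ + 1).im := by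
  rw [Complex.add_im, Complex.one_im, add_zero]
  exact hτ

theorem gc_J {τ : ℂ} (hτ : 0 < τ.im) : J τ ≠ 0 := by
  have hne : τ ≠ 0 := by
    rintro rfl
    simp at hτ
  unfold J
  rw [Ne, Complex.cpow_eq_zero_iff]
  intro h
  have h1 := h.1
  rw [neg_mul, neg_eq_zero, mul_eq_zero] at h1
  rcases h1 with h1 | h1
  · exact Complex.I_ne_zero h1
  · exact hne h1

theorem gc_Jp (K : ℕ) (τ : ℂ) : ((J τ ^ 3) ^ K) ^ 8 = τ ^ (12 * K) := by
  have h1 : J τ ^ 2 = -Complex.I * τ := by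
    unfold J
    rw [← Complex.cpow_nat_mul]
    norm_num
  have h2 : ((J τ ^ 3) ^ K) ^ 8 = ((J τ ^ 2) ^ 12) ^ K := by
    rw [← pow_mul, ← pow_mul, ← pow_mul, ← pow_mul]
    congr 1
    ring
  rw [h2, h1, mul_pow]
  have h3 : (-Complex.I) ^ 12 = 1 := by
    have h4 : (-Complex.I) ^ 2 = -1 := by rw [neg_sq, Complex.I_sq]
    have h5 : (-Complex.I) ^ 12 = ((-Complex.I) ^ 2) ^ 6 := by rw [← pow_mul]
    rw [h5, h4]
    norm_num
  rw [h3, one_mul, ← pow_mul]

/-- the size of the exponential -/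
theorem gc_exp (n : ℕ) (τ : ℂ) : ‖Complex.exp (-(π * Complex.I * n * τ / 16))‖ =
    Real.exp (π * n * τ.im / 16) := by
  rw [Complex.norm_exp]
  congr 1
  have h : -(π * Complex.I * n * τ / 16) = ((-(π * n / 16) : ℝ) : ℂ) * (Complex.I * τ) := by
    push_cast
    ring
  rw [h, Complex.re_ofReal_mul]
  simp only [Complex.mul_re, Complex.I_re, Complex.I_im, zero_mul, one_mul, zero_sub]
  ring

/-- lower bound near the cusp -/
theorem gc_low {g : ℂ → ℂ} {n : ℕ} (hL : ∃ L : ℂ, L ≠ 0 ∧ ∀ e : ℝ, 0 < e → ∃ Y : ℝ, ∀ τ : ℂ,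
    Y ≤ τ.im → ‖g τ * Complex.exp (-(π * Complex.I * n * τ / 16)) - L‖ ≤ e) :
    ∃ (a : ℝ) (Y : ℝ), 0 < a ∧ ∀ τ : ℂ, Y ≤ τ.im → a * Real.exp (-π * n * τ.im / 16) ≤ ‖g τ‖ := by
  obtain ⟨L, hL0, hL1⟩ := hL
  have hpos : 0 < ‖L‖ / 2 := by
    have := norm_pos_iff.2 hL0
    linarith
  obtain ⟨Y, hY⟩ := hL1 _ hpos
  refine ⟨‖L‖ / 2, Y, hpos, fun τ hτ => ?_⟩
  have h1 := hY τ hτ
  have h2 : ‖L‖ - ‖g τ * Complex.exp (-(π * Complex.I * n * τ / 16))‖ ≤
      ‖g τ * Complex.exp (-(π * Complex.I * n * τ / 16)) - L‖ := by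
    rw [← norm_neg (g τ * Complex.exp (-(π * Complex.I * n * τ / 16)) - L), neg_sub]
    exact norm_sub_norm_le _ _
  rw [norm_mul, gc_exp] at h2
  have h3 : ‖L‖ / 2 ≤ ‖g τ‖ * Real.exp (π * n * τ.im / 16) := by linarith
  have h4 : Real.exp (π * n * τ.im / 16) * Real.exp (-π * n * τ.im / 16) = 1 := by
    rw [← Real.exp_add]
    have : π * n * τ.im / 16 + -π * n * τ.im / 16 = 0 := by ring
    rw [this, Real.exp_zero]
  calc ‖L‖ / 2 * Real.exp (-π * n * τ.im / 16)
      ≤ ‖g τ‖ * Real.exp (π * n * τ.im / 16) * Real.exp (-π * n * τ.im / 16) :=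
        mul_le_mul_of_nonneg_right h3 (Real.exp_pos _).le
    _ = ‖g τ‖ := by rw [mul_assoc, h4, mul_one]

/-- the base system has no zeros -/
theorem gc_ne {ι : Type} [Fintype ι] (σ τ : ι → ι) (hσ : Function.Bijective σ)
    (hτ : Function.Bijective τ) (a b : ι → ℂ) (o : ι → ℕ)
    (ho : ∑ i, o i = 4 * Fintype.card ι) (h : ι → ℂ → ℂ) (H : SysG h σ τ a b o)
    (hpa : (∏ i, a i) ^ 8 = 1) (hpb : (∏ i, b i) ^ 8 = 1)
    (hL : ∀ i, ∃ L : ℂ, L ≠ 0 ∧ ∀ e : ℝ, 0 < e → ∃ Y : ℝ, ∀ z : ℂ, Y ≤ z.im →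
      ‖h i z * Complex.exp (-(π * Complex.I * o i * z / 16)) - L‖ ≤ e) (i : ι) (z : ℂ)
    (hz : 0 < z.im) : h i z ≠ 0 := by
  have key : ∀ z : ℂ, 0 < z.im → (∏ i, h i z) ^ 8 ≠ 0 := by
    intro z hz
    refine GB (Fintype.card ι) (fun z => (∏ i, h i z) ^ 8) ?_ ?_ ?_ ?_ ?_ z hz
    · exact (DifferentiableOn.fun_finsetProd fun i _ => H.hol i).pow 8
    · intro z hz
      show (∏ i, h i (-1 / z)) ^ 8 = z ^ (12 * Fintype.card ι) * (∏ i, h i z) ^ 8
      have h1 : ∏ i, h i (-1 / z) = (∏ i, a i) * (J z ^ 3) ^ Fintype.card ι * ∏ i, h i z := by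
        simp only [H.S _ z hz]
        rw [prod_mul_distrib, prod_mul_distrib, prod_const, card_univ,
          hσ.prod_comp (fun i => h i z)]
      rw [h1, mul_pow, mul_pow, hpa, one_mul, gc_Jp]
    · intro z hz
      show (∏ i, h i (z + 1)) ^ 8 = (∏ i, h i z) ^ 8
      have h1 : ∏ i, h i (z + 1) = (∏ i, b i) * ∏ i, h i z := by
        simp only [H.T _ z hz]
        rw [prod_mul_distrib, hτ.prod_comp (fun i => h i z)]
      rw [h1, mul_pow, hpb, one_mul]
    · choose C hC using H.bd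
      refine ⟨(∏ i, C i) ^ 8, fun z hz => ?_⟩
      show ‖(∏ i, h i z) ^ 8‖ ≤ _
      rw [norm_pow, norm_prod]
      have h1 : ∏ i, ‖h i z‖ ≤ ∏ i, (C i * Real.exp (-π * o i * z.im / 16)) :=
        prod_le_prod (fun i _ => norm_nonneg _) (fun i _ => hC i z hz)
      have h2 : ∏ i, (C i * Real.exp (-π * o i * z.im / 16)) =
          (∏ i, C i) * Real.exp (-π * (4 * Fintype.card ι) * z.im / 16) := by
        rw [prod_mul_distrib, ← Real.exp_sum]
        congr 2
        have h3 : (4 * (Fintype.card ι : ℝ)) = ∑ i, (o i : ℝ) := by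
          rw [← Nat.cast_sum, ho]
          push_cast
          ring
        rw [h3, ← Finset.sum_div, ← Finset.sum_mul, ← Finset.mul_sum]
      calc (∏ i, ‖h i z‖) ^ 8 ≤
          ((∏ i, C i) * Real.exp (-π * (4 * Fintype.card ι) * z.im / 16)) ^ 8 := by
            rw [← h2]
            exact pow_le_pow_left₀ (prod_nonneg fun i _ => norm_nonneg _) h1 8
        _ = (∏ i, C i) ^ 8 * Real.exp (-2 * π * Fintype.card ι * z.im) := by
            rw [mul_pow, ← Real.exp_nat_mul]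
            congr 2
            push_cast
            ring
    · have hlow := fun i => gc_low (hL i)
      choose a Y ha hY using hlow
      have hsup : ∃ y : ℝ, 0 < y ∧ ∀ i, Y i ≤ y := by
        refine ⟨1 + ∑ i, |Y i|, ?_, fun i => ?_⟩
        · have := sum_nonneg (fun i (_ : i ∈ (univ : Finset ι)) => abs_nonneg (Y i))
          linarith
        · have h1 := single_le_sum (fun i _ => abs_nonneg (Y i)) (mem_univ i)
          have h2 := le_abs_self (Y i)
          linarith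
      obtain ⟨y, hy0, hy⟩ := hsup
      have him : (Complex.I * (y : ℂ)).im = y := by simp
      refine ⟨Complex.I * y, by rw [him]; exact hy0, ?_⟩
      show (∏ i, h i (Complex.I * y)) ^ 8 ≠ 0
      apply pow_ne_zero
      rw [prod_ne_zero_iff]
      intro i _
      have h1 := hY i (Complex.I * y) (by rw [him]; exact hy i)
      have h2 : 0 < a i * Real.exp (-π * o i * (Complex.I * (y : ℂ)).im / 16) :=
        mul_pos (ha i) (Real.exp_pos _)
      exact norm_pos_iff.1 (lt_of_lt_of_le h2 h1)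
  have h1 := key z hz
  have h2 : ∏ i, h i z ≠ 0 := by
    intro h0
    rw [h0] at h1
    exact h1 (by norm_num)
  exact prod_ne_zero_iff.1 h2 i (mem_univ i)

/-- a continuous function on a connected set whose power is constant is constant -/
theorem gc_const {U : Set ℂ} (hU : IsPreconnected U) {g : ℂ → ℂ} (hg : ContinuousOn g U) {k : ℕ}
    (hk : 0 < k) {c : ℂ} (hc : ∀ z ∈ U, g z ^ k = c) : ∃ κ : ℂ, ∀ z ∈ U, g z = κ := by
  rcases U.eq_empty_or_nonempty with hE | ⟨z₀, hz₀⟩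
  · exact ⟨0, fun z hz => by rw [hE] at hz; exact absurd hz (Set.notMem_empty z)⟩
  have hfin : ({x : ℂ | x ^ k = c}).Finite := by
    refine Set.Finite.subset ((Polynomial.nthRoots k c).toFinset.finite_toSet) fun x hx => ?_
    rw [Finset.mem_coe, Multiset.mem_toFinset, Polynomial.mem_nthRoots hk]
    exact hx
  refine ⟨g z₀, fun z hz => ?_⟩
  exact hU.constant_of_mapsTo (T := {x : ℂ | x ^ k = c}) hfin.isDiscrete hg
    (fun w hw => hc w hw) hz hz₀

/-- two systems with the same orders are proportional, function by function -/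
theorem GC {ι : Type} [Fintype ι] (σ τ : ι → ι) (hσ : Function.Bijective σ)
    (hτ : Function.Bijective τ) (a b a' b' : ι → ℂ) (o : ι → ℕ)
    (ho : ∑ i, o i = 4 * Fintype.card ι) (h f : ι → ℂ → ℂ) (H : SysG h σ τ a b o)
    (H' : SysG f σ τ a' b' o) (k : ℕ) (hk : 0 < k) (ha : ∀ i, a' i ^ k = a i ^ k)
    (hb : ∀ i, b' i ^ k = b i ^ k) (ha0 : ∀ i, a i ≠ 0) (hb0 : ∀ i, b i ≠ 0)
    (hpa : (∏ i, a i) ^ 8 = 1) (hpb : (∏ i, b i) ^ 8 = 1)
    (hL : ∀ i, ∃ L : ℂ, L ≠ 0 ∧ ∀ e : ℝ, 0 < e → ∃ Y : ℝ, ∀ z : ℂ, Y ≤ z.im →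
      ‖h i z * Complex.exp (-(π * Complex.I * o i * z / 16)) - L‖ ≤ e) (i : ι) :
    ∃ κ : ℂ, ∀ z : ℂ, 0 < z.im → f i z = κ * h i z := by
  have hne := gc_ne σ τ hσ hτ a b o ho h H hpa hpb hL
  set U : Set ℂ := {z : ℂ | 0 < z.im} with hU
  set q : ι → ℂ → ℂ := fun i z => f i z / h i z with hq
  have hqd : ∀ i, DifferentiableOn ℂ (q i) U := fun i =>
    (H'.hol i).div (H.hol i) (fun z hz => hne i z hz)
  have hconst : ∀ i, ∃ c : ℂ, ∀ z : ℂ, 0 < z.im → q i z ^ k = c := by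
    refine GA σ τ hσ hτ (fun i z => q i z ^ k) (fun i => (hqd i).pow k) ?_ ?_ ?_
    · intro i z hz
      have h1 := hne (σ i) z hz
      have h2 := gc_J hz
      have h3 := ha0 i
      show (f i (-1 / z) / h i (-1 / z)) ^ k = (f (σ i) z / h (σ i) z) ^ k
      rw [H'.S i z hz, H.S i z hz]
      have h4 : a' i * J z ^ 3 * f (σ i) z / (a i * J z ^ 3 * h (σ i) z) =
          (a' i / a i) * (f (σ i) z / h (σ i) z) := by
        field_simp
      rw [h4, mul_pow, div_pow (a' i), ha i, div_self (pow_ne_zero k h3), one_mul]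
    · intro i z hz
      have h1 := hne (τ i) z hz
      have h3 := hb0 i
      show (f i (z + 1) / h i (z + 1)) ^ k = (f (τ i) z / h (τ i) z) ^ k
      rw [H'.T i z hz, H.T i z hz]
      have h4 : b' i * f (τ i) z / (b i * h (τ i) z) =
          (b' i / b i) * (f (τ i) z / h (τ i) z) := by
        field_simp
      rw [h4, mul_pow, div_pow (b' i), hb i, div_self (pow_ne_zero k h3), one_mul]
    · intro i
      obtain ⟨C, hC⟩ := H'.bd i
      obtain ⟨c, Y, hc, hY⟩ := gc_low (hL i)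
      refine ⟨(C / c) ^ k, max Y 1, fun z hz => ?_⟩
      have h1 := hC z (le_trans (le_max_right _ _) hz)
      have h2 := hY z (le_trans (le_max_left _ _) hz)
      show ‖(f i z / h i z) ^ k‖ ≤ _
      rw [norm_pow, norm_div]
      refine pow_le_pow_left₀ (by positivity) ?_ k
      have h3 := Real.exp_pos (-π * o i * z.im / 16)
      have h4 : 0 < c * Real.exp (-π * o i * z.im / 16) := mul_pos hc h3
      have h5 : 0 < ‖h i z‖ := lt_of_lt_of_le h4 h2
      have hC0 : 0 ≤ C := by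
        have h6 := le_trans (norm_nonneg _) h1
        exact nonneg_of_mul_nonneg_left h6 h3
      rw [div_le_div_iff₀ h5 hc]
      calc ‖f i z‖ * c ≤ C * Real.exp (-π * o i * z.im / 16) * c :=
            mul_le_mul_of_nonneg_right h1 hc.le
        _ = C * (c * Real.exp (-π * o i * z.im / 16)) := by ring
        _ ≤ C * ‖h i z‖ := mul_le_mul_of_nonneg_left h2 hC0
  have hpre : IsPreconnected U := by
    have hconv : Convex ℝ U := by
      have h1 : U = Complex.imLm ⁻¹' (Set.Ioi 0) := rfl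
      rw [h1]
      exact (convex_Ioi (0 : ℝ)).linear_preimage Complex.imLm
    exact hconv.isPreconnected
  obtain ⟨c, hc⟩ := hconst i
  obtain ⟨κ, hκ⟩ := gc_const hpre (hqd i).continuousOn hk (fun z hz => hc z hz)
  refine ⟨κ, fun z hz => ?_⟩
  have h1 : f i z / h i z = κ := hκ z hz
  rw [div_eq_iff (hne i z hz)] at h1
  exact h1

end Pool.Agent.GNF
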