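import Pool.Agent.Lib_helper7.GNF.D3
import Pool.Agent.Lib_helper7.GNF.P.FF

set_option autoImplicit false

namespace Pool.Agent.GNF

open Finset Pool.Agent.GEN
open scoped Real

theorem B_per (i : Fin 12) : Per 16 (B i) := by
  intro v w
  have e : ∀ x y : ℤ, (x + ((16 : ℕ) : ℤ) * y) % 16 = x % 16 := fun x y => by
    push_cast
    omega
  fin_cases i
  · show od _ * u4 _ * n4 _ = od _ * u4 _ * n4 _
    simp only [ff_od, ff_u4, ff_n4, e]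
  · show bb _ * n4 _ * u4 _ = bb _ * n4 _ * u4 _
    simp only [ff_bb, ff_u4, ff_n4, e]
  · show c2 _ * u4 _ * n4 _ = c2 _ * u4 _ * n4 _
    simp only [ff_c2, ff_u4, ff_n4, e]
  · show bq _ * n4 _ * u4 _ = bq _ * n4 _ * u4 _
    simp only [ff_bq, ff_u4, ff_n4, e]
  · show e8 _ * o2 _ * n4 _ = e8 _ * o2 _ * n4 _
    simp only [ff_e8, ff_o2, ff_n4, e]
  · show e8 _ * o2 _ * u4 _ = e8 _ * o2 _ * u4 _
    simp only [ff_e8, ff_o2, ff_u4, e]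
  · show od _ * u4 _ * o2 _ = od _ * u4 _ * o2 _
    simp only [ff_od, ff_u4, ff_o2, e]
  · show bb _ * n4 _ * o2 _ = bb _ * n4 _ * o2 _
    simp only [ff_bb, ff_n4, ff_o2, e]
  · show c2 _ * u4 _ * o2 _ = c2 _ * u4 _ * o2 _
    simp only [ff_c2, ff_u4, ff_o2, e]
  · show bq _ * n4 _ * o2 _ = bq _ * n4 _ * o2 _
    simp only [ff_bq, ff_n4, ff_o2, e]
  · show k2 _ * o2 _ * n4 _ = k2 _ * o2 _ * n4 _
    simp only [ff_k2, ff_o2, ff_n4, e]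
  · show k2 _ * o2 _ * u4 _ = k2 _ * o2 _ * u4 _
    simp only [ff_k2, ff_o2, ff_u4, e]

/-- multiplication by a residue `1 mod 8` on a function of order four -/
theorem ff2_sm (f : ℤ → ℂ) (hf : ℕ → List ℕ) (h1 : ∀ x, f x = ff_S (hf (x % 16).toNat))
    (h : ∀ c < 16, ∀ r < 16, ∀ j < 8, c % 8 = 1 →
      ff_c (hf (c * r % 16)) j = (if c = 1 then 1 else -1) * ff_c (hf r) j)
    (c : ℤ) (hc : c % 8 = 1) (x : ℤ) : f (c * x) = (if c % 16 = 1 then 1 else -1) * f x := by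
  have hx : (x % 16).toNat < 16 := by omega
  have hc16 : (c % 16).toNat < 16 := by omega
  have hc8 : (c % 16).toNat % 8 = 1 := by omega
  have e0 : ((c % 16).toNat = 1) ↔ (c % 16 = 1) := by omega
  have e : (c * x % 16).toNat = (c % 16).toNat * (x % 16).toNat % 16 := by
    have h3 : ((x % 16).toNat : ℤ) = x % 16 := Int.toNat_of_nonneg (by omega)
    have h3' : ((c % 16).toNat : ℤ) = c % 16 := Int.toNat_of_nonneg (by omega)
    have h4 : (((c % 16).toNat * (x % 16).toNat % 16 : ℕ) : ℤ) = c * x % 16 := by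
      push_cast
      rw [h3, h3', ← Int.mul_emod]
    rw [← h4, Int.toNat_natCast]
  rw [h1, h1, e, ff_S_eq, ff_S_eq, Finset.mul_sum]
  refine Finset.sum_congr rfl fun j hj => ?_
  rw [h _ hc16 _ hx _ (Finset.mem_range.1 hj) hc8]
  simp only [e0]
  split_ifs <;> push_cast <;> ring

theorem B_sm (i : Fin 12) (c : ℤ) (hc : c % 8 = 1) (v : T) :
    B i (sm c v) = gS (if c % 16 = 1 then 1 else -1) i * B i v := by
  have h_o2 := ff_sm1 o2 ff_ho2 ff_o2 (by decide +kernel) c hc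
  have h_u4 := ff_sm1 u4 ff_hu4 ff_u4 (by decide +kernel) c hc
  have h_n4 := ff_sm1 n4 ff_hn4 ff_n4 (by decide +kernel) c hc
  have h_k2 := ff_sm1 k2 ff_hk2 ff_k2 (by decide +kernel) c hc
  have h_c2 := ff_sm1 c2 ff_hc2 ff_c2 (by decide +kernel) c hc
  have h_od := ff_sm1 od ff_hod ff_od (by decide +kernel) c hc
  have h_e8 := ff_sm1 e8 ff_he8 ff_e8 (by decide +kernel) c hc
  have h_bq := ff2_sm bq ff_hbq ff_bq (by decide +kernel) c hc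
  have h_bb := ff2_sm bb ff_hbb ff_bb (by decide +kernel) c hc
  fin_cases i
  · show od (c * v.1) * u4 (c * v.2.1) * n4 (c * v.2.2) =
      1 * (od v.1 * u4 v.2.1 * n4 v.2.2)
    rw [h_od, h_u4, h_n4, one_mul]
  · show bb (c * v.1) * n4 (c * v.2.1) * u4 (c * v.2.2) =
      (if c % 16 = 1 then (1 : ℂ) else -1) * (bb v.1 * n4 v.2.1 * u4 v.2.2)
    rw [h_bb, h_u4, h_n4]
    ring
  · show c2 (c * v.1) * u4 (c * v.2.1) * n4 (c * v.2.2) =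
      1 * (c2 v.1 * u4 v.2.1 * n4 v.2.2)
    rw [h_c2, h_u4, h_n4, one_mul]
  · show bq (c * v.1) * n4 (c * v.2.1) * u4 (c * v.2.2) =
      (if c % 16 = 1 then (1 : ℂ) else -1) * (bq v.1 * n4 v.2.1 * u4 v.2.2)
    rw [h_bq, h_u4, h_n4]
    ring
  · show e8 (c * v.1) * o2 (c * v.2.1) * n4 (c * v.2.2) =
      1 * (e8 v.1 * o2 v.2.1 * n4 v.2.2)
    rw [h_e8, h_o2, h_n4, one_mul]
  · show e8 (c * v.1) * o2 (c * v.2.1) * u4 (c * v.2.2) =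
      1 * (e8 v.1 * o2 v.2.1 * u4 v.2.2)
    rw [h_e8, h_o2, h_u4, one_mul]
  · show od (c * v.1) * u4 (c * v.2.1) * o2 (c * v.2.2) =
      1 * (od v.1 * u4 v.2.1 * o2 v.2.2)
    rw [h_od, h_o2, h_u4, one_mul]
  · show bb (c * v.1) * n4 (c * v.2.1) * o2 (c * v.2.2) =
      (if c % 16 = 1 then (1 : ℂ) else -1) * (bb v.1 * n4 v.2.1 * o2 v.2.2)
    rw [h_bb, h_o2, h_n4]
    ring
  · show c2 (c * v.1) * u4 (c * v.2.1) * o2 (c * v.2.2) =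
      1 * (c2 v.1 * u4 v.2.1 * o2 v.2.2)
    rw [h_c2, h_o2, h_u4, one_mul]
  · show bq (c * v.1) * n4 (c * v.2.1) * o2 (c * v.2.2) =
      (if c % 16 = 1 then (1 : ℂ) else -1) * (bq v.1 * n4 v.2.1 * o2 v.2.2)
    rw [h_bq, h_o2, h_n4]
    ring
  · show k2 (c * v.1) * o2 (c * v.2.1) * n4 (c * v.2.2) =
      1 * (k2 v.1 * o2 v.2.1 * n4 v.2.2)
    rw [h_k2, h_o2, h_n4, one_mul]
  · show k2 (c * v.1) * o2 (c * v.2.1) * u4 (c * v.2.2) =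
      1 * (k2 v.1 * o2 v.2.1 * u4 v.2.2)
    rw [h_k2, h_o2, h_u4, one_mul]

theorem ff2_FT (f g h f' g' h' : ℤ → ℂ) (k l m : ℂ) (K : ℂ) (w : T)
    (h1 : ∀ y : ℤ, ∑ a ∈ Ico (0 : ℤ) ((16 : ℕ) : ℤ),
      f a * Complex.exp (2 * π * Complex.I * ((a * y : ℤ) : ℂ) / 16) = k * f' y)
    (h2 : ∀ y : ℤ, ∑ a ∈ Ico (0 : ℤ) ((16 : ℕ) : ℤ),
      g a * Complex.exp (2 * π * Complex.I * ((a * y : ℤ) : ℂ) / 16) = l * g' y)
    (h3 : ∀ y : ℤ, ∑ a ∈ Ico (0 : ℤ) ((16 : ℕ) : ℤ),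
      h a * Complex.exp (2 * π * Complex.I * ((a * y : ℤ) : ℂ) / 16) = m * h' y)
    (hK : k * (l * m) = K) :
    FT 16 (fun v => f v.1 * g v.2.1 * h v.2.2) w = K * (f' w.1 * g' w.2.1 * h' w.2.2) := by
  rw [ff_prod, h1, h2, h3, ← hK]
  ring

theorem ff2_K14 : ff_S [2, 2, 14, 14] = 2 * rt := by
  have e : ff_S [2, 2, 14, 14] = 2 * ze ^ 2 + 2 * (ze ^ 6 * ze ^ 8) := by
    simp only [ff_S, List.map_cons, List.map_nil, List.sum_cons, List.sum_nil]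
    ring
  rw [e, ff_ze8]
  unfold rt
  ring

theorem ff2_K28 : ff_S [2, 2, 2, 2, 14, 14, 14, 14] = 4 * rt := by
  have e : ff_S [2, 2, 2, 2, 14, 14, 14, 14] = 2 * ff_S [2, 2, 14, 14] := by
    simp only [ff_S, List.map_cons, List.map_nil, List.sum_cons, List.sum_nil]
    ring
  rw [e, ff2_K14]
  ring

theorem ff2_z15 : ze ^ 15 = -ze ^ 7 := by
  have e : ze ^ 15 = ze ^ 7 * ze ^ 8 := by ring
  rw [e, ff_ze8]
  ring

/-- Fourier transforms of the twelve functions -/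
theorem FF2 (i : Fin 12) (w : T) : FT 16 (B i) w = 64 * dS i * B (uS i) w := by
  fin_cases i
  · exact ff2_FT od u4 n4 e8 o2 n4 _ _ _ (64 * 2) w ff_T_od ff_T_u4 ff_T_n4 (by
      rw [ff_K8, ff_K4]; norm_num)
  · exact ff2_FT bb n4 u4 bq n4 o2 _ _ _ (64 * ze) w ff_T_bb ff_T_n4 ff_T_u4 (by
      rw [ff_K1, ff_K4]; ring)
  · exact ff2_FT c2 u4 n4 k2 o2 n4 _ _ _ (64 * rt) w ff_T_c2 ff_T_u4 ff_T_n4 (by
      rw [ff2_K28, ff_K4]; ring)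
  · exact ff2_FT bq n4 u4 bb n4 o2 _ _ _ (64 * -ze ^ 7) w ff_T_bq ff_T_n4 ff_T_u4 (by
      rw [ff_K15, ff_K4, ff2_z15]; ring)
  · exact ff2_FT e8 o2 n4 od u4 n4 _ _ _ (64 * (1 / 2)) w ff_T_e8 ff_T_o2 ff_T_n4 (by
      rw [ff_K2, ff_K4]; norm_num)
  · exact ff2_FT e8 o2 u4 od u4 o2 _ _ _ (64 * (1 / 2)) w ff_T_e8 ff_T_o2 ff_T_u4 (by
      rw [ff_K2, ff_K4]; norm_num)
  · exact ff2_FT od u4 o2 e8 o2 u4 _ _ _ (64 * 2) w ff_T_od ff_T_u4 ff_T_o2 (by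
      rw [ff_K8, ff_K4]; norm_num)
  · exact ff2_FT bb n4 o2 bq n4 u4 _ _ _ (64 * ze) w ff_T_bb ff_T_n4 ff_T_o2 (by
      rw [ff_K1, ff_K4]; ring)
  · exact ff2_FT c2 u4 o2 k2 o2 u4 _ _ _ (64 * rt) w ff_T_c2 ff_T_u4 ff_T_o2 (by
      rw [ff2_K28, ff_K4]; ring)
  · exact ff2_FT bq n4 o2 bb n4 u4 _ _ _ (64 * -ze ^ 7) w ff_T_bq ff_T_n4 ff_T_o2 (by
      rw [ff_K15, ff_K4, ff2_z15]; ring)
  · exact ff2_FT k2 o2 n4 c2 u4 n4 _ _ _ (64 * (rt / 2)) w ff_T_k2 ff_T_o2 ff_T_n4 (by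
      rw [ff2_K14, ff_K4]; ring)
  · exact ff2_FT k2 o2 u4 c2 u4 o2 _ _ _ (64 * (rt / 2)) w ff_T_k2 ff_T_o2 ff_T_u4 (by
      rw [ff2_K14, ff_K4]; ring)

theorem ff2_rt : rt ^ 2 = 2 := by
  unfold rt
  linear_combination (ze ^ 4 - 2) * ff_ze8

theorem ff2_zf : zf ^ 32 = 1 := by
  unfold zf
  rw [← Complex.exp_nat_mul]
  have e : ((32 : ℕ) : ℂ) * (2 * π * Complex.I / 32) = 2 * π * Complex.I := by
    push_cast
    ring
  rw [e, Complex.exp_two_pi_mul_I]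

theorem FF2_prod : (∏ i, dS i) = 1 ∧ (∏ i, dT i) ^ 8 = 1 ∧ (∀ i, dS i ≠ 0) ∧ (∀ i, dT i ≠ 0) := by
  have hze : ze ≠ 0 := Complex.exp_ne_zero _
  have hzf : zf ≠ 0 := Complex.exp_ne_zero _
  have hrt : rt ≠ 0 := by
    intro h
    have h1 := ff2_rt
    rw [h] at h1
    norm_num at h1
  refine ⟨?_, ?_, ?_, ?_⟩
  · have e : ∏ i, dS i = 2 * (ze * (rt * (-ze ^ 7 * (1 / 2 * (1 / 2 * (2 * (ze * (rt *
        (-ze ^ 7 * (rt / 2 * (rt / 2))))))))))) := by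
      simp only [Fin.prod_univ_succ, Fin.prod_univ_zero, mul_one]
      rfl
    rw [e]
    have e2 : 2 * (ze * (rt * (-ze ^ 7 * (1 / 2 * (1 / 2 * (2 * (ze * (rt *
        (-ze ^ 7 * (rt / 2 * (rt / 2))))))))))) = 1 / 4 * ze ^ 16 * (rt ^ 2) ^ 2 := by ring
    rw [e2, ff2_rt, ff_ze16]
    norm_num
  · have e : ∏ i, dT i = zf * (zf * (zf * (zf * (zf ^ 4 * (zf ^ 4 * (zf ^ 5 * (zf ^ 5 * (zf ^ 5 *
        (zf ^ 5 * (zf ^ 8 * zf ^ 8)))))))))) := by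
      simp only [Fin.prod_univ_succ, Fin.prod_univ_zero, mul_one]
      rfl
    rw [e]
    have e2 : (zf * (zf * (zf * (zf * (zf ^ 4 * (zf ^ 4 * (zf ^ 5 * (zf ^ 5 * (zf ^ 5 *
        (zf ^ 5 * (zf ^ 8 * zf ^ 8))))))))))) ^ 8 = (zf ^ 32) ^ 12 := by ring
    rw [e2, ff2_zf, one_pow]
  · intro i
    fin_cases i
    · show (2 : ℂ) ≠ 0
      norm_num
    · exact hze
    · exact hrt
    · exact neg_ne_zero.2 (pow_ne_zero 7 hze)
    · show (1 / 2 : ℂ) ≠ 0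
      norm_num
    · show (1 / 2 : ℂ) ≠ 0
      norm_num
    · show (2 : ℂ) ≠ 0
      norm_num
    · exact hze
    · exact hrt
    · exact neg_ne_zero.2 (pow_ne_zero 7 hze)
    · exact div_ne_zero hrt (by norm_num)
    · exact div_ne_zero hrt (by norm_num)
  · intro i
    fin_cases i
    · exact hzf
    · exact hzf
    · exact hzf
    · exact hzf
    · exact pow_ne_zero 4 hzf
    · exact pow_ne_zero 4 hzf
    · exact pow_ne_zero 5 hzf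
    · exact pow_ne_zero 5 hzf
    · exact pow_ne_zero 5 hzf
    · exact pow_ne_zero 5 hzf
    · exact pow_ne_zero 8 hzf
    · exact pow_ne_zero 8 hzf

end Pool.Agent.GNF
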