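import Pool.Agent.Lib_helper7.GNF.D3
import Pool.Agent.Lib_helper7.GNF.P.FA
import Pool.Agent.Lib_helper7.GNF.P.FD
import Pool.Agent.Lib_helper7.GNF.P.FF2

set_option autoImplicit false

namespace Pool.Agent.GNF

open Finset Pool.Agent.GEN
open scoped Real

theorem fg2_gS (e : ℂ) (i : Fin 12) : gS e (uS i) = gS e i := by
  fin_cases i <;> rfl

theorem fg2_sd (d : ℕ) : (if (d : ℤ) % 16 = 1 then (1 : ℂ) else -1) = sd d := by
  unfold sd
  by_cases h : d % 16 = 1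
  · rw [if_pos h, if_pos (by omega)]
  · rw [if_neg h, if_neg (by omega)]

/-- Fourier transforms of the weighted functions -/
theorem FG2 (d : ℕ) (hs : Squarefree d) (h8 : d % 8 = 1) (u : T)
    (hu : ∀ p ∈ d.primeFactors, Iso p u) (γ : ℂ)
    (h : ∀ w : T, FT d (fun v => ((Psi d u v : ℤ) : ℂ)) w = γ * (Psi d u w : ℤ)) (i : Fin 12) (w : T) :
    FT (16 * d) (BP d u i) w = 64 * (gS (sd d) i * dS i) * γ * BP d u (uS i) w := by
  have h2 : d % 2 = 1 := by omega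
  have hd0 : 0 < d := by omega
  have hco : Nat.Coprime 16 d := by
    have h3 : Nat.Coprime 2 d := by
      rw [Nat.coprime_two_left]
      exact Nat.odd_iff.2 h2
    exact Nat.Coprime.pow_left 4 h3
  obtain ⟨M', hM'⟩ : ∃ M' : ℤ, ((16 : ℕ) : ℤ) * M' ≡ 1 [ZMOD (d : ℤ)] := by
    have h3 : IsCoprime ((16 : ℕ) : ℤ) (d : ℤ) := Nat.isCoprime_iff_coprime.2 hco
    obtain ⟨a, b, hab⟩ := h3
    refine ⟨a, ?_⟩
    rw [Int.modEq_iff_dvd]
    exact ⟨b, by linear_combination (-1 : ℤ) * hab⟩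
  have hN' : (d : ℤ) * (d : ℤ) ≡ 1 [ZMOD ((16 : ℕ) : ℤ)] := by
    have h3 : ((d * d : ℕ) : ℤ) ≡ ((1 : ℕ) : ℤ) [ZMOD ((16 : ℕ) : ℤ)] := by
      rw [Int.natCast_modEq_iff]
      obtain ⟨k, hk⟩ : ∃ k, d = 8 * k + 1 := ⟨d / 8, by omega⟩
      rw [hk]
      show (8 * k + 1) * (8 * k + 1) % 16 = 1 % 16
      have : (8 * k + 1) * (8 * k + 1) = 1 + 16 * (4 * k * k + k) := by ring
      rw [this, Nat.add_mul_mod_self_left]
    push_cast at h3
    exact_mod_cast h3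
  have hJ : jacobiSym M' d = 1 := by
    have h3 : jacobiSym (((16 : ℕ) : ℤ) * M') d = jacobiSym 1 d := jacobiSym.mod_left' hM'
    rw [jacobiSym.one_left, jacobiSym.mul_left] at h3
    have h4 : jacobiSym ((16 : ℕ) : ℤ) d = 1 := by
      have h5 : ((16 : ℕ) : ℤ) = 4 ^ 2 := by norm_num
      rw [h5]
      refine jacobiSym.sq_one' ?_
      have h6 : Nat.Coprime 4 d := Nat.Coprime.coprime_dvd_left (by norm_num) hco
      exact h6
    rwa [h4, one_mul] at h3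
  have h1 := FA 16 d (by norm_num) hd0 hco (B i) (fun v => ((Psi d u v : ℤ) : ℂ)) (B_per i)
    (Psi_per d hs h2 u hu) M' d hN' hM' w
  have e1 : BP d u i = fun v => B i v * ((Psi d u v : ℤ) : ℂ) := rfl
  rw [e1, h1, FF2, h, Psi_sm d hs h2 u hu, hJ, one_mul, B_sm _ _ (by omega), fg2_gS, fg2_sd]
  unfold BP
  ring

theorem BP_per (d : ℕ) (hs : Squarefree d) (h8 : d % 8 = 1) (u : T)
    (hu : ∀ p ∈ d.primeFactors, Iso p u) (i : Fin 12) : Per (16 * d) (BP d u i) := by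
  intro v w
  have h1 := B_per i v (sm d w)
  have h2 := Psi_per d hs (by omega) u hu v (sm 16 w)
  unfold BP
  simp only [sm] at h1 h2
  have e1 : ∀ x y : ℤ, x + ((16 * d : ℕ) : ℤ) * y = x + ((16 : ℕ) : ℤ) * ((d : ℤ) * y) := by
    intro x y
    push_cast
    ring
  have e2 : ∀ x y : ℤ, x + ((16 * d : ℕ) : ℤ) * y = x + (d : ℤ) * (16 * y) := by
    intro x y
    push_cast
    ring
  have h3 : B i (v.1 + ((16 * d : ℕ) : ℤ) * w.1, v.2.1 + ((16 * d : ℕ) : ℤ) * w.2.1,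
      v.2.2 + ((16 * d : ℕ) : ℤ) * w.2.2) = B i v := by
    rw [e1, e1, e1]
    exact h1
  have h4 : ((Psi d u (v.1 + ((16 * d : ℕ) : ℤ) * w.1, v.2.1 + ((16 * d : ℕ) : ℤ) * w.2.1,
      v.2.2 + ((16 * d : ℕ) : ℤ) * w.2.2) : ℤ) : ℂ) = ((Psi d u v : ℤ) : ℂ) := by
    rw [e2, e2, e2]
    exact h2
  rw [h3, h4]

end Pool.Agent.GNF
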