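import Pool.Agent.Lib_helper7.GNF.D3
import Pool.Agent.Lib_helper7.GNF.P.FH

set_option autoImplicit false

namespace Pool.Agent.GNF

open Finset Pool.Agent.GEN
open scoped Real

theorem fh2_n3 (a b c : ℂ) (ha : ‖a‖ ≤ 1) (hb : ‖b‖ ≤ 1) (hc : ‖c‖ ≤ 1) : ‖a * b * c‖ ≤ 1 := by
  rw [norm_mul, norm_mul]
  have h1 : ‖a‖ * ‖b‖ ≤ 1 := mul_le_one₀ ha (norm_nonneg _) hb
  exact mul_le_one₀ h1 (norm_nonneg _) hc

theorem fh2_c2n (x : ℤ) : ‖c2 x‖ ≤ 1 := by unfold c2; split_ifs <;> simp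
theorem fh2_o2n (x : ℤ) : ‖o2 x‖ ≤ 1 := by unfold o2; split_ifs <;> simp
theorem fh2_k2n (x : ℤ) : ‖k2 x‖ ≤ 1 := by unfold k2; split_ifs <;> simp
theorem fh2_u4n (x : ℤ) : ‖u4 x‖ ≤ 1 := by unfold u4; split_ifs <;> simp
theorem fh2_n4n (x : ℤ) : ‖n4 x‖ ≤ 1 := by unfold n4; split_ifs <;> simp
theorem fh2_odn (x : ℤ) : ‖od x‖ ≤ 1 := by unfold od; split_ifs <;> simp
theorem fh2_e8n (x : ℤ) : ‖e8 x‖ ≤ 1 := by unfold e8; split_ifs <;> simp
theorem fh2_bqn (x : ℤ) : ‖bq x‖ ≤ 1 := by unfold bq; split_ifs <;> simp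
theorem fh2_bbn (x : ℤ) : ‖bb x‖ ≤ 1 := by unfold bb; split_ifs <;> simp

theorem fh2_Bn (i : Fin 12) (v : T) : ‖B i v‖ ≤ 1 := by
  fin_cases i
  · exact fh2_n3 _ _ _ (fh2_odn _) (fh2_u4n _) (fh2_n4n _)
  · exact fh2_n3 _ _ _ (fh2_bbn _) (fh2_n4n _) (fh2_u4n _)
  · exact fh2_n3 _ _ _ (fh2_c2n _) (fh2_u4n _) (fh2_n4n _)
  · exact fh2_n3 _ _ _ (fh2_bqn _) (fh2_n4n _) (fh2_u4n _)
  · exact fh2_n3 _ _ _ (fh2_e8n _) (fh2_o2n _) (fh2_n4n _)
  · exact fh2_n3 _ _ _ (fh2_e8n _) (fh2_o2n _) (fh2_u4n _)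
  · exact fh2_n3 _ _ _ (fh2_odn _) (fh2_u4n _) (fh2_o2n _)
  · exact fh2_n3 _ _ _ (fh2_bbn _) (fh2_n4n _) (fh2_o2n _)
  · exact fh2_n3 _ _ _ (fh2_c2n _) (fh2_u4n _) (fh2_o2n _)
  · exact fh2_n3 _ _ _ (fh2_bqn _) (fh2_n4n _) (fh2_o2n _)
  · exact fh2_n3 _ _ _ (fh2_k2n _) (fh2_o2n _) (fh2_n4n _)
  · exact fh2_n3 _ _ _ (fh2_k2n _) (fh2_o2n _) (fh2_u4n _)

theorem fh2_prod (s : Finset ℕ) (f : ℕ → ℤ) (h : ∀ p ∈ s, f p = 1 ∨ f p = -1 ∨ f p = 0) :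
    (∏ p ∈ s, f p) = 1 ∨ (∏ p ∈ s, f p) = -1 ∨ (∏ p ∈ s, f p) = 0 := by
  induction s using Finset.induction_on with
  | empty => left; simp
  | insert a s ha ih =>
    rw [Finset.prod_insert ha]
    have h1 := h a (Finset.mem_insert_self a s)
    have h2 := ih (fun p hp => h p (Finset.mem_insert_of_mem hp))
    rcases h1 with h1 | h1 | h1 <;> rcases h2 with h2 | h2 | h2 <;> rw [h1, h2] <;> simp

theorem BP_norm (d : ℕ) (h2 : d % 2 = 1) (u : T) (hu : ∀ p ∈ d.primeFactors, Iso p u) (i : Fin 12)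
    (v : T) : ‖BP d u i v‖ ≤ 1 := by
  unfold BP
  rw [norm_mul]
  have h1 : Psi d u v = 1 ∨ Psi d u v = -1 ∨ Psi d u v = 0 := by
    unfold Psi
    apply fh2_prod
    intro p hp
    unfold psi
    split_ifs with hv
    · have hpp := (Nat.mem_primeFactors.1 hp)
      have : Fact p.Prime := ⟨hpp.1⟩
      have hp2 : p ≠ 2 := by
        rintro rfl
        have := hpp.2.1
        omega
      rcases chi_pm hp2 hv (hu p hp) with h | h
      · left; exact h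
      · right; left; exact h
    · right; right; rfl
  have h3 : ‖((Psi d u v : ℤ) : ℂ)‖ ≤ 1 := by
    rcases h1 with h | h | h <;> rw [h] <;> simp
  exact mul_le_one₀ (fh2_Bn i v) (norm_nonneg _) h3

theorem fh2_psi (d : ℕ) (hs : Squarefree d) (u v : T) (h : Psi d u v ≠ 0) :
    (d : ℤ) ∣ dot v v := by
  rw [Int.natCast_dvd, ← Nat.prod_primeFactors_of_squarefree hs]
  apply Finset.prod_primes_dvd
  · intro p hp
    exact (Nat.mem_primeFactors.1 hp).1.prime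
  · intro p hp
    unfold Psi at h
    have h1 := Finset.prod_ne_zero_iff.1 h p hp
    unfold psi at h1
    split_ifs at h1 with hv
    · exact Int.natCast_dvd.1 hv.1
    · exact absurd rfl h1

theorem fh2_BP (d : ℕ) (u : T) (i : Fin 12) (v : T) (h : BP d u i v ≠ 0) :
    B i v ≠ 0 ∧ Psi d u v ≠ 0 := by
  unfold BP at h
  refine ⟨left_ne_zero_of_mul h, ?_⟩
  have := right_ne_zero_of_mul h
  intro h0
  rw [h0] at this
  simp at this

theorem BP_dvd (d : ℕ) (hs : Squarefree d) (u : T) (i : Fin 12) (v : T) (h : BP d u i v ≠ 0) :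
    (d : ℤ) ∣ dot v v := fh2_psi d hs u v (fh2_BP d u i v h).2

theorem fh2_c2z (x : ℤ) (h : c2 x ≠ 0) : x % 2 = 1 := by
  unfold c2 at h
  split_ifs at h with h1 h2
  · omega
  · omega
  · exact absurd rfl h
theorem fh2_o2z (x : ℤ) (h : o2 x ≠ 0) : x % 4 = 2 := by
  unfold o2 at h
  split_ifs at h with h1
  · exact h1
  · exact absurd rfl h
theorem fh2_k2z (x : ℤ) (h : k2 x ≠ 0) : x % 16 = 2 ∨ x % 16 = 14 ∨ x % 16 = 6 ∨ x % 16 = 10 := by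
  unfold k2 at h
  split_ifs at h with h1 h2
  · omega
  · omega
  · exact absurd rfl h
theorem fh2_u4z (x : ℤ) (h : u4 x ≠ 0) : x % 4 = 0 := by
  unfold u4 at h
  split_ifs at h with h1 h2
  · omega
  · omega
  · exact absurd rfl h
theorem fh2_n4z (x : ℤ) (h : n4 x ≠ 0) : x % 4 = 0 := by
  unfold n4 at h
  split_ifs at h with h1
  · exact h1
  · exact absurd rfl h
theorem fh2_odz (x : ℤ) (h : od x ≠ 0) : x % 2 = 1 := by
  unfold od at h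
  split_ifs at h with h1
  · exact h1
  · exact absurd rfl h
theorem fh2_e8z (x : ℤ) (h : e8 x ≠ 0) : x % 8 = 0 := by
  unfold e8 at h
  split_ifs at h with h1 h2
  · omega
  · omega
  · exact absurd rfl h
theorem fh2_bqz (x : ℤ) (h : bq x ≠ 0) : x % 2 = 1 := by
  unfold bq at h
  split_ifs at h with h1 h2 h3 h4
  · omega
  · omega
  · omega
  · omega
  · exact absurd rfl h
theorem fh2_bbz (x : ℤ) (h : bb x ≠ 0) : x % 2 = 1 := by
  unfold bb at h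
  split_ifs at h with h1 h2 h3 h4
  · omega
  · omega
  · omega
  · omega
  · exact absurd rfl h

theorem fh2_nz3 {a b c : ℂ} (h : a * b * c ≠ 0) : a ≠ 0 ∧ b ≠ 0 ∧ c ≠ 0 :=
  ⟨left_ne_zero_of_mul (left_ne_zero_of_mul h), right_ne_zero_of_mul (left_ne_zero_of_mul h),
    right_ne_zero_of_mul h⟩

/-- squares modulo `32` -/
theorem fh2_s2 (x : ℤ) (h : x % 4 = 2) : x * x % 32 = 4 := by
  have : ∃ k, x = 4 * k + 2 := ⟨x / 4, by omega⟩
  obtain ⟨k, rfl⟩ := this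
  have h2 : (k * (k + 1)) % 2 = 0 := Int.even_iff.1 (Int.even_mul_succ_self k)
  have : (4 * k + 2) * (4 * k + 2) = 16 * (k * (k + 1)) + 4 := by ring
  rw [this]; omega
theorem fh2_s4 (x : ℤ) (h : x % 4 = 0) : x * x % 16 = 0 := by
  have : ∃ k, x = 4 * k := ⟨x / 4, by omega⟩
  obtain ⟨k, rfl⟩ := this
  have : (4 * k) * (4 * k) = 16 * (k * k) := by ring
  rw [this]; omega
theorem fh2_s8 (x : ℤ) (h : x % 8 = 0) : x * x % 32 = 0 := by
  have : ∃ k, x = 8 * k := ⟨x / 8, by omega⟩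
  obtain ⟨k, rfl⟩ := this
  have : (8 * k) * (8 * k) = 32 * (2 * (k * k)) := by ring
  rw [this]; omega
theorem fh2_s1 (x : ℤ) (h : x % 2 = 1) : x * x % 8 = 1 := by
  have : ∃ k, x = 2 * k + 1 := ⟨x / 2, by omega⟩
  obtain ⟨k, rfl⟩ := this
  have h2 : (k * (k + 1)) % 2 = 0 := Int.even_iff.1 (Int.even_mul_succ_self k)
  have : (2 * k + 1) * (2 * k + 1) = 4 * (k * (k + 1)) + 1 := by ring
  rw [this]; omega

/-- residues of the norm -/
theorem fh2_r1 (v : T) (h1 : v.1 % 2 = 1) (h2 : v.2.1 % 4 = 0) (h3 : v.2.2 % 4 = 0) :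
    dot v v % 8 = 1 := by
  have a1 := fh2_s1 _ h1
  have a2 := fh2_s4 _ h2
  have a3 := fh2_s4 _ h3
  unfold dot
  omega
theorem fh2_r5 (v : T) (h1 : v.1 % 2 = 1) (h2 : v.2.1 % 4 = 0) (h3 : v.2.2 % 4 = 2) :
    dot v v % 8 = 5 := by
  have a1 := fh2_s1 _ h1
  have a2 := fh2_s4 _ h2
  have a3 := fh2_s2 _ h3
  unfold dot
  omega
theorem fh2_r4 (v : T) (h1 : v.1 % 8 = 0) (h2 : v.2.1 % 4 = 2) (h3 : v.2.2 % 4 = 0) :
    dot v v % 16 = 4 := by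
  have a1 := fh2_s8 _ h1
  have a2 := fh2_s2 _ h2
  have a3 := fh2_s4 _ h3
  unfold dot
  omega
theorem fh2_r8 (v : T) (h1 : v.1 % 4 = 2) (h2 : v.2.1 % 4 = 2) (h3 : v.2.2 % 4 = 0) :
    dot v v % 16 = 8 := by
  have a1 := fh2_s2 _ h1
  have a2 := fh2_s2 _ h2
  have a3 := fh2_s4 _ h3
  unfold dot
  omega

/-- the classes of the norm -/
def fh2_cl (i : Fin 12) (n : ℤ) : Prop :=
  ((i : ℕ) < 4 ∧ n % 8 = 1) ∨ (((i : ℕ) = 4 ∨ (i : ℕ) = 5) ∧ n % 16 = 4) ∨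
    ((6 ≤ (i : ℕ) ∧ (i : ℕ) < 10) ∧ n % 8 = 5) ∨ (10 ≤ (i : ℕ) ∧ n % 16 = 8)

theorem fh2_Bcl (i : Fin 12) (v : T) (h : B i v ≠ 0) : fh2_cl i (dot v v) := by
  have k2' : ∀ x, k2 x ≠ 0 → x % 4 = 2 := by
    intro x hx
    have := fh2_k2z x hx
    omega
  fin_cases i
  · have h1 := fh2_nz3 (a := od v.1) (b := u4 v.2.1) (c := n4 v.2.2) h
    exact Or.inl ⟨by decide, fh2_r1 v (fh2_odz _ h1.1) (fh2_u4z _ h1.2.1) (fh2_n4z _ h1.2.2)⟩
  · have h1 := fh2_nz3 (a := bb v.1) (b := n4 v.2.1) (c := u4 v.2.2) h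
    exact Or.inl ⟨by decide, fh2_r1 v (fh2_bbz _ h1.1) (fh2_n4z _ h1.2.1) (fh2_u4z _ h1.2.2)⟩
  · have h1 := fh2_nz3 (a := c2 v.1) (b := u4 v.2.1) (c := n4 v.2.2) h
    exact Or.inl ⟨by decide, fh2_r1 v (fh2_c2z _ h1.1) (fh2_u4z _ h1.2.1) (fh2_n4z _ h1.2.2)⟩
  · have h1 := fh2_nz3 (a := bq v.1) (b := n4 v.2.1) (c := u4 v.2.2) h
    exact Or.inl ⟨by decide, fh2_r1 v (fh2_bqz _ h1.1) (fh2_n4z _ h1.2.1) (fh2_u4z _ h1.2.2)⟩
  · have h1 := fh2_nz3 (a := e8 v.1) (b := o2 v.2.1) (c := n4 v.2.2) h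
    exact Or.inr (Or.inl ⟨by decide,
      fh2_r4 v (fh2_e8z _ h1.1) (fh2_o2z _ h1.2.1) (fh2_n4z _ h1.2.2)⟩)
  · have h1 := fh2_nz3 (a := e8 v.1) (b := o2 v.2.1) (c := u4 v.2.2) h
    exact Or.inr (Or.inl ⟨by decide,
      fh2_r4 v (fh2_e8z _ h1.1) (fh2_o2z _ h1.2.1) (fh2_u4z _ h1.2.2)⟩)
  · have h1 := fh2_nz3 (a := od v.1) (b := u4 v.2.1) (c := o2 v.2.2) h
    exact Or.inr (Or.inr (Or.inl ⟨by decide,
      fh2_r5 v (fh2_odz _ h1.1) (fh2_u4z _ h1.2.1) (fh2_o2z _ h1.2.2)⟩))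
  · have h1 := fh2_nz3 (a := bb v.1) (b := n4 v.2.1) (c := o2 v.2.2) h
    exact Or.inr (Or.inr (Or.inl ⟨by decide,
      fh2_r5 v (fh2_bbz _ h1.1) (fh2_n4z _ h1.2.1) (fh2_o2z _ h1.2.2)⟩))
  · have h1 := fh2_nz3 (a := c2 v.1) (b := u4 v.2.1) (c := o2 v.2.2) h
    exact Or.inr (Or.inr (Or.inl ⟨by decide,
      fh2_r5 v (fh2_c2z _ h1.1) (fh2_u4z _ h1.2.1) (fh2_o2z _ h1.2.2)⟩))
  · have h1 := fh2_nz3 (a := bq v.1) (b := n4 v.2.1) (c := o2 v.2.2) h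
    exact Or.inr (Or.inr (Or.inl ⟨by decide,
      fh2_r5 v (fh2_bqz _ h1.1) (fh2_n4z _ h1.2.1) (fh2_o2z _ h1.2.2)⟩))
  · have h1 := fh2_nz3 (a := k2 v.1) (b := o2 v.2.1) (c := n4 v.2.2) h
    exact Or.inr (Or.inr (Or.inr ⟨by decide,
      fh2_r8 v (k2' _ h1.1) (fh2_o2z _ h1.2.1) (fh2_n4z _ h1.2.2)⟩))
  · have h1 := fh2_nz3 (a := k2 v.1) (b := o2 v.2.1) (c := u4 v.2.2) h
    exact Or.inr (Or.inr (Or.inr ⟨by decide,
      fh2_r8 v (k2' _ h1.1) (fh2_o2z _ h1.2.1) (fh2_u4z _ h1.2.2)⟩))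

theorem fh2_clm (d : ℕ) (h8 : d % 8 = 1) (i : Fin 12) (m : ℤ) (h : fh2_cl i (d * m)) :
    fh2_cl i m := by
  obtain ⟨k, hk⟩ : ∃ k : ℤ, (d : ℤ) = 8 * k + 1 := ⟨(d : ℤ) / 8, by omega⟩
  have e : (d : ℤ) * m = 8 * (k * m) + m := by rw [hk]; ring
  unfold fh2_cl at h ⊢
  rw [e] at h
  rcases h with ⟨h1, h2⟩ | ⟨h1, h2⟩ | ⟨h1, h2⟩ | ⟨h1, h2⟩
  · exact Or.inl ⟨h1, by omega⟩
  · refine Or.inr (Or.inl ⟨h1, ?_⟩)
    obtain ⟨j, hj⟩ : ∃ j : ℤ, m = 4 * j := ⟨m / 4, by omega⟩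
    have e2 : k * m = 4 * (k * j) := by rw [hj]; ring
    rw [e2] at h2
    omega
  · exact Or.inr (Or.inr (Or.inl ⟨h1, by omega⟩))
  · refine Or.inr (Or.inr (Or.inr ⟨h1, ?_⟩))
    obtain ⟨j, hj⟩ : ∃ j : ℤ, m = 4 * j := ⟨m / 4, by omega⟩
    have e2 : k * m = 4 * (k * j) := by rw [hj]; ring
    rw [e2] at h2
    omega

theorem fh2_nonneg (v : T) : 0 ≤ dot v v := by
  unfold dot
  exact add_nonneg (add_nonneg (mul_self_nonneg _) (mul_self_nonneg _)) (mul_self_nonneg _)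

theorem fh2_le (i : Fin 12) (m : ℤ) (hm : 0 ≤ m) (h : fh2_cl i m) : (pT i : ℤ) ≤ m := by
  unfold fh2_cl at h
  have hp : (i : ℕ) < 4 ∧ pT i = 1 ∨ ((i : ℕ) = 4 ∨ (i : ℕ) = 5) ∧ pT i = 4 ∨
      (6 ≤ (i : ℕ) ∧ (i : ℕ) < 10) ∧ pT i = 5 ∨ 10 ≤ (i : ℕ) ∧ pT i = 8 := by
    revert i
    intro i _
    fin_cases i <;> decide
  rcases hp with ⟨h1, h2⟩ | ⟨h1, h2⟩ | ⟨h1, h2⟩ | ⟨h1, h2⟩ <;> rw [h2] <;> push_cast <;> omega

theorem BP_supp (d : ℕ) (hs : Squarefree d) (h8 : d % 8 = 1) (u : T) (i : Fin 12) (v : T)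
    (h : BP d u i v ≠ 0) : (pT i * d : ℕ) ≤ dot v v := by
  obtain ⟨m, hm⟩ := BP_dvd d hs u i v h
  have hA := (fh2_BP d u i v h).1
  have hd : (0 : ℤ) < d := by
    have : 0 < d := by omega
    exact_mod_cast this
  have hm0 : 0 ≤ m := by
    have := fh2_nonneg v
    rw [hm] at this
    exact nonneg_of_mul_nonneg_right this hd
  have h1 := fh2_Bcl i v hA
  rw [hm] at h1
  have key : (pT i : ℤ) ≤ m := fh2_le i m hm0 (fh2_clm d h8 i m h1)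
  rw [hm]
  push_cast
  calc (pT i : ℤ) * d ≤ m * d := mul_le_mul_of_nonneg_right key hd.le
    _ = d * m := mul_comm _ _

/-! ### the exponential -/

/-- `exp (π i m / 16)` -/
noncomputable def fh2_e (m : ℤ) : ℂ := Complex.exp (π * Complex.I * (m : ℤ) / 16)

theorem fh2_e_add (a b : ℤ) : fh2_e (a + b) = fh2_e a * fh2_e b := by
  unfold fh2_e
  rw [← Complex.exp_add]
  congr 1
  push_cast
  ring

theorem fh2_e_32 (k : ℤ) : fh2_e (32 * k) = 1 := by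
  unfold fh2_e
  rw [Complex.exp_eq_one_iff]
  exact ⟨k, by push_cast; ring⟩

theorem fh2_e_mod (a b : ℤ) (h : a % 32 = b % 32) : fh2_e a = fh2_e b := by
  obtain ⟨k, hk⟩ : ∃ k : ℤ, a = b + 32 * k := ⟨(a - b) / 32, by omega⟩
  rw [hk, fh2_e_add, fh2_e_32, mul_one]

theorem fh2_e_0 : fh2_e 0 = 1 := by unfold fh2_e; simp

theorem fh2_e_16 : fh2_e 16 = -1 := by
  unfold fh2_e
  rw [← Complex.exp_pi_mul_I]
  congr 1
  push_cast
  ring

theorem fh2_e_8 : fh2_e 8 = Complex.I := by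
  unfold fh2_e
  have : (π * Complex.I * ((8 : ℤ) : ℂ) / 16 : ℂ) = ((π / 2 : ℝ) : ℂ) * Complex.I := by
    push_cast
    ring
  rw [this, Complex.exp_mul_I, ← Complex.ofReal_cos, ← Complex.ofReal_sin, Real.cos_pi_div_two,
    Real.sin_pi_div_two]
  simp

theorem fh2_e_24 : fh2_e 24 = -Complex.I := by
  have : fh2_e (16 + 8) = fh2_e 16 * fh2_e 8 := fh2_e_add 16 8
  rw [fh2_e_16, fh2_e_8] at this
  rw [show (24 : ℤ) = 16 + 8 by norm_num, this]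
  ring

/-- values of the exponential at odd squares -/
theorem fh2_sq (y : ℤ) (h : y % 2 = 1) :
    ((y % 16 = 1 ∨ y % 16 = 15) ∧ fh2_e (y * y - 1) = 1) ∨
    ((y % 16 = 3 ∨ y % 16 = 13) ∧ fh2_e (y * y - 1) = Complex.I) ∨
    ((y % 16 = 5 ∨ y % 16 = 11) ∧ fh2_e (y * y - 1) = -Complex.I) ∨
    ((y % 16 = 7 ∨ y % 16 = 9) ∧ fh2_e (y * y - 1) = -1) := by
  have hval : fh2_e (y * y - 1) = fh2_e ((y % 16) * (y % 16) - 1) := by
    apply fh2_e_mod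
    obtain ⟨k, hk⟩ : ∃ k : ℤ, y = 16 * k + y % 16 := ⟨y / 16, by omega⟩
    have e3 : (y * y - 1) = 32 * (8 * (k * k) + k * (y % 16)) + ((y % 16) * (y % 16) - 1) := by
      conv_lhs => rw [hk]
      ring
    rw [e3]
    omega
  rw [hval]
  have hs : y % 16 = 1 ∨ y % 16 = 3 ∨ y % 16 = 5 ∨ y % 16 = 7 ∨ y % 16 = 9 ∨ y % 16 = 11 ∨
    y % 16 = 13 ∨ y % 16 = 15 := by omega
  rcases hs with h | h | h | h | h | h | h | h <;> rw [h]
  · left; exact ⟨Or.inl rfl, by norm_num [fh2_e_0]⟩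
  · right; left; exact ⟨Or.inl rfl, by norm_num [fh2_e_8]⟩
  · right; right; left; exact ⟨Or.inl rfl, by norm_num [fh2_e_24]⟩
  · right; right; right; refine ⟨Or.inl rfl, ?_⟩
    rw [fh2_e_mod _ 16 (by norm_num), fh2_e_16]
  · right; right; right; refine ⟨Or.inr rfl, ?_⟩
    rw [fh2_e_mod _ 16 (by norm_num), fh2_e_16]
  · right; right; left; refine ⟨Or.inr rfl, ?_⟩
    rw [fh2_e_mod _ 24 (by norm_num), fh2_e_24]
  · right; left; refine ⟨Or.inr rfl, ?_⟩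
    rw [fh2_e_mod _ 8 (by norm_num), fh2_e_8]
  · left; refine ⟨Or.inr rfl, ?_⟩
    rw [fh2_e_mod _ 0 (by norm_num), fh2_e_0]

theorem fh2_c2bq (y : ℤ) (h : y % 2 = 1) : c2 y * fh2_e (y * y - 1) = bq y := by
  rcases fh2_sq y h with ⟨h1, h2⟩ | ⟨h1, h2⟩ | ⟨h1, h2⟩ | ⟨h1, h2⟩ <;> rw [h2] <;> unfold c2 bq
  · rw [if_pos (by omega), if_pos (by omega)]; ring
  · rw [if_neg (by omega), if_pos (by omega), if_neg (by omega), if_pos (by omega)]; ring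
  · rw [if_neg (by omega), if_pos (by omega), if_neg (by omega), if_neg (by omega),
      if_pos (by omega)]; ring
  · rw [if_pos (by omega), if_neg (by omega), if_neg (by omega), if_neg (by omega),
      if_pos (by omega)]; ring

theorem fh2_bqod (y : ℤ) (h : y % 2 = 1) : bq y * fh2_e (y * y - 1) = od y := by
  rcases fh2_sq y h with ⟨h1, h2⟩ | ⟨h1, h2⟩ | ⟨h1, h2⟩ | ⟨h1, h2⟩ <;> rw [h2] <;> unfold od bq <;>
    rw [if_pos h]
  · rw [if_pos (by omega)]; ring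
  · rw [if_neg (by omega), if_pos (by omega)]
    linear_combination -Complex.I_mul_I
  · rw [if_neg (by omega), if_neg (by omega), if_pos (by omega)]
    linear_combination -Complex.I_mul_I
  · rw [if_neg (by omega), if_neg (by omega), if_neg (by omega), if_pos (by omega)]; ring

theorem fh2_odbb (y : ℤ) (h : y % 2 = 1) : od y * fh2_e (y * y - 1) = bb y := by
  rcases fh2_sq y h with ⟨h1, h2⟩ | ⟨h1, h2⟩ | ⟨h1, h2⟩ | ⟨h1, h2⟩ <;> rw [h2] <;> unfold od bb <;>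
    rw [if_pos h]
  · rw [if_pos (by omega)]; ring
  · rw [if_neg (by omega), if_pos (by omega)]; ring
  · rw [if_neg (by omega), if_neg (by omega), if_pos (by omega)]; ring
  · rw [if_neg (by omega), if_neg (by omega), if_neg (by omega), if_pos (by omega)]; ring

theorem fh2_bbc2 (y : ℤ) (h : y % 2 = 1) : bb y * fh2_e (y * y - 1) = c2 y := by
  rcases fh2_sq y h with ⟨h1, h2⟩ | ⟨h1, h2⟩ | ⟨h1, h2⟩ | ⟨h1, h2⟩ <;> rw [h2] <;> unfold c2 bb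
  · rw [if_pos (by omega), if_pos (by omega)]; ring
  · rw [if_neg (by omega), if_pos (by omega), if_neg (by omega), if_pos (by omega)]
    linear_combination Complex.I_mul_I
  · rw [if_neg (by omega), if_neg (by omega), if_pos (by omega), if_neg (by omega),
      if_pos (by omega)]
    linear_combination Complex.I_mul_I
  · rw [if_neg (by omega), if_neg (by omega), if_neg (by omega), if_pos (by omega),
      if_pos (by omega)]; ring

theorem fh2_x (x : ℤ) (h : x % 4 = 0) : (x % 8 = 0 ∧ fh2_e (x * x) = 1) ∨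
    (x % 8 = 4 ∧ fh2_e (x * x) = -1) := by
  have h8 : x % 8 = 0 ∨ x % 8 = 4 := by omega
  rcases h8 with h8 | h8
  · left
    refine ⟨h8, ?_⟩
    rw [fh2_e_mod _ 0 (by rw [fh2_s8 x h8]; norm_num), fh2_e_0]
  · right
    refine ⟨h8, ?_⟩
    obtain ⟨k, rfl⟩ : ∃ k : ℤ, x = 8 * k + 4 := ⟨x / 8, by omega⟩
    have e : (8 * k + 4) * (8 * k + 4) = 32 * (2 * (k * k) + 2 * k) + 16 := by ring
    rw [e, fh2_e_mod _ 16 (by omega), fh2_e_16]

theorem fh2_u4n4 (x : ℤ) (h : x % 4 = 0) : u4 x * fh2_e (x * x) = n4 x := by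
  unfold u4 n4
  rw [if_pos h]
  rcases fh2_x x h with ⟨h1, h2⟩ | ⟨h1, h2⟩ <;> rw [h2]
  · rw [if_pos h1]; ring
  · rw [if_neg (by omega), if_pos h1]; ring

theorem fh2_n4u4 (x : ℤ) (h : x % 4 = 0) : n4 x * fh2_e (x * x) = u4 x := by
  unfold u4 n4
  rw [if_pos h]
  rcases fh2_x x h with ⟨h1, h2⟩ | ⟨h1, h2⟩ <;> rw [h2]
  · rw [if_pos h1]; ring
  · rw [if_neg (by omega), if_pos h1]; ring


/-- a step of the translation in one coordinate -/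
def fh2_st (f g : ℤ → ℂ) (a : ℤ) : Prop := ∀ x, f x * fh2_e (x * x) = fh2_e a * g x

theorem fh2_odd (f g : ℤ → ℂ) (hf : ∀ x, f x ≠ 0 → x % 2 = 1) (hg : ∀ x, g x ≠ 0 → x % 2 = 1)
    (h : ∀ x, x % 2 = 1 → f x * fh2_e (x * x - 1) = g x) : fh2_st f g 1 := by
  intro x
  by_cases hx : x % 2 = 1
  · rw [← h x hx, show x * x = 1 + (x * x - 1) by ring, fh2_e_add]
    rw [show 1 + (x * x - 1) - 1 = x * x - 1 by ring]
    ring
  · have h1 : f x = 0 := by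
      by_contra h2
      exact hx (hf x h2)
    have h2 : g x = 0 := by
      by_contra h2
      exact hx (hg x h2)
    rw [h1, h2]; ring

theorem fh2_st1 : fh2_st od bb 1 := fh2_odd _ _ fh2_odz fh2_bbz fh2_odbb
theorem fh2_st2 : fh2_st bb c2 1 := fh2_odd _ _ fh2_bbz fh2_c2z fh2_bbc2
theorem fh2_st3 : fh2_st c2 bq 1 := fh2_odd _ _ fh2_c2z fh2_bqz fh2_c2bq
theorem fh2_st4 : fh2_st bq od 1 := fh2_odd _ _ fh2_bqz fh2_odz fh2_bqod
theorem fh2_st5 : fh2_st u4 n4 0 := by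
  intro x
  rw [fh2_e_0, one_mul]
  by_cases hx : x % 4 = 0
  · exact fh2_u4n4 x hx
  · have h1 : u4 x = 0 := by
      by_contra h2
      exact hx (fh2_u4z x h2)
    have h2 : n4 x = 0 := by
      by_contra h2
      exact hx (fh2_n4z x h2)
    rw [h1, h2]; ring
theorem fh2_st6 : fh2_st n4 u4 0 := by
  intro x
  rw [fh2_e_0, one_mul]
  by_cases hx : x % 4 = 0
  · exact fh2_n4u4 x hx
  · have h1 : u4 x = 0 := by
      by_contra h2
      exact hx (fh2_u4z x h2)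
    have h2 : n4 x = 0 := by
      by_contra h2
      exact hx (fh2_n4z x h2)
    rw [h1, h2]; ring
theorem fh2_st7 : fh2_st o2 o2 4 := by
  intro x
  by_cases hx : o2 x = 0
  · rw [hx]; ring
  · rw [fh2_e_mod (x * x) 4 (by rw [fh2_s2 x (fh2_o2z x hx)]; norm_num)]; ring
theorem fh2_st8 : fh2_st k2 k2 4 := by
  intro x
  by_cases hx : k2 x = 0
  · rw [hx]; ring
  · have h1 := fh2_k2z x hx
    rw [fh2_e_mod (x * x) 4 (by rw [fh2_s2 x (by omega)]; norm_num)]; ring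
theorem fh2_st9 : fh2_st e8 e8 0 := by
  intro x
  by_cases hx : e8 x = 0
  · rw [hx]; ring
  · rw [fh2_e_mod (x * x) 0 (by rw [fh2_s8 x (fh2_e8z x hx)]; norm_num)]; ring

theorem fh2_comb (f g h f' g' h' : ℤ → ℂ) (a b c s : ℤ) (h1 : fh2_st f f' a) (h2 : fh2_st g g' b)
    (h3 : fh2_st h h' c) (hs : a + b + c = s) (v : T) :
    f v.1 * g v.2.1 * h v.2.2 * fh2_e (dot v v) =
      fh2_e s * (f' v.1 * g' v.2.1 * h' v.2.2) := by
  have e : fh2_e (dot v v) = fh2_e (v.1 * v.1) * fh2_e (v.2.1 * v.2.1) * fh2_e (v.2.2 * v.2.2) := by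
    rw [← fh2_e_add, ← fh2_e_add]
    rfl
  rw [e, ← hs, fh2_e_add, fh2_e_add]
  calc _ = (f v.1 * fh2_e (v.1 * v.1)) * (g v.2.1 * fh2_e (v.2.1 * v.2.1)) *
      (h v.2.2 * fh2_e (v.2.2 * v.2.2)) := by ring
    _ = _ := by rw [h1, h2, h3]; ring

theorem fh2_zf (k : ℕ) : zf ^ k = fh2_e k := by
  unfold zf fh2_e
  rw [← Complex.exp_nat_mul]
  congr 1
  push_cast
  ring

theorem fh2_step (i : Fin 12) (v : T) : B i v * fh2_e (dot v v) = dT i * B (uT i) v := by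
  have z1 : zf = fh2_e 1 := by have := fh2_zf 1; rw [pow_one] at this; exact_mod_cast this
  have z4 : zf ^ 4 = fh2_e 4 := by have := fh2_zf 4; exact_mod_cast this
  have z5 : zf ^ 5 = fh2_e 5 := by have := fh2_zf 5; exact_mod_cast this
  have z8 : zf ^ 8 = fh2_e 8 := by have := fh2_zf 8; exact_mod_cast this
  fin_cases i
  · show B 0 v * fh2_e (dot v v) = zf * B 1 v
    rw [z1]
    exact fh2_comb _ _ _ _ _ _ 1 0 0 1 fh2_st1 fh2_st5 fh2_st6 (by norm_num) v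
  · show B 1 v * fh2_e (dot v v) = zf * B 2 v
    rw [z1]
    exact fh2_comb _ _ _ _ _ _ 1 0 0 1 fh2_st2 fh2_st6 fh2_st5 (by norm_num) v
  · show B 2 v * fh2_e (dot v v) = zf * B 3 v
    rw [z1]
    exact fh2_comb _ _ _ _ _ _ 1 0 0 1 fh2_st3 fh2_st5 fh2_st6 (by norm_num) v
  · show B 3 v * fh2_e (dot v v) = zf * B 0 v
    rw [z1]
    exact fh2_comb _ _ _ _ _ _ 1 0 0 1 fh2_st4 fh2_st6 fh2_st5 (by norm_num) v
  · show B 4 v * fh2_e (dot v v) = zf ^ 4 * B 5 v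
    rw [z4]
    exact fh2_comb _ _ _ _ _ _ 0 4 0 4 fh2_st9 fh2_st7 fh2_st6 (by norm_num) v
  · show B 5 v * fh2_e (dot v v) = zf ^ 4 * B 4 v
    rw [z4]
    exact fh2_comb _ _ _ _ _ _ 0 4 0 4 fh2_st9 fh2_st7 fh2_st5 (by norm_num) v
  · show B 6 v * fh2_e (dot v v) = zf ^ 5 * B 7 v
    rw [z5]
    exact fh2_comb _ _ _ _ _ _ 1 0 4 5 fh2_st1 fh2_st5 fh2_st7 (by norm_num) v
  · show B 7 v * fh2_e (dot v v) = zf ^ 5 * B 8 v
    rw [z5]
    exact fh2_comb _ _ _ _ _ _ 1 0 4 5 fh2_st2 fh2_st6 fh2_st7 (by norm_num) v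
  · show B 8 v * fh2_e (dot v v) = zf ^ 5 * B 9 v
    rw [z5]
    exact fh2_comb _ _ _ _ _ _ 1 0 4 5 fh2_st3 fh2_st5 fh2_st7 (by norm_num) v
  · show B 9 v * fh2_e (dot v v) = zf ^ 5 * B 6 v
    rw [z5]
    exact fh2_comb _ _ _ _ _ _ 1 0 4 5 fh2_st4 fh2_st6 fh2_st7 (by norm_num) v
  · show B 10 v * fh2_e (dot v v) = zf ^ 8 * B 11 v
    rw [z8]
    exact fh2_comb _ _ _ _ _ _ 4 4 0 8 fh2_st8 fh2_st7 fh2_st6 (by norm_num) v
  · show B 11 v * fh2_e (dot v v) = zf ^ 8 * B 10 v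
    rw [z8]
    exact fh2_comb _ _ _ _ _ _ 4 4 0 8 fh2_st8 fh2_st7 fh2_st5 (by norm_num) v

theorem fh2_dT0 (i : Fin 12) : dT i ≠ 0 := by
  have z : zf ≠ 0 := Complex.exp_ne_zero _
  fin_cases i
  · exact z
  · exact z
  · exact z
  · exact z
  · exact pow_ne_zero 4 z
  · exact pow_ne_zero 4 z
  · exact pow_ne_zero 5 z
  · exact pow_ne_zero 5 z
  · exact pow_ne_zero 5 z
  · exact pow_ne_zero 5 z
  · exact pow_ne_zero 8 z
  · exact pow_ne_zero 8 z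

theorem fh2_e8k (k : ℤ) (j : ℕ) (h : k % 4 = (j : ℤ) % 4) : fh2_e (8 * k) = Complex.I ^ j := by
  have h1 : ∀ j : ℕ, fh2_e (8 * (j : ℤ)) = Complex.I ^ j := by
    intro j
    induction j with
    | zero => rw [pow_zero, Nat.cast_zero, mul_zero, fh2_e_0]
    | succ j ih =>
      have e8 : (8 * ((j + 1 : ℕ) : ℤ)) = 8 * (j : ℤ) + 8 := by push_cast; ring
      rw [e8, fh2_e_add, ih, fh2_e_8, pow_succ]
  rw [← h1]
  apply fh2_e_mod
  omega

/-- the dependence on `d` -/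
theorem fh2_d (d : ℕ) (h8 : d % 8 = 1) (i : Fin 12) (m : ℤ) (h : fh2_cl i m) :
    fh2_e m = fT (et d) i * fh2_e (d * m) := by
  obtain ⟨k, hk⟩ : ∃ k : ℕ, d = 8 * k + 1 := ⟨d / 8, by omega⟩
  have hkd : (d - 1) / 8 = k := by omega
  have e : ((d : ℕ) : ℤ) * m = 8 * (k * m) + m := by rw [hk]; push_cast; ring
  rw [e, fh2_e_add]
  have odd : m % 4 = 1 → fh2_e m = et d * (fh2_e (8 * (k * m)) * fh2_e m) := by
    intro hm
    obtain ⟨j, hj⟩ : ∃ j : ℤ, m = 4 * j + 1 := ⟨m / 4, by omega⟩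
    have e2 : (k : ℤ) * m = 4 * (k * j) + k := by rw [hj]; ring
    rw [fh2_e8k (k * m) k (by rw [e2]; omega)]
    unfold et
    rw [hkd, ← mul_assoc, ← mul_pow]
    have : -Complex.I * Complex.I = 1 := by
      rw [neg_mul, Complex.I_mul_I, neg_neg]
    rw [this, one_pow, one_mul]
  have even : m % 4 = 0 → fh2_e m = 1 * (fh2_e (8 * (k * m)) * fh2_e m) := by
    intro hm
    obtain ⟨j, hj⟩ : ∃ j : ℤ, m = 4 * j := ⟨m / 4, by omega⟩
    have e2 : (k : ℤ) * m = 4 * (k * j) := by rw [hj]; ring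
    rw [fh2_e8k (k * m) 0 (by rw [e2]; simp), pow_zero, one_mul, one_mul]
  have hp : (((i : ℕ) < 4 ∨ (6 ≤ (i : ℕ) ∧ (i : ℕ) < 10)) ∧ fT (et d) i = et d) ∨
      ((((i : ℕ) = 4 ∨ (i : ℕ) = 5) ∨ 10 ≤ (i : ℕ)) ∧ fT (et d) i = 1) := by
    clear h
    fin_cases i
    · exact Or.inl ⟨by decide, rfl⟩
    · exact Or.inl ⟨by decide, rfl⟩
    · exact Or.inl ⟨by decide, rfl⟩
    · exact Or.inl ⟨by decide, rfl⟩
    · exact Or.inr ⟨by decide, rfl⟩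
    · exact Or.inr ⟨by decide, rfl⟩
    · exact Or.inl ⟨by decide, rfl⟩
    · exact Or.inl ⟨by decide, rfl⟩
    · exact Or.inl ⟨by decide, rfl⟩
    · exact Or.inl ⟨by decide, rfl⟩
    · exact Or.inr ⟨by decide, rfl⟩
    · exact Or.inr ⟨by decide, rfl⟩
  unfold fh2_cl at h
  rcases hp with ⟨h1, h2⟩ | ⟨h1, h2⟩
  · rw [h2]
    exact odd (by omega)
  · rw [h2]
    exact even (by omega)

/-- translation by one -/
theorem BP_T (d : ℕ) (hs : Squarefree d) (h8 : d % 8 = 1) (u : T) (i : Fin 12) (v : T) :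
    BP d u i v * Complex.exp (π * Complex.I * (dot v v : ℤ) / (16 * d : ℕ)) =
      fT (et d) i * dT i * BP d u (uT i) v := by
  by_cases hP : Psi d u v = 0
  · unfold BP
    rw [hP]
    simp
  · obtain ⟨m, hm⟩ := fh2_psi d hs u v hP
    have hd0 : ((d : ℕ) : ℂ) ≠ 0 := by
      have : d ≠ 0 := by omega
      exact_mod_cast this
    have he : Complex.exp (π * Complex.I * (dot v v : ℤ) / (16 * d : ℕ)) = fh2_e m := by
      unfold fh2_e
      congr 1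
      rw [hm]
      push_cast
      field_simp
    rw [he]
    have key : B i v * fh2_e m = fT (et d) i * dT i * B (uT i) v := by
      have hst := fh2_step i v
      by_cases hB : B i v = 0
      · rw [hB, zero_mul] at hst
        have h2 : B (uT i) v = 0 := by
          rcases mul_eq_zero.1 hst.symm with h3 | h3
          · exact absurd h3 (fh2_dT0 i)
          · exact h3
        rw [hB, h2]; ring
      · have h1 := fh2_Bcl i v hB
        rw [hm] at h1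
        rw [fh2_d d h8 i m (fh2_clm d h8 i m h1), ← hm]
        calc B i v * (fT (et d) i * fh2_e (dot v v)) =
            fT (et d) i * (B i v * fh2_e (dot v v)) := by ring
          _ = _ := by rw [hst]; ring
    unfold BP
    calc B i v * (Psi d u v : ℤ) * fh2_e m = (B i v * fh2_e m) * (Psi d u v : ℤ) := by ring
      _ = _ := by rw [key]; ring

end Pool.Agent.GNF
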