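import Pool.Agent.Lib_helper7.GNF.D3
import Pool.Agent.Lib_helper7.GNF.P.TC
import Pool.Agent.Lib_helper7.GNF.P.TE
import Pool.Agent.Lib_helper7.GNF.P.TF
import Pool.Agent.Lib_helper7.GNF.P.FE
import Pool.Agent.Lib_helper7.GNF.P.FG2
import Pool.Agent.Lib_helper7.GNF.P.FH2

set_option autoImplicit false

namespace Pool.Agent.GNF

open Finset Pool.Agent.GEN
open scoped Real

theorem sy2_th_mul (M : ℕ) (c : ℂ) (F : T → ℂ) (τ : ℂ) :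
    th M (fun w => c * F w) τ = c * th M F τ := by
  unfold th
  rw [← tsum_mul_left]
  refine tsum_congr fun v => ?_
  ring

theorem sy2_delta (d : ℕ) (hd : d ≠ 0) (γ : ℂ) (hγ : γ ^ 2 = (d : ℂ) ^ 3) :
    (γ * (((16 * d : ℕ) : ℂ) ^ (-(1 / 2) : ℂ)) ^ 3 * 64) ^ 2 = 1 := by
  have hx : ((16 * d : ℕ) : ℂ) ≠ 0 := by
    have : (16 * d : ℕ) ≠ 0 := by omega
    exact_mod_cast this
  have hdc : (d : ℂ) ≠ 0 := by exact_mod_cast hd
  have h2 : (((16 * d : ℕ) : ℂ) ^ (-(1 / 2) : ℂ)) ^ 2 = (((16 * d : ℕ) : ℂ))⁻¹ := by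
    rw [sq, ← Complex.cpow_add _ _ hx]
    have : (-(1 / 2) : ℂ) + (-(1 / 2) : ℂ) = -1 := by norm_num
    rw [this, Complex.cpow_neg_one]
  have h3 : (γ * (((16 * d : ℕ) : ℂ) ^ (-(1 / 2) : ℂ)) ^ 3 * 64) ^ 2 =
      γ ^ 2 * ((((16 * d : ℕ) : ℂ) ^ (-(1 / 2) : ℂ)) ^ 2) ^ 3 * 4096 := by ring
  rw [h3, h2, hγ]
  push_cast
  field_simp
  norm_num

/-- the second theta series attached to `d` form a system -/
theorem SY2 (d : ℕ) (hs : Squarefree d) (h8 : d % 8 = 1) (u : T)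
    (hu : ∀ p ∈ d.primeFactors, Iso p u) :
    ∃ δ : ℂ, δ ^ 2 = 1 ∧ SysG (fun i => th (16 * d) (BP d u i)) uS uT
      (fun i => δ * (gS (sd d) i * dS i)) (fun i => fT (et d) i * dT i) pT := by
  have hd : d ≠ 0 := by rintro rfl; simp at h8
  have h2 : d % 2 = 1 := by omega
  have h4 : d % 4 = 1 := by omega
  have hM : 0 < 16 * d := by omega
  obtain ⟨γ, hγ⟩ := FD d hs h2 u hu
  have hγ2 := FE d hs h4 u hu γ hγ
  refine ⟨γ * (((16 * d : ℕ) : ℂ) ^ (-(1 / 2) : ℂ)) ^ 3 * 64, sy2_delta d hd γ hγ2, ?_, ?_, ?_, ?_⟩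
  · intro i
    exact TE (16 * d) hM (BP d u i) 1 (BP_norm d h2 u hu i)
  · intro i τ hτ
    show th (16 * d) (BP d u i) (-1 / τ) =
      (γ * (((16 * d : ℕ) : ℂ) ^ (-(1 / 2) : ℂ)) ^ 3 * 64) * (gS (sd d) i * dS i) * J τ ^ 3 *
        th (16 * d) (BP d u (uS i)) τ
    rw [TC (16 * d) hM (BP d u i) (BP_per d hs h8 u hu i) τ hτ]
    have e : FT (16 * d) (BP d u i) = fun w => (64 * (gS (sd d) i * dS i) * γ) * BP d u (uS i) w := by
      funext w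
      exact FG2 d hs h8 u hu γ hγ i w
    rw [e, sy2_th_mul]
    ring
  · intro i τ hτ
    show th (16 * d) (BP d u i) (τ + 1) = (fT (et d) i * dT i) * th (16 * d) (BP d u (uT i)) τ
    rw [← sy2_th_mul]
    unfold th
    refine tsum_congr fun v => ?_
    have e1 : Complex.exp (π * Complex.I * (dot v v : ℤ) * (τ + 1) / (16 * d : ℕ)) =
        Complex.exp (π * Complex.I * (dot v v : ℤ) / (16 * d : ℕ)) *
        Complex.exp (π * Complex.I * (dot v v : ℤ) * τ / (16 * d : ℕ)) := by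
      rw [← Complex.exp_add]
      congr 1
      ring
    rw [e1, ← mul_assoc, BP_T d hs h8 u i v]
  · intro i
    obtain ⟨C, hC⟩ := TF (16 * d) hM (BP d u i) 1 (BP_norm d h2 u hu i) ((pT i * d : ℕ) : ℤ)
      (fun v hv => BP_supp d hs h8 u i v hv)
    refine ⟨C, fun τ hτ => ?_⟩
    have h := hC τ hτ
    have e : -π * (((pT i * d : ℕ) : ℤ) : ℝ) * τ.im / ((16 * d : ℕ) : ℝ) =
        -π * (pT i : ℝ) * τ.im / 16 := by
      have hdr : (d : ℝ) ≠ 0 := by exact_mod_cast hd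
      push_cast
      field_simp
    rw [e] at h
    exact h

theorem sy2_bound (N : ℕ) (v : T) (h : v ∈ sph N) (hN : N < 16) :
    -3 ≤ v.1 ∧ v.1 ≤ 3 ∧ -3 ≤ v.2.1 ∧ v.2.1 ≤ 3 ∧ -3 ≤ v.2.2 ∧ v.2.2 ≤ 3 ∧ dot v v = N := by
  unfold sph at h
  have h1 := (Finset.mem_filter.1 h).2
  have hN' : (N : ℤ) < 16 := by exact_mod_cast hN
  have h2 : v.1 * v.1 + v.2.1 * v.2.1 + v.2.2 * v.2.2 = N := h1
  refine ⟨?_, ?_, ?_, ?_, ?_, ?_, h1⟩ <;> nlinarith [mul_self_nonneg v.1, mul_self_nonneg v.2.1, mul_self_nonneg v.2.2]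

theorem sy2_mem (N : ℕ) (v : T) (h1 : v.1 ∈ Icc (-(N : ℤ)) N) (h2 : v.2.1 ∈ Icc (-(N : ℤ)) N)
    (h3 : v.2.2 ∈ Icc (-(N : ℤ)) N) (h : dot v v = N) : v ∈ sph N := by
  unfold sph
  exact Finset.mem_filter.2 ⟨Finset.mem_product.2 ⟨h1, Finset.mem_product.2 ⟨h2, h3⟩⟩, h⟩

/-- a small box -/
noncomputable def sy2_box : Finset T := Icc (-3 : ℤ) 3 ×ˢ Icc (-3 : ℤ) 3 ×ˢ Icc (-3 : ℤ) 3

theorem sy2_sph (N : ℕ) (h3 : 3 ≤ N) (hN : N < 16) :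
    sph N = sy2_box.filter (fun v => v.1 * v.1 + v.2.1 * v.2.1 + v.2.2 * v.2.2 = (N : ℤ)) := by
  have hN3 : (3 : ℤ) ≤ N := by exact_mod_cast h3
  ext v
  constructor
  · intro h
    obtain ⟨a, b, c, d, e, f, g⟩ := sy2_bound N v h hN
    refine Finset.mem_filter.2 ⟨?_, g⟩
    exact Finset.mem_product.2 ⟨Finset.mem_Icc.2 ⟨a, b⟩, Finset.mem_product.2
      ⟨Finset.mem_Icc.2 ⟨c, d⟩, Finset.mem_Icc.2 ⟨e, f⟩⟩⟩
  · intro h
    obtain ⟨h1, h2⟩ := Finset.mem_filter.1 h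
    obtain ⟨ha, hb⟩ := Finset.mem_product.1 h1
    obtain ⟨hb, hc⟩ := Finset.mem_product.1 hb
    rw [Finset.mem_Icc] at ha hb hc
    exact sy2_mem N v (Finset.mem_Icc.2 ⟨by omega, by omega⟩) (Finset.mem_Icc.2 ⟨by omega, by omega⟩)
      (Finset.mem_Icc.2 ⟨by omega, by omega⟩) h2

theorem sy2_sph1 : sph 1 = {(1, 0, 0), (-1, 0, 0), (0, 1, 0), (0, -1, 0), (0, 0, 1), (0, 0, -1)} := by
  unfold sph
  decide +kernel

theorem sy2_sph4 : sph 4 = {(2, 0, 0), (-2, 0, 0), (0, 2, 0), (0, -2, 0), (0, 0, 2), (0, 0, -2)} := by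
  rw [sy2_sph 4 (by norm_num) (by norm_num)]
  decide +kernel

theorem sy2_sph5 : sph 5 = {(0, 1, 2), (0, 1, -2), (0, -1, 2), (0, -1, -2),
    (0, 2, 1), (0, 2, -1), (0, -2, 1), (0, -2, -1),
    (1, 0, 2), (1, 0, -2), (-1, 0, 2), (-1, 0, -2),
    (2, 0, 1), (2, 0, -1), (-2, 0, 1), (-2, 0, -1),
    (1, 2, 0), (1, -2, 0), (-1, 2, 0), (-1, -2, 0),
    (2, 1, 0), (2, -1, 0), (-2, 1, 0), (-2, -1, 0)} := by
  rw [sy2_sph 5 (by norm_num) (by norm_num)]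
  decide +kernel

theorem sy2_sph8 : sph 8 = {(0, 2, 2), (0, 2, -2), (0, -2, 2), (0, -2, -2),
    (2, 0, 2), (2, 0, -2), (-2, 0, 2), (-2, 0, -2),
    (2, 2, 0), (2, -2, 0), (-2, 2, 0), (-2, -2, 0)} := by
  rw [sy2_sph 8 (by norm_num) (by norm_num)]
  decide +kernel

theorem sy2_BP1 (u : T) (i : Fin 12) (v : T) : BP 1 u i v = B i v := by
  unfold BP Psi
  simp

theorem sy2_L (i : Fin 12) : ∑ v ∈ sph (pT i), B i v ≠ 0 := by
  fin_cases i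
  · show ∑ v ∈ sph 1, B 0 v ≠ 0
    rw [sy2_sph1]
    simp [B, od, u4, n4]
    try norm_num
  · show ∑ v ∈ sph 1, B 1 v ≠ 0
    rw [sy2_sph1]
    simp [B, bb, u4, n4]
    try norm_num
  · show ∑ v ∈ sph 1, B 2 v ≠ 0
    rw [sy2_sph1]
    simp [B, c2, u4, n4]
    try norm_num
  · show ∑ v ∈ sph 1, B 3 v ≠ 0
    rw [sy2_sph1]
    simp [B, bq, u4, n4]
    try norm_num
  · show ∑ v ∈ sph 4, B 4 v ≠ 0
    rw [sy2_sph4]
    simp [B, e8, o2, n4]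
    try norm_num
  · show ∑ v ∈ sph 4, B 5 v ≠ 0
    rw [sy2_sph4]
    simp [B, e8, o2, u4]
    try norm_num
  · show ∑ v ∈ sph 5, B 6 v ≠ 0
    rw [sy2_sph5]
    simp [B, od, u4, o2]
    try norm_num
  · show ∑ v ∈ sph 5, B 7 v ≠ 0
    rw [sy2_sph5]
    simp [B, bb, n4, o2]
    try norm_num
  · show ∑ v ∈ sph 5, B 8 v ≠ 0
    rw [sy2_sph5]
    simp [B, c2, u4, o2]
    try norm_num
  · show ∑ v ∈ sph 5, B 9 v ≠ 0
    rw [sy2_sph5]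
    simp [B, bq, n4, o2]
    try norm_num
  · show ∑ v ∈ sph 8, B 10 v ≠ 0
    rw [sy2_sph8]
    simp [B, k2, o2, n4]
    try norm_num
  · show ∑ v ∈ sph 8, B 11 v ≠ 0
    rw [sy2_sph8]
    simp [B, k2, o2, u4]
    try norm_num

/-- leading coefficients for `d = 1` -/
theorem SY2_lead (u : T) (i : Fin 12) : ∃ L : ℂ, L ≠ 0 ∧ ∀ e : ℝ, 0 < e → ∃ Y : ℝ, ∀ z : ℂ, Y ≤ z.im →
    ‖th (16 * 1) (BP 1 u i) z * Complex.exp (-(π * Complex.I * pT i * z / 16)) - L‖ ≤ e := by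
  refine ⟨∑ v ∈ sph (pT i), BP 1 u i v, ?_, fun e he => ?_⟩
  · rw [Finset.sum_congr rfl (fun v _ => sy2_BP1 u i v)]
    exact sy2_L i
  · have hu : ∀ p ∈ (1 : ℕ).primeFactors, Iso p u := by simp
    obtain ⟨Y, hY⟩ := TG (16 * 1) (by norm_num) (BP 1 u i) 1 (BP_norm 1 (by norm_num) u hu i) (pT i)
      (fun v hv => by
        have h := BP_supp 1 squarefree_one (by norm_num) u i v hv
        rw [mul_one] at h
        exact h) e he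
    refine ⟨Y, fun τ hτ => ?_⟩
    have h := hY τ hτ
    have e1 : ((16 * 1 : ℕ) : ℂ) = 16 := by norm_num
    rw [e1] at h
    exact h

end Pool.Agent.GNF
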