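import Pool.Agent.Lib_helper7.GNF.D3
import Pool.Agent.Lib_helper7.GNF.P.SY2
import Pool.Agent.Lib_helper7.GNF.P.GC
import Pool.Agent.Lib_helper7.GNF.P.TH

set_option autoImplicit false

namespace Pool.Agent.GNF

open Finset Pool.Agent.GEN
open scoped Real

theorem tm2_dvd (d : ℕ) (hs : Squarefree d) (u v : T) (i : Fin 12) (h : BP d u i v ≠ 0) :
    (d : ℤ) ∣ dot v v := by
  have h1 : Psi d u v ≠ 0 := by
    intro h0
    apply h
    unfold BP
    rw [h0]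
    simp
  have h2 : ∀ p ∈ d.primeFactors, (p : ℤ) ∣ dot v v := by
    intro p hp
    have h3 : psi p u v ≠ 0 := Finset.prod_ne_zero_iff.1 h1 p hp
    have h4 : Iso p v := by
      by_contra h5
      apply h3
      unfold psi
      rw [if_neg h5]
    exact h4.1
  have h3 : d = ∏ p ∈ d.primeFactors, p := (Nat.prod_primeFactors_of_squarefree hs).symm
  rw [← Int.dvd_natAbs, Int.natCast_dvd_natCast]
  rw [h3]
  refine Finset.prod_primes_dvd _ (fun p hp => (Nat.prime_of_mem_primeFactors hp).prime) ?_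
  intro p hp
  have := h2 p hp
  rwa [← Int.dvd_natAbs, Int.natCast_dvd_natCast] at this

theorem tm2_jac (a : ℤ) (b : ℕ) : |jacobiSym a b| ≤ 1 := by
  rcases jacobiSym.trichotomy a b with h | h | h <;> rw [h] <;> simp

theorem tm2_chi (p : ℕ) (v w : T) : |chi p v w| ≤ 1 := by
  unfold chi
  split_ifs <;> exact tm2_jac _ _

theorem tm2_Psi (d : ℕ) (u v : T) : |Psi d u v| ≤ 1 := by
  unfold Psi
  rw [Finset.abs_prod]
  refine Finset.prod_le_one (fun p _ => abs_nonneg _) fun p _ => ?_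
  unfold psi
  split_ifs
  · exact tm2_chi p v u
  · simp

theorem tm2_B0 (v : T) : ‖B 0 v‖ ≤ 1 := by
  have h1 : ‖od v.1‖ ≤ 1 := by unfold od; split_ifs <;> simp
  have h2 : ‖u4 v.2.1‖ ≤ 1 := by unfold u4; split_ifs <;> simp
  have h3 : ‖n4 v.2.2‖ ≤ 1 := by unfold n4; split_ifs <;> simp
  show ‖od v.1 * u4 v.2.1 * n4 v.2.2‖ ≤ 1
  rw [norm_mul, norm_mul]
  exact mul_le_one₀ (mul_le_one₀ h1 (norm_nonneg _) h2) (norm_nonneg _) h3

theorem tm2_BP0 (d : ℕ) (u : T) (v : T) : ‖BP d u 0 v‖ ≤ 1 := by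
  unfold BP
  rw [norm_mul]
  refine mul_le_one₀ (tm2_B0 v) (norm_nonneg _) ?_
  rw [Complex.norm_intCast]
  have h := tm2_Psi d u v
  have h2 : ((|Psi d u v| : ℤ) : ℝ) ≤ ((1 : ℤ) : ℝ) := Int.cast_le.2 h
  rw [Int.cast_abs, Int.cast_one] at h2
  exact h2

theorem tm2_et (d : ℕ) : et d ^ 4 = 1 := by
  unfold et
  rw [← pow_mul, mul_comm, pow_mul]
  have h : (-Complex.I) ^ 4 = 1 := by
    rw [neg_pow, Complex.I_pow_four]
    norm_num
  rw [h, one_pow]

theorem tm2_et1 : et 1 = 1 := by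
  unfold et
  norm_num

theorem tm2_fT (i : Fin 12) : fT 1 i = 1 := by
  fin_cases i <;> rfl

theorem tm2_fT4 (η : ℂ) (hη : η ^ 4 = 1) (i : Fin 12) : fT η i ^ 4 = 1 := by
  have h1 : (1 : ℂ) ^ 4 = 1 := one_pow 4
  fin_cases i
  · exact hη
  · exact hη
  · exact hη
  · exact hη
  · exact h1
  · exact h1
  · exact hη
  · exact hη
  · exact hη
  · exact hη
  · exact h1
  · exact h1

theorem tm2_one (u : T) (i : Fin 12) : BP 1 u i = B i := by
  funext v
  unfold BP Psi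
  simp

theorem tm2_gS1 (i : Fin 12) : gS (sd 1) i = 1 := by
  unfold sd
  rw [if_pos (by norm_num)]
  fin_cases i <;> rfl

theorem tm2_gS4 (d : ℕ) (i : Fin 12) : gS (sd d) i ^ 4 = 1 := by
  have h : sd d ^ 4 = 1 := by
    unfold sd
    split <;> norm_num
  fin_cases i <;> simp [gS, h]

/-- product structure for the second system -/
theorem TM2 (d : ℕ) (hs : Squarefree d) (h8 : d % 8 = 1) (u : T)
    (hu : ∀ p ∈ d.primeFactors, Iso p u) :
    ∃ κ : ℂ, ∀ N : ℕ,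
      (∑ v ∈ sph (d * N), B 0 v * (Psi d u v : ℤ)) = κ * ∑ v ∈ sph N, B 0 v := by
  obtain ⟨δ, hδ, H⟩ := SY2 d hs h8 u hu
  obtain ⟨δ₁, hδ₁, H₁⟩ := SY2 1 squarefree_one (by norm_num) u (by simp)
  obtain ⟨hp1, hp2, hd0, ht0⟩ := FF2_prod
  have hδ4 : δ ^ 4 = 1 := by
    rw [show 4 = 2 * 2 from rfl, pow_mul, hδ, one_pow]
  have hδ14 : δ₁ ^ 4 = 1 := by
    rw [show 4 = 2 * 2 from rfl, pow_mul, hδ₁, one_pow]
  have hδ10 : δ₁ ≠ 0 := by
    rintro rfl
    norm_num at hδ₁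
  have hf1 : ∀ i, fT (et 1) i = 1 := fun i => by rw [tm2_et1]; exact tm2_fT i
  have h := GC uS uT (by decide) (by decide) (fun i => δ₁ * (gS (sd 1) i * dS i))
    (fun i => fT (et 1) i * dT i)
    (fun i => δ * (gS (sd d) i * dS i)) (fun i => fT (et d) i * dT i) pT (by decide) _ _ H₁ H 4
    (by norm_num)
    (fun i => by
      show (δ * (gS (sd d) i * dS i)) ^ 4 = (δ₁ * (gS (sd 1) i * dS i)) ^ 4
      rw [mul_pow, mul_pow, mul_pow, mul_pow, hδ4, hδ14, tm2_gS4, tm2_gS4])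
    (fun i => by
      show (fT (et d) i * dT i) ^ 4 = (fT (et 1) i * dT i) ^ 4
      rw [mul_pow, mul_pow, tm2_fT4 _ (tm2_et d), tm2_fT4 _ (tm2_et 1)])
    (fun i => by
      show δ₁ * (gS (sd 1) i * dS i) ≠ 0
      rw [tm2_gS1, one_mul]
      exact mul_ne_zero hδ10 (hd0 i))
    (fun i => by
      show fT (et 1) i * dT i ≠ 0
      rw [hf1, one_mul]
      exact ht0 i)
    (by
      have h1 : (∏ i, δ₁ * (gS (sd 1) i * dS i)) = ∏ i, δ₁ * dS i :=
        Finset.prod_congr rfl fun i _ => by rw [tm2_gS1, one_mul]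
      rw [h1, Finset.prod_mul_distrib, hp1, mul_one, Finset.prod_const, ← pow_mul]
      have : (Finset.univ : Finset (Fin 12)).card * 8 = 2 * 48 := by decide
      rw [this, pow_mul, hδ₁, one_pow])
    (by
      have h1 : (∏ i, fT (et 1) i * dT i) = ∏ i, dT i :=
        Finset.prod_congr rfl fun i _ => by rw [hf1, one_mul]
      rw [h1, hp2])
    (fun i => SY2_lead u i) 0
  obtain ⟨κ, hκ⟩ := h
  refine ⟨κ, fun N => ?_⟩
  refine TH d (Nat.pos_of_ne_zero hs.ne_zero) (BP d u 0) (B 0) 1 (tm2_BP0 d u) tm2_B0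
    (fun v hv => tm2_dvd d hs u v 0 hv) κ ?_ N
  intro τ hτ
  have h1 := hκ τ hτ
  show th (16 * d) (BP d u 0) τ = κ * th 16 (B 0) τ
  have h2 : th (16 * d) (BP d u 0) τ = κ * th (16 * 1) (BP 1 u 0) τ := h1
  rw [h2, tm2_one, Nat.mul_one]

end Pool.Agent.GNF
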