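import Pool.Agent.Lib_helper7.GNF.D3
import Pool.Agent.Lib_helper7.GNF.P.TM2
import Pool.Agent.Lib_helper7.GNF.P.KA

set_option autoImplicit false

namespace Pool.Agent.GNF

open Finset Pool.Agent.GEN
open scoped Real

theorem pb_u4 (x : ℤ) : u4 x = ((q4 x : ℤ) : ℂ) := by
  unfold u4 q4
  split_ifs <;> simp

theorem pb_B0 (v : T) : B 0 v = ((wb v : ℤ) : ℂ) := by
  show od v.1 * u4 v.2.1 * n4 v.2.2 = _
  unfold wb od n4
  rw [pb_u4]
  by_cases h1 : v.1 % 2 = 1 <;> by_cases h2 : v.2.2 % 4 = 0 <;> simp [h1, h2]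

theorem pb_q4 {x : ℤ} (h : q4 x ≠ 0) : x % 4 = 0 := by
  unfold q4 at h
  by_contra h4
  apply h
  rw [if_neg (by omega), if_neg (by omega)]

theorem pb_kap {v : T} (hw : wb v ≠ 0) : Pool.Agent.GEN.kap v = 1 := by
  have h1 : v.1 % 2 = 1 ∧ v.2.2 % 4 = 0 := by
    by_contra h
    apply hw
    unfold wb
    rw [if_neg h]
  have h2 : q4 v.2.1 ≠ 0 := by
    intro h
    apply hw
    unfold wb
    rw [if_pos h1, h]
  have h3 := pb_q4 h2
  obtain ⟨h4, h5⟩ := h1
  unfold Pool.Agent.GEN.kap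
  rw [if_neg]
  rintro (h | h | h) <;> omega

theorem pb_sum1 : ∑ v ∈ sph 1, wb v = 2 := by
  unfold sph
  rw [Finset.sum_filter]
  rfl

/-- **product formula** for the weight `(-1)^b` -/
theorem PB (d m : ℕ) (hs : Squarefree d) (h8 : d % 8 = 1) :
    2 * ∑ v ∈ sph (d * m), wb v * kap d v = cb d * cb m := by
  obtain ⟨u, hb⟩ := base_exists d h8
  have hu : ∀ p ∈ d.primeFactors, Iso p u := fun p hp => base_iso d hs u hb p hp
  obtain ⟨κ, hκ⟩ := TM2 d hs h8 u hu
  have key : ∀ N : ℕ, ((∑ v ∈ sph (d * N), wb v * kap d v : ℤ) : ℂ) =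
      ((Pool.Agent.GEN.kap u : ℤ) : ℂ) * κ * ((cb N : ℤ) : ℂ) := by
    intro N
    have h0 := hκ N
    have e1 : ∑ v ∈ sph (d * N), B 0 v * (Psi d u v : ℤ) =
        ((∑ v ∈ sph (d * N), wb v * Psi d u v : ℤ) : ℂ) := by
      push_cast
      apply Finset.sum_congr rfl
      intro v _
      rw [pb_B0]
    have e2 : ∑ v ∈ sph N, B 0 v = ((cb N : ℤ) : ℂ) := by
      unfold cb
      push_cast
      apply Finset.sum_congr rfl
      intro v _
      rw [pb_B0]
    have e : ∑ v ∈ sph (d * N), wb v * kap d v =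
        Pool.Agent.GEN.kap u * ∑ v ∈ sph (d * N), wb v * Psi d u v := by
      rw [Finset.mul_sum]
      apply Finset.sum_congr rfl
      intro v _
      rw [kap_eq d hs h8 u hb v]
      ring
    rw [e1, e2] at h0
    rw [e, Int.cast_mul, h0, mul_assoc]
  have h1 := key 1
  rw [mul_one] at h1
  have e : ∑ v ∈ sph d, wb v * kap d v = cb d := by
    unfold cb
    apply Finset.sum_congr rfl
    intro v hv
    by_cases hw : wb v = 0
    · rw [hw, zero_mul]
    · rw [kap_self d hs h8 v (Finset.mem_filter.mp hv).2, pb_kap hw, mul_one]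
  have hc1 : cb 1 = 2 := pb_sum1
  rw [e, hc1] at h1
  have : ((2 * ∑ v ∈ sph (d * m), wb v * kap d v : ℤ) : ℂ) = ((cb d * cb m : ℤ) : ℂ) := by
    rw [Int.cast_mul, key m]
    push_cast
    rw [h1]
    push_cast
    ring
  exact_mod_cast this

end Pool.Agent.GNF
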