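import Pool.Agent.Lib_helper7.GNF.D3
import Pool.Agent.Lib_helper7.GNF.P.PB
import Pool.Agent.Lib_helper7.GNF.P.KA
import Pool.Agent.Lib_helper7.GNF.P.XA
import Pool.Agent.Lib_helper72.GEN.E
import Pool.Agent.Lib_helper72.GEN.H

set_option autoImplicit false

namespace Pool.Agent.GNF

open Finset Pool.Agent.GEN
open scoped Real

/-- divisors of a squarefree number as sets of primes -/
theorem XG_cdiv (n : ℕ) (hs : Squarefree n) (F : Finset ℕ → ℤ) :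
    ∑ d ∈ n.divisors, F d.primeFactors = ∑ s ∈ n.primeFactors.powerset, F s := by
  refine Finset.sum_nbij' (fun d => d.primeFactors) (fun s => ∏ p ∈ s, p) ?_ ?_ ?_ ?_ ?_
  · intro d hd
    rw [Nat.mem_divisors] at hd
    rw [Finset.mem_powerset]
    exact Nat.primeFactors_mono hd.1 hd.2
  · intro s h
    rw [Finset.mem_powerset] at h
    rw [Nat.mem_divisors]
    refine ⟨?_, hs.ne_zero⟩
    have h1 := Finset.prod_dvd_prod_of_subset _ _ (fun p => p) h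
    rwa [Nat.prod_primeFactors_of_squarefree hs] at h1
  · intro d hd
    rw [Nat.mem_divisors] at hd
    exact Nat.prod_primeFactors_of_squarefree (hs.squarefree_of_dvd hd.1)
  · intro s h
    rw [Finset.mem_powerset] at h
    exact Nat.primeFactors_prod fun p hp => Nat.prime_of_mem_primeFactors (h hp)
  · intro d _
    rfl

/-- the characteristic function of a genus -/
theorem XG_cind (n : ℕ) (hs : Squarefree n) (e : ℕ → ℤ)
    (he : ∀ p ∈ n.primeFactors, e p = 1 ∨ e p = -1) :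
    (2 : ℤ) ^ n.primeFactors.card * (if ∀ p ∈ n.primeFactors, e p = 1 then 1 else 0) =
      ∑ d ∈ n.divisors, ∏ p ∈ d.primeFactors, e p := by
  rw [XG_cdiv n hs (fun s => ∏ p ∈ s, e p), ← Finset.prod_one_add]
  split_ifs with h
  · rw [mul_one, Finset.prod_congr rfl (fun p hp => by rw [h p hp]), Finset.prod_const]
    norm_num
  · push Not at h
    obtain ⟨p, hp, hp1⟩ := h
    rw [mul_zero, Finset.prod_eq_zero hp]
    rw [(he p hp).resolve_left hp1]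
    norm_num

theorem XG_cgen (n : ℕ) (hs : Squarefree n) (Om : Finset T) (w : T) (W : T → ℤ)
    (hpm : ∀ v ∈ Om, ∀ p ∈ n.primeFactors, chi p v w = 1 ∨ chi p v w = -1) :
    2 ^ n.primeFactors.card * ∑ v ∈ Ge n Om w, W v =
      ∑ d ∈ n.divisors, ∑ v ∈ Om, W v * ∏ p ∈ d.primeFactors, chi p v w := by
  rw [Finset.sum_comm, Ge, Finset.sum_filter, Finset.mul_sum]
  refine Finset.sum_congr rfl fun v hv => ?_
  rw [← Finset.mul_sum, ← XG_cind n hs (fun p => chi p v w) (hpm v hv)]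
  split_ifs
  · ring
  · ring

theorem XG_codd {n d : ℕ} (hn : n % 2 = 1) (hd : d ∣ n) : d % 2 = 1 := by
  obtain ⟨k, rfl⟩ := hd
  exact Nat.odd_iff.1 (Nat.odd_mul.1 (Nat.odd_iff.2 hn)).1

/-- the part of `d = 1 mod 8` -/
theorem XG_cone (n d : ℕ) (hs : Squarefree n) (hd : d ∣ n) (h8 : d % 8 = 1)
    (Om : Finset T) (w : T) (W : T → ℤ) (hO : ∀ v ∈ Om, ∀ p ∈ n.primeFactors, Iso p v)
    (hw : ∀ p ∈ n.primeFactors, Iso p w) :
    ∑ v ∈ Om, W v * ∏ p ∈ d.primeFactors, chi p v w =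
      kap d w * ∑ v ∈ Om, W v * kap d v := by
  have hsd : Squarefree d := hs.squarefree_of_dvd hd
  have hsub : d.primeFactors ⊆ n.primeFactors := Nat.primeFactors_mono hd hs.ne_zero
  rw [Finset.mul_sum]
  refine Finset.sum_congr rfl fun v hv => ?_
  rw [← kap_mul d hsd h8 v w (fun p hp => hO v hv p (hsub hp))
    (fun p hp => hw p (hsub hp))]
  ring

theorem XG_cpm {n : ℕ} (hn : n % 2 = 1) {v w : T} (hv : ∀ p ∈ n.primeFactors, Iso p v)
    (hw : ∀ p ∈ n.primeFactors, Iso p w) (p : ℕ) (hp : p ∈ n.primeFactors) :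
    chi p v w = 1 ∨ chi p v w = -1 := by
  have : Fact p.Prime := ⟨Nat.prime_of_mem_primeFactors hp⟩
  exact chi_pm (pf_ne_two hn hp) (hv p hp) (hw p hp)

theorem XG_cOQs {n : ℕ} {v : T} (hv : v ∈ OQ n) : v ∈ sph n := (Finset.mem_filter.1 hv).1

theorem XG_bmem_sph {n : ℕ} {v : T} : v ∈ sph n ↔ dot v v = n := by
  unfold sph
  rw [mem_filter, mem_product, mem_product, mem_Icc, mem_Icc, mem_Icc]
  constructor
  · exact fun h => h.2
  · intro h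
    have key : ∀ x : ℤ, x * x ≤ n → -(n : ℤ) ≤ x ∧ x ≤ n := by
      intro x hx
      have hn : (0 : ℤ) ≤ n := Int.natCast_nonneg n
      constructor
      · by_contra hc
        rw [not_le] at hc
        nlinarith
      · by_contra hc
        rw [not_le] at hc
        nlinarith
    have h' : v.1 * v.1 + v.2.1 * v.2.1 + v.2.2 * v.2.2 = n := h
    exact ⟨⟨key _ (by nlinarith [mul_self_nonneg v.2.1, mul_self_nonneg v.2.2]),
      key _ (by nlinarith [mul_self_nonneg v.1, mul_self_nonneg v.2.2]),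
      key _ (by nlinarith [mul_self_nonneg v.1, mul_self_nonneg v.2.1])⟩, h⟩

theorem XG_bvan {Om : Finset T} {g : T → ℤ} (e e' : T → T) (h1 : ∀ v ∈ Om, e v ∈ Om)
    (h2 : ∀ v ∈ Om, e' v ∈ Om) (h3 : ∀ v, e' (e v) = v) (h4 : ∀ v, e (e' v) = v)
    (h5 : ∀ v ∈ Om, g (e v) = - g v) : ∑ v ∈ Om, g v = 0 := by
  have h : ∑ v ∈ Om, g (e v) = ∑ v ∈ Om, g v :=
    Finset.sum_nbij' e e' h1 h2 (fun v _ => h3 v) (fun v _ => h4 v) (fun v _ => rfl)
  rw [Finset.sum_congr rfl h5, Finset.sum_neg_distrib] at h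
  linarith

theorem XG_biso {n p : ℕ} (hs : Squarefree n) (hp : p ∈ n.primeFactors) {v : T}
    (hv : dot v v = n) : Iso p v := by
  have : Fact p.Prime := ⟨Nat.prime_of_mem_primeFactors hp⟩
  apply iso_of hs (Nat.dvd_of_mem_primeFactors hp)
  rw [← hv]
  unfold dot
  ring

theorem XG_btwo {d n : ℕ} (hn : n % 2 = 1) (hd : d ∣ n) : ∀ p ∈ d.primeFactors, ¬ (p : ℤ) ∣ 2 := by
  intro p hp h
  have : Fact p.Prime := ⟨Nat.prime_of_mem_primeFactors hp⟩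
  apply two_nd (p := p) _ h
  rintro rfl
  have := (Nat.dvd_of_mem_primeFactors hp).trans hd
  omega

/-- quarter turn about the first axis -/
def XG_bR (v : T) : T := (v.1, -v.2.2, v.2.1)

/-- its inverse -/
def XG_bR' (v : T) : T := (v.1, v.2.2, -v.2.1)

theorem XG_bdot_R (v : T) : dot (XG_bR v) (XG_bR v) = dot v v := by
  unfold dot XG_bR; ring

theorem XG_bdot_R' (v : T) : dot (XG_bR' v) (XG_bR' v) = dot v v := by
  unfold dot XG_bR'; ring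

theorem XG_bj2' {d : ℕ} (h : d % 8 = 3 ∨ d % 8 = 5) : jacobiSym 2 d = -1 := by
  rw [jacobiSym.at_two (Nat.odd_iff.2 (by omega)), ZMod.χ₈_nat_eq_if_mod_eight,
    if_neg (by omega), if_neg (by omega)]

theorem XG_bq4 (x : ℤ) : q4 (-x) = q4 x := by
  unfold q4
  split_ifs <;> first | rfl | (exfalso; omega)

/-- change of the sign of the second coordinate -/
def XG_s (v : T) : T := (v.1, -v.2.1, v.2.2)

theorem XG_ss (v : T) : XG_s (XG_s v) = v := by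
  show (v.1, -(-v.2.1), v.2.2) = v
  rw [neg_neg]

theorem XG_dot_s (v : T) : dot (XG_s v) (XG_s v) = dot v v := by
  unfold dot XG_s; ring

theorem XG_mem_OQ {n : ℕ} {v : T} : v ∈ OQ n ↔
    dot v v = n ∧ v.1 % 4 = 1 ∧ v.2.1 % 4 = 0 ∧ v.2.2 % 4 = 0 := by
  unfold OQ
  rw [mem_filter, XG_bmem_sph]

theorem XG_s_mem {n : ℕ} {v : T} (hv : v ∈ OQ n) : XG_s v ∈ OQ n := by
  rw [XG_mem_OQ] at hv ⊢
  refine ⟨by rw [XG_dot_s]; exact hv.1, hv.2.1, ?_, hv.2.2.2⟩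
  have h := hv.2.2.1
  show (-v.2.1) % 4 = 0
  omega

theorem XG_R_mem {n : ℕ} {v : T} (hv : v ∈ OQ n) : XG_bR v ∈ OQ n := by
  rw [XG_mem_OQ] at hv ⊢
  refine ⟨by rw [XG_bdot_R]; exact hv.1, hv.2.1, ?_, hv.2.2.1⟩
  have h := hv.2.2.2
  show (-v.2.2) % 4 = 0
  omega

theorem XG_R'_mem {n : ℕ} {v : T} (hv : v ∈ OQ n) : XG_bR' v ∈ OQ n := by
  rw [XG_mem_OQ] at hv ⊢
  refine ⟨by rw [XG_bdot_R']; exact hv.1, hv.2.1, hv.2.2.2, ?_⟩
  have h := hv.2.2.1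
  show (-v.2.1) % 4 = 0
  omega

theorem XG_RR' (v : T) : XG_bR (XG_bR' v) = v := by
  show (v.1, -(-v.2.1), v.2.2) = v
  rw [neg_neg]

theorem XG_R'R (v : T) : XG_bR' (XG_bR v) = v := by
  show (v.1, v.2.1, -(-v.2.2)) = v
  rw [neg_neg]

theorem XG_prod {n d : ℕ} (hs : Squarefree n) (hn : n % 2 = 1) (hd : d ∣ n) {v v' w : T}
    (hv : dot v v = n) (hv' : dot v' v' = n) (hw : ∀ p ∈ n.primeFactors, Iso p w)
    (a0 a1 a2 a3 : ℤ) (N : ℤ) (hN : ∀ p ∈ d.primeFactors, ¬ (p : ℤ) ∣ N)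
    (h1 : v'.1 * N = (a0 ^ 2 - a1 ^ 2 - a2 ^ 2 - a3 ^ 2) * v.1 +
      2 * (a1 * v.1 + a2 * v.2.1 + a3 * v.2.2) * a1 + 2 * a0 * (a2 * v.2.2 - a3 * v.2.1))
    (h2 : v'.2.1 * N = (a0 ^ 2 - a1 ^ 2 - a2 ^ 2 - a3 ^ 2) * v.2.1 +
      2 * (a1 * v.1 + a2 * v.2.1 + a3 * v.2.2) * a2 + 2 * a0 * (a3 * v.1 - a1 * v.2.2))
    (h3 : v'.2.2 * N = (a0 ^ 2 - a1 ^ 2 - a2 ^ 2 - a3 ^ 2) * v.2.2 +
      2 * (a1 * v.1 + a2 * v.2.1 + a3 * v.2.2) * a3 + 2 * a0 * (a1 * v.2.1 - a2 * v.1)) :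
    ∏ p ∈ d.primeFactors, chi p v' w = jacobiSym N d * ∏ p ∈ d.primeFactors, chi p v w := by
  rw [← prod_sym N d (Squarefree.squarefree_of_dvd hd hs), ← Finset.prod_mul_distrib]
  have hn0 : n ≠ 0 := by rintro rfl; simp at hn
  refine Finset.prod_congr rfl fun p hp => ?_
  have hpn : p ∈ n.primeFactors := Nat.primeFactors_mono hd hn0 hp
  have : Fact p.Prime := ⟨Nat.prime_of_mem_primeFactors hp⟩
  have hp2 : p ≠ 2 := by
    rintro rfl
    have := Nat.dvd_of_mem_primeFactors hpn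
    omega
  have i1 := XG_biso hs hpn hv
  have i2 := XG_biso hs hpn hv'
  rw [← chi_trans hp2 i2 i1 (hw p hpn), chi_comm i2 i1,
    chi_rot hp2 i1 i2 a0 a1 a2 a3 N (hN p hp) h1 h2 h3]

theorem XG_prod_R {n d : ℕ} (hs : Squarefree n) (hn : n % 2 = 1) (hd : d ∣ n) {v w : T}
    (hv : dot v v = n) (hw : ∀ p ∈ n.primeFactors, Iso p w) :
    ∏ p ∈ d.primeFactors, chi p (XG_bR v) w =
      jacobiSym 2 d * ∏ p ∈ d.primeFactors, chi p v w := by
  apply XG_prod hs hn hd hv (by rw [XG_bdot_R, hv]) hw 1 1 0 0 2 (XG_btwo hn hd) <;>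
    · unfold XG_bR; ring

theorem XG_prod_s {n d : ℕ} (hs : Squarefree n) (hn : n % 2 = 1) (hd : d ∣ n) {v w : T}
    (hv : dot v v = n) (hw : ∀ p ∈ n.primeFactors, Iso p w) :
    ∏ p ∈ d.primeFactors, chi p (XG_s v) w =
      jacobiSym (-1) d * ∏ p ∈ d.primeFactors, chi p v w := by
  have hN : ∀ p ∈ d.primeFactors, ¬ (p : ℤ) ∣ -1 := by
    intro p hp h
    have h1 : (p : ℤ) ∣ 1 := by
      have := (dvd_neg (b := (1 : ℤ))).1 h
      exact this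
    exact (Nat.prime_iff_prime_int.1 (Nat.prime_of_mem_primeFactors hp)).not_dvd_one h1
  apply XG_prod hs hn hd hv (by rw [XG_dot_s, hv]) hw 0 0 1 0 (-1) hN <;>
    · unfold XG_s; ring

theorem XG_j1 {d : ℕ} (h : d % 8 = 3 ∨ d % 8 = 7) : jacobiSym (-1) d = -1 := by
  rw [jacobiSym.at_neg_one (Nat.odd_iff.2 (by omega)), ZMod.χ₄_nat_three_mod_four (by omega)]

theorem XG_j2 {d : ℕ} (h : d % 8 = 1) : jacobiSym 2 d = 1 := by
  rw [jacobiSym.at_two (Nat.odd_iff.2 (by omega)), ZMod.χ₈_nat_eq_if_mod_eight,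
    if_neg (by omega), if_pos (by omega)]

/-- vanishing and comparison for the weights `(-1)^b`, `(-1)^c` -/
theorem XG_zero (n d : ℕ) (hs : Squarefree n) (h1 : n % 8 = 1) (hd : d ∣ n)
    (h8 : d % 8 = 3 ∨ d % 8 = 5 ∨ d % 8 = 7) (w : T) (hw : ∀ p ∈ n.primeFactors, Iso p w) :
    ∑ v ∈ OQ n, (q4 v.2.1 + q4 v.2.2) * ∏ p ∈ d.primeFactors, chi p v w = 0 := by
  have hn : n % 2 = 1 := by omega
  by_cases h7 : d % 8 = 3 ∨ d % 8 = 7
  · apply XG_bvan XG_s XG_s (fun v hv => XG_s_mem hv) (fun v hv => XG_s_mem hv) XG_ss XG_ss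
    intro v hv
    rw [XG_prod_s hs hn hd (XG_mem_OQ.1 hv).1 hw, XG_j1 h7]
    have e : q4 (XG_s v).2.1 = q4 v.2.1 := XG_bq4 _
    have e' : q4 (XG_s v).2.2 = q4 v.2.2 := rfl
    rw [e, e']
    ring
  · have h5 : d % 8 = 3 ∨ d % 8 = 5 := by omega
    apply XG_bvan XG_bR XG_bR' (fun v hv => XG_R_mem hv) (fun v hv => XG_R'_mem hv) XG_R'R XG_RR'
    intro v hv
    rw [XG_prod_R hs hn hd (XG_mem_OQ.1 hv).1 hw, XG_bj2' h5]
    have e : q4 (XG_bR v).2.1 = q4 v.2.2 := XG_bq4 _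
    have e' : q4 (XG_bR v).2.2 = q4 v.2.1 := rfl
    rw [e, e']
    ring

theorem XG_kap_R (n d : ℕ) (hs : Squarefree n) (h1 : n % 8 = 1) (hd : d ∣ n) (h8 : d % 8 = 1)
    {v : T} (hv : v ∈ OQ n) : kap d (XG_bR v) = kap d v := by
  have hn : n % 2 = 1 := by omega
  have hsd : Squarefree d := hs.squarefree_of_dvd hd
  have hsub : d.primeFactors ⊆ n.primeFactors := Nat.primeFactors_mono hd hs.ne_zero
  have i1 : ∀ p ∈ n.primeFactors, Iso p v := fun p hp => XG_biso hs hp (XG_mem_OQ.1 hv).1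
  have i2 : ∀ p ∈ n.primeFactors, Iso p (XG_bR v) := fun p hp =>
    XG_biso hs hp (XG_mem_OQ.1 (XG_R_mem hv)).1
  have h := kap_mul d hsd h8 (XG_bR v) v (fun p hp => i2 p (hsub hp)) (fun p hp => i1 p (hsub hp))
  rw [XG_prod_R hs hn hd (XG_mem_OQ.1 hv).1 i1, XG_j2 h8, one_mul] at h
  have h' : ∏ p ∈ d.primeFactors, chi p v v = 1 := by
    refine Finset.prod_eq_one fun p hp => ?_
    have : Fact p.Prime := ⟨Nat.prime_of_mem_primeFactors hp⟩
    exact chi_self (i1 p (hsub hp))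
  rw [h'] at h
  rcases kap_pm d hsd h8 v (fun p hp => i1 p (hsub hp)) with e | e <;>
    rcases kap_pm d hsd h8 (XG_bR v) (fun p hp => i2 p (hsub hp)) with e' | e' <;>
    rw [e, e'] at h <;> rw [e, e'] <;> norm_num at h

theorem XG_neg_mem {N : ℕ} {v : T} (h : v ∈ sph N) : sm (-1) v ∈ sph N := by
  rw [XG_bmem_sph] at h ⊢
  rw [← h]
  unfold dot sm
  ring

theorem XG_neg_neg (v : T) : sm (-1) (sm (-1) v) = v := by
  obtain ⟨x, y, z⟩ := v
  unfold sm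
  simp

/-- halving a sum over the sphere -/
theorem XG_half (n : ℕ) (P P' : T → Prop) [DecidablePred P] [DecidablePred P'] (f : T → ℤ)
    (hf : ∀ v, f (sm (-1) v) = f v) (h0 : ∀ v, f v ≠ 0 → P v ∨ P' v)
    (hPP : ∀ v, P v → ¬ P' v) (hneg : ∀ v, P v ↔ P' (sm (-1) v)) :
    ∑ v ∈ sph n, f v = 2 * ∑ v ∈ (sph n).filter P, f v := by
  have hneg' : ∀ v, P' v ↔ P (sm (-1) v) := fun v => by rw [hneg, XG_neg_neg]
  rw [← sum_filter_add_sum_filter_not (sph n) P f, two_mul]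
  congr 1
  have h1 : ∑ v ∈ (sph n).filter (fun v => ¬ P v), f v = ∑ v ∈ (sph n).filter P', f v := by
    symm
    apply sum_subset
    · intro v hv
      obtain ⟨hv1, hv2⟩ := mem_filter.1 hv
      exact mem_filter.2 ⟨hv1, fun h => hPP v h hv2⟩
    · intro v hv hv'
      obtain ⟨hv1, hv2⟩ := mem_filter.1 hv
      by_contra hne
      rcases h0 v hne with h | h
      · exact hv2 h
      · exact hv' (mem_filter.2 ⟨hv1, h⟩)
  rw [h1]
  refine sum_bij' (fun v _ => sm (-1) v) (fun v _ => sm (-1) v) ?_ ?_ ?_ ?_ ?_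
  · intro v hv
    obtain ⟨hv1, hv2⟩ := mem_filter.1 hv
    exact mem_filter.2 ⟨XG_neg_mem hv1, (hneg' v).1 hv2⟩
  · intro v hv
    obtain ⟨hv1, hv2⟩ := mem_filter.1 hv
    exact mem_filter.2 ⟨XG_neg_mem hv1, (hneg v).1 hv2⟩
  · intro v _
    exact XG_neg_neg v
  · intro v _
    exact XG_neg_neg v
  · intro v _
    exact (hf v).symm

theorem XG_q4_four {x : ℤ} (h : q4 x ≠ 0) : x % 4 = 0 := by
  unfold q4 at h
  by_contra hc
  rw [if_neg (by omega), if_neg (by omega)] at h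
  exact h rfl

theorem XG_wb_neg (v : T) : wb (sm (-1) v) = wb v := by
  unfold wb sm
  have h1 : (-1 * v.1 % 2 = 1) ↔ (v.1 % 2 = 1) := by omega
  have h2 : (-1 * v.2.2 % 4 = 0) ↔ (v.2.2 % 4 = 0) := by omega
  have h3 : q4 (-1 * v.2.1) = q4 v.2.1 := by
    rw [neg_one_mul]
    exact XG_bq4 _
  simp only [h1, h2, h3]

theorem XG_wb_odd {v : T} (h : wb v ≠ 0) : v.1 % 2 = 1 ∧ v.2.1 % 4 = 0 ∧ v.2.2 % 4 = 0 := by
  unfold wb at h
  by_cases h1 : v.1 % 2 = 1 ∧ v.2.2 % 4 = 0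
  · rw [if_pos h1] at h
    exact ⟨h1.1, XG_q4_four h, h1.2⟩
  · rw [if_neg h1] at h
    exact absurd rfl h

theorem XG_wb_OQ {n : ℕ} {v : T} (hv : v ∈ OQ n) : wb v = q4 v.2.1 := by
  have h := (XG_mem_OQ.1 hv).2
  unfold wb
  rw [if_pos ⟨by omega, h.2.2⟩]

theorem XG_one (n d : ℕ) (hs : Squarefree n) (h1 : n % 8 = 1) (hd : d ∣ n) (h8 : d % 8 = 1) :
    2 * ∑ v ∈ OQ n, (q4 v.2.1 + q4 v.2.2) * kap d v = cb d * cb (n / d) := by
  have hsd : Squarefree d := hs.squarefree_of_dvd hd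
  have h2 := PB d (n / d) hsd h8
  rw [Nat.mul_div_cancel' hd] at h2
  rw [← h2]
  have h3 : ∑ v ∈ sph n, wb v * kap d v = 2 * ∑ v ∈ OQ n, wb v * kap d v := by
    unfold OQ
    apply XG_half n (fun v => v.1 % 4 = 1 ∧ v.2.1 % 4 = 0 ∧ v.2.2 % 4 = 0)
      (fun v => v.1 % 4 = 3 ∧ v.2.1 % 4 = 0 ∧ v.2.2 % 4 = 0)
      (fun v => wb v * kap d v)
    · intro v
      show wb (sm (-1) v) * kap d (sm (-1) v) = wb v * kap d v
      rw [XG_wb_neg, kap_neg d hsd h8]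
    · intro v hv
      obtain ⟨a1, a2, a3⟩ := XG_wb_odd (left_ne_zero_of_mul hv)
      have h4 : v.1 % 4 = 1 ∨ v.1 % 4 = 3 := by omega
      rcases h4 with h4 | h4
      · exact Or.inl ⟨h4, a2, a3⟩
      · exact Or.inr ⟨h4, a2, a3⟩
    · intro v hv hv'
      have e1 := hv.1
      have e2 := hv'.1
      omega
    · intro v
      show (v.1 % 4 = 1 ∧ v.2.1 % 4 = 0 ∧ v.2.2 % 4 = 0) ↔
        ((-1 * v.1) % 4 = 3 ∧ (-1 * v.2.1) % 4 = 0 ∧ (-1 * v.2.2) % 4 = 0)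
      omega
  have h4 : ∑ v ∈ OQ n, wb v * kap d v = ∑ v ∈ OQ n, q4 v.2.1 * kap d v :=
    Finset.sum_congr rfl fun v hv => by rw [XG_wb_OQ hv]
  have h5 : ∑ v ∈ OQ n, q4 v.2.2 * kap d v = ∑ v ∈ OQ n, q4 v.2.1 * kap d v := by
    refine Finset.sum_nbij' XG_bR XG_bR' (fun v hv => XG_R_mem hv) (fun v hv => XG_R'_mem hv)
      (fun v _ => XG_R'R v) (fun v _ => XG_RR' v) (fun v hv => ?_)
    rw [XG_kap_R n d hs h1 hd h8 hv]
    have e : q4 (XG_bR v).2.1 = q4 v.2.2 := XG_bq4 _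
    rw [e]
  rw [h3, h4]
  have h6 : ∑ v ∈ OQ n, (q4 v.2.1 + q4 v.2.2) * kap d v =
      ∑ v ∈ OQ n, q4 v.2.1 * kap d v + ∑ v ∈ OQ n, q4 v.2.2 * kap d v := by
    rw [← Finset.sum_add_distrib]
    exact Finset.sum_congr rfl fun v _ => by ring
  rw [h6, h5]
  ring

/-- sum over a genus for the weights `(-1)^b + (-1)^c` -/
theorem XG (n : ℕ) (hs : Squarefree n) (h1 : n % 8 = 1) (w : T) (hw : w ∈ OQ n) :
    2 * 2 ^ n.primeFactors.card * ∑ v ∈ Ge n (OQ n) w, (q4 v.2.1 + q4 v.2.2) =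
      ∑ d ∈ n.divisors.filter (fun d => d % 8 = 1), kap d w * cb d * cb (n / d) := by
  have hn2 : n % 2 = 1 := by omega
  have hO : ∀ v ∈ OQ n, ∀ p ∈ n.primeFactors, Iso p v := fun v hv p hp =>
    XG_biso hs hp (XG_mem_OQ.1 hv).1
  have hwI := hO w hw
  rw [mul_assoc, XG_cgen n hs (OQ n) w (fun v => q4 v.2.1 + q4 v.2.2)
    (fun v hv p hp => XG_cpm hn2 (hO v hv) hwI p hp)]
  have hsplit : ∑ d ∈ n.divisors, ∑ v ∈ OQ n, (q4 v.2.1 + q4 v.2.2) *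
        ∏ p ∈ d.primeFactors, chi p v w =
      ∑ d ∈ n.divisors.filter (fun d => d % 8 = 1),
        ∑ v ∈ OQ n, (q4 v.2.1 + q4 v.2.2) * ∏ p ∈ d.primeFactors, chi p v w := by
    refine (Finset.sum_subset (Finset.filter_subset _ _) ?_).symm
    intro d hd hd'
    rw [Finset.mem_filter] at hd'
    have h2 : d ∣ n := Nat.dvd_of_mem_divisors hd
    have h3 : d % 2 = 1 := XG_codd hn2 h2
    exact XG_zero n d hs h1 h2 (by
      have : ¬ d % 8 = 1 := fun h => hd' ⟨hd, h⟩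
      omega) w hwI
  rw [hsplit, Finset.mul_sum]
  refine Finset.sum_congr rfl fun d hd => ?_
  rw [Finset.mem_filter, Nat.mem_divisors] at hd
  rw [XG_cone n d hs hd.1.1 hd.2 (OQ n) w (fun v => q4 v.2.1 + q4 v.2.2) hO hwI, mul_assoc,
    ← XG_one n d hs h1 hd.1.1 hd.2]
  ring

end Pool.Agent.GNF
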