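import Pool.Agent.Lib_helper7.GNF.D3
import Pool.Agent.Lib_helper7.GNF.P.XG
import Pool.Agent.Lib_helper7.GNF.P.XC
import Pool.Agent.Lib_helper7.GNF.P.XD
import Pool.Agent.Lib_helper7.GNF.P.YD
import Pool.Agent.Lib_helper7.GNF.P.EQ
import Pool.Agent.Lib_helper7.GNF.P.RE
import Pool.Agent.Lib_helper7.GNF.P.CF
import Pool.Agent.Lib_helper7.GNF.P.KA
import Pool.Agent.Lib_helper7.GNF.P.RC

set_option autoImplicit false

namespace Pool.Agent.GNF

open Finset Pool.Agent.GEN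
open scoped Real

/-! ### the sphere and the genera -/

theorem dv_half (S : Finset T) (P : T → Prop) [DecidablePred P] (f g : T → T)
    (hf : ∀ v ∈ S, P v → f v ∈ S ∧ ¬ P (f v)) (hg : ∀ v ∈ S, ¬ P v → g v ∈ S ∧ P (g v))
    (hgf : ∀ v, g (f v) = v) (hfg : ∀ v, f (g v) = v) :
    S.card = 2 * (S.filter P).card := by
  have h1 : (S.filter P).card = (S.filter (fun v => ¬ P v)).card := by
    apply Finset.card_bij' (fun v _ => f v) (fun v _ => g v)
    · intro v hv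
      rw [Finset.mem_filter] at hv ⊢
      exact hf v hv.1 hv.2
    · intro v hv
      rw [Finset.mem_filter] at hv ⊢
      exact hg v hv.1 hv.2
    · intro v _
      exact hgf v
    · intro v _
      exact hfg v
  have h2 := Finset.card_filter_add_card_filter_not (s := S) P
  omega

theorem dv_sph (n : ℕ) (v : T) : v ∈ sph n ↔ dot v v = n := by
  unfold sph
  rw [Finset.mem_filter]
  constructor
  · exact fun h => h.2
  · intro h
    refine ⟨?_, h⟩
    obtain ⟨x, y, z⟩ := v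
    simp only [dot] at h
    have key : ∀ a b : ℤ, 0 ≤ b → a * a + b = n → -(n : ℤ) ≤ a ∧ a ≤ n := by
      intro a b hb hab
      constructor
      · by_contra hc
        push Not at hc
        nlinarith [Int.natCast_nonneg n]
      · by_contra hc
        push Not at hc
        nlinarith [Int.natCast_nonneg n]
    have hx := key x (y * y + z * z) (add_nonneg (mul_self_nonneg _) (mul_self_nonneg _)) (by linarith)
    have hy := key y (x * x + z * z) (add_nonneg (mul_self_nonneg _) (mul_self_nonneg _)) (by linarith)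
    have hz := key z (x * x + y * y) (add_nonneg (mul_self_nonneg _) (mul_self_nonneg _)) (by linarith)
    simp only [Finset.mem_product, Finset.mem_Icc]
    exact ⟨hx, hy, hz⟩

theorem dv_iso (n : ℕ) (hs : Squarefree n) (v : T) (hv : dot v v = n) (p : ℕ)
    (hp : p ∈ n.primeFactors) : Iso p v := by
  have hpp : p.Prime := Nat.prime_of_mem_primeFactors hp
  have hpn : p ∣ n := Nat.dvd_of_mem_primeFactors hp
  refine ⟨?_, ?_⟩
  · rw [hv]
    exact_mod_cast hpn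
  · rintro ⟨⟨a, ha⟩, ⟨b, hb⟩, ⟨c, hc⟩⟩
    have h1 : (n : ℤ) = p * p * (a * a + b * b + c * c) := by
      rw [← hv]
      unfold dot
      rw [ha, hb, hc]
      ring
    have h2 : ((p * p : ℕ) : ℤ) ∣ (n : ℤ) := ⟨a * a + b * b + c * c, by push_cast; exact h1⟩
    have h3 : p * p ∣ n := by exact_mod_cast h2
    have h4 := hs p h3
    exact hpp.one_lt.ne' (Nat.isUnit_iff.1 h4)

theorem dv_two {n : ℕ} (hn : n % 2 = 1) {p : ℕ} (hp : p ∈ n.primeFactors) : p ≠ 2 := by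
  rintro rfl
  have := Nat.dvd_of_mem_primeFactors hp
  omega

/-- rotation by a quaternion whose norm is a square modulo `p` keeps the genus -/
theorem dv_ge {n : ℕ} (hs : Squarefree n) (hn : n % 2 = 1) {Om : Finset T} {w : T}
    (hOm : ∀ v ∈ Om, dot v v = n) (hw : dot w w = n) {v v' : T} (hv : v ∈ Ge n Om w)
    (hv' : v' ∈ Om) (h : ∀ p ∈ n.primeFactors, chi p v' v = 1) : v' ∈ Ge n Om w := by
  unfold Ge at hv ⊢
  rw [Finset.mem_filter] at hv ⊢
  refine ⟨hv', fun p hp => ?_⟩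
  have : Fact p.Prime := ⟨Nat.prime_of_mem_primeFactors hp⟩
  rw [← chi_trans (dv_two hn hp) (dv_iso n hs v' (hOm v' hv') p hp)
    (dv_iso n hs v (hOm v hv.1) p hp) (dv_iso n hs w hw p hp), h p hp, hv.2 p hp]
  norm_num

theorem dv_Ge {n : ℕ} {Om : Finset T} {w v : T} (hv : v ∈ Ge n Om w) : v ∈ Om := by
  unfold Ge at hv
  exact (Finset.mem_filter.1 hv).1

/-- all coordinates are odd -/
theorem dv_odd {x y z : ℤ} (h : x * y * z % 4 = 1) : x % 2 = 1 ∧ y % 2 = 1 ∧ z % 2 = 1 := by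
  refine ⟨?_, ?_, ?_⟩
  · rcases Int.emod_two_eq_zero_or_one x with hx | hx
    · exfalso
      obtain ⟨k, hk⟩ : (2 : ℤ) ∣ x := Int.dvd_of_emod_eq_zero hx
      rw [hk, show 2 * k * y * z = 2 * (k * y * z) by ring] at h
      omega
    · exact hx
  · rcases Int.emod_two_eq_zero_or_one y with hx | hx
    · exfalso
      obtain ⟨k, hk⟩ : (2 : ℤ) ∣ y := Int.dvd_of_emod_eq_zero hx
      rw [hk, show x * (2 * k) * z = 2 * (x * k * z) by ring] at h
      omega
    · exact hx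
  · rcases Int.emod_two_eq_zero_or_one z with hx | hx
    · exfalso
      obtain ⟨k, hk⟩ : (2 : ℤ) ∣ z := Int.dvd_of_emod_eq_zero hx
      rw [hk, show x * y * (2 * k) = 2 * (x * y * k) by ring] at h
      omega
    · exact hx

theorem dv_memP (n : ℕ) (x y z : ℤ) :
    ((x, y, z) : T) ∈ OP n ↔ x * x + y * y + z * z = n ∧ x * y * z % 4 = 1 := by
  unfold OP
  rw [Finset.mem_filter, dv_sph]
  simp only [dot]

theorem dv_memQ (n : ℕ) (x y z : ℤ) :
    ((x, y, z) : T) ∈ OQ n ↔ x * x + y * y + z * z = n ∧ x % 4 = 1 ∧ y % 4 = 0 ∧ z % 4 = 0 := by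
  unfold OQ
  rw [Finset.mem_filter, dv_sph]
  simp only [dot]

theorem dv_OQ (n : ℕ) (v : T) (hv : v ∈ OQ n) : dot v v = n := by
  unfold OQ at hv
  rw [Finset.mem_filter, dv_sph] at hv
  exact hv.1

theorem dv_OP (n : ℕ) (v : T) (hv : v ∈ OP n) : dot v v = n := by
  unfold OP at hv
  rw [Finset.mem_filter, dv_sph] at hv
  exact hv.1

theorem dv_hp1 {p : ℕ} (hp : p.Prime) : ¬ (p : ℤ) ∣ 1 :=
  (Nat.prime_iff_prime_int.1 hp).not_dvd_one

/-- the number of vectors of a genus, `n = 3 mod 8` -/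
theorem dv_G3 (n : ℕ) (hs : Squarefree n) (h3 : n % 8 = 3) (w : T) (hw : w ∈ OP n) :
    4 ∣ (Ge n (OP n) w).card := by
  have hn : n % 2 = 1 := by omega
  have m3 : ∀ x y z : ℤ, ((x, y, z) : T) ∈ Ge n (OP n) w → ((x, -y, -z) : T) ∈ Ge n (OP n) w := by
    intro x y z hv
    have hv0 := dv_Ge hv
    have hv1 := (dv_memP n x y z).1 hv0
    have hv' : ((x, -y, -z) : T) ∈ OP n := by
      rw [dv_memP]
      refine ⟨by linarith [hv1.1], ?_⟩
      rw [show x * (-y) * (-z) = x * y * z by ring]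
      exact hv1.2
    refine dv_ge hs hn (dv_OP n) (dv_OP n w hw) hv hv' (fun p hp => ?_)
    have : Fact p.Prime := ⟨Nat.prime_of_mem_primeFactors hp⟩
    rw [chi_rot (dv_two hn hp) (dv_iso n hs _ (dv_OP n _ hv') p hp)
      (dv_iso n hs _ (dv_OP n _ hv0) p hp) 0 1 0 0 1 (dv_hp1 Fact.out)
      (by ring) (by ring) (by ring)]
    exact jacobiSym.one_left p
  have m4 : ∀ x y z : ℤ, ((x, y, z) : T) ∈ Ge n (OP n) w → ((-x, y, -z) : T) ∈ Ge n (OP n) w := by
    intro x y z hv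
    have hv0 := dv_Ge hv
    have hv1 := (dv_memP n x y z).1 hv0
    have hv' : ((-x, y, -z) : T) ∈ OP n := by
      rw [dv_memP]
      refine ⟨by linarith [hv1.1], ?_⟩
      rw [show (-x) * y * (-z) = x * y * z by ring]
      exact hv1.2
    refine dv_ge hs hn (dv_OP n) (dv_OP n w hw) hv hv' (fun p hp => ?_)
    have : Fact p.Prime := ⟨Nat.prime_of_mem_primeFactors hp⟩
    rw [chi_rot (dv_two hn hp) (dv_iso n hs _ (dv_OP n _ hv') p hp)
      (dv_iso n hs _ (dv_OP n _ hv0) p hp) 0 0 1 0 1 (dv_hp1 Fact.out)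
      (by ring) (by ring) (by ring)]
    exact jacobiSym.one_left p
  have odd : ∀ x y z : ℤ, ((x, y, z) : T) ∈ Ge n (OP n) w → x % 2 = 1 ∧ y % 2 = 1 ∧ z % 2 = 1 :=
    fun x y z hv => dv_odd ((dv_memP n x y z).1 (dv_Ge hv)).2
  have c1 : (Ge n (OP n) w).card = 2 * ((Ge n (OP n) w).filter (fun v : T => 0 < v.1)).card := by
    apply dv_half _ _ (fun v => (-v.1, v.2.1, -v.2.2)) (fun v => (-v.1, v.2.1, -v.2.2))
    · rintro ⟨x, y, z⟩ hv hP
      simp only at hP ⊢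
      exact ⟨m4 x y z hv, by omega⟩
    · rintro ⟨x, y, z⟩ hv hP
      have := (odd x y z hv).1
      simp only at hP ⊢
      exact ⟨m4 x y z hv, by omega⟩
    · rintro ⟨x, y, z⟩; simp
    · rintro ⟨x, y, z⟩; simp
  have c2 : ((Ge n (OP n) w).filter (fun v : T => 0 < v.1)).card =
      2 * (((Ge n (OP n) w).filter (fun v : T => 0 < v.1)).filter
        (fun v : T => 0 < v.2.1)).card := by
    apply dv_half _ _ (fun v => (v.1, -v.2.1, -v.2.2)) (fun v => (v.1, -v.2.1, -v.2.2))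
    · rintro ⟨x, y, z⟩ hv hP
      rw [Finset.mem_filter] at hv
      simp only at hP hv ⊢
      rw [Finset.mem_filter]
      exact ⟨⟨m3 x y z hv.1, hv.2⟩, by omega⟩
    · rintro ⟨x, y, z⟩ hv hP
      rw [Finset.mem_filter] at hv
      have := (odd x y z hv.1).2.1
      simp only at hP hv ⊢
      rw [Finset.mem_filter]
      exact ⟨⟨m3 x y z hv.1, hv.2⟩, by omega⟩
    · rintro ⟨x, y, z⟩; simp
    · rintro ⟨x, y, z⟩; simp
  rw [c1, c2]
  exact ⟨_, by ring⟩

/-- a squarefree number greater than one is not a square -/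
theorem dv_nsq {n : ℕ} (hs : Squarefree n) (hn : 1 < n) (x : ℤ) : x * x ≠ n := by
  intro h
  have h2 : ((x.natAbs * x.natAbs : ℕ) : ℤ) = n := by
    rw [← h]
    exact Int.natAbs_mul_self
  have h3 : x.natAbs * x.natAbs = n := by exact_mod_cast h2
  have h4 := hs x.natAbs ⟨1, by rw [h3, mul_one]⟩
  rw [Nat.isUnit_iff] at h4
  rw [h4] at h3
  omega

/-- the number of vectors of a genus, `n = 1 mod 8` -/
theorem dv_G1 (n : ℕ) (hs : Squarefree n) (h1 : n % 8 = 1) (hn1 : 1 < n) (w : T)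
    (hw : w ∈ OQ n) : 2 ∣ (Ge n (OQ n) w).card := by
  have hn : n % 2 = 1 := by omega
  have m3 : ∀ x y z : ℤ, ((x, y, z) : T) ∈ Ge n (OQ n) w → ((x, -y, -z) : T) ∈ Ge n (OQ n) w := by
    intro x y z hv
    have hv0 := dv_Ge hv
    have hv1 := (dv_memQ n x y z).1 hv0
    have hv' : ((x, -y, -z) : T) ∈ OQ n := by
      rw [dv_memQ]
      refine ⟨by linarith [hv1.1], hv1.2.1, ?_, ?_⟩
      · have := hv1.2.2.1
        omega
      · have := hv1.2.2.2
        omega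
    refine dv_ge hs hn (dv_OQ n) (dv_OQ n w hw) hv hv' (fun p hp => ?_)
    have : Fact p.Prime := ⟨Nat.prime_of_mem_primeFactors hp⟩
    rw [chi_rot (dv_two hn hp) (dv_iso n hs _ (dv_OQ n _ hv') p hp)
      (dv_iso n hs _ (dv_OQ n _ hv0) p hp) 0 1 0 0 1 (dv_hp1 Fact.out)
      (by ring) (by ring) (by ring)]
    exact jacobiSym.one_left p
  have ne : ∀ x y z : ℤ, ((x, y, z) : T) ∈ Ge n (OQ n) w → ¬ (y = 0 ∧ z = 0) := by
    rintro x y z hv ⟨hy, hz⟩
    have hv1 := ((dv_memQ n x y z).1 (dv_Ge hv)).1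
    rw [hy, hz] at hv1
    exact dv_nsq hs hn1 x (by linarith)
  have c1 : (Ge n (OQ n) w).card =
      2 * ((Ge n (OQ n) w).filter (fun v : T => 0 < v.2.1 ∨ (v.2.1 = 0 ∧ 0 < v.2.2))).card := by
    apply dv_half _ _ (fun v => (v.1, -v.2.1, -v.2.2)) (fun v => (v.1, -v.2.1, -v.2.2))
    · rintro ⟨x, y, z⟩ hv hP
      simp only at hP ⊢
      exact ⟨m3 x y z hv, by omega⟩
    · rintro ⟨x, y, z⟩ hv hP
      have := ne x y z hv
      simp only at hP ⊢
      exact ⟨m3 x y z hv, by omega⟩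
    · rintro ⟨x, y, z⟩; simp
    · rintro ⟨x, y, z⟩; simp
  rw [c1]
  exact ⟨_, rfl⟩

/-! ### sums of signs -/

theorem dv_sum (S : Finset T) (f : T → ℤ) (hf : ∀ v ∈ S, f v = 1 ∨ f v = -1) :
    ∑ v ∈ S, f v = (S.card : ℤ) - 2 * ((S.filter (fun v => f v = -1)).card : ℤ) := by
  have h1 : ((S.filter (fun v => f v = -1)).card : ℤ) = ∑ v ∈ S, (if f v = -1 then 1 else 0) := by
    rw [Finset.card_filter]
    push_cast
    rfl
  have h2 : (S.card : ℤ) = ∑ v ∈ S, (1 : ℤ) := by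
    rw [Finset.sum_const, nsmul_eq_mul, mul_one]
  rw [h1, h2, Finset.mul_sum, ← Finset.sum_sub_distrib]
  refine Finset.sum_congr rfl fun v hv => ?_
  rcases hf v hv with h | h
  · rw [h, if_neg (by norm_num)]
    norm_num
  · rw [h, if_pos rfl]
    norm_num

theorem dv_j2_pm (x : ℤ) (h : x % 2 = 1) : j2 x = 1 ∨ j2 x = -1 := by
  unfold j2
  by_cases h1 : x % 8 = 1 ∨ x % 8 = 7
  · simp [h1]
  · by_cases h2 : x % 8 = 3 ∨ x % 8 = 5
    · simp [h1, h2]
    · omega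

theorem dv_q4_pm (x : ℤ) (h : x % 4 = 0) : q4 x = 1 ∨ q4 x = -1 := by
  unfold q4
  by_cases h1 : x % 8 = 0
  · simp [h1]
  · by_cases h2 : x % 8 = 4
    · simp [h2]
    · omega

theorem dv_w3_pm {n : ℕ} {w v : T} (hv : v ∈ Ge n (OP n) w) : w3 v = 1 ∨ w3 v = -1 := by
  obtain ⟨x, y, z⟩ := v
  obtain ⟨h1, h2, h3⟩ := dv_odd ((dv_memP n x y z).1 (dv_Ge hv)).2
  unfold w3
  simp only [h1, if_true]
  rcases dv_j2_pm y h2 with h | h <;> rcases dv_j2_pm z h3 with h' | h' <;> rw [h, h'] <;> norm_num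

theorem dv_w1_eq {n : ℕ} {w v : T} (hv : v ∈ Ge n (OQ n) w) :
    w1 v = q4 v.2.1 * q4 v.2.2 ∧ (q4 v.2.1 = 1 ∨ q4 v.2.1 = -1) ∧
      (q4 v.2.2 = 1 ∨ q4 v.2.2 = -1) := by
  obtain ⟨x, y, z⟩ := v
  obtain ⟨h0, h1, h2, h3⟩ := (dv_memQ n x y z).1 (dv_Ge hv)
  have hx : x % 2 = 1 := by omega
  unfold w1
  simp only [hx, if_true]
  exact ⟨trivial, dv_q4_pm y h2, dv_q4_pm z h3⟩

theorem dv_S3 (n : ℕ) (hs : Squarefree n) (h3 : n % 8 = 3) (w : T) (hw : w ∈ OP n) :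
    (4 : ℤ) ∣ ∑ v ∈ Ge n (OP n) w, w3 v := by
  rw [dv_sum _ w3 (fun v hv => dv_w3_pm hv)]
  obtain ⟨a, ha⟩ := dv_G3 n hs h3 w hw
  obtain ⟨b, hb⟩ := XD n hs h3 w hw
  rw [ha, hb]
  exact ⟨a - 4 * b, by push_cast; ring⟩

theorem dv_S1 (n : ℕ) (hs : Squarefree n) (h1 : n % 8 = 1) (hn1 : 1 < n) (w : T)
    (hw : w ∈ OQ n) : (2 : ℤ) ∣ ∑ v ∈ Ge n (OQ n) w, w1 v := by
  have hpm : ∀ v ∈ Ge n (OQ n) w, w1 v = 1 ∨ w1 v = -1 := by
    intro v hv
    obtain ⟨e, e1, e2⟩ := dv_w1_eq hv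
    rw [e]
    rcases e1 with h | h <;> rcases e2 with h' | h' <;> rw [h, h'] <;> norm_num
  rw [dv_sum _ w1 hpm]
  obtain ⟨a, ha⟩ := dv_G1 n hs h1 hn1 w hw
  rw [ha]
  exact ⟨a - ((Ge n (OQ n) w).filter (fun v => w1 v = -1)).card, by push_cast; ring⟩

theorem dv_S4 (n : ℕ) (hs : Squarefree n) (h1 : n % 8 = 1) (hn1 : 1 < n) (w : T)
    (hw : w ∈ OQ n) : (4 : ℤ) ∣ ∑ v ∈ Ge n (OQ n) w, (q4 v.2.1 + q4 v.2.2) := by
  have hpm : ∀ v ∈ Ge n (OQ n) w, w1 v = 1 ∨ w1 v = -1 := by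
    intro v hv
    obtain ⟨e, e1, e2⟩ := dv_w1_eq hv
    rw [e]
    rcases e1 with h | h <;> rcases e2 with h' | h' <;> rw [h, h'] <;> norm_num
  have key : ∀ v ∈ Ge n (OQ n) w, q4 v.2.1 + q4 v.2.2 =
      (1 + w1 v) - 4 * (if q4 v.2.1 = -1 ∧ q4 v.2.2 = -1 then 1 else 0) := by
    intro v hv
    obtain ⟨e, e1, e2⟩ := dv_w1_eq hv
    rw [e]
    rcases e1 with h | h <;> rcases e2 with h' | h' <;> rw [h, h'] <;> norm_num
  rw [Finset.sum_congr rfl key, Finset.sum_sub_distrib, ← Finset.mul_sum, Finset.sum_add_distrib,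
    dv_sum _ w1 hpm, Finset.sum_const, nsmul_eq_mul, mul_one]
  obtain ⟨a, ha⟩ := dv_G1 n hs h1 hn1 w hw
  obtain ⟨b, hb⟩ := YD n hs h1 w hw
  rw [ha, hb]
  push_cast
  exact ⟨a - b - ∑ v ∈ Ge n (OQ n) w, (if q4 v.2.1 = -1 ∧ q4 v.2.2 = -1 then (1 : ℤ) else 0),
    by ring⟩

/-! ### the genus characters at a vector of norm `n` -/

theorem dv_kap1 (w : T) : kap 1 w = 1 := by
  have h : dot ((1, 0, 0) : T) (1, 0, 0) = ((1 : ℕ) : ℤ) := by
    unfold dot
    norm_num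
  rw [kap_eq 1 squarefree_one rfl (1, 0, 0) h w]
  unfold Psi
  rw [Nat.primeFactors_one, Finset.prod_empty, mul_one]
  unfold Pool.Agent.GEN.kap
  rw [if_neg]
  rintro (h | h | h) <;> revert h <;> norm_num

theorem dv_kapn (n : ℕ) (hs : Squarefree n) (h1 : n % 8 = 1) (w : T) (hw : w ∈ OQ n) :
    kap n w = 1 := by
  rw [kap_self n hs h1 w (dv_OQ n w hw)]
  obtain ⟨x, y, z⟩ := w
  obtain ⟨h0, h1', h2, h3⟩ := (dv_memQ n x y z).1 hw
  unfold Pool.Agent.GEN.kap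
  rw [if_neg]
  rintro (h | h | h) <;> simp only at h <;> omega

theorem dv_odd' {n d : ℕ} (hn : n % 2 = 1) (hd : d ∣ n) : d % 2 = 1 := by
  obtain ⟨k, rfl⟩ := hd
  exact Nat.odd_iff.1 (Nat.odd_mul.1 (Nat.odd_iff.2 hn)).1

theorem dv_mod {n d r : ℕ} (hr : n % 8 = r) (hd : d ∣ n) (h8 : d % 8 = 1) : n / d % 8 = r := by
  obtain ⟨k, rfl⟩ := hd
  have hd0 : 0 < d := by omega
  rw [Nat.mul_div_cancel_left _ hd0]
  rw [Nat.mul_mod, h8, one_mul, Nat.mod_mod] at hr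
  exact hr

theorem dv_kapd (n : ℕ) (hs : Squarefree n) (h1 : n % 8 = 1) (w : T) (hw : w ∈ OQ n) (d : ℕ)
    (hd : d ∣ n) (h8 : d % 8 = 1) : kap (n / d) w = kap d w := by
  have hI : ∀ p ∈ n.primeFactors, Iso p w := fun p hp => dv_iso n hs w (dv_OQ n w hw) p hp
  have e : d * (n / d) = n := Nat.mul_div_cancel' hd
  have h8' := dv_mod h1 hd h8
  have hc := CF 1 d (n / d) (by rw [one_mul, e]; exact hs) (by rw [one_mul]; exact h8)
    (by rw [one_mul]; exact h8') (by rw [e]; exact h1) w (by rw [one_mul, e]; exact hI)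
  rw [one_mul, one_mul, e, dv_kapn n hs h1 w hw, jacobiSym.one_right, mul_one] at hc
  have hsub : d.primeFactors ⊆ n.primeFactors := Nat.primeFactors_mono hd hs.ne_zero
  rcases kap_pm d (hs.squarefree_of_dvd hd) h8 w (fun p hp => hI p (hsub hp)) with h | h
  · rw [h, one_mul] at hc
    rw [h, hc]
  · rw [h] at hc ⊢
    linarith

/-! ### the induction -/

/-- prime factors of complementary divisors -/
theorem dv_card {n d : ℕ} (hs : Squarefree n) (hd : d ∣ n) :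
    d.primeFactors.card + (n / d).primeFactors.card = n.primeFactors.card := by
  have e : d * (n / d) = n := Nat.mul_div_cancel' hd
  have hcop : Nat.Coprime d (n / d) := Nat.coprime_of_squarefree_mul (by rw [e]; exact hs)
  have h := hcop.primeFactors_mul
  rw [e] at h
  rw [h, Finset.card_union_of_disjoint hcop.disjoint_primeFactors]

theorem dv_term {n d : ℕ} (hs : Squarefree n) (hd : d ∣ n) (x y k : ℤ)
    (hx : (2 : ℤ) ^ (d.primeFactors.card + 1) ∣ x)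
    (hy : (2 : ℤ) ^ ((n / d).primeFactors.card + 1) ∣ y) :
    (2 : ℤ) ^ (n.primeFactors.card + 2) ∣ k * x * y := by
  have e : (2 : ℤ) ^ (n.primeFactors.card + 2) =
      2 ^ (d.primeFactors.card + 1) * 2 ^ ((n / d).primeFactors.card + 1) := by
    rw [← pow_add]
    congr 1
    have := dv_card hs hd
    omega
  rw [e, mul_assoc]
  exact Dvd.dvd.mul_left (mul_dvd_mul hx hy) k

theorem dv_lt {n d : ℕ} (hn : 0 < n) (_hd : d ∣ n) (h1 : 1 < d) : n / d < n := by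
  exact Nat.div_lt_self hn h1

/-- the pairing of the divisors, `n = 1 mod 8` -/
theorem dv_pair (n : ℕ) (hs : Squarefree n) (h1 : n % 8 = 1) (hn : 1 < n) (f κ : ℕ → ℤ)
    (hf1 : f 1 = 2) (hk1 : κ 1 = 1) (hkn : κ n = 1)
    (hk : ∀ d, d ∣ n → d % 8 = 1 → κ (n / d) = κ d)
    (hf : ∀ d, d ∣ n → d % 8 = 1 → d < n → (2 : ℤ) ^ (d.primeFactors.card + 1) ∣ f d) (S : ℤ)
    (hS : 2 ^ (n.primeFactors.card + 3) * S =
      ∑ d ∈ n.divisors.filter (fun d => d % 8 = 1), κ d * f d * f (n / d)) :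
    (2 : ℤ) ^ (n.primeFactors.card + 1) ∣ f n := by
  have hn0 : 0 < n := by omega
  set D := n.divisors.filter (fun d => d % 8 = 1) with hD
  have memD : ∀ d, d ∈ D ↔ d ∣ n ∧ d % 8 = 1 := by
    intro d
    rw [hD, Finset.mem_filter, Nat.mem_divisors]
    constructor
    · rintro ⟨⟨h, _⟩, h'⟩
      exact ⟨h, h'⟩
    · rintro ⟨h, h'⟩
      exact ⟨⟨h, hs.ne_zero⟩, h'⟩
  set F : ℕ → ℤ := fun d => κ d * f d * f (n / d) with hF
  have m1 : 1 ∈ D := (memD 1).2 ⟨one_dvd n, rfl⟩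
  have mn : n ∈ D.erase 1 := by
    rw [Finset.mem_erase]
    exact ⟨by omega, (memD n).2 ⟨dvd_rfl, h1⟩⟩
  have hF1 : F 1 = 2 * f n := by
    simp only [hF]
    rw [hk1, hf1, Nat.div_one]
    ring
  have hFn : F n = 2 * f n := by
    simp only [hF]
    rw [hkn, Nat.div_self hn0, hf1]
    ring
  have hsum : ∑ d ∈ D, F d = 4 * f n + ∑ d ∈ (D.erase 1).erase n, F d := by
    rw [← Finset.add_sum_erase D F m1, ← Finset.add_sum_erase (D.erase 1) F mn, hF1, hFn]
    ring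
  have memE : ∀ d, d ∈ (D.erase 1).erase n ↔ d ∣ n ∧ d % 8 = 1 ∧ d ≠ 1 ∧ d ≠ n := by
    intro d
    rw [Finset.mem_erase, Finset.mem_erase, memD]
    tauto
  have hFd : ∀ d ∈ (D.erase 1).erase n, ∃ c : ℤ, F d = 2 ^ (n.primeFactors.card + 2) * c := by
    intro d hd
    obtain ⟨hdn, h8, hd1, hdn'⟩ := (memE d).1 hd
    have hlt : d < n := lt_of_le_of_ne (Nat.le_of_dvd hn0 hdn) hdn'
    have hd2 : 1 < d := by omega
    exact dv_term hs hdn _ _ _ (hf d hdn h8 hlt)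
      (hf (n / d) (Nat.div_dvd_of_dvd hdn) (dv_mod h1 hdn h8) (dv_lt hn0 hdn hd2))
  choose! c hc using hFd
  have hinv : ∀ d ∈ (D.erase 1).erase n, n / d ∈ (D.erase 1).erase n := by
    intro d hd
    obtain ⟨hdn, h8, hd1, hdn'⟩ := (memE d).1 hd
    have hd0 : 0 < d := by omega
    have e : d * (n / d) = n := Nat.mul_div_cancel' hdn
    refine (memE _).2 ⟨Nat.div_dvd_of_dvd hdn, dv_mod h1 hdn h8, ?_, ?_⟩
    · intro h
      rw [h, mul_one] at e
      exact hdn' e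
    · intro h
      rw [h] at e
      have : d = 1 := by
        have h5 : d * n = 1 * n := by rw [e, one_mul]
        exact Nat.eq_of_mul_eq_mul_right hn0 h5
      exact hd1 this
  have hcc : ∀ d ∈ (D.erase 1).erase n, c (n / d) = c d := by
    intro d hd
    obtain ⟨hdn, h8, hd1, hdn'⟩ := (memE d).1 hd
    have e : F (n / d) = F d := by
      simp only [hF]
      rw [hk d hdn h8, Nat.div_div_self hdn hs.ne_zero]
      ring
    rw [hc d hd, hc (n / d) (hinv d hd)] at e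
    exact mul_left_cancel₀ (pow_ne_zero _ two_ne_zero) e
  have hzero : ∑ d ∈ (D.erase 1).erase n, (c d : ZMod 2) = 0 := by
    apply Finset.sum_involution (fun d _ => n / d)
    · intro d hd
      rw [hcc d hd]
      exact CharTwo.add_self_eq_zero _
    · intro d hd _ he
      obtain ⟨hdn, h8, hd1, hdn'⟩ := (memE d).1 hd
      have e : d * (n / d) = n := Nat.mul_div_cancel' hdn
      rw [he] at e
      exact dv_nsq hs hn (d : ℤ) (by exact_mod_cast e)
    · intro d hd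
      exact hinv d hd
    · intro d hd
      obtain ⟨hdn, h8, hd1, hdn'⟩ := (memE d).1 hd
      exact Nat.div_div_self hdn hs.ne_zero
  have heven : (2 : ℤ) ∣ ∑ d ∈ (D.erase 1).erase n, c d := by
    have h := (ZMod.intCast_zmod_eq_zero_iff_dvd (∑ d ∈ (D.erase 1).erase n, c d) 2).1
      (by push_cast; exact hzero)
    exact_mod_cast h
  obtain ⟨X, hX⟩ := heven
  rw [hsum, Finset.sum_congr rfl hc, ← Finset.mul_sum, hX] at hS
  refine ⟨S - X, ?_⟩
  have h4 : 4 * f n = 4 * (2 ^ (n.primeFactors.card + 1) * (S - X)) := by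
    have e3 : (2 : ℤ) ^ (n.primeFactors.card + 3) = 4 * 2 ^ (n.primeFactors.card + 1) := by
      rw [show n.primeFactors.card + 3 = (n.primeFactors.card + 1) + 2 by ring, pow_add]
      ring
    have e2 : (2 : ℤ) ^ (n.primeFactors.card + 2) = 2 * 2 ^ (n.primeFactors.card + 1) := by
      rw [show n.primeFactors.card + 2 = (n.primeFactors.card + 1) + 1 by ring, pow_add]
      ring
    rw [e3, e2] at hS
    linarith
  linarith

theorem dv_sumw1 : ∑ v ∈ sph 1, w1 v = 2 := by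
  unfold sph
  rw [Finset.sum_filter]
  rfl

theorem dv_tc1 : tc 1 = 2 := by
  rw [← RC1 1 rfl, dv_sumw1]

theorem dv_cb1 : cb 1 = 2 := by
  unfold cb sph
  rw [Finset.sum_filter]
  rfl

theorem dv_step1 (n : ℕ) (hs : Squarefree n) (h1 : n % 8 = 1)
    (hf : ∀ d, d ∣ n → d % 8 = 1 → d < n → (2 : ℤ) ^ (d.primeFactors.card + 1) ∣ tc d) :
    (2 : ℤ) ^ (n.primeFactors.card + 1) ∣ tc n := by
  rcases Nat.lt_or_ge 1 n with hn | hn
  · obtain ⟨w, hw⟩ := OQ_nonempty n hs h1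
    obtain ⟨S, hS⟩ := dv_S1 n hs h1 hn w hw
    refine dv_pair n hs h1 hn tc (fun d => kap d w) dv_tc1 (dv_kap1 w) (dv_kapn n hs h1 w hw)
      (fun d hd h8 => dv_kapd n hs h1 w hw d hd h8) hf S ?_
    rw [← YC n hs h1 w hw, hS]
    ring
  · have : n = 1 := by omega
    subst this
    rw [dv_tc1, Nat.primeFactors_one, Finset.card_empty]
    norm_num

theorem dv_stepb (n : ℕ) (hs : Squarefree n) (h1 : n % 8 = 1)
    (hf : ∀ d, d ∣ n → d % 8 = 1 → d < n → (2 : ℤ) ^ (d.primeFactors.card + 1) ∣ cb d) :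
    (2 : ℤ) ^ (n.primeFactors.card + 1) ∣ cb n := by
  rcases Nat.lt_or_ge 1 n with hn | hn
  · obtain ⟨w, hw⟩ := OQ_nonempty n hs h1
    obtain ⟨S, hS⟩ := dv_S4 n hs h1 hn w hw
    refine dv_pair n hs h1 hn cb (fun d => kap d w) dv_cb1 (dv_kap1 w) (dv_kapn n hs h1 w hw)
      (fun d hd h8 => dv_kapd n hs h1 w hw d hd h8) hf S ?_
    rw [← XG n hs h1 w hw, hS]
    ring
  · have : n = 1 := by omega
    subst this
    rw [dv_cb1, Nat.primeFactors_one, Finset.card_empty]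
    norm_num

theorem dv_step3 (n : ℕ) (hs : Squarefree n) (h3 : n % 8 = 3)
    (hf : ∀ d, d ∣ n → (d % 8 = 1 ∨ d % 8 = 3) → d < n →
      (2 : ℤ) ^ (d.primeFactors.card + 1) ∣ tc d) :
    (2 : ℤ) ^ (n.primeFactors.card + 1) ∣ tc n := by
  have hn0 : 0 < n := by omega
  obtain ⟨w, hw⟩ := OP_nonempty n hs h3
  obtain ⟨S, hS⟩ := dv_S3 n hs h3 w hw
  have hX := XC n hs h3 w hw
  have m1 : 1 ∈ n.divisors.filter (fun d => d % 8 = 1) := by
    rw [Finset.mem_filter, Nat.mem_divisors]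
    exact ⟨⟨one_dvd n, hs.ne_zero⟩, rfl⟩
  rw [← Finset.add_sum_erase _ _ m1, hS, dv_kap1, dv_tc1, Nat.div_one] at hX
  have hd : (2 : ℤ) ^ (n.primeFactors.card + 2) ∣
      ∑ d ∈ (n.divisors.filter (fun d => d % 8 = 1)).erase 1, kap d w * tc d * tc (n / d) := by
    apply Finset.dvd_sum
    intro d hd
    rw [Finset.mem_erase, Finset.mem_filter, Nat.mem_divisors] at hd
    obtain ⟨hd1, ⟨hdn, _⟩, h8⟩ := hd
    have hlt : d < n := lt_of_le_of_ne (Nat.le_of_dvd hn0 hdn) (by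
      rintro rfl
      omega)
    have hd2 : 1 < d := by omega
    exact dv_term hs hdn _ _ _ (hf d hdn (Or.inl h8) hlt)
      (hf (n / d) (Nat.div_dvd_of_dvd hdn) (Or.inr (dv_mod h3 hdn h8)) (dv_lt hn0 hdn hd2))
  obtain ⟨X, hX2⟩ := hd
  rw [hX2] at hX
  refine ⟨S - X, ?_⟩
  have e2 : (2 : ℤ) ^ (n.primeFactors.card + 2) = 2 * 2 ^ (n.primeFactors.card + 1) := by
    rw [show n.primeFactors.card + 2 = (n.primeFactors.card + 1) + 1 by ring, pow_add]
    ring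
  have e1 : (2 : ℤ) ^ (n.primeFactors.card + 1) = 2 * 2 ^ n.primeFactors.card := by
    rw [pow_succ]
    ring
  rw [e2] at hX
  have h4 : 2 * tc n = 2 * (2 ^ (n.primeFactors.card + 1) * (S - X)) := by
    rw [e1] at hX ⊢
    linarith
  linarith

theorem DV (n : ℕ) (hs : Squarefree n) (h13 : n % 8 = 1 ∨ n % 8 = 3) :
    (2 : ℤ) ^ (n.primeFactors.card + 1) ∣ tc n := by
  induction n using Nat.strong_induction_on with
  | _ n ih =>
    rcases h13 with h1 | h3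
    · exact dv_step1 n hs h1 (fun d hd h8 hlt => ih d hlt (hs.squarefree_of_dvd hd) (Or.inl h8))
    · exact dv_step3 n hs h3 (fun d hd h8 hlt => ih d hlt (hs.squarefree_of_dvd hd) h8)

theorem dv_cb (n : ℕ) (hs : Squarefree n) (h1 : n % 8 = 1) :
    (2 : ℤ) ^ (n.primeFactors.card + 1) ∣ cb n := by
  induction n using Nat.strong_induction_on with
  | _ n ih =>
    exact dv_stepb n hs h1 (fun d hd h8 hlt => ih d hlt (hs.squarefree_of_dvd hd) h8)

theorem DVe (n : ℕ) (hs : Squarefree n) (h1 : n % 8 = 1) :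
    (2 : ℤ) ^ (n.primeFactors.card + 1) ∣ ce n := by
  rw [RE n h1]
  exact Dvd.dvd.mul_left (dv_cb n hs h1) _

end Pool.Agent.GNF
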