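import Pool.Agent.Lib_helper7.GNF.D3
import Pool.Agent.Lib_helper72.GEN.M
import Pool.Agent.Lib_helper72.TM32.E4b
import Pool.Agent.Lib_helper47.G3.ThreeSq

set_option autoImplicit false

namespace Pool.Agent.GNF

open Finset Pool.Agent.GEN Pool.Agent.TM32
open scoped Real

/-- Chinese remainder: a residue class with given symbols -/
theorem eqe_res (c8 : ℕ) (hc8 : c8 = 1 ∨ c8 = 5) (S : Finset ℕ) (hS : ∀ p ∈ S, p.Prime ∧ p ≠ 2)
    (e : ℕ → ℤ) (he : ∀ p ∈ S, e p = 1 ∨ e p = -1) :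
    ∃ a : ℕ, a % 8 = c8 ∧ ∀ p ∈ S, jacobiSym a p = e p := by
  induction S using Finset.induction_on with
  | empty => exact ⟨c8, by omega, by simp⟩
  | insert q S hq ih =>
    obtain ⟨a, ha8, ha⟩ := ih (fun p hp => hS p (Finset.mem_insert_of_mem hp))
      (fun p hp => he p (Finset.mem_insert_of_mem hp))
    obtain ⟨hqp, hq2⟩ := hS q (Finset.mem_insert_self _ _)
    have : Fact q.Prime := ⟨hqp⟩
    obtain ⟨b, hb⟩ : ∃ b : ℕ, jacobiSym b q = e q := by
      rcases he q (Finset.mem_insert_self _ _) with h | h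
      · exact ⟨1, by rw [h]; simp⟩
      · rw [h]; exact exists_nonres hq2
    have hco : Nat.Coprime (8 * ∏ p ∈ S, p) q := by
      apply Nat.Coprime.mul_left
      · have : Nat.Coprime 2 q := (Nat.coprime_primes Nat.prime_two hqp).2 (Ne.symm hq2)
        exact Nat.Coprime.pow_left 3 this
      · apply Nat.Coprime.prod_left
        intro p hp
        exact (Nat.coprime_primes (hS p (Finset.mem_insert_of_mem hp)).1 hqp).2 (by
          rintro rfl; exact hq hp)
    obtain ⟨c, hc1, hc2⟩ := Nat.chineseRemainder hco a b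
    refine ⟨c, ?_, ?_⟩
    · have h1 : c ≡ a [MOD 8] := hc1.of_mul_right _
      rw [← ha8]; exact h1
    · intro p hp
      rcases Finset.mem_insert.1 hp with rfl | hp
      · rw [← hb]
        apply jacobiSym.mod_left'
        exact_mod_cast hc2
      · rw [← ha p hp]
        apply jacobiSym.mod_left'
        have h1 : c ≡ a [MOD ∏ p ∈ S, p] := hc1.of_mul_left _
        have h2 : c ≡ a [MOD p] := h1.of_dvd (Finset.dvd_prod_of_mem _ hp)
        exact_mod_cast h2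

/-- Dirichlet: a prime in a given class modulo `8` with given symbols -/
theorem eqe_prime (c8 : ℕ) (hc8 : c8 = 1 ∨ c8 = 5) (n : ℕ) (hn : n % 2 = 1) (e : ℕ → ℤ)
    (he : ∀ p ∈ n.primeFactors, e p = 1 ∨ e p = -1) :
    ∃ l : ℕ, l.Prime ∧ l % 8 = c8 ∧ 2 * n < l ∧ ∀ p ∈ n.primeFactors, jacobiSym l p = e p := by
  have hS : ∀ p ∈ n.primeFactors, p.Prime ∧ p ≠ 2 := by
    intro p hp
    refine ⟨Nat.prime_of_mem_primeFactors hp, ?_⟩
    rintro rfl
    have := Nat.mod_eq_zero_of_dvd (Nat.dvd_of_mem_primeFactors hp)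
    omega
  obtain ⟨a, ha8, ha⟩ := eqe_res c8 hc8 n.primeFactors hS e he
  have hco : Nat.Coprime a (8 * n) := by
    apply Nat.Coprime.mul_right
    · have h2 : ¬ 2 ∣ a := by omega
      have : Nat.Coprime a 2 := ((Nat.Prime.coprime_iff_not_dvd Nat.prime_two).2 h2).symm
      exact Nat.Coprime.pow_right 3 this
    · rw [Nat.coprime_iff_gcd_eq_one]
      by_contra hne
      obtain ⟨p, hp, hpd⟩ := Nat.exists_prime_and_dvd hne
      have h1 : p ∣ a := hpd.trans (Nat.gcd_dvd_left _ _)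
      have h2 : p ∣ n := hpd.trans (Nat.gcd_dvd_right _ _)
      have hm : p ∈ n.primeFactors := Nat.mem_primeFactors.2 ⟨hp, h2, by omega⟩
      have h3 := ha p hm
      have : NeZero p := ⟨hp.ne_zero⟩
      have h4 : jacobiSym a p = 0 := by
        rw [jacobiSym.eq_zero_iff_not_coprime]
        have : ((a : ℤ).gcd p) = p := by
          rw [Int.gcd_natCast_natCast]
          exact Nat.gcd_eq_right h1
        rw [this]; exact hp.one_lt.ne'
      rw [h4] at h3
      rcases he p hm with h5 | h5 <;> rw [h5] at h3 <;> norm_num at h3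
  obtain ⟨l, hl1, hl2, hl3⟩ := Nat.forall_exists_prime_gt_and_modEq (2 * n) (q := 8 * n) (by omega) hco
  refine ⟨l, hl2, ?_, hl1, ?_⟩
  · have h1 : l ≡ a [MOD 8] := hl3.of_mul_right _
    rw [← ha8]; exact h1
  · intro p hp
    rw [← ha p hp]
    apply jacobiSym.mod_left'
    have h1 : l ≡ a [MOD n] := hl3.of_mul_left _
    have h2 : l ≡ a [MOD p] := h1.of_dvd (Nat.dvd_of_mem_primeFactors hp)
    exact_mod_cast h2

/-- the square root of `-2n` modulo the prime -/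
theorem eqe_root {n l : ℕ} (hs : Squarefree n) (hn : n % 8 = 1) (hl : l.Prime)
    (h : (l % 8 = 1 ∧ ∏ p ∈ n.primeFactors, jacobiSym l p = 1) ∨
      (l % 8 = 5 ∧ ∏ p ∈ n.primeFactors, jacobiSym l p = -1)) :
    ∃ r : ℤ, (l : ℤ) ∣ r ^ 2 + ((2 * n : ℕ) : ℤ) := by
  have : Fact l.Prime := ⟨hl⟩
  rw [prod_sym _ _ hs] at h
  have hodd : Odd l := Nat.odd_iff.2 (by omega)
  have h1 : jacobiSym (-((2 * n : ℕ) : ℤ)) l = 1 := by
    have e1 : (-((2 * n : ℕ) : ℤ)) = (-2) * (n : ℤ) := by push_cast; ring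
    rw [e1, jacobiSym.mul_left, jacobiSym.quadratic_reciprocity_one_mod_four (by omega) hodd,
      jacobiSym.at_neg_two hodd, ZMod.χ₈'_nat_eq_if_mod_eight]
    rcases h with ⟨h5, h6⟩ | ⟨h5, h6⟩
    · rw [h6, if_neg (by omega), if_pos (by omega)]; rfl
    · rw [h6, if_neg (by omega), if_neg (by omega)]; rfl
  have h2 := ZMod.isSquare_of_jacobiSym_eq_one h1
  obtain ⟨s, hs'⟩ := h2
  obtain ⟨r, rfl⟩ := ZMod.intCast_surjective s
  refine ⟨r, ?_⟩
  rw [← ZMod.intCast_zmod_eq_zero_iff_dvd]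
  push_cast at hs' ⊢
  linear_combination -hs'

/-- vectors of norm `2n` with two odd coordinates in front -/
def OmE (n : ℕ) (v : ℤ × ℤ × ℤ) : Prop := IsOm2 n (quat v)

theorem OmE.omQ {n : ℕ} {v : ℤ × ℤ × ℤ} (h : OmE n v) : OmQ (2 * n) v := ⟨h.sum, h.odd⟩

theorem eqe_flv {n : ℕ} {v : ℤ × ℤ × ℤ} (h : OmE n v) (i : Fin 4) : OmE n (flv i v) := by
  unfold OmE
  rw [quat_flv]
  exact fl_om2 i h

theorem eqe_free {n : ℕ} {w : ℤ × ℤ × ℤ} (hw : OmE n w) (i j : Fin 4) (h : flv i w = flv j w) :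
    i = j := by
  apply fl_free2 hw i j
  rw [← quat_flv, ← quat_flv, h]

/-- parity is preserved by conjugation -/
theorem eqe_target {n : ℕ} (h8 : n % 8 = 1) {v w : ℤ × ℤ × ℤ} (hv : OmE n v) (hw : OmQ (2 * n) w)
    {c : Hq} (hc : nrm c % 2 = 1) (ht : c * quat v = quat w * c) : OmE n w := by
  have hw' : IsOm (2 * n) (quat w) := hw.om
  obtain ⟨q, hq⟩ := comm_even c (quat v)
  have e1 : (quat w - quat v) * ((nrm c : ℤ) : Hq) = ((2 : ℤ) : Hq) * (q * star c) := by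
    rw [← self_mul_star', ← mul_assoc, sub_mul, ← ht, hq, mul_assoc]
  obtain ⟨m, hm⟩ : ∃ m, nrm c = 2 * m + 1 := ⟨nrm c / 2, by omega⟩
  have oJ : (quat w).imJ % 2 = 1 := by
    have e2 := congrArg (fun q : Hq => q.imJ) e1
    simp only [← int_comm, int_mul_imJ, Quaternion.imJ_sub] at e2
    rw [hm] at e2
    have e3 : (quat w).imJ - (quat v).imJ = 2 * ((q * star c).imJ - m * ((quat w).imJ - (quat v).imJ)) := by
      linear_combination e2
    have := hv.oddJ
    omega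
  exact ⟨hw', oJ, four_of h8 hw' oJ⟩

theorem eqe_exists {n : ℕ} [NeZero (2 * n)] (h8 : n % 8 = 1) {v : ℤ × ℤ × ℤ}
    (hv : OmE n v) {l : ℕ} (hl : l.Prime) (hl2 : l % 2 = 1) (hln : ¬ l ∣ 2 * n) {r : ℤ}
    (hr : (l : ℤ) ∣ r ^ 2 + ((2 * n : ℕ) : ℤ)) : ∃ w, OmE n w ∧ Rel l r v w := by
  obtain ⟨w, hw, hrel⟩ := rel_existsQ (n := 2 * n) hv.omQ hl hl2 hln hr
  refine ⟨w, ?_, hrel⟩
  obtain ⟨c, q, h1, h2, _⟩ := hrel
  exact eqe_target h8 hv hw (by rw [h1]; omega) h2

theorem eqe_inj {n : ℕ} [NeZero n] (hs : Squarefree n) {v v' w : ℤ × ℤ × ℤ}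
    (hv : OmQ n v) (hv' : OmQ n v') (hw : OmQ n w) {l : ℕ} (hl : l.Prime) (hl2 : l % 2 = 1)
    {r : ℤ} (h : Rel l r v w) (h' : Rel l r v' w) : ∃ i : Fin 4, v = flv i v' := by
  obtain ⟨c, q, h1, h2, h3⟩ := h
  obtain ⟨c', q', h1', h2', h3'⟩ := h'
  have hw0 := hw.om
  have hlP : Prime (l : ℤ) := Nat.prime_iff_prime_int.1 hl
  have hl0 : (l : ℤ) ≠ 0 := hlP.ne_zero
  have key : ∀ (x c q : Hq), nrm c = l → c * x = quat w * c → x - (r : Hq) = q * c →
      IsOm n x → ∃ r1 : ℤ, (l : ℤ) ∣ r + r1 ∧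
        ∀ z : Od n, z ∈ Iq hw0 (star c) ↔ (l : ℤ) ∣ z.re + r1 * z.im := by
    intro x c q h1 h2 h3 hx
    have hc : nrm (star c) = l := by rw [nrm_star, h1]
    have ht : star c * quat w = x * star c :=
      (twist_star c x (quat w) (by rw [h1]; exact hl0) h2).symm
    obtain ⟨r1, hr1, hz⟩ := Iq_prim hs hw0 (star c) x (by rw [hc]; omega) ht (prim_of_prime hl hc)
    rw [hc] at hz
    refine ⟨r1, ?_, hz⟩
    have hm : (Zsqrtd.sqrtd : Od n) + (r : Od n) ∈ Iq hw0 (star c) := by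
      rw [mem_Iq]
      refine ⟨-star q, ?_⟩
      rw [map_add, phi_int, phi_sqrtd]
      have e1 : -x - (r : Hq) = star c * star q := by
        have := congrArg star h3
        rw [star_mul, star_sub] at this
        rw [← this]
        have e2 : star x = -x := by
          apply Quaternion.ext
          · rw [Quaternion.re_star, Quaternion.re_neg, hx.re0]; rfl
          · rw [Quaternion.imI_star, Quaternion.imI_neg]
          · rw [Quaternion.imJ_star, Quaternion.imJ_neg]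
          · rw [Quaternion.imK_star, Quaternion.imK_neg]
        have e3 : star ((r : ℤ) : Hq) = (r : Hq) := by simp
        rw [e2, e3]
      have e4 : (-quat w - (r : Hq)) * c = ((l : ℤ) : Hq) * star q := by
        have e5 : c * (-x - (r : Hq)) = ((l : ℤ) : Hq) * star q := by
          rw [e1, ← mul_assoc, self_mul_star', h1]
        rw [← e5, mul_sub, mul_neg, h2, sub_mul, neg_mul, int_comm]
      apply mul_right_cancel' _ _ c (by rw [h1]; exact hl0)
      have e6 : (quat w + (r : Hq)) * c = -((-quat w - (r : Hq)) * c) := by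
        rw [← neg_mul]; congr 1; abel
      rw [e6, e4, neg_mul, neg_mul, mul_assoc, star_mul_self', h1, int_comm]
    have := (hz _).1 hm
    simpa using this
  obtain ⟨r1, hr1, hz1⟩ := key _ c q h1 h2 h3 hv.om
  obtain ⟨r2, hr2, hz2⟩ := key _ c' q' h1' h2' h3' hv'.om
  have hI : Iq hw0 (star c) = Iq hw0 (star c') := by
    ext z
    rw [hz1, hz2]
    have h5 : (l : ℤ) ∣ (z.re + r1 * z.im) - (z.re + r2 * z.im) :=
      dvd_eq (dvd_mul_of_dvd_left (dvd_sub hr1 hr2) z.im) (by ring)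
    constructor
    · intro h6; exact (dvd_sub_right h6).1 h5
    · intro h6
      exact dvd_eq (dvd_add h5 h6) (by ring)
  have hc : nrm (star c) = l := by rw [nrm_star, h1]
  have hc' : nrm (star c') = l := by rw [nrm_star, h1']
  have ht : star c * quat w = quat v * star c :=
    (twist_star c (quat v) (quat w) (by rw [h1]; exact hl0) h2).symm
  have ht' : star c' * quat w = quat v' * star c' :=
    (twist_star c' (quat v') (quat w) (by rw [h1']; exact hl0) h2').symm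
  obtain ⟨u, hu, hu'⟩ := unit_of_class hs hw0 (star c) (star c') (by rw [hc]; omega)
    (by rw [hc']; omega) ht ht' 1 1 one_ne_zero one_ne_zero (by rw [hI])
  obtain ⟨i, hi⟩ := unit_fl _ _ u hu hu'
  exact ⟨i, quat_inj (by rw [quat_flv]; exact hi)⟩

theorem eqe_chi {n : ℕ} (hs : Squarefree n) {v w : ℤ × ℤ × ℤ}
    (hv : OmQ n v) (hw : OmQ n w) {l : ℕ} (hl : l.Prime) (hln : ¬ l ∣ n) {r : ℤ}
    (h : Rel l r v w) {p : ℕ} (hp : p.Prime) (hp2 : p ≠ 2) (hpn : p ∣ n) :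
    chi p v w = jacobiSym l p := by
  obtain ⟨c, q, h1, h2, h3⟩ := h
  have : Fact p.Prime := ⟨hp⟩
  have h4 := chi_tw hp2 hs hpn hv.om hw.om h2 (by
    rw [h1]
    intro h5
    have h6 : p ∣ l := by exact_mod_cast h5
    have h7 : p = l := (Nat.prime_dvd_prime_iff_eq hp hl).1 h6
    exact hln (h7 ▸ hpn))
  rw [h1] at h4
  exact h4

theorem eqe_flchi {n : ℕ} (hs : Squarefree n) {v : ℤ × ℤ × ℤ}
    (hv : OmQ n v) (i : Fin 4) {p : ℕ} (hp : p.Prime) (hp2 : p ≠ 2) (hpn : p ∣ n) :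
    chi p (flv i v) v = 1 := by
  have : Fact p.Prime := ⟨hp⟩
  have ht : U i * quat (flv i v) = quat v * U i := by
    rw [quat_flv, U_mul, fl_fl]
  have h4 := chi_tw hp2 hs hpn (flvQ hv i).om hv.om ht (by
    rw [nrm_U]
    exact (Nat.prime_iff_prime_int.1 hp).not_dvd_one)
  rw [nrm_U, jacobiSym.one_left] at h4
  exact h4

/-- the part with prescribed genus symbols -/
def GE (n : ℕ) (v0 : ℤ × ℤ × ℤ) (e : ℕ → ℤ) : Set (ℤ × ℤ × ℤ) :=
  {v | OmE n v ∧ ∀ p ∈ n.primeFactors, chi p v v0 = e p}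

theorem omE_finite (n : ℕ) : Set.Finite {v : ℤ × ℤ × ℤ | OmE n v} :=
  (omQ_finite (2 * n)).subset (fun _ hv => OmE.omQ hv)

theorem GE_finite (n : ℕ) (v0 : ℤ × ℤ × ℤ) (e : ℕ → ℤ) : (GE n v0 e).Finite :=
  (omE_finite n).subset (fun _ hv => hv.1)

theorem eqe_iso {n p : ℕ} (hs : Squarefree (2 * n)) {v : ℤ × ℤ × ℤ}
    (hv : v.1 ^ 2 + v.2.1 ^ 2 + v.2.2 ^ 2 = ((2 * n : ℕ) : ℤ)) (hp : p ∈ n.primeFactors) : Iso p v := by
  have : Fact p.Prime := ⟨Nat.prime_of_mem_primeFactors hp⟩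
  exact iso_of hs ((Nat.dvd_of_mem_primeFactors hp).mul_left 2) hv

theorem eqe_le {n : ℕ} [NeZero (2 * n)] (hs : Squarefree (2 * n)) (h8 : n % 8 = 1) {v0 : ℤ × ℤ × ℤ}
    (hv0 : v0.1 ^ 2 + v0.2.1 ^ 2 + v0.2.2 ^ 2 = ((2 * n : ℕ) : ℤ)) (e e' : ℕ → ℤ)
    (he : ∀ p ∈ n.primeFactors, e p = 1 ∨ e p = -1) :
    (GE n v0 e').ncard ≤ (GE n v0 (fun p => e p * e' p)).ncard := by
  classical
  have hsn : Squarefree n := hs.squarefree_of_dvd (Dvd.intro_left 2 rfl)
  obtain ⟨l, hl, hl2, hln, hle, hsg⟩ : ∃ l : ℕ, l.Prime ∧ l % 2 = 1 ∧ 2 * n < l ∧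
      (∀ p ∈ n.primeFactors, jacobiSym l p = e p) ∧
      ((l % 8 = 1 ∧ ∏ p ∈ n.primeFactors, e p = 1) ∨
      (l % 8 = 5 ∧ ∏ p ∈ n.primeFactors, e p = -1)) := by
    have hpm : ∀ S : Finset ℕ, (∀ p ∈ S, e p = 1 ∨ e p = -1) →
        (∏ p ∈ S, e p = 1 ∨ ∏ p ∈ S, e p = -1) := by
      intro S
      induction S using Finset.induction_on with
      | empty => intro _; left; simp
      | insert a S ha ih =>
        intro hS
        rw [Finset.prod_insert ha]
        rcases hS a (Finset.mem_insert_self _ _) with h | h <;>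
        rcases ih (fun p hp => hS p (Finset.mem_insert_of_mem hp)) with h' | h' <;>
        rw [h, h'] <;> norm_num
    rcases hpm _ he with h | h
    · obtain ⟨l, hl, hl8, hln, hle⟩ := eqe_prime 1 (Or.inl rfl) n (by omega) e he
      exact ⟨l, hl, by omega, hln, hle, Or.inl ⟨hl8, h⟩⟩
    · obtain ⟨l, hl, hl8, hln, hle⟩ := eqe_prime 5 (Or.inr rfl) n (by omega) e he
      exact ⟨l, hl, by omega, hln, hle, Or.inr ⟨hl8, h⟩⟩
  have hln' : ¬ l ∣ 2 * n := fun h => by
    have := Nat.le_of_dvd (by omega) h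
    omega
  obtain ⟨r, hr⟩ := eqe_root hsn h8 hl (by
    rw [Finset.prod_congr rfl hle]; exact hsg)
  rw [Set.ncard_eq_toFinset_card _ (GE_finite n v0 e'),
    Set.ncard_eq_toFinset_card _ (GE_finite n v0 _)]
  set S := (GE_finite n v0 e').toFinset
  set T := (GE_finite n v0 (fun p => e p * e' p)).toFinset
  have key := Finset.card_mul_le_card_mul (Rel l r) (s := S) (t := T) (m := 4) (n := 4) ?_ ?_
  · omega
  · intro v hv
    rw [Set.Finite.mem_toFinset] at hv
    obtain ⟨hv1, hv2⟩ := hv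
    obtain ⟨w, hw, hrel⟩ := eqe_exists h8 hv1 hl (by omega) hln' hr
    have hcard : (Finset.univ.image (fun i : Fin 4 => flv i w)).card = 4 := by
      rw [Finset.card_image_of_injective, Finset.card_univ, Fintype.card_fin]
      intro i j hij
      exact eqe_free hw i j hij
    rw [← hcard]
    apply Finset.card_le_card
    intro x hx
    obtain ⟨i, -, rfl⟩ := Finset.mem_image.1 hx
    rw [Finset.mem_bipartiteAbove, Set.Finite.mem_toFinset]
    refine ⟨⟨eqe_flv hw i, ?_⟩, rel_fl hrel i⟩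
    intro p hp
    have : Fact p.Prime := ⟨Nat.prime_of_mem_primeFactors hp⟩
    have hpn := (Nat.dvd_of_mem_primeFactors hp).mul_left 2
    have hp2 := pf_ne_two (by omega) hp
    have i1 := eqe_iso hs (eqe_flv hw i).omQ.1 hp
    have i2 := eqe_iso hs hw.omQ.1 hp
    have i3 := eqe_iso hs hv0 hp
    have i4 := eqe_iso hs hv1.omQ.1 hp
    have c1 := chi_trans hp2 i1 i2 i3
    have c2 := chi_trans hp2 i2 i4 i3
    rw [eqe_flchi hs hw.omQ i Fact.out hp2 hpn, one_mul] at c1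
    rw [← c1, ← c2, chi_comm i2 i4,
      eqe_chi hs hv1.omQ hw.omQ hl hln' hrel Fact.out hp2 hpn, hle p hp, hv2 p hp]
  · intro w hw
    rw [Set.Finite.mem_toFinset] at hw
    obtain ⟨hw1, hw2⟩ := hw
    by_cases hne : (S.bipartiteBelow (Rel l r) w).Nonempty
    · obtain ⟨v', hv'⟩ := hne
      rw [Finset.mem_bipartiteBelow, Set.Finite.mem_toFinset] at hv'
      have hsub : S.bipartiteBelow (Rel l r) w ⊆ Finset.univ.image (fun i : Fin 4 => flv i v') := by
        intro v hv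
        rw [Finset.mem_bipartiteBelow, Set.Finite.mem_toFinset] at hv
        obtain ⟨i, hi⟩ := eqe_inj hs hv.1.1.omQ hv'.1.1.omQ hw1.omQ hl (by omega) hv.2 hv'.2
        exact Finset.mem_image.2 ⟨i, Finset.mem_univ _, hi.symm⟩
      exact (Finset.card_le_card hsub).trans (Finset.card_image_le.trans (by simp))
    · rw [Finset.not_nonempty_iff_eq_empty.1 hne]; simp

theorem eqe_eq {n : ℕ} [NeZero (2 * n)] (hs : Squarefree (2 * n)) (h8 : n % 8 = 1) {v0 : ℤ × ℤ × ℤ}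
    (hv0 : v0.1 ^ 2 + v0.2.1 ^ 2 + v0.2.2 ^ 2 = ((2 * n : ℕ) : ℤ)) (e1 e2 : ℕ → ℤ)
    (he1 : ∀ p ∈ n.primeFactors, e1 p = 1 ∨ e1 p = -1)
    (he2 : ∀ p ∈ n.primeFactors, e2 p = 1 ∨ e2 p = -1) :
    (GE n v0 e1).ncard = (GE n v0 e2).ncard := by
  have key : ∀ a b : ℕ → ℤ, (∀ p ∈ n.primeFactors, a p = 1 ∨ a p = -1) →
      (∀ p ∈ n.primeFactors, b p = 1 ∨ b p = -1) →
      (GE n v0 a).ncard ≤ (GE n v0 b).ncard := by
    intro a b ha hb
    have h := eqe_le hs h8 hv0 (fun p => a p * b p) a (by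
      intro p hp
      rcases ha p hp with h1 | h1 <;> rcases hb p hp with h2 | h2 <;> simp [h1, h2])
    have hG : GE n v0 (fun p => a p * b p * a p) = GE n v0 b := by
      ext v
      refine and_congr_right (fun _ => ?_)
      refine forall_congr' (fun p => forall_congr' (fun hp => ?_))
      have : a p * b p * a p = b p := by
        rcases ha p hp with h1 | h1 <;> rw [h1] <;> ring
      show chi p v v0 = a p * b p * a p ↔ _
      rw [this]
    rw [hG] at h
    exact h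
  exact le_antisymm (key _ _ he1 he2) (key _ _ he2 he1)

theorem omE_card (n : ℕ) [NeZero n] (hs : Squarefree (2 * n)) (h8 : n % 8 = 1)
    {v0 : ℤ × ℤ × ℤ} (hv0 : OmE n v0) :
    {v : ℤ × ℤ × ℤ | OmE n v}.ncard =
      4 * Nat.card (ClassGroup (Zsqrtd (-((2 * n : ℕ) : ℤ)))) := by
  have := ded2 n hs (by omega)
  obtain ⟨s, hs0, hs1, hs3⟩ := main_bij2 hs h8 hv0
  let g : ClassGroup (Od (2 * n)) × Fin 4 → ℤ × ℤ × ℤ := fun p => vec (fl p.2 (s p.1))
  have hinj : Function.Injective g := by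
    rintro ⟨C, v⟩ ⟨C', v'⟩ he
    have he : vec (fl v (s C)) = vec (fl v' (s C')) := he
    have h2 : fl v (s C) = fl v' (s C') := by
      rw [← quat_vec (fl_om2 v (hs0 C).1).toIsOm, ← quat_vec (fl_om2 v' (hs0 C').1).toIsOm, he]
    obtain ⟨rfl, rfl⟩ := hs1 C C' v v' h2
    rfl
  have hr : {v : ℤ × ℤ × ℤ | OmE n v} = Set.range g := by
    ext x
    constructor
    · intro hx
      have hx : OmE n x := hx
      obtain ⟨C, v, hCv⟩ := hs3 _ hx
      refine ⟨(C, v), ?_⟩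
      show vec (fl v (s C)) = x
      rw [hCv]; rfl
    · rintro ⟨⟨C, v⟩, rfl⟩
      have h := fl_om2 v (hs0 C).1
      show IsOm2 n (quat (vec (fl v (s C))))
      rw [quat_vec h.toIsOm]
      exact h
  rw [hr]
  have e1 : (Set.range g).ncard = Nat.card (ClassGroup (Od (2 * n)) × Fin 4) := by
    rw [← Nat.card_coe_set_eq, Nat.card_range_of_injective hinj]
  rw [e1, Nat.card_prod, Nat.card_eq_fintype_card (α := Fin 4), Fintype.card_fin]
  show Nat.card (ClassGroup (Od (2 * n))) * 4 = 4 * Nat.card (ClassGroup (Od (2 * n)))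
  ring

theorem eqe_genus (n : ℕ) [NeZero n] (hs : Squarefree (2 * n)) (h8 : n % 8 = 1) {v0 : ℤ × ℤ × ℤ}
    (hv0 : OmE n v0) (e : ℕ → ℤ) (he : ∀ p ∈ n.primeFactors, e p = 1 ∨ e p = -1) :
    (GE n v0 e).ncard * 2 ^ n.primeFactors.card =
      4 * Nat.card (ClassGroup (Zsqrtd (-((2 * n : ℕ) : ℤ)))) := by
  classical
  rw [← omE_card n hs h8 hv0, Set.ncard_eq_toFinset_card _ (omE_finite n)]
  set A := (omE_finite n).toFinset
  set P := n.primeFactors with hP
  have hn0 := hv0.omQ.1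
  rw [Finset.card_eq_sum_card_fiberwise (f := fun v => P.filter (fun p => chi p v v0 = -1))
    (t := P.powerset)]
  · rw [Finset.sum_congr rfl (g := fun _ => (GE n v0 e).ncard), Finset.sum_const, smul_eq_mul,
      Finset.card_powerset, mul_comm]
    intro T hT
    have hT1 := Finset.mem_powerset.1 hT
    have h1' : (GE n v0 (sgn T)).ncard = (GE n v0 e).ncard :=
      eqe_eq hs h8 hn0 (sgn T) e (fun p _ => sgn_pm T p) he
    rw [← h1', Set.ncard_eq_toFinset_card _ (GE_finite n v0 _)]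
    congr 1
    ext v
    rw [Finset.mem_filter, Set.Finite.mem_toFinset, Set.Finite.mem_toFinset]
    refine and_congr_right (fun hv => ?_)
    have hv : OmE n v := hv
    constructor
    · intro h p hp
      unfold sgn
      split_ifs with hpT
      · rw [← h] at hpT
        exact (Finset.mem_filter.1 hpT).2
      · have : Fact p.Prime := ⟨Nat.prime_of_mem_primeFactors hp⟩
        rcases chi_pm (pf_ne_two (by omega) hp) (eqe_iso hs hv.omQ.1 hp) (eqe_iso hs hn0 hp)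
          with h2 | h2
        · exact h2
        · exfalso
          apply hpT
          rw [← h]
          exact Finset.mem_filter.2 ⟨hp, h2⟩
    · intro h
      ext p
      rw [Finset.mem_filter]
      constructor
      · rintro ⟨hp, h2⟩
        by_contra hpT
        have := h p hp
        unfold sgn at this
        rw [if_neg hpT, h2] at this
        norm_num at this
      · intro hpT
        refine ⟨hT1 hpT, ?_⟩
        have := h p (hT1 hpT)
        unfold sgn at this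
        rw [if_pos hpT] at this
        exact this
  · intro v _
    show _ ∈ (P.powerset : Finset (Finset ℕ))
    rw [Finset.mem_powerset]
    exact Finset.filter_subset _ _

theorem eqe_mem (n : ℕ) (v : T) :
    v ∈ OE n ↔ v.1 ^ 2 + v.2.1 ^ 2 + v.2.2 ^ 2 = ((2 * n : ℕ) : ℤ) ∧ v.1 % 4 = 0 ∧ v.2.1 % 2 = 1 ∧
      v.2.2 % 2 = 1 := by
  unfold OE sph
  simp only [mem_filter, mem_product, mem_Icc]
  constructor
  · rintro ⟨⟨_, h⟩, h2⟩
    refine ⟨?_, h2⟩
    rw [← h]; unfold dot; ring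
  · rintro ⟨h, h2⟩
    have hb : ∀ t : ℤ, t ^ 2 ≤ ((2 * n : ℕ) : ℤ) → -((2 * n : ℕ) : ℤ) ≤ t ∧ t ≤ ((2 * n : ℕ) : ℤ) := by
      intro t ht
      constructor
      · nlinarith [Int.le_self_sq (-t)]
      · nlinarith [Int.le_self_sq t]
    refine ⟨⟨⟨hb _ ?_, hb _ ?_, hb _ ?_⟩, ?_⟩, h2⟩
    · nlinarith [sq_nonneg v.2.1, sq_nonneg v.2.2]
    · nlinarith [sq_nonneg v.1, sq_nonneg v.2.2]
    · nlinarith [sq_nonneg v.1, sq_nonneg v.2.1]
    · rw [← h]; unfold dot; ring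

theorem eqe_cyc (n : ℕ) (v : T) : v ∈ OE n ↔ OmE n (v.2.1, v.2.2, v.1) := by
  rw [eqe_mem]
  constructor
  · rintro ⟨h1, h2, h3, h4⟩
    exact ⟨⟨rfl, by show v.2.1 ^ 2 + v.2.2 ^ 2 + v.1 ^ 2 = _; rw [← h1]; ring, h3⟩, h4, h2⟩
  · intro h
    have h1 : v.2.1 ^ 2 + v.2.2 ^ 2 + v.1 ^ 2 = ((2 * n : ℕ) : ℤ) := h.sum
    exact ⟨by rw [← h1]; ring, h.fourK, h.odd, h.oddJ⟩

theorem OE_iso (n : ℕ) (hs : Squarefree n) (h2 : n % 2 = 1) (v : T) (hv : v ∈ sph (2 * n)) (p : ℕ)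
    (hp : p ∈ n.primeFactors) : Iso p v := by
  have hs2 : Squarefree (2 * n) := by
    rw [Nat.squarefree_mul_iff]
    exact ⟨(Nat.coprime_two_left).2 (Nat.odd_iff.2 (by omega)), Nat.prime_two.squarefree, hs⟩
  apply eqe_iso hs2 _ hp
  unfold sph at hv
  rw [← (Finset.mem_filter.1 hv).2]
  unfold dot; ring

theorem OE_nonempty (n : ℕ) (h1 : n % 8 = 1) : (OE n).Nonempty := by
  obtain ⟨x, y, z, hxyz⟩ := Lib_helper47.G3.sum_two_squares_add_two n (by omega)
  have h := om2_of h1 x y z hxyz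
  refine ⟨(2 * z, x + y, x - y), ?_⟩
  rw [eqe_cyc]
  exact h

/-- size of a genus of vectors of norm `2n` -/
theorem EQE (n : ℕ) [NeZero n] (hs : Squarefree n) (h1 : n % 8 = 1) (w : T) (hw : w ∈ OE n)
    (e : ℕ → ℤ) (he : ∀ p, e p = 1 ∨ e p = -1) :
    ((OE n).filter (fun v => ∀ p ∈ n.primeFactors, chi p v w = e p)).card *
      2 ^ n.primeFactors.card = 4 * Nat.card (ClassGroup (Zsqrtd (-((2 * n : ℕ) : ℤ)))) := by
  have hs2 : Squarefree (2 * n) := by
    rw [Nat.squarefree_mul_iff]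
    exact ⟨(Nat.coprime_two_left).2 (Nat.odd_iff.2 (by omega)), Nat.prime_two.squarefree, hs⟩
  have hw' := (eqe_cyc n w).1 hw
  rw [← eqe_genus n hs2 h1 hw' e (fun p _ => he p)]
  congr 1
  rw [Set.ncard_eq_toFinset_card _ (GE_finite n _ e)]
  refine Finset.card_bij (fun v _ => (v.2.1, v.2.2, v.1)) ?_ ?_ ?_
  · intro v hv
    rw [Finset.mem_filter] at hv
    rw [Set.Finite.mem_toFinset]
    have hv' := (eqe_cyc n v).1 hv.1
    refine ⟨hv', fun p hp => ?_⟩
    have : Fact p.Prime := ⟨Nat.prime_of_mem_primeFactors hp⟩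
    have hp2 : p ≠ 2 := pf_ne_two (by omega) hp
    have i1 : Iso p v := OE_iso n hs (by omega) v (Finset.mem_filter.1 hv.1).1 p hp
    have i2 : Iso p w := OE_iso n hs (by omega) w (Finset.mem_filter.1 hw).1 p hp
    rw [chi_cyc hp2 i1 (iso_cyc i2), chi_comm i1 (iso_cyc i2), chi_cyc hp2 i2 i1,
      chi_comm i2 i1]
    exact hv.2 p hp
  · rintro ⟨a, b, c⟩ _ ⟨a', b', c'⟩ _ h
    simp only [Prod.mk.injEq] at h
    obtain ⟨rfl, rfl, rfl⟩ := h
    rfl
  · rintro ⟨a, b, c⟩ hv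
    rw [Set.Finite.mem_toFinset] at hv
    obtain ⟨hv1, hv2⟩ := hv
    have hm : (c, a, b) ∈ OE n := (eqe_cyc n (c, a, b)).2 hv1
    refine ⟨(c, a, b), ?_, rfl⟩
    rw [Finset.mem_filter]
    refine ⟨hm, fun p hp => ?_⟩
    have : Fact p.Prime := ⟨Nat.prime_of_mem_primeFactors hp⟩
    have hp2 : p ≠ 2 := pf_ne_two (by omega) hp
    have i1 : Iso p (c, a, b) := OE_iso n hs (by omega) _ (Finset.mem_filter.1 hm).1 p hp
    have i2 : Iso p w := OE_iso n hs (by omega) w (Finset.mem_filter.1 hw).1 p hp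
    rw [← hv2 p hp]
    have e1 : chi p (a, b, c) (w.2.1, w.2.2, w.1) = chi p (c, a, b) (w.2.1, w.2.2, w.1) :=
      chi_cyc hp2 i1 (iso_cyc i2)
    rw [e1, chi_comm i1 (iso_cyc i2), chi_cyc hp2 i2 i1, chi_comm i2 i1]

end Pool.Agent.GNF
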