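import Pool.Agent.Lib_helper7.GNF.D3
import Pool.Agent.Lib_helper7.GNF.P.SY
import Pool.Agent.Lib_helper7.GNF.P.LC
import Pool.Agent.Lib_helper7.GNF.P.TH

set_option autoImplicit false

namespace Pool.Agent.GNF

open Finset Pool.Agent.GEN
open scoped Real

theorem tm3_jac (a : ℤ) (b : ℕ) : |jacobiSym a b| ≤ 1 := by
  rcases jacobiSym.trichotomy a b with h | h | h <;> rw [h] <;> simp

theorem tm3_chi (p : ℕ) (v w : T) : |chi p v w| ≤ 1 := by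
  unfold chi
  split_ifs <;> exact tm3_jac _ _

theorem tm3_Psi (d : ℕ) (u v : T) : |Psi d u v| ≤ 1 := by
  unfold Psi
  rw [Finset.abs_prod]
  refine Finset.prod_le_one (fun p _ => abs_nonneg _) fun p _ => ?_
  unfold psi
  split_ifs
  · exact tm3_chi p v u
  · simp

theorem tm3_c2 (x : ℤ) : ‖c2 x‖ ≤ 1 := by unfold c2; split_ifs <;> simp
theorem tm3_o2 (x : ℤ) : ‖o2 x‖ ≤ 1 := by unfold o2; split_ifs <;> simp
theorem tm3_k2 (x : ℤ) : ‖k2 x‖ ≤ 1 := by unfold k2; split_ifs <;> simp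
theorem tm3_u4 (x : ℤ) : ‖u4 x‖ ≤ 1 := by unfold u4; split_ifs <;> simp
theorem tm3_n4 (x : ℤ) : ‖n4 x‖ ≤ 1 := by unfold n4; split_ifs <;> simp
theorem tm3_od (x : ℤ) : ‖od x‖ ≤ 1 := by unfold od; split_ifs <;> simp
theorem tm3_e8 (x : ℤ) : ‖e8 x‖ ≤ 1 := by unfold e8; split_ifs <;> simp
theorem tm3_bq (x : ℤ) : ‖bq x‖ ≤ 1 := by unfold bq; split_ifs <;> simp
theorem tm3_bb (x : ℤ) : ‖bb x‖ ≤ 1 := by unfold bb; split_ifs <;> simp

theorem tm3_mul {a b c : ℂ} (ha : ‖a‖ ≤ 1) (hb : ‖b‖ ≤ 1) (hc : ‖c‖ ≤ 1) : ‖a * b * c‖ ≤ 1 := by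
  rw [norm_mul, norm_mul]
  exact mul_le_one₀ (mul_le_one₀ ha (norm_nonneg _) hb) (norm_nonneg _) hc

theorem tm3_A (i : Fin 6) (v : T) : ‖A i v‖ ≤ 1 := by
  fin_cases i
  · exact tm3_mul (tm3_o2 _) (tm3_k2 _) (tm3_k2 _)
  · exact tm3_mul (tm3_u4 _) (tm3_c2 _) (tm3_c2 _)
  · exact tm3_mul (tm3_n4 _) (tm3_bq _) (tm3_bq _)
  · exact tm3_mul (tm3_u4 _) (tm3_od _) (tm3_od _)
  · exact tm3_mul (tm3_n4 _) (tm3_bb _) (tm3_bb _)
  · exact tm3_mul (tm3_o2 _) (tm3_e8 _) (tm3_e8 _)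

theorem tm3_AP (d : ℕ) (u : T) (i : Fin 6) (v : T) : ‖AP d u i v‖ ≤ 1 := by
  unfold AP
  rw [norm_mul]
  refine mul_le_one₀ (tm3_A i v) (norm_nonneg _) ?_
  rw [Complex.norm_intCast]
  have h := tm3_Psi d u v
  have h2 : ((|Psi d u v| : ℤ) : ℝ) ≤ ((1 : ℤ) : ℝ) := Int.cast_le.2 h
  rw [Int.cast_abs, Int.cast_one] at h2
  exact h2

theorem tm3_dvd (d : ℕ) (hs : Squarefree d) (u v : T) (i : Fin 6) (h : AP d u i v ≠ 0) :
    (d : ℤ) ∣ dot v v := by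
  have h1 : Psi d u v ≠ 0 := by
    intro h0
    apply h
    unfold AP
    rw [h0]
    simp
  have h2 : ∀ p ∈ d.primeFactors, (p : ℤ) ∣ dot v v := by
    intro p hp
    have h3 : psi p u v ≠ 0 := Finset.prod_ne_zero_iff.1 h1 p hp
    have h4 : Iso p v := by
      by_contra h5
      apply h3
      unfold psi
      rw [if_neg h5]
    exact h4.1
  have h3 : d = ∏ p ∈ d.primeFactors, p := (Nat.prod_primeFactors_of_squarefree hs).symm
  rw [← Int.dvd_natAbs, Int.natCast_dvd_natCast]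
  rw [h3]
  refine Finset.prod_primes_dvd _ (fun p hp => (Nat.prime_of_mem_primeFactors hp).prime) ?_
  intro p hp
  have := h2 p hp
  rwa [← Int.dvd_natAbs, Int.natCast_dvd_natCast] at this

theorem tm3_sd (d : ℕ) : sd d ^ 2 = 1 := by
  unfold sd
  split_ifs <;> norm_num

theorem tm3_one (u : T) (i : Fin 6) : AP 1 u i = A i := by
  funext v
  unfold AP Psi
  simp

/-- the automorphy factor does not vanish -/
theorem tm3_J {τ : ℂ} (hτ : 0 < τ.im) : J τ ≠ 0 := by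
  have h0 : τ ≠ 0 := by
    rintro rfl
    simp at hτ
  unfold J
  intro h
  rw [Complex.cpow_eq_zero_iff] at h
  have h1 : -Complex.I * τ ≠ 0 := mul_ne_zero (neg_ne_zero.2 Complex.I_ne_zero) h0
  exact h1 h.1

theorem tm3_im {τ : ℂ} (hτ : 0 < τ.im) : 0 < (-1 / τ).im := by
  have h0 : τ ≠ 0 := by
    rintro rfl
    simp at hτ
  have h1 : 0 < Complex.normSq τ := Complex.normSq_pos.2 h0
  rw [neg_div, one_div, Complex.neg_im, Complex.inv_im, neg_div, neg_neg]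
  exact div_pos hτ h1

/-- product structure for the first system, with the function `3` -/
theorem TM3 (d : ℕ) (hs : Squarefree d) (h8 : d % 8 = 1) (u : T)
    (hu : ∀ p ∈ d.primeFactors, Iso p u) :
    ∃ κ δ : ℂ, δ ^ 2 = 1 ∧ ∀ N : ℕ,
      (∑ v ∈ sph (d * N), A 5 v * (Psi d u v : ℤ)) = κ * ∑ v ∈ sph N, A 5 v ∧
      (∑ v ∈ sph (d * N), A 3 v * (Psi d u v : ℤ)) = δ * κ * ∑ v ∈ sph N, A 3 v := by
  obtain ⟨δ, hδ, H⟩ := SY d hs h8 u hu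
  obtain ⟨δ₁, hδ₁, H₁⟩ := SY 1 squarefree_one (by norm_num) u (by simp)
  obtain ⟨κ, hκ⟩ := LC _ _ δ₁ (sd 1) δ (sd d) hδ₁ (tm3_sd 1) hδ (tm3_sd d) H₁ H (SY_lead u)
  have hd : 0 < d := Nat.pos_of_ne_zero hs.ne_zero
  have key : ∀ (i : Fin 6) (c : ℂ), (∀ τ : ℂ, 0 < τ.im →
      th (16 * d) (AP d u i) τ = c * th (16 * 1) (AP 1 u i) τ) → ∀ N : ℕ,
      (∑ v ∈ sph (d * N), AP d u i v) = c * ∑ v ∈ sph N, A i v := by
    intro i c hi N
    refine TH d hd (AP d u i) (A i) 1 (tm3_AP d u i) (tm3_A i)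
      (fun v hv => tm3_dvd d hs u v i hv) c ?_ N
    intro τ hτ
    rw [hi τ hτ, tm3_one, Nat.mul_one]
  have h3 : ∀ τ : ℂ, 0 < τ.im →
      th (16 * d) (AP d u 3) τ = (δ * δ₁ * κ) * th (16 * 1) (AP 1 u 3) τ := by
    intro τ hτ
    have a1 : th (16 * d) (AP d u 5) (-1 / τ) =
        δ * cS 5 * J τ ^ 3 * th (16 * d) (AP d u 3) τ := H.S 5 τ hτ
    have a2 : th (16 * 1) (AP 1 u 5) (-1 / τ) =
        δ₁ * cS 5 * J τ ^ 3 * th (16 * 1) (AP 1 u 3) τ := H₁.S 5 τ hτ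
    have a3 : th (16 * d) (AP d u 5) (-1 / τ) = κ * th (16 * 1) (AP 1 u 5) (-1 / τ) :=
      (hκ (-1 / τ) (tm3_im hτ)).2
    rw [a1, a2] at a3
    have hc : cS 5 * J τ ^ 3 ≠ 0 := by
      apply mul_ne_zero
      · have : cS 5 = 1 / 4 := rfl
        rw [this]
        norm_num
      · exact pow_ne_zero _ (tm3_J hτ)
    apply mul_left_cancel₀ hc
    calc cS 5 * J τ ^ 3 * th (16 * d) (AP d u 3) τ
        = δ * (δ * cS 5 * J τ ^ 3 * th (16 * d) (AP d u 3) τ) := by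
          linear_combination (-(cS 5 * J τ ^ 3 * th (16 * d) (AP d u 3) τ)) * hδ
      _ = δ * (κ * (δ₁ * cS 5 * J τ ^ 3 * th (16 * 1) (AP 1 u 3) τ)) := by rw [a3]
      _ = cS 5 * J τ ^ 3 * (δ * δ₁ * κ * th (16 * 1) (AP 1 u 3) τ) := by ring
  refine ⟨κ, δ * δ₁, by rw [mul_pow, hδ, hδ₁, mul_one], fun N => ⟨?_, ?_⟩⟩
  · exact key 5 κ (fun τ hτ => (hκ τ hτ).2) N
  · exact key 3 (δ * δ₁ * κ) h3 N

end Pool.Agent.GNF
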