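import Pool.Agent.Lib_helper7.GNF.D3
import Pool.Agent.Lib_helper7.GNF.P.TM3
import Pool.Agent.Lib_helper7.GNF.P.RA
import Pool.Agent.Lib_helper7.GNF.P.RC
import Pool.Agent.Lib_helper7.GNF.P.KA

set_option autoImplicit false

namespace Pool.Agent.GNF

open Finset Pool.Agent.GEN
open scoped Real

theorem pe_psi1 (u v : T) : Psi 1 u v = 1 := by
  unfold Psi
  rw [Nat.primeFactors_one, Finset.prod_empty]

theorem pe_iso1 (u : T) : ∀ p ∈ (1 : ℕ).primeFactors, Iso p u := by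
  intro p hp
  rw [Nat.primeFactors_one] at hp
  exact absurd hp (Finset.notMem_empty p)

theorem pe_q4 {x : ℤ} (h : q4 x ≠ 0) : x % 4 = 0 := by
  unfold q4 at h
  by_contra h4
  apply h
  rw [if_neg (by omega), if_neg (by omega)]

theorem pe_kap {v : T} (hw : w1 v ≠ 0) : Pool.Agent.GEN.kap v = 1 := by
  have h1 : v.1 % 2 = 1 := by
    by_contra h
    apply hw
    unfold w1
    rw [if_neg h]
  have h2 : q4 v.2.1 * q4 v.2.2 ≠ 0 := by
    intro h
    apply hw
    unfold w1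
    rw [if_pos h1, h]
  have h3 := pe_q4 (left_ne_zero_of_mul h2)
  have h4 := pe_q4 (right_ne_zero_of_mul h2)
  unfold Pool.Agent.GEN.kap
  rw [if_neg]
  rintro (h | h | h) <;> omega

theorem pe_sum1 : ∑ v ∈ sph 1, w1 v = 2 := by
  unfold sph
  rw [Finset.sum_filter]
  rfl

theorem pe_u4 (x : ℤ) : u4 x = ((q4 x : ℤ) : ℂ) := by
  unfold u4 q4
  split_ifs <;> simp

theorem pe_we (v : T) : A 3 v = ((we v : ℤ) : ℂ) := by
  show u4 v.1 * od v.2.1 * od v.2.2 = _
  rw [pe_u4]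
  unfold we od
  by_cases h1 : v.2.1 % 2 = 1
  · by_cases h2 : v.2.2 % 2 = 1
    · simp only [h1, h2, if_true, and_self, mul_one]
    · simp only [h1, h2, if_true, if_false, and_false, mul_zero, Int.cast_zero]
  · simp only [h1, if_false, false_and, mul_zero, zero_mul, Int.cast_zero]

/-- **product formula** for the vectors of norm `2n` -/
theorem PE (d : ℕ) (hs : Squarefree d) (h8 : d % 8 = 1) :
    ∃ e : ℤ, (e = 1 ∨ e = -1) ∧ ∀ m : ℕ,
      2 * ∑ v ∈ sph (2 * (d * m)), we v * kap d v = e * tc d * Ce (2 * m) := by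
  obtain ⟨u, hb⟩ := base_exists d h8
  have hu : ∀ p ∈ d.primeFactors, Iso p u := fun p hp => base_iso d hs u hb p hp
  obtain ⟨κ, δ, hδ, hκ⟩ := TM3 d hs h8 u hu
  -- the multiplier
  have h5 := (hκ 4).1
  have e4 : d * 4 = 4 * d := by ring
  rw [e4, RB d hs h8 u hu d] at h5
  have h5' : ∑ v ∈ sph 4, A 5 v = 2 := by
    have h := RB 1 squarefree_one rfl u (pe_iso1 u) 1
    simp only [pe_psi1, Int.cast_one, mul_one] at h
    rw [pe_sum1] at h
    rw [h]
    norm_num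
  rw [h5'] at h5
  have hsum : ∑ v ∈ sph d, w1 v * kap d v =
      Pool.Agent.GEN.kap u * ∑ v ∈ sph d, w1 v * Psi d u v := by
    rw [Finset.mul_sum]
    apply Finset.sum_congr rfl
    intro v _
    rw [kap_eq d hs h8 u hb v]
    ring
  have hself : ∑ v ∈ sph d, w1 v * kap d v = tc d := by
    rw [← RC1 d h8]
    apply Finset.sum_congr rfl
    intro v hv
    by_cases hw : w1 v = 0
    · rw [hw, zero_mul]
    · rw [kap_self d hs h8 v (Finset.mem_filter.mp hv).2, pe_kap hw, mul_one]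
  have hval : (tc d : ℂ) = 2 * (((Pool.Agent.GEN.kap u : ℤ) : ℂ) * κ) := by
    rw [← hself, hsum, Int.cast_mul, h5]
    ring
  obtain ⟨e, he, hec⟩ : ∃ e : ℤ, (e = 1 ∨ e = -1) ∧ δ = (e : ℂ) := by
    rcases eq_or_eq_neg_of_sq_eq_sq δ 1 (by rw [hδ, one_pow]) with h | h
    · exact ⟨1, Or.inl rfl, by rw [h]; norm_num⟩
    · exact ⟨-1, Or.inr rfl, by rw [h]; norm_num⟩
  refine ⟨e, he, fun m => ?_⟩
  have h3 := (hκ (2 * m)).2
  have e2 : d * (2 * m) = 2 * (d * m) := by ring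
  rw [e2] at h3
  have hL : ∑ v ∈ sph (2 * (d * m)), A 3 v * (Psi d u v : ℤ) =
      ((∑ v ∈ sph (2 * (d * m)), we v * Psi d u v : ℤ) : ℂ) := by
    rw [Int.cast_sum]
    apply Finset.sum_congr rfl
    intro v _
    rw [pe_we, Int.cast_mul]
  have hR : ∑ v ∈ sph (2 * m), A 3 v = ((Ce (2 * m) : ℤ) : ℂ) := by
    unfold Ce
    rw [Int.cast_sum]
    apply Finset.sum_congr rfl
    intro v _
    rw [pe_we]
  rw [hL, hR] at h3
  have hsum3 : ∑ v ∈ sph (2 * (d * m)), we v * kap d v =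
      Pool.Agent.GEN.kap u * ∑ v ∈ sph (2 * (d * m)), we v * Psi d u v := by
    rw [Finset.mul_sum]
    apply Finset.sum_congr rfl
    intro v _
    rw [kap_eq d hs h8 u hb v]
    ring
  have : ((2 * ∑ v ∈ sph (2 * (d * m)), we v * kap d v : ℤ) : ℂ) =
      ((e * tc d * Ce (2 * m) : ℤ) : ℂ) := by
    rw [hsum3, Int.cast_mul, Int.cast_mul, h3, Int.cast_mul, Int.cast_mul, hval, hec]
    push_cast
    ring
  exact_mod_cast this

end Pool.Agent.GNF
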