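import Pool.Agent.Lib_helper7.GNF.D3

set_option autoImplicit false

namespace Pool.Agent.GNF

open Finset Pool.Agent.GEN
open scoped Real

/-- the set `D_2n` as a finite set -/
noncomputable def rd_D (n : ℕ) : Finset T :=
  (Icc (-(n : ℤ)) n ×ˢ Icc (-(n : ℤ)) n ×ˢ Icc (-(n : ℤ)) n).filter
    (fun v => (n : ℤ) = 4 * v.1 ^ 2 + v.2.1 ^ 2 + 8 * v.2.2 ^ 2)

/-- the sign of the last coordinate -/
def rd_sg (z : ℤ) : ℤ := if z % 2 = 0 then 1 else -1

theorem rd_abs {x n : ℤ} (h : x ^ 2 ≤ n) : -n ≤ x ∧ x ≤ n := by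
  have h1 := Int.le_self_sq x
  have h2 := Int.le_self_sq (-x)
  rw [neg_sq] at h2
  constructor <;> linarith

theorem rd_memD {n : ℕ} {v : T} :
    v ∈ rd_D n ↔ (n : ℤ) = 4 * v.1 ^ 2 + v.2.1 ^ 2 + 8 * v.2.2 ^ 2 := by
  unfold rd_D
  rw [mem_filter, mem_product, mem_product, mem_Icc, mem_Icc, mem_Icc]
  constructor
  · exact fun h => h.2
  · intro h
    have h1 := sq_nonneg v.1
    have h2 := sq_nonneg v.2.1
    have h3 := sq_nonneg v.2.2
    exact ⟨⟨rd_abs (by linarith), rd_abs (by linarith), rd_abs (by linarith)⟩, h⟩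

theorem rd_memS {n : ℕ} {v : T} :
    v ∈ sph n ↔ v.1 ^ 2 + v.2.1 ^ 2 + v.2.2 ^ 2 = (n : ℤ) := by
  unfold sph
  rw [mem_filter, mem_product, mem_product, mem_Icc, mem_Icc, mem_Icc]
  have e : dot v v = v.1 ^ 2 + v.2.1 ^ 2 + v.2.2 ^ 2 := by
    unfold dot
    ring
  rw [e]
  constructor
  · exact fun h => h.2
  · intro h
    have h1 := sq_nonneg v.1
    have h2 := sq_nonneg v.2.1
    have h3 := sq_nonneg v.2.2
    exact ⟨⟨rd_abs (by linarith), rd_abs (by linarith), rd_abs (by linarith)⟩, h⟩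

/-- Tunnell's number of `2n` as a signed count of `D_2n` -/
theorem rd_ce (n : ℕ) : ce n = ∑ v ∈ rd_D n, rd_sg v.2.2 := by
  have hB : (N9003ba20.D (2 * n)).ncard = (rd_D n).card := by
    have h : N9003ba20.D (2 * n) = ↑(rd_D n) := by
      ext v
      rw [Finset.mem_coe, rd_memD]
      obtain ⟨x, y, z⟩ := v
      show ((2 * n : ℕ) : ℤ) = 8 * x ^ 2 + 2 * y ^ 2 + 16 * z ^ 2 ↔
        (n : ℤ) = 4 * x ^ 2 + y ^ 2 + 8 * z ^ 2
      push_cast
      constructor <;> intro h <;> linarith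
    rw [h, Set.ncard_coe_finset]
  have hA : (N9003ba20.C (2 * n)).ncard = ((rd_D n).filter (fun v => v.2.2 % 2 = 0)).card := by
    have h : (fun v : T => ((v.1, v.2.1, 2 * v.2.2) : T)) '' N9003ba20.C (2 * n) =
        ↑((rd_D n).filter (fun v => v.2.2 % 2 = 0)) := by
      ext v
      rw [Finset.mem_coe, mem_filter, rd_memD, Set.mem_image]
      constructor
      · rintro ⟨⟨x, y, z⟩, h, rfl⟩
        have h' : ((2 * n : ℕ) : ℤ) = 8 * x ^ 2 + 2 * y ^ 2 + 64 * z ^ 2 := h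
        push_cast at h'
        refine ⟨?_, ?_⟩
        · show (n : ℤ) = 4 * x ^ 2 + y ^ 2 + 8 * (2 * z) ^ 2
          linarith [h', (by ring : (2 * z) ^ 2 = 4 * z ^ 2)]
        · show 2 * z % 2 = 0
          omega
      · obtain ⟨x, y, z⟩ := v
        rintro ⟨h, h2⟩
        have h' : (n : ℤ) = 4 * x ^ 2 + y ^ 2 + 8 * z ^ 2 := h
        have h2' : z % 2 = 0 := h2
        obtain ⟨t, rfl⟩ : ∃ t, z = 2 * t := ⟨z / 2, by omega⟩
        refine ⟨(x, y, t), ?_, rfl⟩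
        show ((2 * n : ℕ) : ℤ) = 8 * x ^ 2 + 2 * y ^ 2 + 64 * t ^ 2
        push_cast
        rw [h']
        ring
    have hinj : Function.Injective (fun v : T => ((v.1, v.2.1, 2 * v.2.2) : T)) := by
      rintro ⟨a, b, c⟩ ⟨a', b', c'⟩ h
      simp only [Prod.mk.injEq] at h ⊢
      refine ⟨h.1, h.2.1, by omega⟩
    rw [← Set.ncard_image_of_injective _ hinj, h, Set.ncard_coe_finset]
  unfold ce
  rw [hA, hB]
  have h1 : ∀ v ∈ rd_D n, rd_sg v.2.2 = 2 * (if v.2.2 % 2 = 0 then 1 else 0) - 1 := by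
    intro v _
    unfold rd_sg
    split_ifs <;> norm_num
  rw [sum_congr rfl h1, sum_sub_distrib, ← mul_sum, sum_boole, sum_const, nsmul_eq_mul, mul_one]

theorem rd_sq8 (x : ℤ) : x % 2 = 1 ∧ x ^ 2 % 8 = 1 ∨ x % 4 = 0 ∧ x ^ 2 % 8 = 0 ∨
    x % 4 = 2 ∧ x ^ 2 % 8 = 4 := by
  have h : x ^ 2 % 8 = (x % 8) ^ 2 % 8 := by rw [pow_two, pow_two, Int.mul_emod]
  have h8 : x % 8 = 0 ∨ x % 8 = 1 ∨ x % 8 = 2 ∨ x % 8 = 3 ∨ x % 8 = 4 ∨ x % 8 = 5 ∨ x % 8 = 6 ∨
      x % 8 = 7 := by omega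
  rcases h8 with e | e | e | e | e | e | e | e <;> rw [e] at h <;> norm_num at h <;> omega

theorem rd_q4 (z : ℤ) : q4 (4 * z) = rd_sg z := by
  unfold q4 rd_sg
  split_ifs <;> first | rfl | (exfalso; omega)

/-- Tunnell's number of `2n` as a sum over the vectors of norm `2n` -/
theorem RD (n : ℕ) (h : n % 8 = 1) : Ce (2 * n) = 2 * ce n := by
  classical
  set f1 : T → T := fun v => (4 * v.2.2, v.2.1 + 2 * v.1, v.2.1 - 2 * v.1) with hf1
  set f2 : T → T := fun v => (4 * v.2.2, v.2.1 + 2 * v.1, -v.2.1 + 2 * v.1) with hf2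
  have i1 : Function.Injective f1 := by
    rintro ⟨a, b, c⟩ ⟨a', b', c'⟩ hh
    simp only [hf1, Prod.mk.injEq] at hh ⊢
    refine ⟨by omega, by omega, by omega⟩
  have i2 : Function.Injective f2 := by
    rintro ⟨a, b, c⟩ ⟨a', b', c'⟩ hh
    simp only [hf2, Prod.mk.injEq] at hh ⊢
    refine ⟨by omega, by omega, by omega⟩
  have hodd : ∀ v ∈ rd_D n, v.2.1 % 2 = 1 := by
    intro v hv
    rw [rd_memD] at hv
    have h2 := rd_sq8 v.2.1
    omega
  have hL : Ce (2 * n) = ∑ v ∈ (sph (2 * n)).filter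
      (fun v => v.1 % 4 = 0 ∧ v.2.1 % 2 = 1 ∧ v.2.2 % 2 = 1), we v := by
    unfold Ce
    symm
    refine sum_filter_of_ne ?_
    intro v _ hne
    by_contra hc
    apply hne
    unfold we q4
    split_ifs <;> first | rfl | (exfalso; omega)
  have hU : (sph (2 * n)).filter (fun v => v.1 % 4 = 0 ∧ v.2.1 % 2 = 1 ∧ v.2.2 % 2 = 1) =
      (rd_D n).image f1 ∪ (rd_D n).image f2 := by
    ext v
    rw [mem_union, mem_image, mem_image, mem_filter, rd_memS]
    obtain ⟨x, y, z⟩ := v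
    constructor
    · rintro ⟨hv, hx, hy, hz⟩
      have hv' : x ^ 2 + y ^ 2 + z ^ 2 = ((2 * n : ℕ) : ℤ) := hv
      push_cast at hv'
      have hx' : x % 4 = 0 := hx
      have hy' : y % 2 = 1 := hy
      have hz' : z % 2 = 1 := hz
      obtain ⟨s, rfl⟩ : ∃ s, x = 4 * s := ⟨x / 4, by omega⟩
      by_cases h4 : (y + z) % 4 = 0
      · right
        obtain ⟨u, hu⟩ : ∃ u, y + z = 4 * u := ⟨(y + z) / 4, by omega⟩
        obtain ⟨t, ht⟩ : ∃ t, y - z = 2 * t := ⟨(y - z) / 2, by omega⟩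
        have e3 : y = t + 2 * u := by omega
        have e4 : z = -t + 2 * u := by omega
        refine ⟨(u, t, s), ?_, ?_⟩
        · rw [rd_memD]
          show (n : ℤ) = 4 * u ^ 2 + t ^ 2 + 8 * s ^ 2
          rw [e3, e4] at hv'
          have e5 : (4 * s) ^ 2 + (t + 2 * u) ^ 2 + (-t + 2 * u) ^ 2 =
            2 * (4 * u ^ 2 + t ^ 2 + 8 * s ^ 2) := by ring
          linarith
        · simp only [hf2, Prod.mk.injEq]
          exact ⟨trivial, e3.symm, e4.symm⟩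
      · left
        obtain ⟨u, hu⟩ : ∃ u, y - z = 4 * u := ⟨(y - z) / 4, by omega⟩
        obtain ⟨t, ht⟩ : ∃ t, y + z = 2 * t := ⟨(y + z) / 2, by omega⟩
        have e3 : y = t + 2 * u := by omega
        have e4 : z = t - 2 * u := by omega
        refine ⟨(u, t, s), ?_, ?_⟩
        · rw [rd_memD]
          show (n : ℤ) = 4 * u ^ 2 + t ^ 2 + 8 * s ^ 2
          rw [e3, e4] at hv'
          have e5 : (4 * s) ^ 2 + (t + 2 * u) ^ 2 + (t - 2 * u) ^ 2 =
            2 * (4 * u ^ 2 + t ^ 2 + 8 * s ^ 2) := by ring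
          linarith
        · simp only [hf1, Prod.mk.injEq]
          exact ⟨trivial, e3.symm, e4.symm⟩
    · rintro (⟨⟨a, b, c⟩, hv, e⟩ | ⟨⟨a, b, c⟩, hv, e⟩)
      · have ho : b % 2 = 1 := hodd _ hv
        rw [rd_memD] at hv
        have hv' : (n : ℤ) = 4 * a ^ 2 + b ^ 2 + 8 * c ^ 2 := hv
        simp only [hf1, Prod.mk.injEq] at e
        obtain ⟨e1, e2, e3⟩ := e
        subst e1 e2 e3
        refine ⟨?_, ?_, ?_, ?_⟩
        · show (4 * c) ^ 2 + (b + 2 * a) ^ 2 + (b - 2 * a) ^ 2 = ((2 * n : ℕ) : ℤ)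
          push_cast
          rw [hv']
          ring
        · show 4 * c % 4 = 0
          omega
        · show (b + 2 * a) % 2 = 1
          omega
        · show (b - 2 * a) % 2 = 1
          omega
      · have ho : b % 2 = 1 := hodd _ hv
        rw [rd_memD] at hv
        have hv' : (n : ℤ) = 4 * a ^ 2 + b ^ 2 + 8 * c ^ 2 := hv
        simp only [hf2, Prod.mk.injEq] at e
        obtain ⟨e1, e2, e3⟩ := e
        subst e1 e2 e3
        refine ⟨?_, ?_, ?_, ?_⟩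
        · show (4 * c) ^ 2 + (b + 2 * a) ^ 2 + (-b + 2 * a) ^ 2 = ((2 * n : ℕ) : ℤ)
          push_cast
          rw [hv']
          ring
        · show 4 * c % 4 = 0
          omega
        · show (b + 2 * a) % 2 = 1
          omega
        · show (-b + 2 * a) % 2 = 1
          omega
  have hD : Disjoint ((rd_D n).image f1) ((rd_D n).image f2) := by
    rw [disjoint_left]
    intro v hv hv'
    rw [mem_image] at hv hv'
    obtain ⟨⟨a, b, c⟩, h1, rfl⟩ := hv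
    obtain ⟨⟨a', b', c'⟩, h2, e⟩ := hv'
    have o1 := hodd _ h1
    have o2 := hodd _ h2
    simp only [hf1, hf2, Prod.mk.injEq] at e o1 o2
    omega
  rw [hL, hU, sum_union hD, sum_image (fun a _ b _ hab => i1 hab),
    sum_image (fun a _ b _ hab => i2 hab), rd_ce, two_mul]
  congr 1
  · refine sum_congr rfl fun v hv => ?_
    have o := hodd v hv
    show (if (v.2.1 + 2 * v.1) % 2 = 1 ∧ (v.2.1 - 2 * v.1) % 2 = 1 then q4 (4 * v.2.2) else 0) = _
    rw [if_pos ⟨by omega, by omega⟩, rd_q4]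
  · refine sum_congr rfl fun v hv => ?_
    have o := hodd v hv
    show (if (v.2.1 + 2 * v.1) % 2 = 1 ∧ (-v.2.1 + 2 * v.1) % 2 = 1 then q4 (4 * v.2.2) else 0) = _
    rw [if_pos ⟨by omega, by omega⟩, rd_q4]

end Pool.Agent.GNF
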