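import Pool.Agent.Lib_helper7.GNF.D3

set_option autoImplicit false

namespace Pool.Agent.GNF

open Finset Pool.Agent.GEN
open scoped Real

theorem xe_mem_sph {n : ℕ} {v : T} : v ∈ sph n ↔ dot v v = n := by
  unfold sph
  rw [mem_filter, mem_product, mem_product, mem_Icc, mem_Icc, mem_Icc]
  constructor
  · exact fun h => h.2
  · intro h
    have key : ∀ x : ℤ, x * x ≤ n → -(n : ℤ) ≤ x ∧ x ≤ n := by
      intro x hx
      have hn : (0 : ℤ) ≤ n := Int.natCast_nonneg n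
      constructor
      · by_contra hc
        rw [not_le] at hc
        nlinarith
      · by_contra hc
        rw [not_le] at hc
        nlinarith
    have h' : v.1 * v.1 + v.2.1 * v.2.1 + v.2.2 * v.2.2 = n := h
    exact ⟨⟨key _ (by nlinarith [mul_self_nonneg v.2.1, mul_self_nonneg v.2.2]),
      key _ (by nlinarith [mul_self_nonneg v.1, mul_self_nonneg v.2.2]),
      key _ (by nlinarith [mul_self_nonneg v.1, mul_self_nonneg v.2.1])⟩, h⟩

theorem xe_van {Om : Finset T} {g : T → ℤ} (e e' : T → T) (h1 : ∀ v ∈ Om, e v ∈ Om)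
    (h2 : ∀ v ∈ Om, e' v ∈ Om) (h3 : ∀ v, e' (e v) = v) (h4 : ∀ v, e (e' v) = v)
    (h5 : ∀ v ∈ Om, g (e v) = - g v) : ∑ v ∈ Om, g v = 0 := by
  have h : ∑ v ∈ Om, g (e v) = ∑ v ∈ Om, g v :=
    Finset.sum_nbij' e e' h1 h2 (fun v _ => h3 v) (fun v _ => h4 v) (fun v _ => rfl)
  rw [Finset.sum_congr rfl h5, Finset.sum_neg_distrib] at h
  linarith

theorem xe_sqf {n : ℕ} (hs : Squarefree n) (hn : n % 2 = 1) : Squarefree (2 * n) := by
  have hc : Nat.Coprime 2 n := by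
    rw [Nat.coprime_two_left]
    exact Nat.odd_iff.2 hn
  rw [Nat.squarefree_mul hc]
  exact ⟨Nat.prime_two.prime.irreducible.squarefree, hs⟩

theorem xe_iso {n p : ℕ} (hs : Squarefree n) (hn : n % 2 = 1) (hp : p ∈ n.primeFactors) {v : T}
    (hv : dot v v = (2 * n : ℕ)) : Iso p v := by
  have : Fact p.Prime := ⟨Nat.prime_of_mem_primeFactors hp⟩
  apply Pool.Agent.GEN.iso_of (xe_sqf hs hn) ((Nat.dvd_of_mem_primeFactors hp).mul_left 2)
  rw [← hv]
  unfold dot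
  ring

theorem xe_prod {n d : ℕ} (hs : Squarefree n) (hn : n % 2 = 1) (hd : d ∣ n) {v v' w : T}
    (hv : dot v v = (2 * n : ℕ)) (hv' : dot v' v' = (2 * n : ℕ))
    (hw : ∀ p ∈ n.primeFactors, Iso p w)
    (a0 a1 a2 a3 : ℤ) (N : ℤ) (hN : ∀ p ∈ d.primeFactors, ¬ (p : ℤ) ∣ N)
    (h1 : v'.1 * N = (a0 ^ 2 - a1 ^ 2 - a2 ^ 2 - a3 ^ 2) * v.1 +
      2 * (a1 * v.1 + a2 * v.2.1 + a3 * v.2.2) * a1 + 2 * a0 * (a2 * v.2.2 - a3 * v.2.1))
    (h2 : v'.2.1 * N = (a0 ^ 2 - a1 ^ 2 - a2 ^ 2 - a3 ^ 2) * v.2.1 +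
      2 * (a1 * v.1 + a2 * v.2.1 + a3 * v.2.2) * a2 + 2 * a0 * (a3 * v.1 - a1 * v.2.2))
    (h3 : v'.2.2 * N = (a0 ^ 2 - a1 ^ 2 - a2 ^ 2 - a3 ^ 2) * v.2.2 +
      2 * (a1 * v.1 + a2 * v.2.1 + a3 * v.2.2) * a3 + 2 * a0 * (a1 * v.2.1 - a2 * v.1)) :
    ∏ p ∈ d.primeFactors, chi p v' w = jacobiSym N d * ∏ p ∈ d.primeFactors, chi p v w := by
  rw [← prod_sym N d (Squarefree.squarefree_of_dvd hd hs), ← Finset.prod_mul_distrib]
  have hn0 : n ≠ 0 := by rintro rfl; simp at hn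
  refine Finset.prod_congr rfl fun p hp => ?_
  have hpn : p ∈ n.primeFactors := Nat.primeFactors_mono hd hn0 hp
  have : Fact p.Prime := ⟨Nat.prime_of_mem_primeFactors hp⟩
  have hp2 : p ≠ 2 := by
    rintro rfl
    have := Nat.dvd_of_mem_primeFactors hpn
    omega
  have i1 := xe_iso hs hn hpn hv
  have i2 := xe_iso hs hn hpn hv'
  rw [← chi_trans hp2 i2 i1 (hw p hpn), chi_comm i2 i1,
    chi_rot hp2 i1 i2 a0 a1 a2 a3 N (hN p hp) h1 h2 h3]

theorem xe_one {d : ℕ} : ∀ p ∈ d.primeFactors, ¬ (p : ℤ) ∣ -1 := by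
  intro p hp h
  have hp1 : Prime (p : ℤ) := Nat.prime_iff_prime_int.1 (Nat.prime_of_mem_primeFactors hp)
  exact hp1.not_dvd_one ((dvd_neg (b := (1 : ℤ))).1 h)

theorem xe_two {d n : ℕ} (hn : n % 2 = 1) (hd : d ∣ n) :
    ∀ p ∈ d.primeFactors, ¬ (p : ℤ) ∣ -2 := by
  intro p hp h
  have : Fact p.Prime := ⟨Nat.prime_of_mem_primeFactors hp⟩
  apply two_nd (p := p) _ ((dvd_neg (b := (2 : ℤ))).1 h)
  rintro rfl
  have := (Nat.dvd_of_mem_primeFactors hp).trans hd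
  omega

/-- exchange of the last two coordinates -/
def xe_tau (v : T) : T := (v.1, v.2.2, v.2.1)

/-- sign change of the second coordinate -/
def xe_R (v : T) : T := (v.1, -v.2.1, v.2.2)

theorem xe_dot_tau (v : T) : dot (xe_tau v) (xe_tau v) = dot v v := by
  unfold dot xe_tau; ring

theorem xe_dot_R (v : T) : dot (xe_R v) (xe_R v) = dot v v := by
  unfold dot xe_R; ring

theorem xe_prod_tau {n d : ℕ} (hs : Squarefree n) (hn : n % 2 = 1) (hd : d ∣ n) {v w : T}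
    (hv : dot v v = (2 * n : ℕ)) (hw : ∀ p ∈ n.primeFactors, Iso p w) :
    ∏ p ∈ d.primeFactors, chi p (xe_tau v) w =
      jacobiSym (-2) d * ∏ p ∈ d.primeFactors, chi p v w := by
  apply xe_prod hs hn hd hv (by rw [xe_dot_tau, hv]) hw 0 0 1 (-1) (-2) (xe_two hn hd) <;>
    · unfold xe_tau; ring

theorem xe_prod_R {n d : ℕ} (hs : Squarefree n) (hn : n % 2 = 1) (hd : d ∣ n) {v w : T}
    (hv : dot v v = (2 * n : ℕ)) (hw : ∀ p ∈ n.primeFactors, Iso p w) :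
    ∏ p ∈ d.primeFactors, chi p (xe_R v) w =
      jacobiSym (-1) d * ∏ p ∈ d.primeFactors, chi p v w := by
  apply xe_prod hs hn hd hv (by rw [xe_dot_R, hv]) hw 0 0 1 0 (-1) xe_one <;>
    · unfold xe_R; ring

theorem xe_j2 {d : ℕ} (h : d % 8 = 5 ∨ d % 8 = 7) : jacobiSym (-2) d = -1 := by
  rw [jacobiSym.at_neg_two (Nat.odd_iff.2 (by omega)), ZMod.χ₈'_nat_eq_if_mod_eight,
    if_neg (by omega), if_neg (by omega)]

theorem xe_j1 {d : ℕ} (h : d % 4 = 3) : jacobiSym (-1) d = -1 := by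
  rw [jacobiSym.at_neg_one (Nat.odd_iff.2 (by omega)), ZMod.χ₄_nat_three_mod_four h]

/-- vanishing by symmetries, norm `2n` -/
theorem XE (n d : ℕ) (hs : Squarefree n) (h1 : n % 8 = 1) (hd : d ∣ n)
    (h8 : d % 8 = 3 ∨ d % 8 = 5 ∨ d % 8 = 7) (w : T) (hw : ∀ p ∈ n.primeFactors, Iso p w) :
    ∑ v ∈ OE n, we v * ∏ p ∈ d.primeFactors, chi p v w = 0 := by
  have hn : n % 2 = 1 := by omega
  have hdv : ∀ v ∈ OE n, dot v v = (2 * n : ℕ) := by
    intro v hv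
    unfold OE at hv
    rw [mem_filter, xe_mem_sph] at hv
    exact hv.1
  by_cases h7 : d % 8 = 5 ∨ d % 8 = 7
  · have hmem : ∀ v ∈ OE n, xe_tau v ∈ OE n := by
      intro v hv
      unfold OE at hv ⊢
      rw [mem_filter, xe_mem_sph] at hv ⊢
      exact ⟨by rw [xe_dot_tau]; exact hv.1, hv.2.1, hv.2.2.2, hv.2.2.1⟩
    apply xe_van xe_tau xe_tau hmem hmem (fun _ => rfl) (fun _ => rfl)
    intro v hv
    rw [xe_prod_tau hs hn hd (hdv v hv) hw, xe_j2 h7]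
    have e : we (xe_tau v) = we v := by
      unfold we xe_tau
      simp only [and_comm]
    rw [e]
    ring
  · have h3 : d % 4 = 3 := by omega
    have hmem : ∀ v ∈ OE n, xe_R v ∈ OE n := by
      intro v hv
      unfold OE at hv ⊢
      rw [mem_filter, xe_mem_sph] at hv ⊢
      refine ⟨by rw [xe_dot_R]; exact hv.1, hv.2.1, ?_, hv.2.2.2⟩
      show (-v.2.1) % 2 = 1
      omega
    have hinv : ∀ v, xe_R (xe_R v) = v := by
      intro v
      show (v.1, -(-v.2.1), v.2.2) = v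
      rw [neg_neg]
    apply xe_van xe_R xe_R hmem hmem hinv hinv
    intro v hv
    rw [xe_prod_R hs hn hd (hdv v hv) hw, xe_j1 h3]
    have e : we (xe_R v) = we v := by
      unfold we xe_R
      have e1 : (-v.2.1) % 2 = 1 ↔ v.2.1 % 2 = 1 := by omega
      simp only [e1]
    rw [e]
    ring

end Pool.Agent.GNF
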