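import Pool.Agent.Lib_helper7.GNF.D3
import Pool.Agent.Lib_helper7.GNF.P.XE
import Pool.Agent.Lib_helper7.GNF.P.PE
import Pool.Agent.Lib_helper7.GNF.P.RD
import Pool.Agent.Lib_helper7.GNF.P.KA
import Pool.Agent.Lib_helper7.GNF.P.EQE

set_option autoImplicit false

namespace Pool.Agent.GNF

open Finset Pool.Agent.GEN
open scoped Real

/-- divisors of a squarefree number as sets of primes -/
theorem xf_div (n : ℕ) (hs : Squarefree n) (F : Finset ℕ → ℤ) :
    ∑ d ∈ n.divisors, F d.primeFactors = ∑ s ∈ n.primeFactors.powerset, F s := by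
  refine Finset.sum_nbij' (fun d => d.primeFactors) (fun s => ∏ p ∈ s, p) ?_ ?_ ?_ ?_ ?_
  · intro d hd
    rw [Nat.mem_divisors] at hd
    rw [Finset.mem_powerset]
    exact Nat.primeFactors_mono hd.1 hd.2
  · intro s h
    rw [Finset.mem_powerset] at h
    rw [Nat.mem_divisors]
    refine ⟨?_, hs.ne_zero⟩
    have h1 := Finset.prod_dvd_prod_of_subset _ _ (fun p => p) h
    rwa [Nat.prod_primeFactors_of_squarefree hs] at h1
  · intro d hd
    rw [Nat.mem_divisors] at hd
    exact Nat.prod_primeFactors_of_squarefree (hs.squarefree_of_dvd hd.1)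
  · intro s h
    rw [Finset.mem_powerset] at h
    exact Nat.primeFactors_prod fun p hp => Nat.prime_of_mem_primeFactors (h hp)
  · intro d _
    rfl

/-- the characteristic function of a genus -/
theorem xf_ind (n : ℕ) (hs : Squarefree n) (e : ℕ → ℤ)
    (he : ∀ p ∈ n.primeFactors, e p = 1 ∨ e p = -1) :
    (2 : ℤ) ^ n.primeFactors.card * (if ∀ p ∈ n.primeFactors, e p = 1 then 1 else 0) =
      ∑ d ∈ n.divisors, ∏ p ∈ d.primeFactors, e p := by
  rw [xf_div n hs (fun s => ∏ p ∈ s, e p), ← Finset.prod_one_add]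
  split_ifs with h
  · rw [mul_one, Finset.prod_congr rfl (fun p hp => by rw [h p hp]), Finset.prod_const]
    norm_num
  · push Not at h
    obtain ⟨p, hp, hp1⟩ := h
    rw [mul_zero, Finset.prod_eq_zero hp]
    rw [(he p hp).resolve_left hp1]
    norm_num

theorem xf_gen (n : ℕ) (hs : Squarefree n) (Om : Finset T) (w : T) (W : T → ℤ)
    (hpm : ∀ v ∈ Om, ∀ p ∈ n.primeFactors, chi p v w = 1 ∨ chi p v w = -1) :
    2 ^ n.primeFactors.card * ∑ v ∈ Ge n Om w, W v =
      ∑ d ∈ n.divisors, ∑ v ∈ Om, W v * ∏ p ∈ d.primeFactors, chi p v w := by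
  rw [Finset.sum_comm, Ge, Finset.sum_filter, Finset.mul_sum]
  refine Finset.sum_congr rfl fun v hv => ?_
  rw [← Finset.mul_sum, ← xf_ind n hs (fun p => chi p v w) (hpm v hv)]
  split_ifs
  · ring
  · ring

theorem xf_odd {n d : ℕ} (hn : n % 2 = 1) (hd : d ∣ n) : d % 2 = 1 := by
  obtain ⟨k, rfl⟩ := hd
  exact Nat.odd_iff.1 (Nat.odd_mul.1 (Nat.odd_iff.2 hn)).1

theorem xf_pm {n : ℕ} (hn : n % 2 = 1) {v w : T} (hv : ∀ p ∈ n.primeFactors, Iso p v)
    (hw : ∀ p ∈ n.primeFactors, Iso p w) (p : ℕ) (hp : p ∈ n.primeFactors) :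
    chi p v w = 1 ∨ chi p v w = -1 := by
  have : Fact p.Prime := ⟨Nat.prime_of_mem_primeFactors hp⟩
  have h2 : p ≠ 2 := by
    rintro rfl
    have := Nat.dvd_of_mem_primeFactors hp
    omega
  exact chi_pm h2 (hv p hp) (hw p hp)

theorem xf_q4 {x : ℤ} (h : q4 x ≠ 0) : x % 4 = 0 := by
  unfold q4 at h
  by_contra h4
  apply h
  rw [if_neg (by omega), if_neg (by omega)]

/-- the support of the weight -/
theorem xf_supp (n : ℕ) (F : T → ℤ) :
    ∑ v ∈ OE n, we v * F v = ∑ v ∈ sph (2 * n), we v * F v := by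
  unfold OE
  refine Finset.sum_subset (Finset.filter_subset _ _) ?_
  intro v hv hv'
  have : we v = 0 := by
    by_contra h
    apply hv'
    rw [Finset.mem_filter]
    unfold we at h
    split_ifs at h with h1
    · exact ⟨hv, xf_q4 h, h1.1, h1.2⟩
    · exact absurd rfl h
  rw [this, zero_mul]

/-- sum over a genus, norm `2n` -/
theorem XF (n : ℕ) (hs : Squarefree n) (h1 : n % 8 = 1) (w : T) (hw : w ∈ OE n) :
    ∃ e : ℕ → ℤ, (∀ d, e d = 1 ∨ e d = -1) ∧
      2 ^ n.primeFactors.card * ∑ v ∈ Ge n (OE n) w, we v =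
        ∑ d ∈ n.divisors.filter (fun d => d % 8 = 1), e d * tc d * ce (n / d) := by
  have hn2 : n % 2 = 1 := by omega
  have hO : ∀ v ∈ OE n, ∀ p ∈ n.primeFactors, Iso p v := fun v hv p hp =>
    OE_iso n hs hn2 v (Finset.mem_filter.1 hv).1 p hp
  have hwI := hO w hw
  have key : ∀ d : ℕ, ∃ e : ℤ, (e = 1 ∨ e = -1) ∧ (d ∣ n → d % 8 = 1 →
      ∑ v ∈ OE n, we v * ∏ p ∈ d.primeFactors, chi p v w = e * tc d * ce (n / d)) := by
    intro d
    by_cases hd : d ∣ n ∧ d % 8 = 1
    · obtain ⟨hdn, hd8⟩ := hd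
      have hsd : Squarefree d := hs.squarefree_of_dvd hdn
      have hsub : d.primeFactors ⊆ n.primeFactors := Nat.primeFactors_mono hdn hs.ne_zero
      obtain ⟨e0, he0, hPE⟩ := PE d hsd hd8
      have hd0 : 0 < d := by omega
      have hnd : d * (n / d) = n := Nat.mul_div_cancel' hdn
      have hm8 : (n / d) % 8 = 1 := by
        have h2 : (d * (n / d)) % 8 = 1 := by rw [hnd, h1]
        rw [Nat.mul_mod, hd8, one_mul, Nat.mod_mod] at h2
        exact h2
      have h3 := hPE (n / d)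
      rw [hnd, RD (n / d) hm8] at h3
      have h4 : ∑ v ∈ sph (2 * n), we v * kap d v = e0 * tc d * ce (n / d) := by
        linarith
      have hk := kap_pm d hsd hd8 w (fun p hp => hwI p (hsub hp))
      refine ⟨kap d w * e0, ?_, fun _ _ => ?_⟩
      · rcases hk with h | h <;> rcases he0 with h' | h' <;> rw [h, h'] <;> norm_num
      · have h5 : ∑ v ∈ OE n, we v * ∏ p ∈ d.primeFactors, chi p v w =
            kap d w * ∑ v ∈ OE n, we v * kap d v := by
          rw [Finset.mul_sum]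
          refine Finset.sum_congr rfl fun v hv => ?_
          rw [← kap_mul d hsd hd8 v w (fun p hp => hO v hv p (hsub hp))
            (fun p hp => hwI p (hsub hp))]
          ring
        rw [h5, xf_supp n (fun v => kap d v), h4]
        ring
    · exact ⟨1, Or.inl rfl, fun h2 h3 => absurd ⟨h2, h3⟩ hd⟩
  choose e he1 he2 using key
  refine ⟨e, he1, ?_⟩
  rw [xf_gen n hs (OE n) w we (fun v hv p hp => xf_pm hn2 (hO v hv) hwI p hp)]
  have hsplit : ∑ d ∈ n.divisors, ∑ v ∈ OE n, we v * ∏ p ∈ d.primeFactors, chi p v w =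
      ∑ d ∈ n.divisors.filter (fun d => d % 8 = 1),
        ∑ v ∈ OE n, we v * ∏ p ∈ d.primeFactors, chi p v w := by
    refine (Finset.sum_subset (Finset.filter_subset _ _) ?_).symm
    intro d hd hd'
    rw [Finset.mem_filter] at hd'
    have h2 : d ∣ n := Nat.dvd_of_mem_divisors hd
    have h3 : d % 2 = 1 := xf_odd hn2 h2
    exact XE n d hs h1 h2 (by
      have : ¬ d % 8 = 1 := fun h => hd' ⟨hd, h⟩
      omega) w hwI
  rw [hsplit]
  refine Finset.sum_congr rfl fun d hd => ?_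
  rw [Finset.mem_filter, Nat.mem_divisors] at hd
  exact he2 d hd.1.1 hd.2

end Pool.Agent.GNF
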