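import Pool.Agent.Lib_helper7.GNF.D3

set_option autoImplicit false

namespace Pool.Agent.GNF

open Finset Pool.Agent.GEN
open scoped Real

theorem yg_half (S : Finset T) (P : T → Prop) [DecidablePred P] (f g : T → T)
    (hf : ∀ v ∈ S, P v → f v ∈ S ∧ ¬ P (f v)) (hg : ∀ v ∈ S, ¬ P v → g v ∈ S ∧ P (g v))
    (hgf : ∀ v, g (f v) = v) (hfg : ∀ v, f (g v) = v) :
    S.card = 2 * (S.filter P).card := by
  have h1 : (S.filter P).card = (S.filter (fun v => ¬ P v)).card := by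
    apply Finset.card_bij' (fun v _ => f v) (fun v _ => g v)
    · intro v hv
      rw [Finset.mem_filter] at hv ⊢
      exact hf v hv.1 hv.2
    · intro v hv
      rw [Finset.mem_filter] at hv ⊢
      exact hg v hv.1 hv.2
    · intro v _
      exact hgf v
    · intro v _
      exact hfg v
  have h2 := Finset.card_filter_add_card_filter_not (s := S) P
  omega

theorem yg_sph (n : ℕ) (v : T) : v ∈ sph n ↔ dot v v = n := by
  unfold sph
  rw [Finset.mem_filter]
  constructor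
  · exact fun h => h.2
  · intro h
    refine ⟨?_, h⟩
    obtain ⟨x, y, z⟩ := v
    simp only [dot] at h
    have key : ∀ a b : ℤ, 0 ≤ b → a * a + b = n → -(n : ℤ) ≤ a ∧ a ≤ n := by
      intro a b hb hab
      constructor
      · by_contra hc
        push Not at hc
        nlinarith [Int.natCast_nonneg n]
      · by_contra hc
        push Not at hc
        nlinarith [Int.natCast_nonneg n]
    have hx := key x (y * y + z * z) (add_nonneg (mul_self_nonneg _) (mul_self_nonneg _)) (by linarith)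
    have hy := key y (x * x + z * z) (add_nonneg (mul_self_nonneg _) (mul_self_nonneg _)) (by linarith)
    have hz := key z (x * x + y * y) (add_nonneg (mul_self_nonneg _) (mul_self_nonneg _)) (by linarith)
    simp only [Finset.mem_product, Finset.mem_Icc]
    exact ⟨hx, hy, hz⟩

theorem yg_iso (n : ℕ) (hs : Squarefree n) (hn : n % 2 = 1) (v : T)
    (hv : dot v v = (2 * n : ℕ)) (p : ℕ) (hp : p ∈ n.primeFactors) : Iso p v := by
  have hpp : p.Prime := Nat.prime_of_mem_primeFactors hp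
  have hpn : p ∣ n := Nat.dvd_of_mem_primeFactors hp
  have hc : Nat.Coprime 2 n := by
    rw [Nat.coprime_two_left]
    exact Nat.odd_iff.2 hn
  have hs2 : Squarefree (2 * n) := by
    rw [Nat.squarefree_mul hc]
    exact ⟨Nat.prime_two.prime.irreducible.squarefree, hs⟩
  refine ⟨?_, ?_⟩
  · rw [hv]
    exact_mod_cast hpn.mul_left 2
  · rintro ⟨⟨a, ha⟩, ⟨b, hb⟩, ⟨c, hc⟩⟩
    have h1 : ((2 * n : ℕ) : ℤ) = p * p * (a * a + b * b + c * c) := by
      rw [← hv]
      unfold dot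
      rw [ha, hb, hc]
      ring
    have h2 : ((p * p : ℕ) : ℤ) ∣ ((2 * n : ℕ) : ℤ) := ⟨a * a + b * b + c * c, by
      push_cast at h1 ⊢; exact h1⟩
    have h3 : p * p ∣ 2 * n := by exact_mod_cast h2
    have h4 := hs2 p h3
    exact hpp.one_lt.ne' (Nat.isUnit_iff.1 h4)

theorem yg_two {n : ℕ} (hn : n % 2 = 1) {p : ℕ} (hp : p ∈ n.primeFactors) : p ≠ 2 := by
  rintro rfl
  have := Nat.dvd_of_mem_primeFactors hp
  omega

/-- rotation by a quaternion whose norm is a square modulo `p` keeps the genus -/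
theorem yg_ge {n : ℕ} (hs : Squarefree n) (hn : n % 2 = 1) {Om : Finset T} {w : T}
    (hOm : ∀ v ∈ Om, dot v v = (2 * n : ℕ)) (hw : dot w w = (2 * n : ℕ)) {v v' : T}
    (hv : v ∈ Ge n Om w) (hv' : v' ∈ Om) (h : ∀ p ∈ n.primeFactors, chi p v' v = 1) :
    v' ∈ Ge n Om w := by
  unfold Ge at hv ⊢
  rw [Finset.mem_filter] at hv ⊢
  refine ⟨hv', fun p hp => ?_⟩
  have : Fact p.Prime := ⟨Nat.prime_of_mem_primeFactors hp⟩
  rw [← chi_trans (yg_two hn hp) (yg_iso n hs hn v' (hOm v' hv') p hp)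
    (yg_iso n hs hn v (hOm v hv.1) p hp) (yg_iso n hs hn w hw p hp), h p hp, hv.2 p hp]
  norm_num

theorem yg_mem (n : ℕ) (x y z : ℤ) :
    ((x, y, z) : T) ∈ OE n ↔ x * x + y * y + z * z = (2 * n : ℕ) ∧ x % 4 = 0 ∧ y % 2 = 1 ∧
      z % 2 = 1 := by
  unfold OE
  rw [Finset.mem_filter, yg_sph]
  simp only [dot]

/-- the negative weights in a genus, norm `2n` -/
theorem YG (n : ℕ) (hs : Squarefree n) (h1 : n % 8 = 1) (w : T) (hw : w ∈ OE n) :
    4 ∣ ((Ge n (OE n) w).filter (fun v => we v = -1)).card := by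
  have hn : n % 2 = 1 := by omega
  have hOm : ∀ v ∈ OE n, dot v v = (2 * n : ℕ) := by
    intro v hv
    unfold OE at hv
    rw [Finset.mem_filter, yg_sph] at hv
    exact hv.1
  have hww := hOm w hw
  have iso : ∀ v ∈ OE n, ∀ p ∈ n.primeFactors, Iso p v := fun v hv p hp =>
    yg_iso n hs hn v (hOm v hv) p hp
  have ge : ∀ v ∈ Ge n (OE n) w, v ∈ OE n := fun v hv => by
    unfold Ge at hv; exact (Finset.mem_filter.1 hv).1
  have m3 : ∀ x y z : ℤ, ((x, y, z) : T) ∈ Ge n (OE n) w → ((x, -y, -z) : T) ∈ Ge n (OE n) w := by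
    intro x y z hv
    have hv0 := ge _ hv
    have hv1 := (yg_mem n x y z).1 hv0
    have hv' : ((x, -y, -z) : T) ∈ OE n := by
      rw [yg_mem]
      exact ⟨by linarith [hv1.1], hv1.2.1, by omega, by omega⟩
    refine yg_ge hs hn hOm hww hv hv' (fun p hp => ?_)
    have : Fact p.Prime := ⟨Nat.prime_of_mem_primeFactors hp⟩
    have hp1 : ¬ (p : ℤ) ∣ 1 := (Nat.prime_iff_prime_int.1 (Fact.out : p.Prime)).not_dvd_one
    rw [chi_rot (yg_two hn hp) (iso _ hv' p hp) (iso _ hv0 p hp) 0 1 0 0 1 hp1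
      (by ring) (by ring) (by ring)]
    exact jacobiSym.one_left p
  have m4 : ∀ x y z : ℤ, ((x, y, z) : T) ∈ Ge n (OE n) w → ((-x, -y, z) : T) ∈ Ge n (OE n) w := by
    intro x y z hv
    have hv0 := ge _ hv
    have hv1 := (yg_mem n x y z).1 hv0
    have hv' : ((-x, -y, z) : T) ∈ OE n := by
      rw [yg_mem]
      exact ⟨by linarith [hv1.1], by omega, by omega, hv1.2.2.2⟩
    refine yg_ge hs hn hOm hww hv hv' (fun p hp => ?_)
    have : Fact p.Prime := ⟨Nat.prime_of_mem_primeFactors hp⟩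
    have hp1 : ¬ (p : ℤ) ∣ 1 := (Nat.prime_iff_prime_int.1 (Fact.out : p.Prime)).not_dvd_one
    rw [chi_rot (yg_two hn hp) (iso _ hv' p hp) (iso _ hv0 p hp) 0 0 0 1 1 hp1
      (by ring) (by ring) (by ring)]
    exact jacobiSym.one_left p
  have wt : ∀ x y z : ℤ, ((x, y, z) : T) ∈ Ge n (OE n) w → we ((x, y, z) : T) = q4 x := by
    intro x y z hv
    have h := (yg_mem n x y z).1 (ge _ hv)
    unfold we
    rw [if_pos ⟨h.2.2.1, h.2.2.2⟩]
  have qn : ∀ x : ℤ, q4 (-x) = q4 x := by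
    intro x
    unfold q4
    split_ifs <;> first | rfl | (exfalso; omega)
  have q0 : ∀ x : ℤ, q4 x = -1 → x ≠ 0 := by
    rintro x hx rfl
    revert hx
    decide
  set S := (Ge n (OE n) w).filter (fun v => we v = -1) with hS
  have memS : ∀ x y z : ℤ, ((x, y, z) : T) ∈ S ↔
      ((x, y, z) : T) ∈ Ge n (OE n) w ∧ q4 x = -1 := by
    intro x y z
    rw [hS, Finset.mem_filter]
    constructor
    · rintro ⟨h1, h2⟩
      exact ⟨h1, by rw [← wt x y z h1]; exact h2⟩
    · rintro ⟨h1, h2⟩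
      exact ⟨h1, by rw [wt x y z h1]; exact h2⟩
  have c2 : S.card = 2 * (S.filter (fun v : T => 0 < v.1)).card := by
    apply yg_half S _ (fun v => (-v.1, -v.2.1, v.2.2)) (fun v => (-v.1, -v.2.1, v.2.2))
    · rintro ⟨x, y, z⟩ hv hP
      rw [memS] at hv
      simp only at hP ⊢
      rw [memS, qn]
      exact ⟨⟨m4 _ _ _ hv.1, hv.2⟩, by omega⟩
    · rintro ⟨x, y, z⟩ hv hP
      rw [memS] at hv
      have := q0 x hv.2
      simp only at hP ⊢
      rw [memS, qn]
      exact ⟨⟨m4 _ _ _ hv.1, hv.2⟩, by omega⟩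
    · rintro ⟨x, y, z⟩; simp
    · rintro ⟨x, y, z⟩; simp
  set S2 := S.filter (fun v : T => 0 < v.1) with hS2
  have memS2 : ∀ x y z : ℤ, ((x, y, z) : T) ∈ S2 ↔
      ((x, y, z) : T) ∈ Ge n (OE n) w ∧ q4 x = -1 ∧ 0 < x := by
    intro x y z
    rw [hS2, Finset.mem_filter, memS]
    simp only
    tauto
  have c3 : S2.card = 2 * (S2.filter (fun v : T => 0 < v.2.1)).card := by
    apply yg_half S2 _ (fun v => (v.1, -v.2.1, -v.2.2)) (fun v => (v.1, -v.2.1, -v.2.2))
    · rintro ⟨x, y, z⟩ hv hP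
      rw [memS2] at hv
      simp only at hP ⊢
      rw [memS2]
      exact ⟨⟨m3 _ _ _ hv.1, hv.2⟩, by omega⟩
    · rintro ⟨x, y, z⟩ hv hP
      rw [memS2] at hv
      have := ((yg_mem n x y z).1 (ge _ hv.1)).2.2.1
      simp only at hP ⊢
      rw [memS2]
      exact ⟨⟨m3 _ _ _ hv.1, hv.2⟩, by omega⟩
    · rintro ⟨x, y, z⟩; simp
    · rintro ⟨x, y, z⟩; simp
  rw [c2, c3]
  exact ⟨_, by ring⟩

end Pool.Agent.GNF
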