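import Pool.Agent.Lib_helper7.GNF.D3
import Pool.Agent.Lib_helper7.GNF.P.XF
import Pool.Agent.Lib_helper7.GNF.P.YG
import Pool.Agent.Lib_helper7.GNF.P.DV
import Pool.Agent.Lib_helper7.GNF.P.EQE

set_option autoImplicit false

namespace Pool.Agent.GNF

open Finset Pool.Agent.GEN
open scoped Real

/-- a sum of signs -/
theorem ee_sum (s : Finset T) (W : T → ℤ) (h : ∀ v ∈ s, W v = 1 ∨ W v = -1) :
    ∑ v ∈ s, W v = s.card - 2 * ((s.filter (fun v => W v = -1)).card : ℤ) := by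
  have h1 : ∀ v ∈ s, W v = 1 - 2 * (if W v = -1 then (1 : ℤ) else 0) := by
    intro v hv
    rcases h v hv with h2 | h2
    · rw [h2]; norm_num
    · rw [h2]; norm_num
  rw [Finset.sum_congr rfl h1, Finset.sum_sub_distrib, ← Finset.mul_sum, Finset.sum_boole]
  simp

theorem ee_we {n : ℕ} {v : T} (hv : v ∈ OE n) : we v = 1 ∨ we v = -1 := by
  obtain ⟨ha, hb, hc⟩ := (Finset.mem_filter.1 hv).2
  unfold we
  rw [if_pos ⟨hb, hc⟩]
  unfold q4
  by_cases h1 : v.1 % 8 = 0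
  · left; rw [if_pos h1]
  · right; rw [if_neg h1, if_pos (by omega)]

theorem ee_pf {n d m : ℕ} (hs : Squarefree n) (h : n = d * m) :
    n.primeFactors.card = d.primeFactors.card + m.primeFactors.card := by
  have hc : d.Coprime m := Nat.coprime_of_squarefree_mul (by rw [← h]; exact hs)
  rw [h, Nat.Coprime.primeFactors_mul hc, Finset.card_union_of_disjoint hc.disjoint_primeFactors]

theorem ee_term {n d : ℕ} (hs : Squarefree n) (h1 : n % 8 = 1) (hd : d ∣ n) (h8 : d % 8 = 1) :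
    (2 : ℤ) ^ (n.primeFactors.card + 2) ∣ tc d * ce (n / d) := by
  obtain ⟨m, hm⟩ := hd
  have hd0 : 0 < d := by omega
  have hnd : n / d = m := by
    rw [hm]; exact Nat.mul_div_cancel_left m hd0
  have hm8 : m % 8 = 1 := by
    rw [hm, Nat.mul_mod, h8] at h1
    omega
  have hsd : Squarefree d := hs.squarefree_of_dvd ⟨m, hm⟩
  have hsm : Squarefree m := hs.squarefree_of_dvd ⟨d, by rw [hm, mul_comm]⟩
  rw [hnd, ee_pf hs hm]
  have e : (2 : ℤ) ^ (d.primeFactors.card + m.primeFactors.card + 2) =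
      2 ^ (d.primeFactors.card + 1) * 2 ^ (m.primeFactors.card + 1) := by ring
  rw [e]
  exact mul_dvd_mul (DV d hsd (Or.inl h8)) (DVe m hsm hm8)

/-- **genus formula for the mixed products** -/
theorem EE (n : ℕ) [NeZero n] (hs : Squarefree n) (h1 : n % 8 = 1) :
    (∑ d ∈ n.divisors.filter (fun d => d % 8 = 1), tc d * ce (n / d)) ≡
      4 * (Nat.card (ClassGroup (Zsqrtd (-((2 * n : ℕ) : ℤ)))) : ℤ)
      [ZMOD 2 ^ (n.primeFactors.card + 3)] := by
  obtain ⟨w, hw⟩ := OE_nonempty n h1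
  obtain ⟨e, he, hXF⟩ := XF n hs h1 w hw
  have hcard := EQE n hs h1 w hw (fun _ => 1) (fun _ => Or.inl rfl)
  have hcard' : ((Ge n (OE n) w).card : ℤ) * 2 ^ n.primeFactors.card =
      4 * (Nat.card (ClassGroup (Zsqrtd (-((2 * n : ℕ) : ℤ)))) : ℤ) := by exact_mod_cast hcard
  have hpm : ∀ v ∈ Ge n (OE n) w, we v = 1 ∨ we v = -1 := fun v hv =>
    ee_we (Finset.mem_filter.1 hv).1
  rw [ee_sum _ _ hpm] at hXF
  obtain ⟨m, hm⟩ := YG n hs h1 w hw
  rw [hm] at hXF
  have hA : (∑ d ∈ n.divisors.filter (fun d => d % 8 = 1), tc d * ce (n / d)) ≡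
      (∑ d ∈ n.divisors.filter (fun d => d % 8 = 1), e d * tc d * ce (n / d))
      [ZMOD 2 ^ (n.primeFactors.card + 3)] := by
    refine Int.ModEq.sum fun d hd => ?_
    rw [Finset.mem_filter, Nat.mem_divisors] at hd
    obtain ⟨k, hk⟩ := ee_term hs h1 hd.1.1 hd.2
    rw [mul_assoc, hk]
    rcases he d with h2 | h2
    · rw [h2, one_mul]
    · rw [h2, Int.modEq_iff_dvd]
      refine ⟨-k, ?_⟩
      have e3 : (2 : ℤ) ^ (n.primeFactors.card + 3) = 2 * 2 ^ (n.primeFactors.card + 2) := by ring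
      rw [e3]
      ring
  refine hA.trans ?_
  rw [← hXF, Int.modEq_iff_dvd]
  refine ⟨m, ?_⟩
  have e3 : (2 : ℤ) ^ (n.primeFactors.card + 3) = 8 * 2 ^ n.primeFactors.card := by ring
  rw [e3, ← hcard']
  push_cast
  ring

end Pool.Agent.GNF
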