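import Pool.Agent.Lib_helper7.GNF.D3
import Pool.Agent.Lib_helper7.GNF.P.XG
import Pool.Agent.Lib_helper7.GNF.P.XC
import Pool.Agent.Lib_helper7.GNF.P.EQ
import Pool.Agent.Lib_helper7.GNF.P.RE

set_option autoImplicit false

namespace Pool.Agent.GNF

open Finset Pool.Agent.GEN
open scoped Real

theorem rr_half (S : Finset T) (P : T → Prop) [DecidablePred P] (f g : T → T)
    (hf : ∀ v ∈ S, P v → f v ∈ S ∧ ¬ P (f v)) (hg : ∀ v ∈ S, ¬ P v → g v ∈ S ∧ P (g v))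
    (hgf : ∀ v, g (f v) = v) (hfg : ∀ v, f (g v) = v) :
    S.card = 2 * (S.filter P).card := by
  have h1 : (S.filter P).card = (S.filter (fun v => ¬ P v)).card := by
    apply Finset.card_bij' (fun v _ => f v) (fun v _ => g v)
    · intro v hv
      rw [Finset.mem_filter] at hv ⊢
      exact hf v hv.1 hv.2
    · intro v hv
      rw [Finset.mem_filter] at hv ⊢
      exact hg v hv.1 hv.2
    · intro v _
      exact hgf v
    · intro v _
      exact hfg v
  have h2 := Finset.card_filter_add_card_filter_not (s := S) P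
  omega

theorem rr_sph (n : ℕ) (v : T) : v ∈ sph n ↔ dot v v = n := by
  unfold sph
  rw [Finset.mem_filter]
  constructor
  · exact fun h => h.2
  · intro h
    refine ⟨?_, h⟩
    obtain ⟨x, y, z⟩ := v
    simp only [dot] at h
    have key : ∀ a b : ℤ, 0 ≤ b → a * a + b = n → -(n : ℤ) ≤ a ∧ a ≤ n := by
      intro a b hb hab
      constructor
      · by_contra hc
        push Not at hc
        nlinarith [Int.natCast_nonneg n]
      · by_contra hc
        push Not at hc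
        nlinarith [Int.natCast_nonneg n]
    have hx := key x (y * y + z * z) (add_nonneg (mul_self_nonneg _) (mul_self_nonneg _)) (by linarith)
    have hy := key y (x * x + z * z) (add_nonneg (mul_self_nonneg _) (mul_self_nonneg _)) (by linarith)
    have hz := key z (x * x + y * y) (add_nonneg (mul_self_nonneg _) (mul_self_nonneg _)) (by linarith)
    simp only [Finset.mem_product, Finset.mem_Icc]
    exact ⟨hx, hy, hz⟩

theorem rr_iso (n : ℕ) (hs : Squarefree n) (v : T) (hv : dot v v = n) (p : ℕ)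
    (hp : p ∈ n.primeFactors) : Iso p v := by
  have hpp : p.Prime := Nat.prime_of_mem_primeFactors hp
  have hpn : p ∣ n := Nat.dvd_of_mem_primeFactors hp
  refine ⟨?_, ?_⟩
  · rw [hv]
    exact_mod_cast hpn
  · rintro ⟨⟨a, ha⟩, ⟨b, hb⟩, ⟨c, hc⟩⟩
    have h1 : (n : ℤ) = p * p * (a * a + b * b + c * c) := by
      rw [← hv]
      unfold dot
      rw [ha, hb, hc]
      ring
    have h2 : ((p * p : ℕ) : ℤ) ∣ (n : ℤ) := ⟨a * a + b * b + c * c, by push_cast; exact h1⟩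
    have h3 : p * p ∣ n := by exact_mod_cast h2
    have h4 := hs p h3
    exact hpp.one_lt.ne' (Nat.isUnit_iff.1 h4)

theorem rr_two {n : ℕ} (hn : n % 2 = 1) {p : ℕ} (hp : p ∈ n.primeFactors) : p ≠ 2 := by
  rintro rfl
  have := Nat.dvd_of_mem_primeFactors hp
  omega

theorem rr_ge {n : ℕ} (hs : Squarefree n) (hn : n % 2 = 1) {Om : Finset T} {w : T}
    (hOm : ∀ v ∈ Om, dot v v = n) (hw : dot w w = n) {v v' : T} (hv : v ∈ Ge n Om w)
    (hv' : v' ∈ Om) (h : ∀ p ∈ n.primeFactors, chi p v' v = 1) : v' ∈ Ge n Om w := by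
  unfold Ge at hv ⊢
  rw [Finset.mem_filter] at hv ⊢
  refine ⟨hv', fun p hp => ?_⟩
  have : Fact p.Prime := ⟨Nat.prime_of_mem_primeFactors hp⟩
  rw [← chi_trans (rr_two hn hp) (rr_iso n hs v' (hOm v' hv') p hp)
    (rr_iso n hs v (hOm v hv.1) p hp) (rr_iso n hs w hw p hp), h p hp, hv.2 p hp]
  norm_num

theorem rr_mem (n : ℕ) (x y z : ℤ) :
    ((x, y, z) : T) ∈ OQ n ↔ x * x + y * y + z * z = n ∧ x % 4 = 1 ∧ y % 4 = 0 ∧ z % 4 = 0 := by
  unfold OQ
  rw [Finset.mem_filter, rr_sph]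
  simp only [dot]

theorem rr_OQ (n : ℕ) (v : T) (hv : v ∈ OQ n) : dot v v = n := by
  unfold OQ at hv
  rw [Finset.mem_filter, rr_sph] at hv
  exact hv.1

theorem rr_Ge {n : ℕ} {Om : Finset T} {w v : T} (hv : v ∈ Ge n Om w) : v ∈ Om := by
  unfold Ge at hv
  exact (Finset.mem_filter.1 hv).1

theorem rr_neg {n : ℕ} (hs : Squarefree n) (h1 : n % 8 = 1) {w : T} (hw : w ∈ OQ n) (x y z : ℤ)
    (hv : ((x, y, z) : T) ∈ Ge n (OQ n) w) : ((x, -y, -z) : T) ∈ Ge n (OQ n) w := by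
  have hn : n % 2 = 1 := by omega
  have hv0 := rr_Ge hv
  have hv1 := (rr_mem n x y z).1 hv0
  have hv' : ((x, -y, -z) : T) ∈ OQ n := by
    rw [rr_mem]
    refine ⟨by linarith [hv1.1], hv1.2.1, ?_, ?_⟩
    · have := hv1.2.2.1
      omega
    · have := hv1.2.2.2
      omega
  refine rr_ge hs hn (rr_OQ n) (rr_OQ n w hw) hv hv' (fun p hp => ?_)
  have : Fact p.Prime := ⟨Nat.prime_of_mem_primeFactors hp⟩
  have hp1 : ¬ (p : ℤ) ∣ 1 := (Nat.prime_iff_prime_int.1 (Fact.out : p.Prime)).not_dvd_one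
  rw [chi_rot (rr_two hn hp) (rr_iso n hs _ (rr_OQ n _ hv') p hp) (rr_iso n hs _ (rr_OQ n _ hv0) p hp)
    0 1 0 0 1 hp1 (by ring) (by ring) (by ring)]
  exact jacobiSym.one_left p

theorem rr_memS {n : ℕ} {w : T} (x y z : ℤ) :
    ((x, y, z) : T) ∈ (Ge n (OQ n) w).filter (fun v => v.2.1 % 8 = 4 ∧ v.2.2 % 8 = 4) ↔
      ((x, y, z) : T) ∈ Ge n (OQ n) w ∧ (y % 8 = 4 ∧ z % 8 = 4) := by
  rw [Finset.mem_filter]

/-- the number of the vectors of a genus with `b` and `c` odd is even -/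
theorem rr_even (n : ℕ) (hs : Squarefree n) (h1 : n % 8 = 1) (w : T) (hw : w ∈ OQ n) :
    2 ∣ ((Ge n (OQ n) w).filter (fun v => v.2.1 % 8 = 4 ∧ v.2.2 % 8 = 4)).card := by
  rw [rr_half _ (fun v : T => 0 < v.2.1)
    (fun v => (v.1, -v.2.1, -v.2.2)) (fun v => (v.1, -v.2.1, -v.2.2))]
  · exact ⟨_, rfl⟩
  · rintro ⟨x, y, z⟩ hv hP
    rw [rr_memS] at hv
    simp only at hP ⊢
    rw [rr_memS]
    refine ⟨⟨rr_neg hs h1 hw x y z hv.1, ?_⟩, ?_⟩
    · have := hv.2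
      omega
    · have := hv.2
      omega
  · rintro ⟨x, y, z⟩ hv hP
    rw [rr_memS] at hv
    simp only at hP ⊢
    rw [rr_memS]
    refine ⟨⟨rr_neg hs h1 hw x y z hv.1, ?_⟩, ?_⟩
    · have := hv.2
      omega
    · have := hv.2
      omega
  · rintro ⟨x, y, z⟩; simp
  · rintro ⟨x, y, z⟩; simp

theorem rr_pt {n : ℕ} {v : T} (hv : v ∈ OQ n) :
    w1 v + 1 = (q4 v.2.1 + q4 v.2.2) +
      4 * (if v.2.1 % 8 = 4 ∧ v.2.2 % 8 = 4 then (1 : ℤ) else 0) := by
  obtain ⟨ha, hb, hc⟩ := (Finset.mem_filter.1 hv).2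
  have hx : v.1 % 2 = 1 := by omega
  have hy : v.2.1 % 8 = 0 ∨ v.2.1 % 8 = 4 := by omega
  have hz : v.2.2 % 8 = 0 ∨ v.2.2 % 8 = 4 := by omega
  unfold w1
  rcases hy with hy | hy <;> rcases hz with hz | hz <;> simp [q4, hx, hy, hz]

theorem rr_sn (a b : ℕ) (ha : a % 8 = 1) (hb : b % 8 = 1) : sn (a * b) = sn a * sn b := by
  have h1 : a % 16 = 1 ∨ a % 16 = 9 := by omega
  have h2 : b % 16 = 1 ∨ b % 16 = 9 := by omega
  unfold sn
  rcases h1 with h1 | h1 <;> rcases h2 with h2 | h2 <;> simp [Nat.mul_mod, h1, h2]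

theorem rr_sn_sq (a : ℕ) : sn a * sn a = 1 := by
  unfold sn
  split_ifs <;> norm_num

theorem rr_cb (n d : ℕ) (hn : n % 8 = 1) (hd : d ∣ n) (h8 : d % 8 = 1) :
    cb d * cb (n / d) = sn n * (ce d * ce (n / d)) := by
  obtain ⟨m, hm⟩ := hd
  have hd0 : 0 < d := by omega
  have hnd : n / d = m := by
    rw [hm]; exact Nat.mul_div_cancel_left m hd0
  have hm8 : m % 8 = 1 := by
    rw [hm, Nat.mul_mod, h8] at hn
    omega
  rw [hnd, RE d h8, RE m hm8, hm, rr_sn d m h8 hm8]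
  have e1 := rr_sn_sq d
  have e2 := rr_sn_sq m
  linear_combination (-(cb d * cb m) * (sn m * sn m)) * e1 - (cb d * cb m) * e2

theorem rr_pc {n : ℕ} (hn : 1 < n) : 1 ≤ n.primeFactors.card := by
  rw [Nat.one_le_iff_ne_zero, Ne, Finset.card_eq_zero, Nat.primeFactors_eq_empty]
  omega

/-- **the relation between the Tunnell numbers of `n` and `2n`** in every genus -/
theorem RR (n : ℕ) [NeZero n] (hn : 1 < n) (hs : Squarefree n) (h1 : n % 8 = 1) (w : T)
    (hw : w ∈ OQ n) :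
    (∑ d ∈ n.divisors.filter (fun d => d % 8 = 1),
      kap d w * (tc d * tc (n / d) - 2 * sn n * (ce d * ce (n / d)))) ≡
      -8 * (Nat.card (ClassGroup (Zsqrtd (-(n : ℤ)))) : ℤ) [ZMOD 2 ^ (n.primeFactors.card + 5)] := by
  have hY := YC n hs h1 w hw
  have hX := XG n hs h1 w hw
  have hcard := EQ1 n hn hs h1 w hw (fun _ => 1) (fun _ => Or.inl rfl) (by simp)
  have hcard' : ((Ge n (OQ n) w).card : ℤ) * 2 ^ (n.primeFactors.card - 1) =
      (Nat.card (ClassGroup (Zsqrtd (-(n : ℤ)))) : ℤ) := by exact_mod_cast hcard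
  have hsum : (∑ v ∈ Ge n (OQ n) w, w1 v) + ((Ge n (OQ n) w).card : ℤ) =
      ∑ v ∈ Ge n (OQ n) w, (q4 v.2.1 + q4 v.2.2) +
        4 * (((Ge n (OQ n) w).filter (fun v => v.2.1 % 8 = 4 ∧ v.2.2 % 8 = 4)).card : ℤ) := by
    have h2 : ∑ v ∈ Ge n (OQ n) w, (w1 v + 1) = ∑ v ∈ Ge n (OQ n) w, ((q4 v.2.1 + q4 v.2.2) +
        4 * (if v.2.1 % 8 = 4 ∧ v.2.2 % 8 = 4 then (1 : ℤ) else 0)) :=
      Finset.sum_congr rfl fun v hv => rr_pt (rr_Ge hv)
    rw [Finset.sum_add_distrib, Finset.sum_add_distrib, ← Finset.mul_sum, Finset.sum_boole] at h2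
    simpa using h2
  obtain ⟨m, hm⟩ := rr_even n hs h1 w hw
  rw [hm] at hsum
  push_cast at hsum
  have hcb : ∑ d ∈ n.divisors.filter (fun d => d % 8 = 1), kap d w * cb d * cb (n / d) =
      sn n * ∑ d ∈ n.divisors.filter (fun d => d % 8 = 1), kap d w * (ce d * ce (n / d)) := by
    rw [Finset.mul_sum]
    refine Finset.sum_congr rfl fun d hd => ?_
    rw [Finset.mem_filter, Nat.mem_divisors] at hd
    rw [mul_assoc, rr_cb n d h1 hd.1.1 hd.2]
    ring
  have hL : ∑ d ∈ n.divisors.filter (fun d => d % 8 = 1),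
      kap d w * (tc d * tc (n / d) - 2 * sn n * (ce d * ce (n / d))) =
      ∑ d ∈ n.divisors.filter (fun d => d % 8 = 1), kap d w * tc d * tc (n / d) -
      2 * (sn n * ∑ d ∈ n.divisors.filter (fun d => d % 8 = 1), kap d w * (ce d * ce (n / d))) := by
    rw [Finset.mul_sum, Finset.mul_sum, ← Finset.sum_sub_distrib]
    refine Finset.sum_congr rfl fun d _ => ?_
    ring
  rw [hL, ← hcb, ← hY, ← hX]
  obtain ⟨k, hk'⟩ := Nat.exists_eq_add_of_le (rr_pc hn)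
  rw [hk', Nat.add_sub_cancel_left] at hcard'
  rw [hk', Int.modEq_iff_dvd]
  refine ⟨-m, ?_⟩
  have e1 : (2 : ℤ) ^ (1 + k + 5) = 64 * 2 ^ k := by ring
  have e2 : (2 : ℤ) ^ (1 + k) = 2 * 2 ^ k := by ring
  rw [e1, e2, ← hcard']
  linear_combination (-8 * (2 : ℤ) ^ k) * hsum

end Pool.Agent.GNF
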