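import Pool.Agent.Lib_helper7.GNF.D3
import Pool.Agent.Lib_helper7.GNF.P.RR
import Pool.Agent.Lib_helper7.GNF.P.EE
import Pool.Agent.Lib_helper7.GNF.P.CF
import Pool.Agent.Lib_helper7.GNF.P.FIN

set_option autoImplicit false

namespace Pool.Agent.GNF

open Finset Pool.Agent.GEN

/-- sums over the divisors `1 mod 8` in pairs -/
theorem rs_pair (n : ℕ) (hn : 1 < n) (hs : Squarefree n) (h1 : n % 8 = 1) (f : ℕ → ℤ) :
    ∑ d ∈ n.divisors.filter (fun d => d % 8 = 1), f d =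
      ∑ d ∈ n.divisors.filter (fun d => d % 8 = 1 ∧ d * d < n), (f d + f (n / d)) := by
  have hn0 : n ≠ 0 := by omega
  have key : ∀ d, d ∣ n → d % 8 = 1 → n / d % 8 = 1 := by
    intro d hd h8
    obtain ⟨m, rfl⟩ := hd
    have hd0 : 0 < d := Nat.pos_of_ne_zero (by rintro rfl; simp at hn0)
    rw [Nat.mul_div_cancel_left _ hd0]
    have : d * m % 8 = (d % 8) * (m % 8) % 8 := Nat.mul_mod _ _ _
    rw [h1, h8, one_mul] at this
    omega
  have hne : ∀ d, d * d ≠ n := by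
    intro d hd
    have : d * d ∣ n := by rw [hd]
    have h := hs d this
    rw [Nat.isUnit_iff] at h
    subst h
    omega
  rw [Finset.sum_add_distrib]
  have h2 : ∑ d ∈ n.divisors.filter (fun d => d % 8 = 1 ∧ d * d < n), f (n / d) =
      ∑ d ∈ n.divisors.filter (fun d => d % 8 = 1 ∧ n < d * d), f d := by
    refine Finset.sum_bij (fun d _ => n / d) ?_ ?_ ?_ ?_
    · intro d hd
      simp only [mem_filter, Nat.mem_divisors] at hd ⊢
      obtain ⟨⟨hd, _⟩, h8, hlt⟩ := hd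
      refine ⟨⟨Nat.div_dvd_of_dvd hd, hn0⟩, key d hd h8, ?_⟩
      obtain ⟨m, rfl⟩ := hd
      have hd0 : 0 < d := Nat.pos_of_ne_zero (by rintro rfl; simp at hn0)
      rw [Nat.mul_div_cancel_left _ hd0]
      have : d < m := lt_of_mul_lt_mul_left hlt (Nat.zero_le _)
      exact Nat.mul_lt_mul_of_pos_right this (by omega)
    · intro a ha b hb hab
      simp only [mem_filter, Nat.mem_divisors] at ha hb
      have h3 : n / a = n / b := hab
      have ha' := Nat.div_mul_cancel ha.1.1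
      have hb' := Nat.div_mul_cancel hb.1.1
      rw [h3] at ha'
      have hpos : 0 < n / b := Nat.div_pos (Nat.le_of_dvd (by omega) hb.1.1) (Nat.pos_of_dvd_of_pos hb.1.1 (by omega))
      exact Nat.eq_of_mul_eq_mul_left hpos (ha'.trans hb'.symm)
    · intro b hb
      simp only [mem_filter, Nat.mem_divisors] at hb
      obtain ⟨⟨hb, _⟩, h8, hlt⟩ := hb
      refine ⟨n / b, ?_, Nat.div_div_self hb hn0⟩
      simp only [mem_filter, Nat.mem_divisors]
      refine ⟨⟨Nat.div_dvd_of_dvd hb, hn0⟩, key b hb h8, ?_⟩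
      obtain ⟨m, rfl⟩ := hb
      have hb0 : 0 < b := Nat.pos_of_ne_zero (by rintro rfl; simp at hn0)
      rw [Nat.mul_div_cancel_left _ hb0]
      have : m < b := lt_of_mul_lt_mul_left hlt (Nat.zero_le _)
      have hm0 : 0 < m := Nat.pos_of_ne_zero (by rintro rfl; simp at hn0)
      exact Nat.mul_lt_mul_of_pos_right this hm0
    · intro d hd
      rfl
  rw [h2, ← Finset.sum_union]
  · apply Finset.sum_congr _ (fun _ _ => rfl)
    ext d
    simp only [mem_filter, mem_union, Nat.mem_divisors]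
    constructor
    · rintro ⟨h, h8⟩
      rcases lt_trichotomy (d * d) n with h3 | h3 | h3
      · exact Or.inl ⟨h, h8, h3⟩
      · exact absurd h3 (hne d)
      · exact Or.inr ⟨h, h8, h3⟩
    · rintro (⟨h, h8, _⟩ | ⟨h, h8, _⟩) <;> exact ⟨h, h8⟩
  · rw [Finset.disjoint_filter]
    rintro d _ ⟨_, h3⟩ ⟨_, h4⟩
    omega

/-- number of prime factors of complementary divisors -/
theorem rs_card (n d : ℕ) (hs : Squarefree n) (hd : d ∣ n) :
    d.primeFactors.card + (n / d).primeFactors.card = n.primeFactors.card := by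
  obtain ⟨m, rfl⟩ := hd
  have h0 : d * m ≠ 0 := hs.ne_zero
  have hd0 : 0 < d := Nat.pos_of_ne_zero (by rintro rfl; simp at h0)
  rw [Nat.mul_div_cancel_left _ hd0]
  have hc : Nat.Coprime d m := Nat.coprime_of_squarefree_mul hs
  rw [hc.primeFactors_mul, Finset.card_union_of_disjoint hc.disjoint_primeFactors]

/-- the characters of complementary divisors agree -/
theorem rs_kap (n d : ℕ) (hs : Squarefree n) (h1 : n % 8 = 1) (w : T) (hw : w ∈ OQ n) (hd : d ∣ n)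
    (h8 : d % 8 = 1) : kap (n / d) w = kap d w ∧ (kap d w = 1 ∨ kap d w = -1) := by
  unfold OQ sph at hw
  simp only [mem_filter] at hw
  obtain ⟨⟨_, hnrm⟩, hw1, hw2, hw3⟩ := hw
  have hiso : ∀ p ∈ n.primeFactors, Iso p w := base_iso n hs w hnrm
  have hkn : kap n w = 1 := by
    rw [kap_self n hs h1 w hnrm, Pool.Agent.GEN.kap, if_neg (by omega)]
  obtain ⟨m, rfl⟩ := hd
  have h0 : d * m ≠ 0 := hs.ne_zero
  have hd0 : 0 < d := Nat.pos_of_ne_zero (by rintro rfl; simp at h0)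
  rw [Nat.mul_div_cancel_left _ hd0]
  have hm8 : m % 8 = 1 := by
    have : d * m % 8 = (d % 8) * (m % 8) % 8 := Nat.mul_mod _ _ _
    rw [h1, h8, one_mul] at this
    omega
  have hsd : Squarefree d := hs.squarefree_of_dvd (Dvd.intro _ rfl)
  have key := CF 1 d m (by rw [one_mul]; exact hs) (by rw [one_mul]; exact h8)
    (by rw [one_mul]; exact hm8) h1 w (by rw [one_mul]; exact hiso)
  rw [one_mul, one_mul, hkn, mul_one, jacobiSym.one_right] at key
  have hpm := kap_pm d hsd h8 w (fun p hp => hiso p (Nat.primeFactors_mono ⟨m, rfl⟩ h0 hp))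
  refine ⟨?_, hpm⟩
  rcases hpm with h | h <;> rw [h] at key ⊢ <;> linarith

/-- parity bookkeeping -/
theorem rs_arith (a X Y e Z s : ℤ) (hs : s = 1 ∨ s = -1)
    (hX : X - 2 * s * Y ≡ -a [ZMOD 4]) (hZ : Z ≡ X + Y + e [ZMOD 2]) :
    X ≡ a + 2 * e + 2 * Z [ZMOD 4] := by
  unfold Int.ModEq at *
  rcases hs with rfl | rfl <;> omega

/-- **closed form of the second digit**, `n = 1 mod 8` -/
theorem RS (n : ℕ) [NeZero n] [NeZero (2 * n)] (hn : 1 < n) (hs : Squarefree n) (h1 : n % 8 = 1) (w : T)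
    (hw : w ∈ OQ n) :
    (∑ d ∈ n.divisors.filter (fun d => d % 8 = 1), kap d w * tc d * tc (n / d)) ≡
      8 * (Nat.card (ClassGroup (Zsqrtd (-(n : ℤ)))) : ℤ) +
      16 * (Nat.card (ClassGroup (Zsqrtd (-((2 * n : ℕ) : ℤ)))) : ℤ) +
      2 * ∑ d ∈ n.divisors.filter (fun d => d % 8 = 1), (tc d + ce d) * (tc (n / d) + ce (n / d))
      [ZMOD 2 ^ (n.primeFactors.card + 5)] := by
  have hn0 : n ≠ 0 := by omega
  have hR := RR n hn hs h1 w hw
  have hF := FINw1 n hn hs h1 w hw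
  have hE := EE n hs h1
  generalize (Nat.card (ClassGroup (Zsqrtd (-(n : ℤ)))) : ℤ) = h at hR hF ⊢
  generalize (Nat.card (ClassGroup (Zsqrtd (-((2 * n : ℕ) : ℤ)))) : ℤ) = h' at hE ⊢
  have hx : ∀ d, ∃ x y : ℤ, d ∣ n → d % 8 = 1 →
      tc d = 2 ^ (d.primeFactors.card + 1) * x ∧ ce d = 2 ^ (d.primeFactors.card + 1) * y := by
    intro d
    by_cases hd : d ∣ n ∧ d % 8 = 1
    · obtain ⟨x, hx⟩ := DV d (hs.squarefree_of_dvd hd.1) (Or.inl hd.2)
      obtain ⟨y, hy⟩ := DVe d (hs.squarefree_of_dvd hd.1) hd.2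
      exact ⟨x, y, fun _ _ => ⟨hx, hy⟩⟩
    · exact ⟨0, 0, fun h3 h4 => absurd ⟨h3, h4⟩ hd⟩
  choose x y hxy using hx
  set W := n.primeFactors.card with hW
  set D := n.divisors.filter (fun d => d % 8 = 1 ∧ d * d < n) with hD
  have hmem : ∀ d ∈ D, d ∣ n ∧ d % 8 = 1 ∧ n / d ∣ n ∧ n / d % 8 = 1 ∧ n / (n / d) = d ∧
      d.primeFactors.card + (n / d).primeFactors.card = W := by
    intro d hd
    rw [hD, Finset.mem_filter, Nat.mem_divisors] at hd
    obtain ⟨⟨hd1, _⟩, hd2, _⟩ := hd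
    refine ⟨hd1, hd2, Nat.div_dvd_of_dvd hd1, ?_, Nat.div_div_self hd1 hn0, rs_card n d hs hd1⟩
    obtain ⟨m, rfl⟩ := hd1
    have hd0 : 0 < d := Nat.pos_of_ne_zero (by rintro rfl; simp at hn0)
    rw [Nat.mul_div_cancel_left _ hd0]
    have : d * m % 8 = (d % 8) * (m % 8) % 8 := Nat.mul_mod _ _ _
    rw [h1, hd2, one_mul] at this
    omega
  have hpow : ∀ a b : ℕ, a + b = W → (2 : ℤ) ^ (a + 1) * 2 ^ (b + 1) = 4 * 2 ^ W := by
    intro a b hab
    rw [← hab]
    ring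
  -- the three sums
  have e1 : ∑ d ∈ n.divisors.filter (fun d => d % 8 = 1), kap d w * tc d * tc (n / d) =
      8 * 2 ^ W * ∑ d ∈ D, kap d w * (x d * x (n / d)) := by
    rw [rs_pair n hn hs h1, Finset.mul_sum]
    refine Finset.sum_congr rfl fun d hd => ?_
    obtain ⟨h3, h4, h5, h6, h7, h8⟩ := hmem d hd
    rw [h7, (rs_kap n d hs h1 w hw h3 h4).1, (hxy d h3 h4).1, (hxy _ h5 h6).1]
    linear_combination (2 * kap d w * x d * x (n / d)) * hpow _ _ h8
  have e2 : ∑ d ∈ n.divisors.filter (fun d => d % 8 = 1), kap d w * (ce d * ce (n / d)) =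
      8 * 2 ^ W * ∑ d ∈ D, kap d w * (y d * y (n / d)) := by
    rw [rs_pair n hn hs h1, Finset.mul_sum]
    refine Finset.sum_congr rfl fun d hd => ?_
    obtain ⟨h3, h4, h5, h6, h7, h8⟩ := hmem d hd
    rw [h7, (rs_kap n d hs h1 w hw h3 h4).1, (hxy d h3 h4).2, (hxy _ h5 h6).2]
    linear_combination (2 * kap d w * y d * y (n / d)) * hpow _ _ h8
  have e3 : ∑ d ∈ n.divisors.filter (fun d => d % 8 = 1), tc d * ce (n / d) =
      4 * 2 ^ W * ∑ d ∈ D, (x d * y (n / d) + x (n / d) * y d) := by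
    rw [rs_pair n hn hs h1, Finset.mul_sum]
    refine Finset.sum_congr rfl fun d hd => ?_
    obtain ⟨h3, h4, h5, h6, h7, h8⟩ := hmem d hd
    rw [h7, (hxy d h3 h4).1, (hxy _ h5 h6).1, (hxy d h3 h4).2, (hxy _ h5 h6).2]
    linear_combination (x d * y (n / d) + x (n / d) * y d) * hpow _ _ h8
  have e4 : ∑ d ∈ n.divisors.filter (fun d => d % 8 = 1), (tc d + ce d) * (tc (n / d) + ce (n / d)) =
      8 * 2 ^ W * ∑ d ∈ D, ((x d + y d) * (x (n / d) + y (n / d))) := by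
    rw [rs_pair n hn hs h1, Finset.mul_sum]
    refine Finset.sum_congr rfl fun d hd => ?_
    obtain ⟨h3, h4, h5, h6, h7, h8⟩ := hmem d hd
    rw [h7, (hxy d h3 h4).1, (hxy _ h5 h6).1, (hxy d h3 h4).2, (hxy _ h5 h6).2]
    linear_combination (2 * (x d + y d) * (x (n / d) + y (n / d))) * hpow _ _ h8
  have e5 : ∑ d ∈ n.divisors.filter (fun d => d % 8 = 1),
      kap d w * (tc d * tc (n / d) - 2 * sn n * (ce d * ce (n / d))) =
      8 * 2 ^ W * (∑ d ∈ D, kap d w * (x d * x (n / d)) - 2 * sn n * ∑ d ∈ D, kap d w * (y d * y (n / d))) := by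
    have : ∑ d ∈ n.divisors.filter (fun d => d % 8 = 1),
        kap d w * (tc d * tc (n / d) - 2 * sn n * (ce d * ce (n / d))) =
        ∑ d ∈ n.divisors.filter (fun d => d % 8 = 1), kap d w * tc d * tc (n / d) -
        2 * sn n * ∑ d ∈ n.divisors.filter (fun d => d % 8 = 1), kap d w * (ce d * ce (n / d)) := by
      rw [Finset.mul_sum, ← Finset.sum_sub_distrib]
      exact Finset.sum_congr rfl fun d _ => by ring
    rw [this, e1, e2]
    ring
  rw [e5] at hR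
  rw [e1] at hF ⊢
  rw [e3] at hE
  rw [e4]
  have hZ : (∑ d ∈ D, ((x d + y d) * (x (n / d) + y (n / d)))) ≡
      (∑ d ∈ D, kap d w * (x d * x (n / d))) + (∑ d ∈ D, kap d w * (y d * y (n / d))) +
      (∑ d ∈ D, (x d * y (n / d) + x (n / d) * y d)) [ZMOD 2] := by
    rw [← Finset.sum_add_distrib, ← Finset.sum_add_distrib, Int.modEq_iff_dvd, ← Finset.sum_sub_distrib]
    refine Finset.dvd_sum fun d hd => ?_
    obtain ⟨h3, h4, _⟩ := hmem d hd
    rcases (rs_kap n d hs h1 w hw h3 h4).2 with h | h <;> rw [h]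
    · exact ⟨0, by ring⟩
    · exact ⟨-(x d * x (n / d) + y d * y (n / d)), by ring⟩
  generalize (∑ d ∈ D, kap d w * (x d * x (n / d))) = X at *
  generalize (∑ d ∈ D, kap d w * (y d * y (n / d))) = Y at *
  generalize (∑ d ∈ D, (x d * y (n / d) + x (n / d) * y d)) = E at *
  generalize (∑ d ∈ D, ((x d + y d) * (x (n / d) + y (n / d)))) = Z at *
  have p0 : (0 : ℤ) < 2 ^ W := by positivity
  have p3 : (2 : ℤ) ^ (W + 3) = 8 * 2 ^ W := by ring
  have p4 : (2 : ℤ) ^ (W + 4) = 16 * 2 ^ W := by ring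
  have p5 : (2 : ℤ) ^ (W + 5) = 32 * 2 ^ W := by ring
  rw [p3] at hE
  rw [p4] at hF
  rw [p5] at hR ⊢
  rw [Int.modEq_iff_dvd] at hE hF hR
  obtain ⟨u, hu⟩ := hE
  obtain ⟨v, hv⟩ := hF
  obtain ⟨t, ht⟩ := hR
  -- `8 h = 8 * 2 ^ W * a`, `4 h' = 4 * 2 ^ W * e`
  have ha : 8 * h = 8 * 2 ^ W * (X + 2 * v) := by linear_combination hv
  have he : 4 * h' = 4 * 2 ^ W * (E + 2 * u) := by linear_combination hu
  have hs' : sn n = 1 ∨ sn n = -1 := by
    unfold sn
    split <;> simp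
  have hX : X - 2 * sn n * Y ≡ -(X + 2 * v) [ZMOD 4] := by
    rw [Int.modEq_iff_dvd]
    refine ⟨t, ?_⟩
    have h8 : (8 * (2 : ℤ) ^ W) ≠ 0 := by positivity
    apply mul_left_cancel₀ h8
    linear_combination ht + ha
  have hZ' : Z ≡ X + Y + (E + 2 * u) [ZMOD 2] := by
    refine hZ.trans ?_
    rw [Int.modEq_iff_dvd]
    exact ⟨u, by ring⟩
  have key := rs_arith (X + 2 * v) X Y (E + 2 * u) Z (sn n) hs' hX hZ'
  rw [Int.modEq_iff_dvd] at key ⊢
  obtain ⟨k, hk⟩ := key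
  refine ⟨k, ?_⟩
  linear_combination ha + 4 * he + 8 * 2 ^ W * hk

end Pool.Agent.GNF
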